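import Mathlib

/-!
# Definitions for the splittability theorem (holomorphic maps of discriminant complements)

`Inj n` is the space of ordered configurations of `n` distinct complex numbers, `coef x` the vector of
the lower coefficients of `prod (X - x_j)`. A `Dat k n` is a holomorphic map
from unordered `k`-configurations (mod translations) to centred unordered `n`-configurations,
given as a symmetric map `F` on ordered configurations.
-/

open Polynomial Complex Set Filter Topology

namespace MP2d36f7

/-- ordered configurations of `n` distinct complex numbers -/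
def Inj (n : ℕ) : Set (Fin n → ℂ) := {x | Function.Injective x}

/-- the lower coefficients of `∏ (X - x_j)` -/
noncomputable def coef {n : ℕ} (x : Fin n → ℂ) : Fin n → ℂ :=
  fun i => (∏ j, (X - C (x j)) : ℂ[X]).coeff i

/-- the discriminant as a function of the roots -/
noncomputable def dsc {n : ℕ} (x : Fin n → ℂ) : ℂ :=
  ∏ p, ∏ q, if p < q then (x p - x q) ^ 2 else 1

/-- a holomorphic map from (unordered, up to translation) `k`-configurations to centred unordered
`n`-configurations, as a symmetric map on ordered configurations -/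
structure Dat (k n : ℕ) where
  F : (Fin k → ℂ) → (Fin n → ℂ)
  hol : DifferentiableOn ℂ F (Inj k)
  reg : ∀ x ∈ Inj k, ∃ l ∈ Inj n, coef l = F x
  sum0 : ∀ x ∈ Inj k, ∀ l : Fin n → ℂ, coef l = F x → ∑ i, l i = 0
  symm : ∀ x ∈ Inj k, ∀ σ : Equiv.Perm (Fin k), F (x ∘ σ) = F x
  trans : ∀ x ∈ Inj k, ∀ a : ℂ, F (fun i => x i + a) = F x

/-- `l` is a continuous choice, on the set `S`, of the ordered roots of the polynomial `F (x y)` -/
structure IsLiftOn {k n : ℕ} (d : Dat k n) {D : Type*} [TopologicalSpace D] (S : Set D)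
    (x : D → Fin k → ℂ) (l : D → Fin n → ℂ) : Prop where
  cont : ContinuousOn l S
  eq : ∀ y ∈ S, coef (l y) = d.F (x y)

/-- global version of `IsLiftOn` -/
structure IsLift {k n : ℕ} (d : Dat k n) {D : Type*} [TopologicalSpace D]
    (x : D → Fin k → ℂ) (l : D → Fin n → ℂ) : Prop where
  cont : Continuous l
  eq : ∀ y, coef (l y) = d.F (x y)

/-- The winding of a nowhere zero continuous `u : ℝ → ℂ` between `a` and `b`:
`(L b - L a) / (2 π i)` for a continuous logarithm `L` of `u` (a complex number, an integer when
`u a = u b`). -/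
noncomputable def wnd (u : ℝ → ℂ) (a b : ℝ) : ℂ :=
  open Classical in
  if h : ∃ L : ℝ → ℂ, Continuous L ∧ ∀ t, exp (L t) = u t then
    (h.choose b - h.choose a) / (2 * Real.pi * I) else 0

/-- winding of the difference `l p - l q` over `n!` periods -/
noncomputable def V {n : ℕ} (l : ℝ → Fin n → ℂ) (p q : Fin n) : ℂ :=
  wnd (fun t => l t p - l t q) 0 (n.factorial : ℝ)

/-- the ratio `(l_p - l_q) / (l_r - l_q)`; for distinct `p q r` and injective `l` it avoids `0` and `1` -/
noncomputable def R {n : ℕ} (l : Fin n → ℂ) (p q r : Fin n) : ℂ := (l p - l q) / (l r - l q)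

/-- The loop `x` (of period `1` modulo permutations) is shape-trivial: over `n!` periods all
the windings of the root differences agree. -/
def Triv {k n : ℕ} (d : Dat k n) (x : ℝ → Fin k → ℂ) : Prop :=
  ∀ l, IsLift d x l → ∀ p q r s : Fin n, p ≠ q → r ≠ s → V l p q = V l r s

/-- base configuration `(0, 1, ..., k-1)` -/
def x0 (k : ℕ) : Fin k → ℂ := fun i => ((i : ℕ) : ℂ)

/-- half twist exchanging the points `m` and `m+1` of the base configuration, `t ∈ [0,1]` -/
noncomputable def tw (k m : ℕ) (t : ℝ) : Fin k → ℂ := fun i =>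
  if (i : ℕ) = m then (m : ℂ) + 1 / 2 - 1 / 2 * exp (Real.pi * I * t)
  else if (i : ℕ) = m + 1 then (m : ℂ) + 1 / 2 + 1 / 2 * exp (Real.pi * I * t)
  else ((i : ℕ) : ℂ)

/-- rotation of the first `j` points of the base configuration about `0`, `t ∈ [0,1]` is a full turn -/
noncomputable def rot (k j : ℕ) (t : ℝ) : Fin k → ℂ := fun i =>
  if (i : ℕ) < j then exp (2 * Real.pi * I * t) * ((i : ℕ) : ℂ) else ((i : ℕ) : ℂ)

/-- conclusion of the rigidity part: along all paths the root configuration only gets scaled -/
def ShapeConst {k n : ℕ} (d : Dat k n) : Prop :=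
  ∀ x : ℝ → Fin k → ℂ, Continuous x → (∀ t, x t ∈ Inj k) → ∀ l, IsLift d x l →
    ∀ t, ∃ χ : ℂ, χ ≠ 0 ∧ l t = χ • l 0

end MP2d36f7
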