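import Mathlib
import Pool.Agent.Lib_MP_2d36f7_ag.Defs

/-!
# The coefficient map of the roots

Permutations, the inverse function theorem for the coefficient map, the covering property on
configurations of distinct points, and the discriminant as a function of the roots.
-/

open Polynomial Complex Set Filter Topology

namespace MP2d36f7

variable {k n : ℕ}

/-- the monic polynomial with roots `x` -/
noncomputable def rootPoly (x : Fin n → ℂ) : ℂ[X] := ∏ j, (X - C (x j))

theorem rootPoly_monic (x : Fin n → ℂ) : (rootPoly x).Monic :=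
  monic_prod_of_monic _ _ fun _ _ => monic_X_sub_C _

theorem rootPoly_natDegree (x : Fin n → ℂ) : (rootPoly x).natDegree = n := by
  simp [rootPoly, natDegree_finsetProd_X_sub_C_eq_card]

theorem rootPoly_roots (x : Fin n → ℂ) : (rootPoly x).roots = Finset.univ.val.map x := by
  rw [rootPoly]
  exact roots_multiset_prod_X_sub_C (Finset.univ.val.map x) |> fun h => by
    simpa [Finset.prod, Multiset.map_map, Function.comp_def] using h

theorem rootPoly_perm (x : Fin n → ℂ) (σ : Equiv.Perm (Fin n)) :
    rootPoly (x ∘ σ) = rootPoly x := by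
  unfold rootPoly
  exact Equiv.prod_comp σ (fun j => (X - C (x j)))

theorem coef_perm (x : Fin n → ℂ) (σ : Equiv.Perm (Fin n)) : coef (x ∘ σ) = coef x := by
  funext i
  have := congrArg (fun p : ℂ[X] => p.coeff (i : ℕ)) (rootPoly_perm x σ)
  exact this

theorem rootPoly_eq_of_coef_eq {x y : Fin n → ℂ} (h : coef x = coef y) :
    rootPoly x = rootPoly y := by
  ext i
  rcases lt_trichotomy i n with hi | hi | hi
  · exact congrFun h ⟨i, hi⟩
  · have h1 := (rootPoly_monic x).coeff_natDegree
    have h2 := (rootPoly_monic y).coeff_natDegree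
    rw [rootPoly_natDegree] at h1 h2
    rw [hi, h1, h2]
  · rw [coeff_eq_zero_of_natDegree_lt (by rw [rootPoly_natDegree]; exact hi),
      coeff_eq_zero_of_natDegree_lt (by rw [rootPoly_natDegree]; exact hi)]

theorem exists_perm_of_coef_eq {x y : Fin n → ℂ} (h : coef x = coef y) :
    ∃ σ : Equiv.Perm (Fin n), y = x ∘ σ := by
  classical
  have h1 := congrArg Polynomial.roots (rootPoly_eq_of_coef_eq h)
  rw [rootPoly_roots, rootPoly_roots] at h1
  have h2 : ∀ c : ℂ, Nonempty ({ a // y a = c } ≃ { b // x b = c }) := by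
    intro c
    rw [← Fintype.card_eq]
    have h3 := congrArg (Multiset.count c) h1
    rw [Multiset.count_map, Multiset.count_map] at h3
    rw [Fintype.card_subtype, Fintype.card_subtype]
    have e : ∀ z : Fin n → ℂ, (Multiset.filter (fun a => c = z a) Finset.univ.val).card
        = (Finset.univ.filter (fun a => z a = c)).card := by
      intro z
      rw [Finset.card_def, Finset.filter_val]
      congr 1
      refine Multiset.filter_congr ?_
      intro a _
      exact eq_comm
    rw [e, e] at h3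
    exact h3.symm
  refine ⟨Equiv.ofFiberEquiv (fun c => (h2 c).some), ?_⟩
  funext a
  exact (Equiv.ofFiberEquiv_map (fun c => (h2 c).some) a).symm

theorem inj_of_coef_eq {x y : Fin n → ℂ} (h : coef x = coef y) (hx : x ∈ Inj n) : y ∈ Inj n := by
  obtain ⟨σ, rfl⟩ := exists_perm_of_coef_eq h
  exact Function.Injective.comp hx σ.injective

theorem isOpen_Inj (n : ℕ) : IsOpen (Inj n) := by
  have : Inj n = ⋂ i : Fin n, ⋂ j : Fin n, {x : Fin n → ℂ | i ≠ j → x i ≠ x j} := by
    ext x
    simp only [Inj, mem_ofPred_eq, mem_iInter]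
    constructor
    · intro h i j hij hx
      exact hij (h hx)
    · intro h i j hij
      by_contra hne
      exact h i j hne hij
  rw [this]
  refine isOpen_iInter_of_finite fun i => isOpen_iInter_of_finite fun j => ?_
  by_cases hij : i = j
  · simp [hij]
  · simp only [ne_eq, hij, not_false_eq_true, forall_true_left]
    exact isOpen_ne_fun (continuous_apply i) (continuous_apply j)

theorem contDiff_coeff_prod (s : Finset (Fin n)) (i : ℕ) :
    ContDiff ℂ ⊤ (fun x : Fin n → ℂ => (∏ j ∈ s, (X - C (x j)) : ℂ[X]).coeff i) := by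
  classical
  induction s using Finset.induction_on generalizing i with
  | empty =>
    simp only [Finset.prod_empty]
    exact contDiff_const
  | insert a s ha ih =>
    have e : (fun x : Fin n → ℂ => (∏ j ∈ insert a s, (X - C (x j)) : ℂ[X]).coeff i) =
        fun x => (if i = 0 then 0 else (∏ j ∈ s, (X - C (x j)) : ℂ[X]).coeff (i - 1)) -
          x a * (∏ j ∈ s, (X - C (x j)) : ℂ[X]).coeff i := by
      funext x
      rw [Finset.prod_insert ha, sub_mul, coeff_sub, coeff_C_mul]
      congr 1
      rcases i with _ | i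
      · simp
      · simp [coeff_X_mul]
    rw [e]
    refine ContDiff.sub ?_ (ContDiff.mul (contDiff_apply ℂ ℂ a) (ih i))
    split_ifs
    · exact contDiff_const
    · exact ih _

theorem contDiff_coef (n : ℕ) : ContDiff ℂ ⊤ (coef : (Fin n → ℂ) → (Fin n → ℂ)) := by
  rw [contDiff_pi]
  intro i
  exact contDiff_coeff_prod Finset.univ i

theorem continuous_coef (n : ℕ) : Continuous (coef : (Fin n → ℂ) → (Fin n → ℂ)) :=
  (contDiff_coef n).continuous

/-- evaluation of the polynomial with roots `x` -/
theorem prod_sub_eq (x : Fin n → ℂ) (z : ℂ) :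
    ∏ j, (z - x j) = z ^ n + ∑ i : Fin n, coef x i * z ^ (i : ℕ) := by
  have h1 : ∏ j, (z - x j) = (rootPoly x).eval z := by
    rw [rootPoly, eval_prod]
    simp
  rw [h1, eval_eq_sum_range, rootPoly_natDegree, Finset.sum_range_succ]
  have h2 : (rootPoly x).coeff n = 1 := by
    have := (rootPoly_monic x).coeff_natDegree
    rwa [rootPoly_natDegree] at this
  rw [h2, one_mul, add_comm, ← Fin.sum_univ_eq_sum_range (fun i => (rootPoly x).coeff i * z ^ i) n]
  rfl

/-- the derivative of the coefficient map at a configuration of distinct points is injective -/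
theorem fderiv_coef_injective {x : Fin n → ℂ} (hx : x ∈ Inj n) :
    Function.Injective (fderiv ℂ (coef : (Fin n → ℂ) → (Fin n → ℂ)) x) := by
  classical
  rw [injective_iff_map_eq_zero]
  intro h hh
  funext m
  have hd : HasFDerivAt (coef : (Fin n → ℂ) → (Fin n → ℂ)) (fderiv ℂ coef x) x :=
    ((contDiff_coef n).differentiable (by simp)).differentiableAt.hasFDerivAt
  -- differentiate `∏ (z - x j)` at `z = x m`
  set z := x m with hz
  have h1 : HasFDerivAt (fun y : Fin n → ℂ => ∏ j, (z - y j))
      (∑ j, (∏ i ∈ Finset.univ.erase j, (z - x i)) •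
        (-(ContinuousLinearMap.proj j : (Fin n → ℂ) →L[ℂ] ℂ))) x := by
    refine HasFDerivAt.finsetProd (u := Finset.univ) (g := fun j (y : Fin n → ℂ) => z - y j)
      (g' := fun j => -(ContinuousLinearMap.proj j : (Fin n → ℂ) →L[ℂ] ℂ)) ?_
    intro j _
    exact (hasFDerivAt_apply j x).const_sub z
  have h2 : HasFDerivAt (fun y : Fin n → ℂ => z ^ n + ∑ i : Fin n, coef y i * z ^ (i : ℕ))
      (∑ i : Fin n, (z ^ (i : ℕ)) • ((ContinuousLinearMap.proj i : (Fin n → ℂ) →L[ℂ] ℂ).comp
        (fderiv ℂ coef x))) x := by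
    refine HasFDerivAt.const_add _ (HasFDerivAt.fun_sum ?_)
    intro i _
    exact ((hasFDerivAt_apply i (coef x)).comp x hd).mul_const _
  have h3 := h1.unique (h2.congr_of_eventuallyEq (Eventually.of_forall fun y => prod_sub_eq y z))
  have h4 := congrArg (fun L : (Fin n → ℂ) →L[ℂ] ℂ => L h) h3
  simp only [FunLike.coe_sum, Finset.sum_apply, FunLike.coe_smul,
    Pi.smul_apply, FunLike.coe_neg, Pi.neg_apply, ContinuousLinearMap.proj_apply,
    ContinuousLinearMap.comp_apply, hh, Pi.zero_apply,
    smul_zero, Finset.sum_const_zero] at h4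
  rw [Finset.sum_eq_single m] at h4
  · have h5 : (∏ i ∈ Finset.univ.erase m, (z - x i)) ≠ 0 := by
      rw [Finset.prod_ne_zero_iff]
      intro i hi
      rw [hz, sub_ne_zero]
      intro he
      exact (Finset.ne_of_mem_erase hi) (hx he).symm
    have h6 := (smul_eq_zero.1 h4).resolve_left h5
    simpa using h6
  · intro j _ hj
    have : (∏ i ∈ Finset.univ.erase j, (z - x i)) = 0 := by
      apply Finset.prod_eq_zero (Finset.mem_erase.2 ⟨hj.symm, Finset.mem_univ m⟩)
      simp [hz]
    rw [this, zero_smul]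
  · intro hm
    exact absurd (Finset.mem_univ m) hm

/-- the derivative of the coefficient map as an equivalence -/
theorem exists_equiv_fderiv_coef {x : Fin n → ℂ} (hx : x ∈ Inj n) :
    ∃ e : (Fin n → ℂ) ≃L[ℂ] (Fin n → ℂ),
      (e : (Fin n → ℂ) →L[ℂ] (Fin n → ℂ)) = fderiv ℂ coef x := by
  refine ⟨(LinearEquiv.ofInjectiveEndo (fderiv ℂ coef x : (Fin n → ℂ) →ₗ[ℂ] (Fin n → ℂ))
    (fderiv_coef_injective hx)).toContinuousLinearEquiv, ?_⟩
  ext v i
  rfl

theorem coef_hasStrictFDerivAt {x : Fin n → ℂ} :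
    HasStrictFDerivAt (coef : (Fin n → ℂ) → (Fin n → ℂ)) (fderiv ℂ coef x) x :=
  (contDiff_coef n).contDiffAt.hasStrictFDerivAt (by simp)

theorem coef_localInv {x : Fin n → ℂ} (hx : x ∈ Inj n) :
    ∃ Φ : (Fin n → ℂ) → (Fin n → ℂ), AnalyticAt ℂ Φ (coef x) ∧ Φ (coef x) = x ∧
      (∀ᶠ z in 𝓝 (coef x), coef (Φ z) = z) ∧ (∀ᶠ y in 𝓝 x, Φ (coef y) = y) := by
  obtain ⟨e, he⟩ := exists_equiv_fderiv_coef hx
  have hc : ContDiffAt ℂ ⊤ (coef : (Fin n → ℂ) → (Fin n → ℂ)) x := (contDiff_coef n).contDiffAt
  have hd : HasFDerivAt (coef : (Fin n → ℂ) → (Fin n → ℂ))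
      (e : (Fin n → ℂ) →L[ℂ] (Fin n → ℂ)) x := by
    rw [he]; exact coef_hasStrictFDerivAt.hasFDerivAt
  have hs : HasStrictFDerivAt (coef : (Fin n → ℂ) → (Fin n → ℂ))
      (e : (Fin n → ℂ) →L[ℂ] (Fin n → ℂ)) x := by
    rw [he]; exact coef_hasStrictFDerivAt
  refine ⟨hs.localInverse coef e x, ?_, ?_, ?_, ?_⟩
  · exact (hc.to_localInverse hd (by simp)).analyticAt
  · exact hs.localInverse_apply_image
  · exact hs.eventually_right_inverse
  · exact hs.eventually_left_inverse

theorem isLocalHomeomorphOn_coef (n : ℕ) :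
    IsLocalHomeomorphOn (coef : (Fin n → ℂ) → (Fin n → ℂ)) (Inj n) := by
  intro x hx
  obtain ⟨e, he⟩ := exists_equiv_fderiv_coef hx
  have hs : HasStrictFDerivAt (coef : (Fin n → ℂ) → (Fin n → ℂ))
      (e : (Fin n → ℂ) →L[ℂ] (Fin n → ℂ)) x := by
    rw [he]; exact coef_hasStrictFDerivAt
  exact ⟨hs.toOpenPartialHomeomorph coef, hs.mem_toOpenPartialHomeomorph_source, rfl⟩

/-- a bound of the roots by the coefficients -/
theorem root_bound (x : Fin n → ℂ) (m : Fin n) : ‖x m‖ ≤ 1 + ∑ i : Fin n, ‖coef x i‖ := by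
  have hn : 0 < n := Fin.pos m
  by_contra hcon
  push Not at hcon
  have hs : 0 ≤ ∑ i : Fin n, ‖coef x i‖ := Finset.sum_nonneg fun i _ => norm_nonneg _
  have h1 : 1 < ‖x m‖ := by linarith
  have h2 := prod_sub_eq x (x m)
  rw [Finset.prod_eq_zero (Finset.mem_univ m) (sub_self _)] at h2
  have h3 : (x m) ^ n = - ∑ i : Fin n, coef x i * (x m) ^ (i : ℕ) := by
    linear_combination -h2
  have h4 : ‖x m‖ ^ n ≤ (∑ i : Fin n, ‖coef x i‖) * ‖x m‖ ^ (n - 1) := by
    rw [← norm_pow, h3, norm_neg]
    refine (norm_sum_le _ _).trans ?_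
    rw [Finset.sum_mul]
    refine Finset.sum_le_sum fun i _ => ?_
    rw [norm_mul, norm_pow]
    refine mul_le_mul_of_nonneg_left ?_ (norm_nonneg _)
    exact pow_le_pow_right₀ h1.le (by have := i.2; omega)
  have h5 : ‖x m‖ ^ n = ‖x m‖ * ‖x m‖ ^ (n - 1) := by
    rw [← pow_succ']; congr 1; omega
  rw [h5] at h4
  have h6 : (0 : ℝ) < ‖x m‖ ^ (n - 1) := by positivity
  have h7 := le_of_mul_le_mul_right h4 h6
  linarith

theorem isProperMap_coef (n : ℕ) : IsProperMap (coef : (Fin n → ℂ) → (Fin n → ℂ)) := by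
  rw [isProperMap_iff_tendsto_cocompact]
  refine ⟨continuous_coef n, ?_⟩
  refine Filter.tendsto_cocompact_cocompact_of_norm ?_
  intro ε
  refine ⟨1 + n * |ε|, ?_⟩
  intro x hx
  by_contra hcon
  push Not at hcon
  have h1 : ‖x‖ ≤ 1 + n * |ε| := by
    rw [pi_norm_le_iff_of_nonneg (by positivity)]
    intro m
    refine (root_bound x m).trans ?_
    have : ∑ i : Fin n, ‖coef x i‖ ≤ ∑ i : Fin n, |ε| := by
      refine Finset.sum_le_sum fun i _ => ?_
      exact ((norm_le_pi_norm (coef x) i).trans hcon).trans (le_abs_self ε)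
    simp only [Finset.sum_const, Finset.card_univ, Fintype.card_fin, nsmul_eq_mul] at this
    linarith
  linarith

theorem preimage_image_coef (n : ℕ) :
    (coef : (Fin n → ℂ) → (Fin n → ℂ)) ⁻¹' (coef '' Inj n) = Inj n := by
  ext x
  constructor
  · rintro ⟨y, hy, hxy⟩
    exact inj_of_coef_eq hxy hy
  · intro hx
    exact ⟨x, hx, rfl⟩

theorem coef_isCoveringMapOn (n : ℕ) :
    IsCoveringMapOn (coef : (Fin n → ℂ) → (Fin n → ℂ)) (coef '' Inj n) := by
  refine (isProperMap_coef n).isClosedMap.isCoveringMapOn_of_isLocalHomeomorphOn ?_ ?_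
  · rintro _ ⟨x, -, rfl⟩
    refine (Set.finite_range (fun σ : Equiv.Perm (Fin n) => x ∘ σ)).subset ?_
    intro y hy
    obtain ⟨σ, hσ⟩ := exists_perm_of_coef_eq (show coef x = coef y from (mem_singleton_iff.1 hy).symm)
    exact ⟨σ, hσ.symm⟩
  · rw [preimage_image_coef]
    exact isLocalHomeomorphOn_coef n

theorem coef_smul (c : ℂ) (x : Fin n → ℂ) :
    coef (c • x) = fun i : Fin n => c ^ (n - (i : ℕ)) * coef x i := by
  classical
  have h : ∀ s : Finset (Fin n), (∏ j ∈ s, (X - C ((c • x) j)) : ℂ[X]) =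
      (∏ j ∈ s, (X - C (x j)) : ℂ[X]).scaleRoots c := by
    intro s
    induction s using Finset.induction_on with
    | empty => simp
    | insert a s ha ih =>
      rw [Finset.prod_insert ha, Finset.prod_insert ha, ih, mul_scaleRoots_of_noZeroDivisors,
        X_sub_C_scaleRoots]
      simp only [Pi.smul_apply, smul_eq_mul, mul_comm c]
  funext i
  have h1 : coef (c • x) i = ((rootPoly x).scaleRoots c).coeff i := by
    rw [rootPoly, ← h]; rfl
  rw [h1, coeff_scaleRoots, rootPoly_natDegree, mul_comm]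
  rfl

/-! ## The discriminant -/

theorem prod_pairs_const (c : ℂ) :
    ∏ p : Fin n, ∏ q : Fin n, (if p < q then c else 1) = c ^ (n * (n - 1) / 2) := by
  classical
  have h1 : ∀ p : Fin n, ∏ q : Fin n, (if p < q then c else 1) = c ^ (n - 1 - (p : ℕ)) := by
    intro p
    rw [Finset.prod_ite, Finset.prod_const_one, mul_one, Finset.prod_const]
    congr 1
    have : (Finset.univ.filter fun q : Fin n => p < q) = Finset.Ioi p := by
      ext q; simp
    rw [this, Fin.card_Ioi]
  rw [Finset.prod_congr rfl fun p _ => h1 p, Finset.prod_pow_eq_pow_sum]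
  congr 1
  rw [Fin.sum_univ_eq_sum_range (fun i => n - 1 - i) n, Finset.sum_range_reflect (fun i => i) n,
    Finset.sum_range_id]

theorem prod_erase_eq (x : Fin n → ℂ) :
    ∏ p : Fin n, ∏ q ∈ Finset.univ.erase p, (x p - x q) =
      (-1) ^ (n * (n - 1) / 2) * dsc x := by
  classical
  have h1 : ∀ p : Fin n, ∏ q ∈ Finset.univ.erase p, (x p - x q) =
      (∏ q, if p < q then x p - x q else 1) * (∏ q, if q < p then x p - x q else 1) := by
    intro p
    rw [← Finset.prod_mul_distrib, ← Finset.mul_prod_erase Finset.univ _ (Finset.mem_univ p)]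
    simp only [lt_irrefl, if_false, one_mul]
    refine Finset.prod_congr rfl fun q hq => ?_
    rcases lt_trichotomy p q with h | h | h
    · simp [h, h.not_gt]
    · exact absurd h.symm (Finset.ne_of_mem_erase hq)
    · simp [h, h.not_gt]
  rw [Finset.prod_congr rfl fun p _ => h1 p, Finset.prod_mul_distrib]
  have h2 : (∏ p : Fin n, ∏ q : Fin n, if q < p then x p - x q else 1) =
      ∏ p : Fin n, ∏ q : Fin n, if p < q then x q - x p else 1 := Finset.prod_comm
  rw [h2, ← prod_pairs_const (n := n) (-1), dsc, ← Finset.prod_mul_distrib,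
    ← Finset.prod_mul_distrib]
  refine Finset.prod_congr rfl fun p _ => ?_
  rw [← Finset.prod_mul_distrib, ← Finset.prod_mul_distrib]
  refine Finset.prod_congr rfl fun q _ => ?_
  split_ifs <;> ring

/-- the discriminant of the polynomial with roots `x` -/
theorem discr_prod (x : Fin n → ℂ) : (∏ j, (X - C (x j)) : ℂ[X]).discr = dsc x := by
  classical
  change (rootPoly x).discr = dsc x
  rcases Nat.eq_zero_or_pos n with hn | hn
  · subst hn
    have : rootPoly x = C 1 := by simp [rootPoly]
    rw [this, discr_C]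
    simp [dsc]
  · have hdeg : 0 < (rootPoly x).degree := by
      rw [← natDegree_pos_iff_degree_pos, rootPoly_natDegree]; exact hn
    have h1 := resultant_deriv hdeg
    have hsplit : (rootPoly x).Splits := IsAlgClosed.splits _
    have h2 := resultant_eq_prod_eval (rootPoly x) (rootPoly x).derivative
      ((rootPoly x).natDegree - 1) (natDegree_derivative_le _) hsplit
    rw [h1] at h2
    rw [(rootPoly_monic x).leadingCoeff, one_pow, one_mul, mul_one, rootPoly_natDegree,
      rootPoly_roots, Multiset.map_map] at h2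
    have h3 : (Multiset.map ((fun z => eval z (derivative (rootPoly x))) ∘ x)
        Finset.univ.val).prod = ∏ p : Fin n, ∏ q ∈ Finset.univ.erase p, (x p - x q) := by
      refine Finset.prod_congr rfl fun p _ => ?_
      simp only [Function.comp_apply]
      rw [rootPoly, derivative_prod_finset, eval_finsetSum, Finset.sum_eq_single p]
      · simp [eval_prod]
      · intro j _ hj
        rw [eval_mul, eval_prod, Finset.prod_eq_zero (i := p), zero_mul]
        · exact Finset.mem_erase.2 ⟨hj.symm, Finset.mem_univ p⟩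
        · simp
      · intro hp
        exact absurd (Finset.mem_univ p) hp
    rw [h3, prod_erase_eq] at h2
    exact mul_left_cancel₀ (pow_ne_zero _ (by norm_num)) h2

theorem dsc_ne_zero_iff (x : Fin n → ℂ) : dsc x ≠ 0 ↔ x ∈ Inj n := by
  classical
  unfold dsc
  rw [Finset.prod_ne_zero_iff]
  constructor
  · intro h p q hpq
    by_contra hne
    rcases lt_or_gt_of_ne hne with hlt | hlt
    · have := Finset.prod_ne_zero_iff.1 (h p (Finset.mem_univ p)) q (Finset.mem_univ q)
      rw [if_pos hlt, hpq, sub_self] at this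
      simp at this
    · have := Finset.prod_ne_zero_iff.1 (h q (Finset.mem_univ q)) p (Finset.mem_univ p)
      rw [if_pos hlt, hpq, sub_self] at this
      simp at this
  · intro h p _
    rw [Finset.prod_ne_zero_iff]
    intro q _
    split_ifs with hpq
    · exact pow_ne_zero _ (sub_ne_zero.2 fun he => hpq.ne (h he))
    · exact one_ne_zero

theorem dsc_perm (x : Fin n → ℂ) (σ : Equiv.Perm (Fin n)) : dsc (x ∘ σ) = dsc x := by
  rw [← discr_prod, ← discr_prod]
  exact congrArg _ (rootPoly_perm x σ)

theorem dsc_smul (c : ℂ) (x : Fin n → ℂ) : dsc (c • x) = c ^ (n * (n - 1)) * dsc x := by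
  classical
  have h1 : dsc (c • x) = (∏ p : Fin n, ∏ q : Fin n, (if p < q then c ^ 2 else 1)) * dsc x := by
    unfold dsc
    rw [← Finset.prod_mul_distrib]
    refine Finset.prod_congr rfl fun p _ => ?_
    rw [← Finset.prod_mul_distrib]
    refine Finset.prod_congr rfl fun q _ => ?_
    split_ifs
    · simp only [Pi.smul_apply, smul_eq_mul]; ring
    · simp
  rw [h1, prod_pairs_const, ← pow_mul, Nat.mul_div_cancel']
  exact (Nat.even_mul_pred_self n).two_dvd

theorem dsc_add (x : Fin n → ℂ) (a : ℂ) : dsc (fun i => x i + a) = dsc x := by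
  unfold dsc
  refine Finset.prod_congr rfl fun p _ => Finset.prod_congr rfl fun q _ => ?_
  rw [add_sub_add_right_eq_sub]

theorem continuous_dsc (n : ℕ) : Continuous (dsc : (Fin n → ℂ) → ℂ) := by
  unfold dsc
  refine continuous_finsetProd _ fun p _ => continuous_finsetProd _ fun q _ => ?_
  split_ifs
  · exact ((continuous_apply p).sub (continuous_apply q)).pow 2
  · exact continuous_const

end MP2d36f7
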