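import Mathlib
import Pool.Agent.Lib_MP_2d36f7_ag.Defs
import Pool.Agent.Lib_MP_2d36f7_ag.Coef

/-!
Piece Lift: lifting through the coefficient map.
-/

open Polynomial Complex Set Filter Topology Metric

namespace MP2d36f7

variable {k n : ℕ}

theorem lift_inj (d : Dat k n) {x : Fin k → ℂ} {l : Fin n → ℂ} (hx : x ∈ Inj k)
    (h : coef l = d.F x) : l ∈ Inj n := by
  obtain ⟨l', hl', he⟩ := d.reg x hx
  exact inj_of_coef_eq (he.trans h.symm) hl'

theorem dat_mem_image (d : Dat k n) {x : Fin k → ℂ} (hx : x ∈ Inj k) :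
    d.F x ∈ (coef '' Inj n : Set (Fin n → ℂ)) := by
  obtain ⟨l', hl', he⟩ := d.reg x hx
  exact ⟨l', hl', he⟩

theorem exists_liftOn (d : Dat k n) {E : Type*} [NormedAddCommGroup E] [NormedSpace ℝ E]
    {S : Set E} (hS : IsOpen S) {y₁ : E} (hst : StarConvex ℝ y₁ S) (hy₁ : y₁ ∈ S)
    {x : E → Fin k → ℂ} (hx : ContinuousOn x S) (hxi : ∀ y ∈ S, x y ∈ Inj k)
    {y₀ : E} (hy₀ : y₀ ∈ S) {l₀ : Fin n → ℂ} (h₀ : coef l₀ = d.F (x y₀)) :
    ∃ l : E → Fin n → ℂ, IsLiftOn d S x l ∧ l y₀ = l₀ := by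
  classical
  have hcon : ContractibleSpace S := hst.contractibleSpace ⟨y₁, hy₁⟩
  have hloc : LocallyPathConnectedSpace S := hS.locallyPathConnectedSpace
  have hc : ContinuousOn (fun y => d.F (x y)) S := d.hol.continuousOn.comp hx hxi
  obtain ⟨f, ⟨hf0, hf⟩, -⟩ := (coef_isCoveringMapOn n).existsUnique_continuousMap_lifts
    (A := S) ⟨S.domRestrict (fun y => d.F (x y)), continuousOn_iff_continuous_domRestrict.mp hc⟩
    (a₀ := ⟨y₀, hy₀⟩) (e₀ := l₀) h₀ (fun a => dat_mem_image d (hxi _ a.2))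
  obtain ⟨g, hg⟩ : ∃ g : E → Fin n → ℂ, ∀ z : S, g z = f z :=
    ⟨fun z ↦ if hz : z ∈ S then f ⟨z, hz⟩ else 0, by simp⟩
  refine ⟨g, ⟨?_, ?_⟩, ?_⟩
  · rw [continuousOn_iff_continuous_domRestrict]
    have : S.domRestrict g = f := by
      ext z : 1
      exact hg z
    rw [this]
    exact map_continuous f
  · intro y hy
    have h1 := congrFun hf ⟨y, hy⟩
    have h2 := hg ⟨y, hy⟩
    simp only [Function.comp_apply] at h1
    simp only at h2
    rw [h2, h1]
    rfl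
  · have h2 := hg ⟨y₀, hy₀⟩
    simp only at h2
    rw [h2, hf0]

theorem exists_lift (d : Dat k n) {E : Type*} [NormedAddCommGroup E] [NormedSpace ℝ E]
    {x : E → Fin k → ℂ} (hx : Continuous x) (hxi : ∀ y, x y ∈ Inj k)
    (y₀ : E) {l₀ : Fin n → ℂ} (h₀ : coef l₀ = d.F (x y₀)) :
    ∃ l : E → Fin n → ℂ, IsLift d x l ∧ l y₀ = l₀ := by
  obtain ⟨l, hl, h1⟩ := exists_liftOn d (S := univ) isOpen_univ (y₁ := y₀)
    (starConvex_univ y₀) (mem_univ _) hx.continuousOn (fun y _ => hxi y) (mem_univ y₀) h₀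
  exact ⟨l, ⟨continuousOn_univ.mp hl.cont, fun y => hl.eq y (mem_univ y)⟩, h1⟩

theorem liftOn_eqOn (d : Dat k n) {D : Type*} [TopologicalSpace D] {S : Set D}
    (hS : IsPreconnected S) {x : D → Fin k → ℂ} (hxi : ∀ y ∈ S, x y ∈ Inj k)
    {l l' : D → Fin n → ℂ} (hl : IsLiftOn d S x l) (hl' : IsLiftOn d S x l')
    {y₀ : D} (hy₀ : y₀ ∈ S) (h : l y₀ = l' y₀) : EqOn l l' S := by
  have hpre : PreconnectedSpace S := isPreconnected_iff_preconnectedSpace.mp hS
  set T : Set (Fin n → ℂ) := coef '' Inj n with hT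
  have hcov := (coef_isCoveringMapOn n).isCoveringMap_restrictPreimage
  have m1 : ∀ y : S, l y ∈ (coef : (Fin n → ℂ) → _) ⁻¹' T := fun y => by
    rw [mem_preimage, hl.eq y y.2]
    exact dat_mem_image d (hxi _ y.2)
  have m2 : ∀ y : S, l' y ∈ (coef : (Fin n → ℂ) → _) ⁻¹' T := fun y => by
    rw [mem_preimage, hl'.eq y y.2]
    exact dat_mem_image d (hxi _ y.2)
  have c1 : Continuous (fun y : S => (⟨l y, m1 y⟩ : (coef : (Fin n → ℂ) → _) ⁻¹' T)) :=
    Continuous.subtype_mk (continuousOn_iff_continuous_domRestrict.mp hl.cont) _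
  have c2 : Continuous (fun y : S => (⟨l' y, m2 y⟩ : (coef : (Fin n → ℂ) → _) ⁻¹' T)) :=
    Continuous.subtype_mk (continuousOn_iff_continuous_domRestrict.mp hl'.cont) _
  have he := hcov.eq_of_comp_eq c1 c2 (by
    funext y
    apply Subtype.ext
    show coef (l y) = coef (l' y)
    rw [hl.eq y y.2, hl'.eq y y.2]) ⟨y₀, hy₀⟩ (Subtype.ext h)
  intro y hy
  exact congrArg Subtype.val (congrFun he ⟨y, hy⟩)

theorem liftOn_comp_perm (d : Dat k n) {D : Type*} [TopologicalSpace D] {S : Set D}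
    {x : D → Fin k → ℂ} {l : D → Fin n → ℂ} (hl : IsLiftOn d S x l) (σ : Equiv.Perm (Fin n)) :
    IsLiftOn d S x (fun y => l y ∘ σ) :=
  ⟨continuousOn_pi.mpr fun i => (continuousOn_pi.mp hl.cont) (σ i),
    fun y hy => by rw [coef_perm, hl.eq y hy]⟩

theorem liftOn_perm (d : Dat k n) {D : Type*} [TopologicalSpace D] {S : Set D}
    (hS : IsPreconnected S) {x : D → Fin k → ℂ} (hxi : ∀ y ∈ S, x y ∈ Inj k)
    {l l' : D → Fin n → ℂ} (hl : IsLiftOn d S x l) (hl' : IsLiftOn d S x l') :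
    ∃ σ : Equiv.Perm (Fin n), ∀ y ∈ S, l' y = l y ∘ σ := by
  rcases S.eq_empty_or_nonempty with h0 | ⟨y₀, hy₀⟩
  · exact ⟨1, fun y hy => absurd hy (by simp [h0])⟩
  obtain ⟨σ, hσ⟩ := exists_perm_of_coef_eq ((hl.eq y₀ hy₀).trans (hl'.eq y₀ hy₀).symm)
  exact ⟨σ, fun y hy => liftOn_eqOn d hS hxi hl' (liftOn_comp_perm d hl σ) hy₀ hσ hy⟩

theorem lift_perm (d : Dat k n) {D : Type*} [TopologicalSpace D] [PreconnectedSpace D]
    {x : D → Fin k → ℂ} (hxi : ∀ y, x y ∈ Inj k)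
    {l l' : D → Fin n → ℂ} (hl : IsLift d x l) (hl' : IsLift d x l') :
    ∃ σ : Equiv.Perm (Fin n), ∀ y, l' y = l y ∘ σ := by
  obtain ⟨σ, hσ⟩ := liftOn_perm d isPreconnected_univ (fun y _ => hxi y)
    (l := l) (l' := l') ⟨hl.cont.continuousOn, fun y _ => hl.eq y⟩
    ⟨hl'.cont.continuousOn, fun y _ => hl'.eq y⟩
  exact ⟨σ, fun y => hσ y (mem_univ y)⟩

/-- locally a lift is the composition of a local inverse of `coef` with `F` -/
theorem liftOn_local (d : Dat k n) {D : Type*} [TopologicalSpace D] {S : Set D} (hS : IsOpen S)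
    {x : D → Fin k → ℂ} (hxi : ∀ y ∈ S, x y ∈ Inj k) {l : D → Fin n → ℂ}
    (hl : IsLiftOn d S x l) {y : D} (hy : y ∈ S) :
    ∃ Φ : (Fin n → ℂ) → (Fin n → ℂ), AnalyticAt ℂ Φ (d.F (x y)) ∧
      l =ᶠ[𝓝 y] fun y' => Φ (d.F (x y')) := by
  obtain ⟨Φ, h1, -, -, h4⟩ := coef_localInv (lift_inj d (hxi y hy) (hl.eq y hy))
  refine ⟨Φ, ?_, ?_⟩
  · rw [← hl.eq y hy]
    exact h1
  · have hc : ContinuousAt l y := hl.cont.continuousAt (hS.mem_nhds hy)
    filter_upwards [hc.eventually h4, hS.mem_nhds hy] with z hz hzS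
    rw [← hl.eq z hzS, hz]

/-- lifts of holomorphic families (over open subsets of a complex normed space) are holomorphic -/
theorem liftOn_holo (d : Dat k n) {E : Type*} [NormedAddCommGroup E] [NormedSpace ℂ E]
    {S : Set E} (hS : IsOpen S) {x : E → Fin k → ℂ}
    (hx : DifferentiableOn ℂ x S) (hxi : ∀ y ∈ S, x y ∈ Inj k) {l : E → Fin n → ℂ}
    (hl : IsLiftOn d S x l) : DifferentiableOn ℂ l S := by
  intro y hy
  obtain ⟨Φ, h1, h2⟩ := liftOn_local d hS hxi hl hy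
  have hF : DifferentiableAt ℂ d.F (x y) := d.hol.differentiableAt ((isOpen_Inj k).mem_nhds (hxi y hy))
  have hxx : DifferentiableAt ℂ x y := hx.differentiableAt (hS.mem_nhds hy)
  have h3 : DifferentiableAt ℂ (fun y' => Φ (d.F (x y'))) y :=
    h1.differentiableAt.comp y (hF.comp y hxx)
  exact (h3.congr_of_eventuallyEq h2).differentiableWithinAt

/-- The Fréchet derivative of a holomorphic map of several variables is continuous. -/
theorem continuousOn_fderiv_of_hol {m : ℕ} {G : Type*} [NormedAddCommGroup G] [NormedSpace ℂ G]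
    {U : Set (Fin m → ℂ)} (hU : IsOpen U) {F : (Fin m → ℂ) → G}
    (hF : DifferentiableOn ℂ F U) : ContinuousOn (fderiv ℂ F) U := by
  have hexp : ∀ z, fderiv ℂ F z = ∑ i : Fin m,
      (ContinuousLinearMap.proj (R := ℂ) (φ := fun _ : Fin m => ℂ) i).smulRight
        (fderiv ℂ F z (Pi.single i 1)) := by
    intro z
    ext v
    rw [_root_.sum_apply]
    simp only [ContinuousLinearMap.smulRight_apply, ContinuousLinearMap.proj_apply]
    conv_lhs => rw [pi_eq_sum_univ' v]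
    rw [map_sum]
    refine Finset.sum_congr rfl fun i _ => ?_
    rw [map_smul]
  have hpart : ∀ i : Fin m, ContinuousOn (fun z => fderiv ℂ F z (Pi.single i 1)) U := by
    intro i z₀ hz₀
    apply ContinuousAt.continuousWithinAt
    obtain ⟨r, hr, hrU⟩ := Metric.isOpen_iff.mp hU z₀ hz₀
    set ρ : ℝ := r / 4 with hρ
    have hρ0 : 0 < ρ := by positivity
    have hK : closedBall z₀ (2 * ρ) ⊆ U := (closedBall_subset_ball (by rw [hρ]; linarith)).trans hrU
    have huc : UniformContinuousOn F (closedBall z₀ (2 * ρ)) :=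
      (isCompact_closedBall z₀ (2 * ρ)).uniformContinuousOn_of_continuous
        (hF.continuousOn.mono hK)
    have he : ∀ ζ : ℂ, ‖ζ • (Pi.single i 1 : Fin m → ℂ)‖ = ‖ζ‖ := by
      intro ζ
      rw [norm_smul, Pi.norm_single]
      simp
    have hmem : ∀ z ∈ closedBall z₀ ρ, ∀ ζ : ℂ, ‖ζ‖ ≤ ρ →
        z + ζ • (Pi.single i 1 : Fin m → ℂ) ∈ closedBall z₀ (2 * ρ) := by
      intro z hz ζ hζ
      rw [mem_closedBall, dist_eq_norm] at hz ⊢
      calc ‖z + ζ • (Pi.single i 1 : Fin m → ℂ) - z₀‖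
          = ‖(z - z₀) + ζ • (Pi.single i 1 : Fin m → ℂ)‖ := by congr 1; abel
        _ ≤ ‖z - z₀‖ + ‖ζ • (Pi.single i 1 : Fin m → ℂ)‖ := norm_add_le _ _
        _ ≤ ρ + ρ := add_le_add hz (by rw [he]; exact hζ)
        _ = 2 * ρ := by ring
    have hder : ∀ z ∈ closedBall z₀ ρ,
        fderiv ℂ F z (Pi.single i 1) = deriv (fun ζ : ℂ => F (z + ζ • (Pi.single i 1 : Fin m → ℂ))) 0 := by
      intro z hz
      have hzU : z ∈ U := hK (by simpa using hmem z hz 0 (by simpa using hρ0.le))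
      exact ((hF.differentiableAt (hU.mem_nhds hzU)).lineDeriv_eq_fderiv).symm
    have hdiff : ∀ z ∈ closedBall z₀ ρ, ∀ ζ : ℂ, ‖ζ‖ ≤ ρ →
        DifferentiableAt ℂ (fun ζ : ℂ => F (z + ζ • (Pi.single i 1 : Fin m → ℂ))) ζ := by
      intro z hz ζ hζ
      have h1 : DifferentiableAt ℂ F (z + ζ • (Pi.single i 1 : Fin m → ℂ)) :=
        hF.differentiableAt (hU.mem_nhds (hK (hmem z hz ζ hζ)))
      exact h1.comp ζ (by fun_prop)
    rw [Metric.continuousAt_iff]
    intro ε hε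
    obtain ⟨η, hη, hηε⟩ := Metric.uniformContinuousOn_iff.mp huc (ε * ρ / 2) (by positivity)
    refine ⟨min η ρ, lt_min hη hρ0, fun z hz => ?_⟩
    have hz1 : z ∈ closedBall z₀ ρ := (hz.trans_le (min_le_right _ _)).le
    have hz0 : z₀ ∈ closedBall z₀ ρ := mem_closedBall_self hρ0.le
    rw [hder z hz1, hder z₀ hz0, dist_eq_norm]
    have h00 : ‖(0 : ℂ)‖ ≤ ρ := by simpa using hρ0.le
    rw [← deriv_fun_sub (hdiff z hz1 0 h00) (hdiff z₀ hz0 0 h00)]
    have hb := Complex.norm_deriv_le_of_forall_mem_sphere_norm_le (c := 0) (R := ρ)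
      (C := ε * ρ / 2) (f := fun ζ : ℂ => F (z + ζ • (Pi.single i 1 : Fin m → ℂ)) -
        F (z₀ + ζ • (Pi.single i 1 : Fin m → ℂ))) hρ0 ?_ ?_
    · refine hb.trans_lt ?_
      rw [div_lt_iff₀ hρ0]
      nlinarith [mul_pos hε hρ0]
    · refine DifferentiableOn.diffContOnCl ?_
      intro ζ hζ
      have hζ' : ‖ζ‖ ≤ ρ := by
        have := closure_ball_subset_closedBall hζ
        simpa using this
      exact ((hdiff z hz1 ζ hζ').sub (hdiff z₀ hz0 ζ hζ')).differentiableWithinAt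
    · intro ζ hζ
      have hζ' : ‖ζ‖ ≤ ρ := by
        have : ‖ζ‖ = ρ := by simpa using hζ
        exact this.le
      have := hηε _ (hmem z hz1 ζ hζ') _ (hmem z₀ hz0 ζ hζ') (by
        rw [dist_eq_norm, add_sub_add_right_eq_sub, ← dist_eq_norm]
        exact hz.trans_le (min_le_left _ _))
      rw [dist_eq_norm] at this
      exact this.le
  have : fderiv ℂ F = fun z => ∑ i : Fin m,
      (ContinuousLinearMap.proj (R := ℂ) (φ := fun _ : Fin m => ℂ) i).smulRight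
        (fderiv ℂ F z (Pi.single i 1)) := funext hexp
  rw [this]
  refine continuousOn_finsetSum _ fun i _ => ?_
  exact (ContinuousLinearMap.smulRightL ℂ (Fin m → ℂ) G
    (ContinuousLinearMap.proj (R := ℂ) (φ := fun _ : Fin m => ℂ) i)).continuous.comp_continuousOn
    (hpart i)

/-- holomorphic maps of several variables are continuously differentiable -/
theorem contDiffAt_of_hol {m : ℕ} {G : Type*} [NormedAddCommGroup G] [NormedSpace ℂ G]
    {U : Set (Fin m → ℂ)} (hU : IsOpen U) {F : (Fin m → ℂ) → G}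
    (hF : DifferentiableOn ℂ F U) {z : Fin m → ℂ} (hz : z ∈ U) : ContDiffAt ℂ 1 F z := by
  have h1 : ContDiffOn ℂ 1 F U := by
    rw [show (1 : WithTop ℕ∞) = 0 + 1 from (zero_add 1).symm,
      contDiffOn_succ_iff_fderiv_of_isOpen hU]
    refine ⟨hF, by simp, ?_⟩
    rw [contDiffOn_zero]
    exact continuousOn_fderiv_of_hol hU hF
  exact h1.contDiffAt (hU.mem_nhds hz)

/-- lifts of `C^1` families are `C^1` -/
theorem lift_contDiff (d : Dat k n) {E : Type*} [NormedAddCommGroup E] [NormedSpace ℝ E]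
    {x : E → Fin k → ℂ} (hx : ContDiff ℝ 1 x) (hxi : ∀ y, x y ∈ Inj k) {l : E → Fin n → ℂ}
    (hl : IsLift d x l) : ContDiff ℝ 1 l := by
  rw [contDiff_iff_contDiffAt]
  intro y
  have hl' : IsLiftOn d univ x l := ⟨hl.cont.continuousOn, fun y _ => hl.eq y⟩
  obtain ⟨Φ, h1, h2⟩ := liftOn_local d isOpen_univ (fun y _ => hxi y) hl' (mem_univ y)
  have hF : ContDiffAt ℝ 1 d.F (x y) :=
    (contDiffAt_of_hol (isOpen_Inj k) d.hol (hxi y)).restrict_scalars ℝ
  have hΦ : ContDiffAt ℝ 1 Φ (d.F (x y)) := h1.contDiffAt.restrict_scalars ℝ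
  have h3 : ContDiffAt ℝ 1 (fun y' => Φ (d.F (x y'))) y :=
    ContDiffAt.comp y (g := Φ) (f := fun y' => d.F (x y')) hΦ
      (ContDiffAt.comp y (g := d.F) (f := x) hF hx.contDiffAt)
  exact h3.congr_of_eventuallyEq h2

/-- the derivative of a lift factors complex-linearly through the derivative of `F` -/
theorem lift_fderiv (d : Dat k n) {E : Type*} [NormedAddCommGroup E] [NormedSpace ℝ E]
    {x : E → Fin k → ℂ} (hx : ContDiff ℝ 1 x) (hxi : ∀ y, x y ∈ Inj k) {l : E → Fin n → ℂ}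
    (hl : IsLift d x l) (y : E) :
    ∃ M : (Fin n → ℂ) →L[ℂ] (Fin n → ℂ), ∀ v : E,
      fderiv ℝ l y v = M (fderiv ℂ d.F (x y) (fderiv ℝ x y v)) := by
  have hl' : IsLiftOn d univ x l := ⟨hl.cont.continuousOn, fun y _ => hl.eq y⟩
  obtain ⟨Φ, h1, h2⟩ := liftOn_local d isOpen_univ (fun y _ => hxi y) hl' (mem_univ y)
  refine ⟨fderiv ℂ Φ (d.F (x y)), fun v => ?_⟩
  have hF : HasFDerivAt d.F ((fderiv ℂ d.F (x y)).restrictScalars ℝ) (x y) :=
    ((d.hol.differentiableAt ((isOpen_Inj k).mem_nhds (hxi y))).hasFDerivAt).restrictScalars ℝ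
  have hΦ : HasFDerivAt Φ ((fderiv ℂ Φ (d.F (x y))).restrictScalars ℝ) (d.F (x y)) :=
    h1.differentiableAt.hasFDerivAt.restrictScalars ℝ
  have hxx : HasFDerivAt x (fderiv ℝ x y) y :=
    (hx.differentiable (by norm_num) y).hasFDerivAt
  have h3 : HasFDerivAt (fun y' => Φ (d.F (x y')))
      (((fderiv ℂ Φ (d.F (x y))).restrictScalars ℝ).comp
        (((fderiv ℂ d.F (x y)).restrictScalars ℝ).comp (fderiv ℝ x y))) y :=
    HasFDerivAt.comp y hΦ (HasFDerivAt.comp y hF hxx)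
  rw [(h3.congr_of_eventuallyEq h2).fderiv]
  rfl

end MP2d36f7
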