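import Mathlib
import Pool.Agent.Lib_MP_2d36f7_ag.Defs

/-!
# Winding numbers by continuous logarithms
-/

open Polynomial Complex Set Filter Topology

namespace MP2d36f7

theorem exists_clogOn {E : Type*} [NormedAddCommGroup E] [NormedSpace ℝ E]
    {S : Set E} (hS : IsOpen S) {y₁ : E} (hst : StarConvex ℝ y₁ S) (hy₁ : y₁ ∈ S)
    {u : E → ℂ} (hu : ContinuousOn u S) (h0 : ∀ y ∈ S, u y ≠ 0) :
    ∃ L : E → ℂ, ContinuousOn L S ∧ ∀ y ∈ S, exp (L y) = u y := by
  have hc : ContractibleSpace S := hst.contractibleSpace ⟨y₁, hy₁⟩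
  have hsc : IsSimplyConnected S := by
    unfold IsSimplyConnected
    infer_instance
  obtain ⟨f, hf, he⟩ := Complex.exists_continuousOn_eqOn_exp_comp hsc hS hu (by
    rintro ⟨y, hy, h⟩
    exact h0 y hy h)
  exact ⟨f, hf, fun y hy => he hy⟩

theorem exists_clog {E : Type*} [NormedAddCommGroup E] [NormedSpace ℝ E]
    {u : E → ℂ} (hu : Continuous u) (h0 : ∀ y, u y ≠ 0) :
    ∃ L : E → ℂ, Continuous L ∧ ∀ y, exp (L y) = u y := by
  obtain ⟨L, hL, he⟩ := exists_clogOn (S := (univ : Set E)) isOpen_univ (y₁ := 0)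
    (starConvex_univ 0) (mem_univ _) hu.continuousOn (fun y _ => h0 y)
  exact ⟨L, continuousOn_univ.1 hL, fun y => he y (mem_univ _)⟩

/-- a continuous function with constant exponential is constant -/
theorem const_of_exp_const {D : Type*} [TopologicalSpace D] [PreconnectedSpace D] {f : D → ℂ}
    (hf : Continuous f) {c : ℂ} (h : ∀ t, exp (f t) = c) (s t : D) : f s = f t := by
  have hloc : IsLocallyConstant f := by
    rw [IsLocallyConstant.iff_eventually_eq]
    intro t₀
    have hball : f ⁻¹' Metric.ball (f t₀) (2 * Real.pi) ∈ 𝓝 t₀ :=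
      hf.continuousAt (Metric.ball_mem_nhds _ (by positivity))
    filter_upwards [hball] with t' ht'
    have hexp : exp (f t') = exp (f t₀) := by rw [h, h]
    rw [Complex.exp_eq_exp_iff_exists_int] at hexp
    obtain ⟨m, hm⟩ := hexp
    have hd : dist (f t') (f t₀) < 2 * Real.pi := ht'
    rw [dist_eq_norm, hm, add_sub_cancel_left] at hd
    have hn : ‖(m : ℂ) * (2 * Real.pi * I)‖ = |(m : ℝ)| * (2 * Real.pi) := by
      rw [norm_mul, norm_mul, norm_mul, Complex.norm_I, mul_one, Complex.norm_intCast,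
        Complex.norm_real, Real.norm_eq_abs, abs_of_pos Real.pi_pos]
      simp
    rw [hn] at hd
    have h1 : |(m : ℝ)| < 1 := by
      have : 0 < 2 * Real.pi := by positivity
      by_contra hcon
      push Not at hcon
      nlinarith
    have h2 : m = 0 := by
      have : |m| < 1 := by exact_mod_cast h1
      exact Int.abs_lt_one_iff.1 this
    rw [hm, h2]
    simp
  exact hloc.apply_eq_of_preconnectedSpace s t

theorem two_pi_I_ne : (2 * Real.pi * I : ℂ) ≠ 0 := Complex.two_pi_I_ne_zero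

theorem wnd_eq {u : ℝ → ℂ} {L : ℝ → ℂ} (hL : Continuous L) (h : ∀ t, exp (L t) = u t) (a b : ℝ) :
    wnd u a b = (L b - L a) / (2 * Real.pi * I) := by
  have hex : ∃ L : ℝ → ℂ, Continuous L ∧ ∀ t, exp (L t) = u t := ⟨L, hL, h⟩
  unfold wnd
  rw [dif_pos hex]
  have h1 := hex.choose_spec.1
  have h2 := hex.choose_spec.2
  set L' := hex.choose
  have hc : ∀ t, exp (L' t - L t) = 1 := by
    intro t
    rw [Complex.exp_sub, h2, h]
    exact div_self (by rw [← h t]; exact Complex.exp_ne_zero _)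
  have h3 : Continuous (fun t => L' t - L t) := h1.sub hL
  have h4 : L' b - L b = L' a - L a := const_of_exp_const h3 hc b a
  congr 1
  linear_combination h4

theorem wnd_mul {u v : ℝ → ℂ} (hu : Continuous u) (hv : Continuous v) (hu0 : ∀ t, u t ≠ 0)
    (hv0 : ∀ t, v t ≠ 0) (a b : ℝ) :
    wnd (fun t => u t * v t) a b = wnd u a b + wnd v a b := by
  obtain ⟨L, hL, he⟩ := exists_clog hu hu0
  obtain ⟨L', hL', he'⟩ := exists_clog hv hv0
  rw [wnd_eq hL he, wnd_eq hL' he', wnd_eq (L := fun t => L t + L' t) (hL.add hL') (fun t => by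
    rw [Complex.exp_add, he, he'])]
  ring

theorem wnd_div {u v : ℝ → ℂ} (hu : Continuous u) (hv : Continuous v) (hu0 : ∀ t, u t ≠ 0)
    (hv0 : ∀ t, v t ≠ 0) (a b : ℝ) :
    wnd (fun t => u t / v t) a b = wnd u a b - wnd v a b := by
  obtain ⟨L, hL, he⟩ := exists_clog hu hu0
  obtain ⟨L', hL', he'⟩ := exists_clog hv hv0
  rw [wnd_eq hL he, wnd_eq hL' he', wnd_eq (L := fun t => L t - L' t) (hL.sub hL') (fun t => by
    rw [Complex.exp_sub, he, he'])]
  ring

theorem wnd_zpow {u : ℝ → ℂ} (hu : Continuous u) (hu0 : ∀ t, u t ≠ 0) (m : ℤ) (a b : ℝ) :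
    wnd (fun t => u t ^ m) a b = m * wnd u a b := by
  obtain ⟨L, hL, he⟩ := exists_clog hu hu0
  rw [wnd_eq hL he, wnd_eq (L := fun t => (m : ℂ) * L t) (continuous_const.mul hL) (fun t => by
    rw [Complex.exp_int_mul, he])]
  ring

theorem wnd_pow {u : ℝ → ℂ} (hu : Continuous u) (hu0 : ∀ t, u t ≠ 0) (m : ℕ) (a b : ℝ) :
    wnd (fun t => u t ^ m) a b = m * wnd u a b := by
  have := wnd_zpow hu hu0 (m : ℤ) a b
  simpa using this

theorem wnd_const (c : ℂ) (a b : ℝ) : wnd (fun _ => c) a b = 0 := by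
  by_cases hc : c = 0
  · unfold wnd
    rw [dif_neg]
    rintro ⟨L, -, h⟩
    exact Complex.exp_ne_zero (L 0) ((h 0).trans hc)
  · rw [wnd_eq (L := fun _ => Complex.log c) continuous_const (fun t => Complex.exp_log hc)]
    simp

theorem wnd_prod {ι : Type*} (s : Finset ι) {u : ι → ℝ → ℂ} (hu : ∀ i ∈ s, Continuous (u i))
    (hu0 : ∀ i ∈ s, ∀ t, u i t ≠ 0) (a b : ℝ) :
    wnd (fun t => ∏ i ∈ s, u i t) a b = ∑ i ∈ s, wnd (u i) a b := by
  classical
  induction s using Finset.induction_on with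
  | empty =>
    simp only [Finset.prod_empty, Finset.sum_empty]
    exact wnd_const 1 a b
  | insert i s hi ih =>
    rw [Finset.sum_insert hi, ← ih (fun j hj => hu j (Finset.mem_insert_of_mem hj))
      (fun j hj => hu0 j (Finset.mem_insert_of_mem hj))]
    rw [← wnd_mul (hu i (Finset.mem_insert_self _ _))
      (continuous_finsetProd _ (fun j hj => hu j (Finset.mem_insert_of_mem hj)))
      (hu0 i (Finset.mem_insert_self _ _))
      (fun t => Finset.prod_ne_zero_iff.2
        (fun j hj => hu0 j (Finset.mem_insert_of_mem hj) t))]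
    congr 1
    funext t
    rw [Finset.prod_insert hi]

theorem wnd_exp {L : ℝ → ℂ} (hL : Continuous L) (a b : ℝ) :
    wnd (fun t => exp (L t)) a b = (L b - L a) / (2 * Real.pi * I) :=
  wnd_eq hL (fun _ => rfl) a b

theorem wnd_add (u : ℝ → ℂ) (a b c : ℝ) : wnd u a b + wnd u b c = wnd u a c := by
  unfold wnd
  split_ifs with h
  · ring
  · simp

theorem wnd_neg {u : ℝ → ℂ} (hu : Continuous u) (hu0 : ∀ t, u t ≠ 0) (a b : ℝ) :
    wnd (fun t => - u t) a b = wnd u a b := by
  have h := wnd_mul (u := fun _ => (-1 : ℂ)) (v := u) continuous_const hu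
    (fun _ => by norm_num) hu0 a b
  rw [wnd_const, zero_add] at h
  rw [← h]
  congr 1
  funext t
  ring

theorem exp_wnd {u : ℝ → ℂ} (hu : Continuous u) (hu0 : ∀ t, u t ≠ 0) (a b : ℝ) :
    exp (2 * Real.pi * I * wnd u a b) = u b / u a := by
  obtain ⟨L, hL, he⟩ := exists_clog hu hu0
  rw [wnd_eq hL he, mul_div_cancel₀ _ two_pi_I_ne, Complex.exp_sub, he, he]

theorem wnd_int {u : ℝ → ℂ} (hu : Continuous u) (hu0 : ∀ t, u t ≠ 0) {a b : ℝ} (h : u a = u b) :
    ∃ m : ℤ, wnd u a b = m := by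
  have h1 := exp_wnd hu hu0 a b
  rw [h, div_self (hu0 b), Complex.exp_eq_one_iff] at h1
  obtain ⟨m, hm⟩ := h1
  refine ⟨m, ?_⟩
  have h2 : (2 * Real.pi * I : ℂ) * wnd u a b = (2 * Real.pi * I : ℂ) * m := by
    rw [hm]
    ring
  exact mul_left_cancel₀ two_pi_I_ne h2

/-- homotopy invariance (endpoints may move with constant ratio) -/
theorem wnd_homotopy {u : ℝ → ℝ → ℂ} (hu : Continuous (Function.uncurry u))
    (hu0 : ∀ s t, u s t ≠ 0) {a b : ℝ} {c : ℂ} (hab : ∀ s, u s b = c * u s a) (s s' : ℝ) :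
    wnd (u s) a b = wnd (u s') a b := by
  obtain ⟨L, hL, he⟩ := exists_clog hu (fun y => hu0 y.1 y.2)
  have h1 : ∀ s, wnd (u s) a b = (L (s, b) - L (s, a)) / (2 * Real.pi * I) := by
    intro s
    exact wnd_eq (u := u s) (L := fun t => L (s, t)) (hL.comp (by fun_prop))
      (fun t => he (s, t)) a b
  have h2 : ∀ s, exp (L (s, b) - L (s, a)) = c := by
    intro s
    rw [Complex.exp_sub, he, he]
    simp only [Function.uncurry_apply_pair]
    rw [hab s, mul_div_cancel_right₀ _ (hu0 s a)]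
  have h3 : Continuous (fun s : ℝ => L (s, b) - L (s, a)) := by
    refine Continuous.sub (hL.comp ?_) (hL.comp ?_) <;> fun_prop
  rw [h1, h1, const_of_exp_const h3 h2 s s']

theorem wnd_period {u : ℝ → ℂ} (hu : Continuous u) (hu0 : ∀ t, u t ≠ 0) {T : ℝ}
    (hT : ∀ t, u (t + T) = u t) (a b : ℝ) : wnd u a (a + T) = wnd u b (b + T) := by
  obtain ⟨L, hL, he⟩ := exists_clog hu hu0
  rw [wnd_eq hL he, wnd_eq hL he]
  have h2 : ∀ t, exp (L (t + T) - L t) = 1 := by
    intro t
    rw [Complex.exp_sub, he, he, hT, div_self (hu0 t)]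
  have h3 : Continuous (fun t : ℝ => L (t + T) - L t) := by
    refine Continuous.sub (hL.comp ?_) hL
    fun_prop
  have h4 : L (a + T) - L a = L (b + T) - L b := const_of_exp_const h3 h2 a b
  rw [h4]

/-- a curve staying in the disc `|u - c| < |c|` has small winding, zero if closed -/
theorem wnd_eq_zero_of_near {u : ℝ → ℂ} (hu : Continuous u) {c : ℂ} (h : ∀ t, ‖u t - c‖ < ‖c‖)
    {a b : ℝ} (hab : u a = u b) : wnd u a b = 0 := by
  have hc : c ≠ 0 := by
    intro h0
    have := h 0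
    rw [h0, norm_zero] at this
    exact absurd this (not_lt.2 (norm_nonneg _))
  have hs : ∀ t, u t / c ∈ slitPlane := by
    intro t
    have h1 : u t / c = 1 + (u t - c) / c := by
      field_simp
      ring
    rw [h1]
    refine Complex.mem_slitPlane_of_norm_lt_one ?_
    rw [norm_div, div_lt_one (norm_pos_iff.2 hc)]
    exact h t
  have hL : Continuous (fun t => Complex.log c + Complex.log (u t / c)) := by
    refine continuous_const.add ?_
    exact Continuous.clog (hu.div_const c) hs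
  have hE : ∀ t, exp (Complex.log c + Complex.log (u t / c)) = u t := by
    intro t
    rw [Complex.exp_add, Complex.exp_log hc, Complex.exp_log (Complex.slitPlane_ne_zero (hs t)),
      mul_div_cancel₀ _ hc]
  rw [wnd_eq hL hE, hab]
  simp

end MP2d36f7
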