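import Pool.Agent.Lib_MP_2d36f7_ag.Lift
import Pool.Agent.Lib_MP_2d36f7_ag.Wind

/-! # Quasi-periodic lifts over loops, windings of root differences -/

open Polynomial Complex Set Filter Topology

namespace MP2d36f7

variable {k n : ℕ}

theorem lift_period (d : Dat k n) {x : ℝ → Fin k → ℂ} (_hx : Continuous x)
    (hxi : ∀ t, x t ∈ Inj k) (hper : ∀ t, d.F (x (t + 1)) = d.F (x t))
    {l : ℝ → Fin n → ℂ} (hl : IsLift d x l) :
    ∃ σ : Equiv.Perm (Fin n), ∀ t, l (t + 1) = l t ∘ σ := by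
  have hl' : IsLift d x (fun t => l (t + 1)) :=
    ⟨hl.cont.comp (continuous_id.add continuous_const), fun t => (hl.eq (t + 1)).trans (hper t)⟩
  exact lift_perm d hxi hl hl'

theorem lift_period_fact (d : Dat k n) {x : ℝ → Fin k → ℂ} (hx : Continuous x)
    (hxi : ∀ t, x t ∈ Inj k) (hper : ∀ t, d.F (x (t + 1)) = d.F (x t))
    {l : ℝ → Fin n → ℂ} (hl : IsLift d x l) (t : ℝ) : l (t + (n.factorial : ℝ)) = l t := by
  obtain ⟨σ, hσ⟩ := lift_period d hx hxi hper hl
  have h : ∀ m : ℕ, ∀ t : ℝ, l (t + (m : ℝ)) = l t ∘ (σ ^ m : Equiv.Perm (Fin n)) := by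
    intro m
    induction m with
    | zero =>
      intro t
      simp
    | succ m ih =>
      intro t
      have e : t + ((m + 1 : ℕ) : ℝ) = (t + m) + 1 := by push_cast; ring
      rw [e, hσ, ih, pow_succ, Equiv.Perm.coe_mul, Function.comp_assoc]
  have h1 : σ ^ n.factorial = 1 := by
    have h2 := pow_card_eq_one (x := σ)
    rwa [Fintype.card_perm, Fintype.card_fin] at h2
  rw [h, h1]
  rfl

theorem V_int (d : Dat k n) {x : ℝ → Fin k → ℂ} (hx : Continuous x)
    (hxi : ∀ t, x t ∈ Inj k) (hper : ∀ t, d.F (x (t + 1)) = d.F (x t))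
    {l : ℝ → Fin n → ℂ} (hl : IsLift d x l) {p q : Fin n} (hpq : p ≠ q) :
    ∃ m : ℤ, V l p q = m := by
  unfold V
  apply wnd_int
  · exact ((continuous_apply p).comp hl.cont).sub ((continuous_apply q).comp hl.cont)
  · intro t h0
    exact hpq (lift_inj d (hxi t) (hl.eq t) (sub_eq_zero.mp h0))
  · have h := lift_period_fact d hx hxi hper hl 0
    rw [zero_add] at h
    rw [h]

theorem V_symm (d : Dat k n) {x : ℝ → Fin k → ℂ} (hxi : ∀ t, x t ∈ Inj k)
    {l : ℝ → Fin n → ℂ} (hl : IsLift d x l) (p q : Fin n) : V l p q = V l q p := by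
  by_cases hpq : p = q
  · rw [hpq]
  · unfold V
    rw [← wnd_neg (u := fun t => l t q - l t p)]
    · congr 1
      funext t
      ring
    · exact ((continuous_apply q).comp hl.cont).sub ((continuous_apply p).comp hl.cont)
    · intro t h0
      exact hpq (lift_inj d (hxi t) (hl.eq t) (sub_eq_zero.mp h0)).symm

theorem triv_of_lift (d : Dat k n) {x : ℝ → Fin k → ℂ} (hxi : ∀ t, x t ∈ Inj k)
    {l : ℝ → Fin n → ℂ} (hl : IsLift d x l)
    (h : ∀ p q r s : Fin n, p ≠ q → r ≠ s → V l p q = V l r s) : Triv d x := by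
  intro l' hl' p q r s hpq hrs
  obtain ⟨σ, hσ⟩ := lift_perm d hxi hl hl'
  have e : ∀ a b : Fin n, V l' a b = V l (σ a) (σ b) := by
    intro a b
    unfold V
    congr 1
    funext t
    rw [hσ t]
    rfl
  rw [e, e]
  exact h _ _ _ _ (fun h0 => hpq (σ.injective h0)) (fun h0 => hrs (σ.injective h0))

theorem Loops_slice (d : Dat k n) {x : ℝ × ℝ → Fin k → ℂ} {l : ℝ × ℝ → Fin n → ℂ}
    (hl : IsLift d x l) (s : ℝ) : IsLift d (fun t => x (s, t)) (fun t => l (s, t)) :=
  ⟨hl.cont.comp (continuous_const.prodMk continuous_id), fun t => hl.eq (s, t)⟩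

/-- homotopy invariance of the windings `V` -/
theorem V_homotopy (d : Dat k n) {x : ℝ × ℝ → Fin k → ℂ} (hx : Continuous x)
    (hxi : ∀ y, x y ∈ Inj k) (hper : ∀ s t, d.F (x (s, t + 1)) = d.F (x (s, t)))
    {l : ℝ × ℝ → Fin n → ℂ} (hl : IsLift d x l) {p q : Fin n} (hpq : p ≠ q) (s s' : ℝ) :
    V (fun t => l (s, t)) p q = V (fun t => l (s', t)) p q := by
  unfold V
  refine wnd_homotopy (u := fun s t => l (s, t) p - l (s, t) q) (c := 1) ?_ ?_ ?_ s s'
  · exact ((continuous_apply p).comp hl.cont).sub ((continuous_apply q).comp hl.cont)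
  · intro s t h0
    exact hpq (lift_inj d (hxi (s, t)) (hl.eq (s, t)) (sub_eq_zero.mp h0))
  · intro s
    have h := lift_period_fact d (x := fun t => x (s, t)) (hx.comp (continuous_const.prodMk continuous_id))
      (fun t => hxi (s, t)) (hper s) (Loops_slice d hl s) 0
    rw [zero_add] at h
    rw [h, one_mul]

theorem triv_homotopy (d : Dat k n) {x : ℝ × ℝ → Fin k → ℂ} (hx : Continuous x)
    (hxi : ∀ y, x y ∈ Inj k) (hper : ∀ s t, d.F (x (s, t + 1)) = d.F (x (s, t))) (s s' : ℝ) :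
    Triv d (fun t => x (s, t)) ↔ Triv d (fun t => x (s', t)) := by
  obtain ⟨l₀, -, h₀⟩ := d.reg (x (0, 0)) (hxi _)
  obtain ⟨l, hl, -⟩ := exists_lift d hx hxi (0, 0) h₀
  have key : ∀ a b : ℝ, Triv d (fun t => x (a, t)) → Triv d (fun t => x (b, t)) := by
    intro a b h
    refine triv_of_lift d (fun t => hxi (b, t)) (Loops_slice d hl b) ?_
    intro p q r s hpq hrs
    rw [V_homotopy d hx hxi hper hl hpq b a, V_homotopy d hx hxi hper hl hrs b a]
    exact h _ (Loops_slice d hl a) p q r s hpq hrs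
  exact ⟨key s s', key s' s⟩

/-- `Triv` only depends on `F ∘ x` -/
theorem triv_congr (d : Dat k n) {x x' : ℝ → Fin k → ℂ} (h : ∀ t, d.F (x t) = d.F (x' t)) :
    Triv d x ↔ Triv d x' := by
  constructor
  · intro hT l hl
    exact hT l ⟨hl.cont, fun t => (hl.eq t).trans (h t).symm⟩
  · intro hT l hl
    exact hT l ⟨hl.cont, fun t => (hl.eq t).trans (h t)⟩

end MP2d36f7
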