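import Mathlib
import Pool.Agent.Lib_MP_2d36f7_ag.Defs
import Pool.Agent.Lib_MP_2d36f7_ag.Coef
import Pool.Agent.Lib_MP_2d36f7_ag.Wind

/-!
# Basic facts on half twists and rotations of the base configuration
-/

open Polynomial Complex Set Filter Topology

namespace MP2d36f7

theorem x0_mem (k : ℕ) : x0 k ∈ Inj k := by
  intro a b h
  simp only [x0, Nat.cast_inj] at h
  exact Fin.ext h

theorem tw_zero (k m : ℕ) : tw k m 0 = x0 k := by
  funext i
  unfold tw x0
  split_ifs with h1 h2
  · rw [h1]; simp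
  · rw [h2]; push_cast; simp; ring
  · rfl

theorem continuous_tw (k m : ℕ) : Continuous (tw k m) := by
  refine continuous_pi fun i => ?_
  unfold tw
  split_ifs with h1 h2
  · fun_prop
  · fun_prop
  · fun_prop

theorem rot_zero (k j : ℕ) : rot k j 0 = x0 k := by
  funext i
  unfold rot x0
  split_ifs with h1
  · simp
  · rfl

theorem continuous_rot (k j : ℕ) : Continuous (rot k j) := by
  refine continuous_pi fun i => ?_
  unfold rot
  split_ifs with h1
  · fun_prop
  · fun_prop

theorem TwRot.norm_exp (t : ℝ) : ‖exp (2 * Real.pi * I * t)‖ = 1 := by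
  rw [Complex.norm_exp]
  simp

theorem TwRot.norm_exp' (t : ℝ) : ‖exp (Real.pi * I * t)‖ = 1 := by
  rw [Complex.norm_exp]
  simp

theorem TwRot.norm_rot (k j : ℕ) (t : ℝ) (i : Fin k) : ‖rot k j t i‖ = (i : ℕ) := by
  unfold rot
  split_ifs with h1
  · rw [norm_mul, TwRot.norm_exp, one_mul, Complex.norm_natCast]
  · rw [Complex.norm_natCast]

theorem rot_mem (k j : ℕ) (t : ℝ) : rot k j t ∈ Inj k := by
  intro a b h
  have h1 := congrArg norm h
  rw [TwRot.norm_rot, TwRot.norm_rot, Nat.cast_inj] at h1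
  exact Fin.ext h1

theorem rot_add_one (k j : ℕ) (t : ℝ) : rot k j (t + 1) = rot k j t := by
  funext i
  unfold rot
  have h : exp (2 * Real.pi * I * ((t + 1 : ℝ) : ℂ)) = exp (2 * Real.pi * I * t) := by
    push_cast
    rw [mul_add, mul_one, Complex.exp_add, Complex.exp_two_pi_mul_I, mul_one]
  rw [h]

theorem rot_self (k : ℕ) (t : ℝ) : rot k k t = exp (2 * Real.pi * I * t) • x0 k := by
  funext i
  unfold rot x0
  rw [if_pos i.2]
  rfl

theorem TwRot.exp_add_one (t : ℝ) :
    exp (Real.pi * I * ((t + 1 : ℝ) : ℂ)) = - exp (Real.pi * I * t) := by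
  push_cast
  rw [mul_add, mul_one, Complex.exp_add, Complex.exp_pi_mul_I]
  ring

theorem tw_add_one {k m : ℕ} (hm : m + 1 < k) (t : ℝ) :
    tw k m (t + 1) = tw k m t ∘ (Equiv.swap (⟨m, by omega⟩ : Fin k) ⟨m + 1, hm⟩) := by
  funext i
  rw [Function.comp_apply]
  by_cases h1 : i = (⟨m, by omega⟩ : Fin k)
  · subst h1
    rw [Equiv.swap_apply_left]
    unfold tw
    rw [TwRot.exp_add_one]
    simp only [if_true]
    rw [if_neg (by omega)]
    ring
  · by_cases h2 : i = (⟨m + 1, hm⟩ : Fin k)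
    · subst h2
      rw [Equiv.swap_apply_right]
      unfold tw
      rw [TwRot.exp_add_one]
      simp only [if_true]
      rw [if_neg (by omega)]
      ring
    · rw [Equiv.swap_apply_of_ne_of_ne h1 h2]
      have h3 : (i : ℕ) ≠ m := fun h => h1 (Fin.ext h)
      have h4 : (i : ℕ) ≠ m + 1 := fun h => h2 (Fin.ext h)
      unfold tw
      rw [if_neg h3, if_neg h4, if_neg h3, if_neg h4]

/-- the centre about which the point `l` moves, a half integer -/
noncomputable def TwRot.ctr (m l : ℕ) : ℝ := if l = m ∨ l = m + 1 then (m : ℝ) + 1 / 2 else l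

/-- the radius -/
noncomputable def TwRot.rad (m l : ℕ) : ℝ := if l = m ∨ l = m + 1 then 1 / 2 else 0

theorem TwRot.dist_ctr (k m : ℕ) (t : ℝ) (i : Fin k) :
    ‖tw k m t i - (TwRot.ctr m i : ℂ)‖ = TwRot.rad m i := by
  unfold tw TwRot.ctr TwRot.rad
  by_cases h1 : (i : ℕ) = m
  · rw [if_pos h1, if_pos (Or.inl h1), if_pos (Or.inl h1)]
    push_cast
    have : (m : ℂ) + 1 / 2 - 1 / 2 * exp (Real.pi * I * t) - (m + 1 / 2) =
      - (1 / 2 * exp (Real.pi * I * t)) := by ring
    rw [this, norm_neg, norm_mul, TwRot.norm_exp']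
    norm_num
  · by_cases h2 : (i : ℕ) = m + 1
    · rw [if_neg h1, if_pos h2, if_pos (Or.inr h2), if_pos (Or.inr h2)]
      push_cast
      have : (m : ℂ) + 1 / 2 + 1 / 2 * exp (Real.pi * I * t) - (m + 1 / 2) =
        (1 / 2 * exp (Real.pi * I * t)) := by ring
      rw [this, norm_mul, TwRot.norm_exp']
      norm_num
    · have h3 : ¬ ((i : ℕ) = m ∨ (i : ℕ) = m + 1) := by omega
      rw [if_neg h1, if_neg h2, if_neg h3, if_neg h3]
      simp

theorem TwRot.ctr_far {m a b : ℕ} (hab : a ≠ b)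
    (h : ¬ ((a = m ∨ a = m + 1) ∧ (b = m ∨ b = m + 1))) :
    TwRot.rad m a + TwRot.rad m b < |TwRot.ctr m a - TwRot.ctr m b| := by
  unfold TwRot.rad TwRot.ctr
  by_cases ha : (a = m ∨ a = m + 1)
  · have hb : ¬ (b = m ∨ b = m + 1) := fun hb => h ⟨ha, hb⟩
    rw [if_pos ha, if_pos ha, if_neg hb, if_neg hb]
    rcases lt_or_ge b m with h1 | h1
    · have h2 : (b : ℝ) + 1 ≤ m := by exact_mod_cast h1
      rw [abs_of_nonneg (by linarith)]
      linarith
    · have h2 : (m : ℝ) + 2 ≤ b := by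
        have : m + 2 ≤ b := by omega
        exact_mod_cast this
      rw [abs_of_nonpos (by linarith)]
      linarith
  · by_cases hb : (b = m ∨ b = m + 1)
    · rw [if_neg ha, if_neg ha, if_pos hb, if_pos hb]
      rcases lt_or_ge a m with h1 | h1
      · have h2 : (a : ℝ) + 1 ≤ m := by exact_mod_cast h1
        rw [abs_of_nonpos (by linarith)]
        linarith
      · have h2 : (m : ℝ) + 2 ≤ a := by
          have : m + 2 ≤ a := by omega
          exact_mod_cast this
        rw [abs_of_nonneg (by linarith)]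
        linarith
    · rw [if_neg ha, if_neg ha, if_neg hb, if_neg hb]
      have : (a : ℝ) - b ≠ 0 := by
        rw [sub_ne_zero]
        exact_mod_cast hab
      simpa using this

theorem TwRot.near (k m : ℕ) (t : ℝ) {a b : Fin k} (hab : a ≠ b)
    (h : ¬ (((a : ℕ) = m ∨ (a : ℕ) = m + 1) ∧ ((b : ℕ) = m ∨ (b : ℕ) = m + 1))) :
    ‖(tw k m t a - tw k m t b) - ((TwRot.ctr m a - TwRot.ctr m b : ℝ) : ℂ)‖ <
      ‖((TwRot.ctr m a - TwRot.ctr m b : ℝ) : ℂ)‖ := by
  have h1 : (tw k m t a - tw k m t b) - ((TwRot.ctr m a - TwRot.ctr m b : ℝ) : ℂ) =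
      (tw k m t a - (TwRot.ctr m a : ℂ)) - (tw k m t b - (TwRot.ctr m b : ℂ)) := by
    push_cast; ring
  rw [h1, Complex.norm_real, Real.norm_eq_abs]
  refine lt_of_le_of_lt (norm_sub_le _ _) ?_
  rw [TwRot.dist_ctr, TwRot.dist_ctr]
  exact TwRot.ctr_far (fun h => hab (Fin.ext h)) h

theorem TwRot.special (k m : ℕ) (t : ℝ) {a b : Fin k} (ha : (a : ℕ) = m) (hb : (b : ℕ) = m + 1) :
    tw k m t a - tw k m t b = - exp (Real.pi * I * t) := by
  unfold tw
  rw [if_pos ha, if_neg (by omega), if_pos hb]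
  ring

theorem TwRot.sub_ne (k m : ℕ) (t : ℝ) {a b : Fin k} (hab : a ≠ b) :
    tw k m t a - tw k m t b ≠ 0 := by
  by_cases h : (((a : ℕ) = m ∨ (a : ℕ) = m + 1) ∧ ((b : ℕ) = m ∨ (b : ℕ) = m + 1))
  · have hab' : (a : ℕ) ≠ b := fun h => hab (Fin.ext h)
    obtain ⟨ha, hb⟩ := h
    rcases ha with ha | ha
    · have hb' : (b : ℕ) = m + 1 := by omega
      rw [TwRot.special k m t ha hb']
      exact neg_ne_zero.2 (Complex.exp_ne_zero _)
    · have hb' : (b : ℕ) = m := by omega
      rw [← neg_ne_zero, neg_sub, TwRot.special k m t hb' ha]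
      exact neg_ne_zero.2 (Complex.exp_ne_zero _)
  · intro h0
    have := TwRot.near k m t hab h
    rw [h0, zero_sub, norm_neg] at this
    exact lt_irrefl _ this

theorem tw_mem {k m : ℕ} (t : ℝ) : tw k m t ∈ Inj k := by
  intro a b h
  by_contra hab
  exact TwRot.sub_ne k m t hab (sub_eq_zero.2 h)

theorem TwRot.tw_add_two (k m : ℕ) (t : ℝ) : tw k m (t + 2) = tw k m t := by
  have h : exp (Real.pi * I * ((t + 2 : ℝ) : ℂ)) = exp (Real.pi * I * t) := by
    have h2 : (t + 2 : ℝ) = (t + 1) + 1 := by ring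
    rw [h2, TwRot.exp_add_one, TwRot.exp_add_one, neg_neg]
  funext i
  unfold tw
  rw [h]

theorem TwRot.cont_sub (k m : ℕ) (a b : Fin k) :
    Continuous (fun t => tw k m t a - tw k m t b) :=
  ((continuous_apply a).comp (continuous_tw k m)).sub
    ((continuous_apply b).comp (continuous_tw k m))

theorem TwRot.wnd_pair (k m : ℕ) {a b : Fin k} (hab : a < b) :
    wnd (fun t => tw k m t a - tw k m t b) 0 2 =
      if (a : ℕ) = m ∧ (b : ℕ) = m + 1 then 1 else 0 := by
  have hab' : (a : ℕ) < b := hab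
  by_cases h : (((a : ℕ) = m ∨ (a : ℕ) = m + 1) ∧ ((b : ℕ) = m ∨ (b : ℕ) = m + 1))
  · have ha : (a : ℕ) = m := by omega
    have hb : (b : ℕ) = m + 1 := by omega
    rw [if_pos ⟨ha, hb⟩]
    have e : (fun t => tw k m t a - tw k m t b) = fun t : ℝ => - exp (Real.pi * I * t) := by
      funext t; exact TwRot.special k m t ha hb
    rw [e, wnd_neg (by fun_prop) (fun t => Complex.exp_ne_zero _),
      wnd_exp (L := fun t : ℝ => Real.pi * I * t) (by fun_prop)]
    have hpi : (Real.pi : ℂ) ≠ 0 := by exact_mod_cast Real.pi_ne_zero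
    have hI := Complex.I_ne_zero
    push_cast
    field_simp
    simp
  · rw [if_neg (by omega)]
    refine wnd_eq_zero_of_near (TwRot.cont_sub k m a b)
      (fun t => TwRot.near k m t (ne_of_lt hab) h) ?_
    have := TwRot.tw_add_two k m 0
    rw [zero_add] at this
    simp only [this]

theorem wnd_dsc_tw {k m : ℕ} (hm : m + 1 < k) : wnd (fun t => dsc (tw k m t)) 0 1 = 1 := by
  have hc : Continuous (fun t => dsc (tw k m t)) := (continuous_dsc k).comp (continuous_tw k m)
  have h0 : ∀ t, dsc (tw k m t) ≠ 0 := fun t => (dsc_ne_zero_iff _).2 (tw_mem t)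
  have hper : ∀ t : ℝ, dsc (tw k m (t + 1)) = dsc (tw k m t) := by
    intro t
    rw [tw_add_one hm, dsc_perm]
  have h1 : wnd (fun t => dsc (tw k m t)) 0 2 = 2 * wnd (fun t => dsc (tw k m t)) 0 1 := by
    have e1 := wnd_add (fun t => dsc (tw k m t)) 0 1 2
    have e2 := wnd_period hc h0 hper 0 1
    rw [← e1]
    norm_num at e2
    rw [← e2]
    ring
  have h2 : wnd (fun t => dsc (tw k m t)) 0 2 =
      ∑ p : Fin k, ∑ q : Fin k, if p < q then
        (if (p : ℕ) = m ∧ (q : ℕ) = m + 1 then 2 else 0) else 0 := by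
    unfold dsc
    rw [wnd_prod (s := Finset.univ)
      (u := fun (p : Fin k) (t : ℝ) => ∏ q, if p < q then (tw k m t p - tw k m t q) ^ 2 else 1)]
    · refine Finset.sum_congr rfl fun p _ => ?_
      rw [wnd_prod (s := Finset.univ)
        (u := fun (q : Fin k) (t : ℝ) => if p < q then (tw k m t p - tw k m t q) ^ 2 else 1)]
      · refine Finset.sum_congr rfl fun q _ => ?_
        by_cases hpq : p < q
        · simp only [if_pos hpq]
          rw [wnd_pow (TwRot.cont_sub k m p q) (fun t => TwRot.sub_ne k m t (ne_of_lt hpq)),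
            TwRot.wnd_pair k m hpq]
          split_ifs <;> simp
        · simp only [if_neg hpq]
          exact wnd_const 1 0 2
      · intro q _
        by_cases hpq : p < q
        · simp only [if_pos hpq]
          exact (TwRot.cont_sub k m p q).pow 2
        · simp only [if_neg hpq]
          exact continuous_const
      · intro q _ t
        by_cases hpq : p < q
        · simp only [if_pos hpq]
          exact pow_ne_zero _ (TwRot.sub_ne k m t (ne_of_lt hpq))
        · simp only [if_neg hpq]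
          exact one_ne_zero
    · intro p _
      refine continuous_finsetProd _ fun q _ => ?_
      by_cases hpq : p < q
      · simp only [if_pos hpq]
        exact (TwRot.cont_sub k m p q).pow 2
      · simp only [if_neg hpq]
        exact continuous_const
    · intro p _ t
      refine Finset.prod_ne_zero_iff.2 fun q _ => ?_
      by_cases hpq : p < q
      · simp only [if_pos hpq]
        exact pow_ne_zero _ (TwRot.sub_ne k m t (ne_of_lt hpq))
      · simp only [if_neg hpq]
        exact one_ne_zero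
  have h3 : (∑ p : Fin k, ∑ q : Fin k, if p < q then
        (if (p : ℕ) = m ∧ (q : ℕ) = m + 1 then (2 : ℂ) else 0) else 0) = 2 := by
    rw [Finset.sum_eq_single (⟨m, by omega⟩ : Fin k)]
    · rw [Finset.sum_eq_single (⟨m + 1, hm⟩ : Fin k)]
      · have hlt : (⟨m, by omega⟩ : Fin k) < ⟨m + 1, hm⟩ := Fin.mk_lt_mk.2 (Nat.lt_succ_self m)
        rw [if_pos hlt, if_pos ⟨rfl, rfl⟩]
      · intro q _ hq
        have : (q : ℕ) ≠ m + 1 := fun h => hq (Fin.ext h)
        rw [if_neg (c := ((⟨m, by omega⟩ : Fin k) : ℕ) = m ∧ (q : ℕ) = m + 1) (fun h => this h.2)]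
        split_ifs <;> rfl
      · intro h; exact absurd (Finset.mem_univ _) h
    · intro p _ hp
      have : (p : ℕ) ≠ m := fun h => hp (Fin.ext h)
      refine Finset.sum_eq_zero fun q _ => ?_
      rw [if_neg (c := (p : ℕ) = m ∧ (q : ℕ) = m + 1) (fun h => this h.1)]
      split_ifs <;> rfl
    · intro h; exact absurd (Finset.mem_univ _) h
  rw [h2, h3] at h1
  have h4 : (2 : ℂ) * 1 = 2 * wnd (fun t => dsc (tw k m t)) 0 1 := by rw [← h1, mul_one]
  exact (mul_left_cancel₀ two_ne_zero h4).symm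

theorem wnd_dsc_rot_self (k : ℕ) : wnd (fun t => dsc (rot k k t)) 0 1 = (k : ℂ) * (k - 1) := by
  have hd : dsc (x0 k) ≠ 0 := (dsc_ne_zero_iff _).2 (x0_mem k)
  rw [wnd_eq (L := fun t : ℝ => ((k * (k - 1) : ℕ) : ℂ) * (2 * Real.pi * I * t) + log (dsc (x0 k)))
    (by fun_prop)]
  · have hpi : (Real.pi : ℂ) ≠ 0 := by exact_mod_cast Real.pi_ne_zero
    have hI := Complex.I_ne_zero
    have hk : ((k * (k - 1) : ℕ) : ℂ) = (k : ℂ) * (k - 1) := by
      rcases Nat.eq_zero_or_pos k with h | h
      · subst h; simp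
      · rw [Nat.cast_mul, Nat.cast_sub h]; simp
    rw [hk]
    push_cast
    field_simp
    ring
  · intro t
    rw [Complex.exp_add, Complex.exp_log hd, rot_self, dsc_smul, ← Complex.exp_nat_mul]

end MP2d36f7
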