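import Mathlib
import Pool.Agent.Lib_MP_2d36f7_ag.Coef
import Pool.Agent.Lib_MP_2d36f7_ag.Lift
import Pool.Agent.Lib_MP_2d36f7_ag.Loops
import Pool.Agent.Lib_MP_2d36f7_ag.TwRot

/-!
# Rotations of the first points commute with the half twists of the other pairs
-/

open Polynomial Complex Set Filter Topology

namespace MP2d36f7

variable {k n : ℕ}

/-- the two parameter family: half twist followed by a rotation -/
private noncomputable def commH (k j m : ℕ) (y : ℝ × ℝ) : Fin k → ℂ := fun i =>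
  if (i : ℕ) < j then exp (2 * Real.pi * I * y.2) * tw k m y.1 i else tw k m y.1 i

private theorem continuous_commH (k j m : ℕ) : Continuous (commH k j m) := by
  refine continuous_pi fun i => ?_
  have ht : Continuous fun y : ℝ × ℝ => tw k m y.1 i :=
    (continuous_apply i).comp ((continuous_tw k m).comp continuous_fst)
  by_cases h : (i : ℕ) < j
  · simp only [commH, h, if_true]
    exact (Complex.continuous_exp.comp (by fun_prop)).mul ht
  · simp only [commH, h, if_false]
    exact ht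

private theorem norm_exp_two_pi_mul_I (t : ℝ) : ‖exp (2 * Real.pi * I * t)‖ = 1 := by
  rw [show (2 * Real.pi * I * t : ℂ) = ((2 * Real.pi * t : ℝ) : ℂ) * I by push_cast; ring]
  exact Complex.norm_exp_ofReal_mul_I _

private theorem norm_exp_pi_mul_I (t : ℝ) : ‖exp (Real.pi * I * t)‖ = 1 := by
  rw [show (Real.pi * I * t : ℂ) = ((Real.pi * t : ℝ) : ℂ) * I by push_cast; ring]
  exact Complex.norm_exp_ofReal_mul_I _

private theorem tw_norm_le {k m j : ℕ} (hmj : m + 1 < j) (s : ℝ) (a : Fin k) (ha : (a : ℕ) < j) :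
    ‖tw k m s a‖ ≤ (j : ℝ) - 1 := by
  have h1 : (m : ℝ) + 1 ≤ (j : ℝ) - 1 := by
    have : m + 2 ≤ j := hmj
    have : ((m + 2 : ℕ) : ℝ) ≤ (j : ℝ) := by exact_mod_cast this
    push_cast at this
    linarith
  have h2 : ‖((m : ℂ) + 1 / 2 : ℂ)‖ = (m : ℝ) + 1 / 2 := by
    rw [show ((m : ℂ) + 1 / 2 : ℂ) = (((m : ℝ) + 1 / 2 : ℝ) : ℂ) by push_cast; ring,
      Complex.norm_real, Real.norm_eq_abs, abs_of_nonneg (by positivity)]
  have h3 : ‖(1 / 2 * exp (Real.pi * I * s) : ℂ)‖ = 1 / 2 := by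
    rw [norm_mul, norm_exp_pi_mul_I]
    norm_num
  simp only [tw]
  split_ifs with c1 c2
  · refine (norm_sub_le _ _).trans ?_
    rw [h2, h3]
    linarith
  · refine (norm_add_le _ _).trans ?_
    rw [h2, h3]
    linarith
  · rw [Complex.norm_natCast]
    have : (a : ℕ) + 1 ≤ j := ha
    have : (((a : ℕ) + 1 : ℕ) : ℝ) ≤ (j : ℝ) := by exact_mod_cast this
    push_cast at this
    linarith

private theorem le_norm_tw {k m j : ℕ} (hmj : j ≤ m) (s : ℝ) (a : Fin k) (ha : j ≤ (a : ℕ)) :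
    (j : ℝ) ≤ ‖tw k m s a‖ := by
  have h1 : (j : ℝ) ≤ (m : ℝ) := by exact_mod_cast hmj
  have h2 : ‖((m : ℂ) + 1 / 2 : ℂ)‖ = (m : ℝ) + 1 / 2 := by
    rw [show ((m : ℂ) + 1 / 2 : ℂ) = (((m : ℝ) + 1 / 2 : ℝ) : ℂ) by push_cast; ring,
      Complex.norm_real, Real.norm_eq_abs, abs_of_nonneg (by positivity)]
  have h3 : ‖(1 / 2 * exp (Real.pi * I * s) : ℂ)‖ = 1 / 2 := by
    rw [norm_mul, norm_exp_pi_mul_I]
    norm_num
  simp only [tw]
  split_ifs with c1 c2
  · have := norm_sub_norm_le ((m : ℂ) + 1 / 2 : ℂ) (1 / 2 * exp (Real.pi * I * s) : ℂ)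
    rw [h2, h3] at this
    linarith
  · have := norm_sub_le_norm_add ((m : ℂ) + 1 / 2 : ℂ) (1 / 2 * exp (Real.pi * I * s) : ℂ)
    rw [h2, h3] at this
    linarith
  · rw [Complex.norm_natCast]
    exact_mod_cast ha

private theorem commH_mem {k j m : ℕ} (hne : m + 1 ≠ j) (y : ℝ × ℝ) : commH k j m y ∈ Inj k := by
  have hinj : Function.Injective (tw k m y.1) := tw_mem (k := k) (m := m) y.1
  have hE : exp (2 * Real.pi * I * y.2) ≠ 0 := Complex.exp_ne_zero _
  -- the moduli separate the two groups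
  have key : ∀ a b : Fin k, (a : ℕ) < j → ¬ ((b : ℕ) < j) → ‖tw k m y.1 a‖ < ‖tw k m y.1 b‖ := by
    intro a b ha hb
    push Not at hb
    rcases lt_or_gt_of_ne hne with h | h
    · have h1 := tw_norm_le h y.1 a ha
      have h2 : tw k m y.1 b = ((b : ℕ) : ℂ) := by
        simp only [tw]
        rw [if_neg (by omega), if_neg (by omega)]
      rw [h2, Complex.norm_natCast]
      have : (j : ℝ) ≤ ((b : ℕ) : ℝ) := by exact_mod_cast hb
      linarith
    · have h1 := le_norm_tw (k := k) (m := m) (j := j) (by omega) y.1 b hb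
      have h2 : tw k m y.1 a = ((a : ℕ) : ℂ) := by
        simp only [tw]
        rw [if_neg (by omega), if_neg (by omega)]
      rw [h2, Complex.norm_natCast]
      have : ((a : ℕ) : ℝ) < (j : ℝ) := by exact_mod_cast ha
      linarith
  intro a b hab
  simp only [commH] at hab
  by_cases ha : (a : ℕ) < j <;> by_cases hb : (b : ℕ) < j
  · rw [if_pos ha, if_pos hb] at hab
    exact hinj (mul_left_cancel₀ hE hab)
  · rw [if_pos ha, if_neg hb] at hab
    have := key a b ha hb
    rw [← hab, norm_mul, norm_exp_two_pi_mul_I, one_mul] at this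
    exact absurd this (lt_irrefl _)
  · rw [if_neg ha, if_pos hb] at hab
    have := key b a hb ha
    rw [hab, norm_mul, norm_exp_two_pi_mul_I, one_mul] at this
    exact absurd this (lt_irrefl _)
  · rw [if_neg ha, if_neg hb] at hab
    exact hinj hab

private theorem commH_add_one (k j m : ℕ) (s t : ℝ) : commH k j m (s, t + 1) = commH k j m (s, t) := by
  funext i
  simp only [commH]
  rw [show (2 * Real.pi * I * ((t + 1 : ℝ) : ℂ) : ℂ) = 2 * Real.pi * I * t + 2 * Real.pi * I by
    push_cast; ring, Complex.exp_add, Complex.exp_two_pi_mul_I, mul_one]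

private theorem commH_zero_left (k j m : ℕ) (t : ℝ) : commH k j m (0, t) = rot k j t := by
  funext i
  simp only [commH, rot, tw_zero, x0]

private theorem commH_zero_right (k j m : ℕ) (s : ℝ) : commH k j m (s, 0) = tw k m s := by
  funext i
  simp [commH]

private theorem commH_one_left {k j m : ℕ} (hm : m + 1 < k) (hne : m + 1 ≠ j) (t : ℝ) :
    commH k j m (1, t) =
      rot k j t ∘ (Equiv.swap (⟨m, by omega⟩ : Fin k) ⟨m + 1, hm⟩) := by
  have h1 : tw k m 1 = x0 k ∘ (Equiv.swap (⟨m, by omega⟩ : Fin k) ⟨m + 1, hm⟩) := by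
    have := tw_add_one hm 0
    rw [zero_add, tw_zero] at this
    exact this
  funext i
  simp only [commH, h1, Function.comp, rot, x0]
  have h2 : ((Equiv.swap (⟨m, by omega⟩ : Fin k) ⟨m + 1, hm⟩ i : Fin k) : ℕ) < j ↔ (i : ℕ) < j := by
    rcases eq_or_ne i ⟨m, by omega⟩ with h | h
    · subst h
      rw [Equiv.swap_apply_left]
      simp only
      omega
    · rcases eq_or_ne i ⟨m + 1, hm⟩ with h' | h'
      · subst h'
        rw [Equiv.swap_apply_right]
        simp only
        omega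
      · rw [Equiv.swap_apply_of_ne_of_ne h h']
  by_cases hi : (i : ℕ) < j
  · rw [if_pos hi, if_pos (h2.2 hi)]
  · rw [if_neg hi, if_neg (fun h => hi (h2.1 h))]

theorem comm_inv (d : Dat k n) {j m : ℕ} (hjk : j ≤ k) (hm : m + 1 < k) (hne : m + 1 ≠ j)
    {r : ℝ → Fin n → ℂ} (hr : IsLift d (rot k j) r) {l : ℝ → Fin n → ℂ} (hl : IsLift d (tw k m) l)
    (h0 : l 0 = r 0) {σ : Equiv.Perm (Fin n)} (h1 : l 1 = l 0 ∘ σ) {p q : Fin n} (hpq : p ≠ q) :
    V r (σ p) (σ q) = V r p q := by
  have hHc := continuous_commH k j m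
  have hHi : ∀ y, commH k j m y ∈ Inj k := commH_mem hne
  obtain ⟨Λ, hΛ, hΛ0⟩ := exists_lift d hHc hHi (0, 0) (l₀ := r 0) (by
    rw [hr.eq 0, commH_zero_left])
  -- the edge `s = 0`
  have e1 : ∀ t, Λ (0, t) = r t := by
    have h : IsLiftOn d univ (rot k j) (fun t : ℝ => Λ (0, t)) :=
      ⟨(hΛ.cont.comp (by fun_prop)).continuousOn, fun t _ => by
        rw [hΛ.eq, commH_zero_left]⟩
    have h' : IsLiftOn d univ (rot k j) r := ⟨hr.cont.continuousOn, fun t _ => hr.eq t⟩
    have := liftOn_eqOn d isPreconnected_univ (fun t _ => rot_mem k j t) h h' (mem_univ (0 : ℝ))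
      hΛ0
    exact fun t => this (mem_univ t)
  -- the edge `t = 0`
  have e2 : ∀ s, Λ (s, 0) = l s := by
    have h : IsLiftOn d univ (tw k m) (fun s : ℝ => Λ (s, 0)) :=
      ⟨(hΛ.cont.comp (by fun_prop)).continuousOn, fun s _ => by
        rw [hΛ.eq, commH_zero_right]⟩
    have h' : IsLiftOn d univ (tw k m) l := ⟨hl.cont.continuousOn, fun t _ => hl.eq t⟩
    have := liftOn_eqOn d isPreconnected_univ (fun t _ => tw_mem t) h h' (mem_univ (0 : ℝ))
      (hΛ0.trans h0.symm)
    exact fun t => this (mem_univ t)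
  -- the edge `s = 1`
  have e3 : ∀ t, Λ (1, t) = r t ∘ σ := by
    have h : IsLiftOn d univ (rot k j) (fun t : ℝ => Λ (1, t)) :=
      ⟨(hΛ.cont.comp (by fun_prop)).continuousOn, fun t _ => by
        rw [hΛ.eq, commH_one_left hm hne, d.symm _ (rot_mem k j t)]⟩
    have h' : IsLiftOn d univ (rot k j) (fun t => r t ∘ σ) :=
      ⟨(continuous_pi fun i => (continuous_apply (σ i)).comp hr.cont).continuousOn, fun t _ => by
        rw [coef_perm, hr.eq t]⟩
    have := liftOn_eqOn d isPreconnected_univ (fun t _ => rot_mem k j t) h h' (mem_univ (0 : ℝ))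
      (by
        show Λ (1, 0) = r 0 ∘ σ
        rw [e2, h1, h0])
    exact fun t => this (mem_univ t)
  have hV := V_homotopy d hHc hHi (fun s t => by rw [commH_add_one]) hΛ hpq 1 0
  have e1' : (fun t => Λ (0, t)) = r := funext e1
  have e3' : (fun t => Λ (1, t)) = fun t => r t ∘ σ := funext e3
  rw [e1', e3'] at hV
  exact hV

end MP2d36f7
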