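import Mathlib

/-! Bloch and Schottky theorems. -/

namespace MP2d36f7

open Complex Metric Set

/-- holomorphic logarithm on a disc -/
theorem sch_log {f : ℂ → ℂ} {a : ℂ} {r : ℝ} (hr : 0 < r) (hf : DifferentiableOn ℂ f (ball a r))
    (h0 : ∀ z ∈ ball a r, f z ≠ 0) (c : ℂ) (hc : exp c = f a) :
    ∃ g : ℂ → ℂ, DifferentiableOn ℂ g (ball a r) ∧ g a = c ∧
      ∀ z ∈ ball a r, exp (g z) = f z := by
  have hd : DifferentiableOn ℂ (fun z => deriv f z / f z) (ball a r) :=
    (hf.deriv isOpen_ball).div hf h0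
  obtain ⟨g, hga, hg⟩ := hd.isExactOn_ball.with_val_at a c
  have hgd : DifferentiableOn ℂ g (ball a r) := fun z hz =>
    (hg z hz).differentiableAt.differentiableWithinAt
  refine ⟨g, hgd, hga, ?_⟩
  have hq : ∀ z ∈ ball a r, HasDerivAt (fun z => exp (-g z) * f z) 0 z := by
    intro z hz
    have h1 : HasDerivAt f (deriv f z) z :=
      (hf.differentiableAt (isOpen_ball.mem_nhds hz)).hasDerivAt
    have h2 := ((hg z hz).fun_neg.cexp).mul h1
    have e : exp (-g z) * -(deriv f z / f z) * f z + exp (-g z) * deriv f z = 0 := by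
      have := h0 z hz
      field_simp
      ring
    rw [e] at h2
    exact h2
  intro z hz
  have hconst := isOpen_ball.is_const_of_deriv_eq_zero (convex_ball a r).isPreconnected
    (fun w hw => (hq w hw).differentiableAt.differentiableWithinAt)
    (fun w hw => (hq w hw).deriv) hz (mem_ball_self hr)
  rw [hga, ← hc, ← exp_add, neg_add_cancel, exp_zero] at hconst
  rw [exp_neg] at hconst
  have h3 := exp_ne_zero (g z)
  field_simp at hconst
  exact hconst.symm

/-- Landau type lemma -/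
theorem sch_landau {f : ℂ → ℂ} {a : ℂ} {R : ℝ} (hR : 0 < R)
    (hf : DifferentiableOn ℂ f (ball a R))
    (hb : ∀ z ∈ ball a R, ‖deriv f z‖ ≤ 2 * ‖deriv f a‖) (hne : deriv f a ≠ 0) :
    ball (f a) (R * ‖deriv f a‖ / 24) ⊆ f '' ball a R := by
  set D := ‖deriv f a‖ with hD
  have hD0 : 0 < D := norm_pos_iff.2 hne
  have hda : DifferentiableOn ℂ (deriv f) (ball a R) := hf.deriv isOpen_ball
  have hmaps : MapsTo (deriv f) (ball a R) (closedBall (deriv f a) (3 * D)) := by
    intro z hz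
    rw [mem_closedBall, dist_eq_norm]
    have h1 := norm_sub_le (deriv f z) (deriv f a)
    have h2 := hb z hz
    linarith
  have hschw : ∀ z ∈ ball a R, ‖deriv f z - deriv f a‖ ≤ 3 * D / R * ‖z - a‖ := by
    intro z hz
    have := dist_le_div_mul_dist_of_mapsTo_ball hda hmaps hz
    rwa [dist_eq_norm, dist_eq_norm] at this
  have hsub : closedBall a (R / 6) ⊆ ball a R := closedBall_subset_ball (by linarith)
  -- mean value inequality
  have hlow : ∀ z ∈ closedBall a (R / 6), D / 2 * ‖z - a‖ ≤ ‖f z - f a‖ := by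
    intro z hz
    have h1 : ‖(f z - deriv f a * z) - (f a - deriv f a * a)‖ ≤ D / 2 * ‖z - a‖ := by
      refine (convex_closedBall a (R / 6)).norm_image_sub_le_of_norm_hasDerivWithin_le
        (f := fun w => f w - deriv f a * w) (f' := fun w => deriv f w - deriv f a) ?_ ?_
        (mem_closedBall_self (by linarith)) hz
      · intro w hw
        have h2 : HasDerivAt f (deriv f w) w :=
          (hf.differentiableAt (isOpen_ball.mem_nhds (hsub hw))).hasDerivAt
        have h3 := h2.fun_sub ((hasDerivAt_id w).const_mul (deriv f a))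
        simp only [id, mul_one] at h3
        exact h3.hasDerivWithinAt
      · intro w hw
        refine (hschw w (hsub hw)).trans ?_
        rw [mem_closedBall, dist_eq_norm] at hw
        have : 3 * D / R * ‖w - a‖ ≤ 3 * D / R * (R / 6) :=
          mul_le_mul_of_nonneg_left hw (by positivity)
        refine this.trans (le_of_eq ?_)
        field_simp
        norm_num
    have h2 : deriv f a * (z - a) = (f z - f a) -
        ((f z - deriv f a * z) - (f a - deriv f a * a)) := by ring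
    have h3 : D * ‖z - a‖ ≤ ‖f z - f a‖ + D / 2 * ‖z - a‖ := by
      rw [hD, ← norm_mul, h2]
      exact (norm_sub_le _ _).trans (by rw [← hD]; linarith)
    linarith
  have hdc : DiffContOnCl ℂ f (ball a (R / 6)) :=
    (hf.mono hsub).diffContOnCl_ball (Subset.refl _)
  have key := hdc.ball_subset_image_closedBall (ε := R * D / 12) (by linarith) (by
    intro z hz
    have h1 := hlow z (sphere_subset_closedBall hz)
    rw [mem_sphere, dist_eq_norm] at hz
    rw [hz] at h1
    refine le_trans (le_of_eq ?_) h1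
    ring) (by
    have h1 : ∀ᶠ z in nhdsWithin a {a}ᶜ, f z ≠ f a := by
      filter_upwards [self_mem_nhdsWithin, mem_nhdsWithin_of_mem_nhds
        (closedBall_mem_nhds a (by linarith : 0 < R / 6))] with z hz1 hz2 h
      have h2 := hlow z hz2
      rw [h, sub_self, norm_zero] at h2
      have h3 : 0 < ‖z - a‖ := norm_pos_iff.2 (sub_ne_zero.2 hz1)
      nlinarith
    exact h1.frequently.filter_mono nhdsWithin_le_nhds)
  intro w hw
  have : w ∈ ball (f a) (R * D / 12 / 2) := by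
    rw [mem_ball] at hw ⊢
    linarith
  obtain ⟨z, hz, hzw⟩ := key this
  exact ⟨z, hsub hz, hzw⟩

theorem bloch_ball : ∃ B : ℝ, 0 < B ∧ ∀ (f : ℂ → ℂ) (a : ℂ) (r : ℝ), 0 < r →
    DifferentiableOn ℂ f (Metric.ball a r) → ∃ c : ℂ,
      Metric.ball c (B * r * ‖deriv f a‖) ⊆ f '' (Metric.ball a r) := by
  refine ⟨1 / 96, by norm_num, ?_⟩
  intro f a r hr hf
  by_cases hne : deriv f a = 0
  · refine ⟨0, ?_⟩
    rw [hne, norm_zero, mul_zero, ball_zero]
    exact empty_subset _
  have hD0 : 0 < ‖deriv f a‖ := norm_pos_iff.2 hne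
  have hsub : closedBall a (r / 2) ⊆ ball a r := closedBall_subset_ball (by linarith)
  have hcont : ContinuousOn (fun z => ‖deriv f z‖ * (r / 2 - ‖z - a‖)) (closedBall a (r / 2)) := by
    have h1 : ContinuousOn (deriv f) (closedBall a (r / 2)) :=
      (hf.deriv isOpen_ball).continuousOn.mono hsub
    exact h1.norm.mul (by fun_prop)
  obtain ⟨z₀, hz₀, hmax⟩ := (isCompact_closedBall a (r / 2)).exists_isMaxOn
    ⟨a, mem_closedBall_self (by linarith)⟩ hcont
  have hmax' : ∀ z ∈ closedBall a (r / 2), ‖deriv f z‖ * (r / 2 - ‖z - a‖) ≤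
      ‖deriv f z₀‖ * (r / 2 - ‖z₀ - a‖) := fun z hz => hmax hz
  have h1 := hmax' a (mem_closedBall_self (by linarith))
  rw [sub_self, norm_zero, sub_zero] at h1
  have hz₀' : ‖z₀ - a‖ ≤ r / 2 := by rwa [mem_closedBall, dist_eq_norm] at hz₀
  have hpos : 0 < ‖deriv f z₀‖ * (r / 2 - ‖z₀ - a‖) := lt_of_lt_of_le (by positivity) h1
  have hR2 : 0 < r / 2 - ‖z₀ - a‖ := by
    by_contra hcon
    have : r / 2 - ‖z₀ - a‖ = 0 := by linarith
    rw [this, mul_zero] at hpos
    exact lt_irrefl _ hpos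
  have hDz : 0 < ‖deriv f z₀‖ := by
    by_contra hcon
    have : ‖deriv f z₀‖ = 0 := le_antisymm (not_lt.1 hcon) (norm_nonneg _)
    rw [this, zero_mul] at hpos
    exact lt_irrefl _ hpos
  set R := (r / 2 - ‖z₀ - a‖) / 2 with hR
  have hR0 : 0 < R := by positivity
  have hballsub : ball z₀ R ⊆ closedBall a (r / 2) := by
    intro z hz
    rw [mem_ball, dist_eq_norm] at hz
    rw [mem_closedBall, dist_eq_norm]
    have : z - a = (z - z₀) + (z₀ - a) := by ring
    rw [this]
    have := norm_add_le (z - z₀) (z₀ - a)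
    linarith
  have hl := sch_landau hR0 (hf.mono (hballsub.trans hsub)) (by
    intro z hz
    have h2 := hmax' z (hballsub hz)
    rw [mem_ball, dist_eq_norm] at hz
    have h3 : ‖z - a‖ ≤ ‖z - z₀‖ + ‖z₀ - a‖ := by
      have : z - a = (z - z₀) + (z₀ - a) := by ring
      rw [this]
      exact norm_add_le _ _
    have h4 : R ≤ r / 2 - ‖z - a‖ := by linarith
    have h5 : ‖deriv f z‖ * R ≤ ‖deriv f z₀‖ * (2 * R) := by
      refine (mul_le_mul_of_nonneg_left h4 (norm_nonneg _)).trans (h2.trans (le_of_eq ?_))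
      rw [hR]; ring
    have h6 : ‖deriv f z‖ * R ≤ (2 * ‖deriv f z₀‖) * R := by linarith
    exact le_of_mul_le_mul_right h6 hR0) (norm_pos_iff.1 hDz)
  refine ⟨f z₀, ?_⟩
  refine Subset.trans (ball_subset_ball ?_) (hl.trans (image_mono (hballsub.trans hsub)))
  have h7 : R * ‖deriv f z₀‖ = ‖deriv f z₀‖ * (r / 2 - ‖z₀ - a‖) / 2 := by rw [hR]; ring
  rw [h7]
  linarith

/-- every disc of radius two contains a point where the square of `cosh` is an integer -/
theorem sch_net (w : ℂ) : ∃ z : ℂ, dist z w < 2 ∧ ∃ n : ℤ, cosh z ^ 2 = n := by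
  set t := |w.re| with ht
  have ht0 : 0 ≤ t := abs_nonneg _
  set n : ℕ := ⌊(Real.cosh (2 * t) + 1) / 2⌋₊ with hn
  have hc1 : 1 ≤ Real.cosh (2 * t) := Real.one_le_cosh _
  have hn1 : 1 ≤ n := by
    rw [hn]
    apply Nat.le_floor
    push_cast
    linarith
  have hn2 : (n : ℝ) ≤ (Real.cosh (2 * t) + 1) / 2 := Nat.floor_le (by linarith)
  have hn3 : (Real.cosh (2 * t) + 1) / 2 < n + 1 := Nat.lt_floor_add_one _
  have hn1' : (1 : ℝ) ≤ n := by exact_mod_cast hn1
  obtain ⟨s, hs, hsc⟩ : ∃ s ∈ Icc (0 : ℝ) t, Real.cosh (2 * s) = 2 * n - 1 := by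
    have := intermediate_value_Icc ht0 (f := fun s : ℝ => Real.cosh (2 * s))
      (by fun_prop)
    obtain ⟨s, hs, h⟩ := this (show (2 * n - 1 : ℝ) ∈ Icc (Real.cosh (2 * 0)) (Real.cosh (2 * t)) by
      rw [mul_zero, Real.cosh_zero]
      constructor <;> linarith)
    exact ⟨s, hs, h⟩
  have hts : t - s < 1 := by
    by_contra hcon
    push Not at hcon
    have h1 : Real.exp (2 * t) / 2 ≤ Real.cosh (2 * t) := by
      rw [Real.cosh_eq]
      have := Real.exp_pos (-(2 * t))
      linarith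
    have h2 : Real.cosh (2 * s) ≤ Real.exp (2 * s) := by
      rw [Real.cosh_eq]
      have : Real.exp (-(2 * s)) ≤ Real.exp (2 * s) := Real.exp_le_exp.2 (by linarith [hs.1])
      linarith
    have h3 : Real.exp (2 * s) * 7 ≤ Real.exp (2 * t) := by
      have h4 : (7 : ℝ) ≤ Real.exp 2 := by
        have := Real.exp_one_gt_d9
        have h5 : Real.exp 2 = Real.exp 1 * Real.exp 1 := by rw [← Real.exp_add]; norm_num
        rw [h5]
        nlinarith
      calc Real.exp (2 * s) * 7 ≤ Real.exp (2 * s) * Real.exp 2 :=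
            mul_le_mul_of_nonneg_left h4 (Real.exp_pos _).le
        _ = Real.exp (2 * s + 2) := by rw [Real.exp_add]
        _ ≤ Real.exp (2 * t) := Real.exp_le_exp.2 (by linarith)
    nlinarith
  set m : ℤ := round (w.im / (Real.pi / 2)) with hm
  have hpi := Real.pi_pos
  have hmd : |w.im - m * (Real.pi / 2)| ≤ Real.pi / 4 := by
    have h1 := abs_sub_round (w.im / (Real.pi / 2))
    rw [← hm] at h1
    have h2 : w.im - m * (Real.pi / 2) = (w.im / (Real.pi / 2) - m) * (Real.pi / 2) := by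
      field_simp
    rw [h2, abs_mul, abs_of_pos (by positivity : (0 : ℝ) < Real.pi / 2)]
    nlinarith
  obtain ⟨σ, hσ, hσw⟩ : ∃ σ : ℝ, (σ = 1 ∨ σ = -1) ∧ w.re = σ * t := by
    rcases le_total 0 w.re with h | h
    · exact ⟨1, Or.inl rfl, by rw [ht, abs_of_nonneg h, one_mul]⟩
    · exact ⟨-1, Or.inr rfl, by rw [ht, abs_of_nonpos h]; ring⟩
  set z : ℂ := ((σ * s : ℝ) : ℂ) + ((m * (Real.pi / 2) : ℝ) : ℂ) * I with hz
  refine ⟨z, ?_, ?_⟩
  · rw [dist_eq_norm]
    have h1 : z - w = (((σ * s - w.re : ℝ)) : ℂ) + ((m * (Real.pi / 2) - w.im : ℝ) : ℂ) * I := by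
      rw [hz]
      conv_lhs => rw [← re_add_im w]
      push_cast
      ring
    rw [h1]
    refine lt_of_le_of_lt (norm_add_le _ _) ?_
    rw [norm_mul, norm_I, mul_one, norm_real, norm_real, Real.norm_eq_abs, Real.norm_eq_abs, hσw,
      ← mul_sub, abs_mul, abs_sub_comm s t, abs_of_nonneg (by linarith [hs.2] : 0 ≤ t - s),
      abs_sub_comm _ w.im]
    have h2 : |σ| = 1 := by rcases hσ with h | h <;> simp [h]
    rw [h2]
    have := Real.pi_lt_d2
    linarith
  · have h1 : cosh (2 * z) = ((Real.cosh (2 * s) : ℝ) : ℂ) * (-1) ^ m := by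
      have h2 : 2 * z = ((2 * (σ * s) : ℝ) : ℂ) + ((m * Real.pi : ℝ) : ℂ) * I := by
        rw [hz]; push_cast; ring
      rw [h2, cosh_add, cosh_mul_I, sinh_mul_I]
      have h3 : cos ((m * Real.pi : ℝ) : ℂ) = (-1) ^ m := by
        rw [← ofReal_cos, Real.cos_int_mul_pi]
        push_cast
        rfl
      have h4 : sin ((m * Real.pi : ℝ) : ℂ) = 0 := by
        rw [← ofReal_sin, Real.sin_int_mul_pi]
        rfl
      rw [h3, h4, zero_mul, mul_zero, add_zero, ← ofReal_cosh]
      congr 2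
      rcases hσ with h | h
      · rw [h, one_mul]
      · rw [h]
        have : 2 * (-1 * s) = -(2 * s) := by ring
        rw [this, Real.cosh_neg]
    have h5 : cosh z ^ 2 = (cosh (2 * z) + 1) / 2 := by
      rw [cosh_two_mul, sinh_sq]
      ring
    rw [h5, h1, hsc]
    rcases Int.even_or_odd m with he | ho
    · refine ⟨n, ?_⟩
      rw [he.neg_one_zpow]
      push_cast
      ring
    · refine ⟨1 - n, ?_⟩
      rw [ho.neg_one_zpow]
      push_cast
      ring

/-- bound of a holomorphic function whose image contains no disc of radius two -/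
theorem sch_growth {B : ℝ} (hB : 0 < B) (hbl : ∀ (f : ℂ → ℂ) (a : ℂ) (r : ℝ), 0 < r →
    DifferentiableOn ℂ f (Metric.ball a r) → ∃ c : ℂ,
      Metric.ball c (B * r * ‖deriv f a‖) ⊆ f '' (Metric.ball a r))
    {g : ℂ → ℂ} {a : ℂ} {r : ℝ} (hr : 0 < r) (hg : DifferentiableOn ℂ g (ball a r))
    (hom : ∀ z ∈ ball a r, ∀ n : ℤ, cosh (g z) ^ 2 ≠ n) :
    ∀ z ∈ ball a (r / 2), ‖g z‖ ≤ ‖g a‖ + 2 / B := by
  have hder : ∀ z ∈ ball a (r / 2), ‖deriv g z‖ ≤ 4 / (B * r) := by
    intro z hz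
    have hsub : ball z (r / 2) ⊆ ball a r := by
      intro w hw
      rw [mem_ball] at hw hz ⊢
      have := dist_triangle w z a
      linarith
    obtain ⟨c, hc⟩ := hbl g z (r / 2) (by linarith) (hg.mono hsub)
    obtain ⟨w, hw, n, hn⟩ := sch_net c
    by_contra hcon
    push Not at hcon
    have h1 : 2 ≤ B * (r / 2) * ‖deriv g z‖ := by
      rw [div_lt_iff₀ (by positivity)] at hcon
      nlinarith
    obtain ⟨v, hv, hvw⟩ := hc (ball_subset_ball h1 (mem_ball.2 hw))
    apply hom v (hsub hv) n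
    rw [hvw, hn]
  intro z hz
  have h1 : ‖g z - g a‖ ≤ 4 / (B * r) * ‖z - a‖ := by
    refine (convex_ball a (r / 2)).norm_image_sub_le_of_norm_deriv_le ?_ hder
      (mem_ball_self (by linarith)) hz
    intro w hw
    exact hg.differentiableAt (isOpen_ball.mem_nhds (ball_subset_ball (by linarith) hw))
  have h2 : 4 / (B * r) * ‖z - a‖ ≤ 2 / B := by
    rw [mem_ball, dist_eq_norm] at hz
    calc 4 / (B * r) * ‖z - a‖ ≤ 4 / (B * r) * (r / 2) :=
          mul_le_mul_of_nonneg_left hz.le (by positivity)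
      _ = 2 / B := by
          field_simp
          norm_num
  have h3 : g z = (g z - g a) + g a := by ring
  rw [h3]
  have := norm_add_le (g z - g a) (g a)
  linarith

/-- `|log|` bound -/
theorem sch_abs_log {x M : ℝ} (h1 : x ≤ M) (h2 : 1 ≤ x * M) (h0 : 0 < x) :
    |Real.log x| ≤ M := by
  have hM : 0 < M := lt_of_lt_of_le h0 h1
  rw [abs_le]
  constructor
  · have h3 : Real.log x⁻¹ ≤ M := by
      have h4 : x⁻¹ ≤ M := by
        rw [inv_le_iff_one_le_mul₀ h0, mul_comm]
        exact h2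
      exact (Real.log_le_self (inv_nonneg.2 h0.le)).trans h4
    rw [Real.log_inv] at h3
    linarith
  · exact (Real.log_le_self h0.le).trans h1

theorem sch_norm_log {x : ℂ} {M : ℝ} (h1 : ‖x‖ ≤ M) (h2 : 1 ≤ ‖x‖ * M) (h0 : x ≠ 0) :
    ‖log x‖ ≤ M + 4 := by
  have h3 := norm_le_abs_re_add_abs_im (log x)
  rw [log_re, log_im] at h3
  have h4 := sch_abs_log h1 h2 (norm_pos_iff.2 h0)
  have h5 := abs_arg_le_pi x
  have h6 := Real.pi_lt_d2
  linarith

/-- Schottky theorem with a lower bound at the centre -/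
theorem sch_aux (M : ℝ) : ∃ K : ℝ, ∀ (f : ℂ → ℂ) (a : ℂ) (r : ℝ), 0 < r →
    DifferentiableOn ℂ f (ball a r) → (∀ z ∈ ball a r, f z ≠ 0) →
    (∀ z ∈ ball a r, f z ≠ 1) → 1 / 2 ≤ ‖f a‖ → ‖f a‖ ≤ M →
    ∀ z ∈ ball a (r / 2), ‖f z‖ ≤ K := by
  obtain ⟨B, hB, hbl⟩ := bloch_ball
  refine ⟨Real.exp (2 * Real.pi * (Real.exp (2 * M + 27 + 2 / B)) ^ 2), ?_⟩
  intro f a r hr hf h0 h1 hlow hup
  have ha : a ∈ ball a r := mem_ball_self hr
  have hfa : f a ≠ 0 := h0 a ha
  obtain ⟨L, hL, hLa, hLe⟩ := sch_log hr hf h0 (log (f a)) (exp_log hfa)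
  have hLn : ‖L a‖ ≤ M + 6 := by
    rw [hLa]
    have := sch_norm_log (x := f a) (M := M + 2) (by linarith) (by nlinarith) hfa
    linarith
  have hpi : (0 : ℝ) < Real.pi := Real.pi_pos
  have hpi3 : (3 : ℝ) < Real.pi := Real.pi_gt_three
  have hc0 : (2 * Real.pi * I : ℂ) ≠ 0 := two_pi_I_ne_zero
  set F : ℂ → ℂ := fun z => L z / (2 * Real.pi * I) with hF
  have hFd : DifferentiableOn ℂ F (ball a r) := hL.div_const _
  have hFe : ∀ z ∈ ball a r, exp (2 * Real.pi * I * F z) = f z := by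
    intro z hz
    rw [hF]
    simp only
    rw [mul_div_cancel₀ _ hc0, hLe z hz]
  have hFn : ‖F a‖ ≤ M + 6 := by
    rw [hF]
    simp only
    rw [norm_div]
    have h2 : ‖(2 * Real.pi * I : ℂ)‖ = 2 * Real.pi := by
      rw [norm_mul, norm_I, mul_one, norm_mul, norm_real, Real.norm_eq_abs, abs_of_pos hpi]
      norm_num
    rw [h2, div_le_iff₀ (by positivity)]
    have h3 : 0 ≤ ‖L a‖ := norm_nonneg _
    nlinarith
  have hFint : ∀ z ∈ ball a r, ∀ n : ℤ, F z ≠ n := by
    intro z hz n hn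
    apply h1 z hz
    rw [← hFe z hz, hn]
    have : (2 * Real.pi * I * (n : ℂ)) = n * (2 * Real.pi * I) := by ring
    rw [this]
    exact exp_int_mul_two_pi_mul_I n
  have hF0 : ∀ z ∈ ball a r, F z ≠ 0 := fun z hz => by
    have := hFint z hz 0
    simpa using this
  have hF1 : ∀ z ∈ ball a r, F z - 1 ≠ 0 := fun z hz h => by
    have := hFint z hz 1
    apply this
    rw [Int.cast_one]
    exact sub_eq_zero.1 h
  obtain ⟨l1, hl1, -, hl1e⟩ := sch_log hr hFd hF0 (log (F a)) (exp_log (hF0 a ha))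
  obtain ⟨l2, hl2, -, hl2e⟩ := sch_log hr (hFd.sub_const 1) hF1 (log (F a - 1))
    (exp_log (hF1 a ha))
  set P : ℂ → ℂ := fun z => exp (l1 z / 2) with hP
  set Q : ℂ → ℂ := fun z => exp (l2 z / 2) with hQ
  have hPd : DifferentiableOn ℂ P (ball a r) := (hl1.div_const 2).cexp
  have hQd : DifferentiableOn ℂ Q (ball a r) := (hl2.div_const 2).cexp
  have hP2 : ∀ z ∈ ball a r, P z ^ 2 = F z := by
    intro z hz
    rw [← hl1e z hz, hP]
    simp only
    rw [← exp_nat_mul]
    congr 1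
    push_cast
    ring
  have hQ2 : ∀ z ∈ ball a r, Q z ^ 2 = F z - 1 := by
    intro z hz
    rw [← hl2e z hz, hQ]
    simp only
    rw [← exp_nat_mul]
    congr 1
    push_cast
    ring
  have hPQ : ∀ z ∈ ball a r, (P z - Q z) * (P z + Q z) = 1 := by
    intro z hz
    linear_combination hP2 z hz - hQ2 z hz
  have hHne : ∀ z ∈ ball a r, P z - Q z ≠ 0 := fun z hz h => by
    have := hPQ z hz
    rw [h, zero_mul] at this
    exact zero_ne_one this
  obtain ⟨g, hg, hga, hge⟩ := sch_log hr (hPd.sub hQd) hHne (log (P a - Q a))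
    (exp_log (hHne a ha))
  have hcosh : ∀ z ∈ ball a r, cosh (g z) ^ 2 = F z := by
    intro z hz
    have h2 : exp (g z) = P z - Q z := hge z hz
    have h3 : exp (-g z) = P z + Q z := by
      rw [exp_neg, h2]
      exact inv_eq_of_mul_eq_one_right (hPQ z hz)
    have h4 : cosh (g z) = P z := by
      rw [cosh, h2, h3]
      ring
    rw [h4, hP2 z hz]
  have hgr := sch_growth hB hbl hr hg (fun z hz n => by
    rw [hcosh z hz]; exact hFint z hz n)
  have hsq : ∀ w v : ℂ, w ^ 2 = v → ‖w‖ ≤ 1 + ‖v‖ := by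
    intro w v h
    have h2 : ‖w‖ ^ 2 = ‖v‖ := by rw [← norm_pow, h]
    nlinarith [norm_nonneg w, sq_nonneg (‖w‖ - 1)]
  have hPn : ‖P a‖ ≤ M + 7 := by
    have := hsq _ _ (hP2 a ha)
    linarith
  have hQn : ‖Q a‖ ≤ M + 8 := by
    have h2 := hsq _ _ (hQ2 a ha)
    have h3 := norm_sub_le (F a) 1
    rw [norm_one] at h3
    linarith
  have hgan : ‖g a‖ ≤ 2 * M + 19 := by
    rw [hga]
    have h2 : ‖P a - Q a‖ ≤ 2 * M + 15 := by
      have := norm_sub_le (P a) (Q a)
      linarith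
    have h3 : ‖P a + Q a‖ ≤ 2 * M + 15 := by
      have := norm_add_le (P a) (Q a)
      linarith
    have h4 : 1 ≤ ‖P a - Q a‖ * (2 * M + 15) := by
      have h5 : ‖P a - Q a‖ * ‖P a + Q a‖ = 1 := by
        rw [← norm_mul, hPQ a ha, norm_one]
      rw [← h5]
      exact mul_le_mul_of_nonneg_left h3 (norm_nonneg _)
    have := sch_norm_log h2 h4 (hHne a ha)
    linarith
  intro z hz
  have hz' : z ∈ ball a r := ball_subset_ball (by linarith) hz
  have h2 := hgr z hz
  have h3 : ‖g z‖ ≤ 2 * M + 27 + 2 / B := by linarith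
  have h4 : ‖cosh (g z)‖ ≤ Real.exp (2 * M + 27 + 2 / B) := by
    have h5 : ‖cosh (g z)‖ ≤ Real.exp ‖g z‖ := by
      rw [cosh, norm_div]
      have h6 := norm_add_le (exp (g z)) (exp (-g z))
      have h7 : ‖exp (g z)‖ ≤ Real.exp ‖g z‖ := norm_exp_le_exp_norm _
      have h8 : ‖exp (-g z)‖ ≤ Real.exp ‖g z‖ := by
        have := norm_exp_le_exp_norm (-g z)
        rwa [norm_neg] at this
      have h9 : ‖(2 : ℂ)‖ = 2 := by norm_num
      rw [h9]
      linarith
    exact h5.trans (Real.exp_le_exp.2 h3)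
  have h5 : ‖F z‖ ≤ (Real.exp (2 * M + 27 + 2 / B)) ^ 2 := by
    rw [← hcosh z hz', norm_pow]
    exact pow_le_pow_left₀ (norm_nonneg _) h4 2
  rw [← hFe z hz']
  refine (norm_exp_le_exp_norm _).trans (Real.exp_le_exp.2 ?_)
  rw [norm_mul, norm_mul, norm_I, mul_one, norm_mul, norm_real, Real.norm_eq_abs, abs_of_pos hpi]
  have h6 : ‖(2 : ℂ)‖ = 2 := by norm_num
  rw [h6]
  exact mul_le_mul_of_nonneg_left h5 (by positivity)

theorem schottky (M : ℝ) : ∃ K : ℝ, ∀ (f : ℂ → ℂ) (a : ℂ) (r : ℝ), 0 < r →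
    DifferentiableOn ℂ f (Metric.ball a r) → (∀ z ∈ Metric.ball a r, f z ≠ 0) →
    (∀ z ∈ Metric.ball a r, f z ≠ 1) → ‖f a‖ ≤ M → ∀ z ∈ Metric.ball a (r / 2), ‖f z‖ ≤ K := by
  obtain ⟨K1, hK1⟩ := sch_aux M
  obtain ⟨K2, hK2⟩ := sch_aux 2
  refine ⟨max K1 (K2 + 1), ?_⟩
  intro f a r hr hf h0 h1 hM z hz
  by_cases h : 1 / 2 ≤ ‖f a‖
  · exact (hK1 f a r hr hf h0 h1 h hM z hz).trans (le_max_left _ _)
  · push Not at h
    have h2 := hK2 (fun w => 1 - f w) a r hr (hf.const_sub 1)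
      (fun w hw => sub_ne_zero.2 (Ne.symm (h1 w hw)))
      (fun w hw hh => h0 w hw (by linear_combination -hh)) (by
        have := norm_sub_norm_le 1 (f a)
        rw [norm_one] at this
        linarith) (by
        have := norm_sub_le 1 (f a)
        rw [norm_one] at this
        linarith) z hz
    have h3 : f z = 1 - (1 - f z) := by ring
    rw [h3]
    have h4 := norm_sub_le 1 (1 - f z)
    rw [norm_one] at h4
    have h5 : ‖(1 : ℂ) - (1 - f z)‖ ≤ K2 + 1 := by linarith
    exact h5.trans (le_max_right _ _)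

end MP2d36f7
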