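import Mathlib
import Pool.Agent.Lib_MP_2d36f7_ag.Defs
import Pool.Agent.Lib_MP_2d36f7_ag.Schottky
import Pool.Agent.Lib_MP_2d36f7_ag.Wind

/-!
# Little and big Picard theorems (omitting `0` and `1`), in half-plane coordinates
-/

open Polynomial Complex Set Filter Topology

namespace MP2d36f7

theorem picard_entire {f : ℂ → ℂ} (hf : Differentiable ℂ f) (h0 : ∀ z, f z ≠ 0) (h1 : ∀ z, f z ≠ 1)
    (z w : ℂ) : f z = f w := by
  obtain ⟨K, hK⟩ := schottky ‖f 0‖
  refine hf.apply_eq_apply_of_bounded ?_ z w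
  rw [isBounded_iff_forall_norm_le]
  refine ⟨K, ?_⟩
  rintro _ ⟨y, rfl⟩
  refine hK f 0 (2 * (‖y‖ + 1)) (by positivity) hf.differentiableOn (fun z _ => h0 z)
    (fun z _ => h1 z) le_rfl y ?_
  rw [Metric.mem_ball, dist_zero_right]
  linarith

namespace Pic

/-- the function on the punctured disc -/
noncomputable def hh (f : ℂ → ℂ) (N : ℕ) (τ : ℂ) : ℂ := f (N * Complex.log τ)

variable {f : ℂ → ℂ} {b : ℝ} {N : ℕ}

lemma per_int (hper : ∀ z : ℂ, z.re < b → f (z + 2 * Real.pi * I * N) = f z) (m : ℤ) :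
    ∀ z : ℂ, z.re < b → f (z + m * (2 * Real.pi * I * N)) = f z := by
  have hre : ∀ (m : ℤ) (z : ℂ), (z + m * (2 * Real.pi * I * N)).re = z.re := by
    intro m z
    have : (m : ℂ) * (2 * Real.pi * I * N) = ((m * (2 * Real.pi * N) : ℝ) : ℂ) * I := by
      push_cast; ring
    rw [this]
    simp
  induction m using Int.induction_on with
  | zero => intro z _; simp
  | succ n ih =>
    intro z hz
    have h1 := hper (z + n * (2 * Real.pi * I * N)) (by
      have := hre n z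
      simp only [Int.cast_natCast] at this
      rw [this]; exact hz)
    have h2 := ih z hz
    simp only [Int.cast_natCast] at h2
    rw [h2] at h1
    rw [← h1]
    congr 1
    push_cast
    ring
  | pred n ih =>
    intro z hz
    have h2 := ih z hz
    have h3 := hre (-(n : ℤ) - 1) z
    have h1 := hper (z + ((-(n : ℤ) - 1 : ℤ) : ℂ) * (2 * Real.pi * I * N)) (by rw [h3]; exact hz)
    rw [← h1, ← h2]
    congr 1
    push_cast
    ring

/-- `f` only depends on `exp (z / N)` -/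
lemma eq_of_exp_eq (hN : 0 < N)
    (hper : ∀ z : ℂ, z.re < b → f (z + 2 * Real.pi * I * N) = f z) {z w : ℂ} (hz : z.re < b)
    (h : Complex.exp (z / N) = Complex.exp (w / N)) : f w = f z := by
  rw [Complex.exp_eq_exp_iff_exists_int] at h
  obtain ⟨m, hm⟩ := h
  have hN' : (N : ℂ) ≠ 0 := by exact_mod_cast hN.ne'
  have hw : w = z + ((-m : ℤ) : ℂ) * (2 * Real.pi * I * N) := by
    field_simp at hm
    push_cast
    linear_combination -hm
  rw [hw]
  exact per_int hper (-m) z hz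

lemma hh_exp (hN : 0 < N)
    (hper : ∀ z : ℂ, z.re < b → f (z + 2 * Real.pi * I * N) = f z) {z : ℂ} (hz : z.re < b) :
    hh f N (Complex.exp (z / N)) = f z := by
  rw [hh]
  refine eq_of_exp_eq hN hper hz ?_
  have hN' : (N : ℂ) ≠ 0 := by exact_mod_cast hN.ne'
  rw [mul_div_cancel_left₀ _ hN', Complex.exp_log (Complex.exp_ne_zero _)]

lemma exists_log (hN : 0 < N) {τ : ℂ} (hτ : τ ≠ 0) (hb : ‖τ‖ < Real.exp (b / N)) :
    (N * Complex.log τ).re < b ∧ Complex.exp ((N * Complex.log τ) / N) = τ := by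
  have hN' : (N : ℂ) ≠ 0 := by exact_mod_cast hN.ne'
  have hNr : (0 : ℝ) < N := by exact_mod_cast hN
  constructor
  · rw [← Complex.ofReal_natCast, Complex.re_ofReal_mul, Complex.log_re]
    have := Real.log_lt_log (norm_pos_iff.mpr hτ) hb
    rw [Real.log_exp] at this
    calc (N : ℝ) * Real.log ‖τ‖ < N * (b / N) := by gcongr
      _ = b := by field_simp
  · rw [mul_div_cancel_left₀ _ hN', Complex.exp_log hτ]

lemma hh_diff (hN : 0 < N) (hf : DifferentiableOn ℂ f {z | z.re < b})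
    (hper : ∀ z : ℂ, z.re < b → f (z + 2 * Real.pi * I * N) = f z) {τ₀ : ℂ} (hτ : τ₀ ≠ 0)
    (hb : ‖τ₀‖ < Real.exp (b / N)) : DifferentiableAt ℂ (hh f N) τ₀ := by
  have hN' : (N : ℂ) ≠ 0 := by exact_mod_cast hN.ne'
  have hopen : IsOpen {z : ℂ | z.re < b} := isOpen_lt Complex.continuous_re continuous_const
  obtain ⟨h1, h2⟩ := exists_log (b := b) hN hτ hb
  -- local branch
  have hL : DifferentiableAt ℂ (fun τ : ℂ => N * (Complex.log (τ / τ₀) + Complex.log τ₀)) τ₀ := by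
    have hlog : DifferentiableAt ℂ (fun τ : ℂ => Complex.log (τ / τ₀)) τ₀ := by
      refine DifferentiableAt.clog (by fun_prop) ?_
      rw [div_self hτ]
      exact Complex.one_mem_slitPlane
    exact (hlog.add_const _).const_mul _
  have hval : (N : ℂ) * (Complex.log (τ₀ / τ₀) + Complex.log τ₀) = N * Complex.log τ₀ := by
    rw [div_self hτ, Complex.log_one, zero_add]
  have hfd : DifferentiableAt ℂ f ((N : ℂ) * (Complex.log (τ₀ / τ₀) + Complex.log τ₀)) := by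
    rw [hval]
    exact hf.differentiableAt (hopen.mem_nhds h1)
  have hcomp := DifferentiableAt.comp τ₀ hfd hL
  refine hcomp.congr_of_eventuallyEq ?_
  have hev : ∀ᶠ τ in 𝓝 τ₀, τ ≠ 0 ∧ ‖τ‖ < Real.exp (b / N) := by
    have e1 : ∀ᶠ τ in 𝓝 τ₀, τ ≠ 0 := isOpen_ne.mem_nhds hτ
    have e2 : ∀ᶠ τ in 𝓝 τ₀, ‖τ‖ < Real.exp (b / N) :=
      (isOpen_lt continuous_norm continuous_const).mem_nhds hb
    exact e1.and e2
  filter_upwards [hev] with τ hτ'
  obtain ⟨h3, h4⟩ := exists_log (b := b) hN hτ'.1 hτ'.2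
  rw [hh, Function.comp]
  refine (eq_of_exp_eq hN hper h3 ?_).symm
  rw [h4, mul_div_cancel_left₀ _ hN', Complex.exp_add, Complex.exp_log (div_ne_zero hτ'.1 hτ),
    Complex.exp_log hτ, div_mul_cancel₀ _ hτ]

lemma hh_ne (hN : 0 < N) {c : ℂ} (h0 : ∀ z : ℂ, z.re < b → f z ≠ c) {τ : ℂ} (hτ : τ ≠ 0)
    (hb : ‖τ‖ < Real.exp (b / N)) : hh f N τ ≠ c := h0 _ (exists_log hN hτ hb).1

/-- circle bound by Schottky -/
lemma circle_bound (hN : 0 < N) (hf : DifferentiableOn ℂ f {z | z.re < b})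
    (h0 : ∀ z : ℂ, z.re < b → f z ≠ 0) (h1 : ∀ z : ℂ, z.re < b → f z ≠ 1)
    (hper : ∀ z : ℂ, z.re < b → f (z + 2 * Real.pi * I * N) = f z) (M : ℝ) :
    ∃ K : ℝ, ∃ δ : ℝ, 0 < δ ∧ δ ≤ Real.exp (b / N) ∧ ∀ τ₀ : ℂ, τ₀ ≠ 0 → ‖τ₀‖ < δ → ‖hh f N τ₀‖ ≤ M →
      ∀ τ : ℂ, ‖τ‖ = ‖τ₀‖ → ‖hh f N τ‖ ≤ K := by
  obtain ⟨K, hK⟩ := schottky M
  have hNr : (0 : ℝ) < N := by exact_mod_cast hN
  have hN' : (N : ℂ) ≠ 0 := by exact_mod_cast hN.ne'
  have hpi := Real.pi_pos
  refine ⟨K, Real.exp (b / N - 8 * Real.pi), Real.exp_pos _, Real.exp_le_exp.mpr (by linarith), ?_⟩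
  intro τ₀ hτ₀ hδ hM τ hτ
  have hlt : ‖τ₀‖ < Real.exp (b / N) := hδ.trans_le (Real.exp_le_exp.mpr (by linarith))
  have hτ0 : τ ≠ 0 := by
    rw [← norm_pos_iff, hτ, norm_pos_iff]; exact hτ₀
  obtain ⟨-, h2⟩ := exists_log (b := b) hN hτ₀ hlt
  set z₀ : ℂ := N * Complex.log τ₀ with hz₀
  have hre : z₀.re < b - 8 * Real.pi * N := by
    rw [hz₀, ← Complex.ofReal_natCast, Complex.re_ofReal_mul, Complex.log_re]
    have := Real.log_lt_log (norm_pos_iff.mpr hτ₀) hδ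
    rw [Real.log_exp] at this
    calc (N : ℝ) * Real.log ‖τ₀‖ < N * (b / N - 8 * Real.pi) := by gcongr
      _ = b - 8 * Real.pi * N := by field_simp
  have hball : ∀ z ∈ Metric.ball z₀ (8 * Real.pi * N), z.re < b := by
    intro z hz
    rw [Metric.mem_ball, dist_eq_norm] at hz
    have h3 : z.re - z₀.re ≤ ‖z - z₀‖ := by
      rw [← Complex.sub_re]; exact Complex.re_le_norm _
    linarith
  have hfz₀ : f z₀ = hh f N τ₀ := rfl
  have key := hK f z₀ (8 * Real.pi * N) (by positivity) (hf.mono hball)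
    (fun z hz => h0 z (hball z hz)) (fun z hz => h1 z (hball z hz)) (by rw [hfz₀]; exact hM)
  -- the point over τ
  set z : ℂ := z₀ + N * Complex.log (τ / τ₀) with hz
  have hnorm : ‖z - z₀‖ < 8 * Real.pi * N / 2 := by
    have hlog : ‖Complex.log (τ / τ₀)‖ ≤ Real.pi := by
      have hre0 : (Complex.log (τ / τ₀)).re = 0 := by
        rw [Complex.log_re, norm_div, hτ, div_self (norm_ne_zero_iff.mpr hτ₀), Real.log_one]
      have him : |(Complex.log (τ / τ₀)).im| ≤ Real.pi := by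
        rw [Complex.log_im]; exact Complex.abs_arg_le_pi _
      calc ‖Complex.log (τ / τ₀)‖ ≤ |(Complex.log (τ / τ₀)).re| + |(Complex.log (τ / τ₀)).im| :=
            Complex.norm_le_abs_re_add_abs_im _
        _ ≤ Real.pi := by rw [hre0, abs_zero, zero_add]; exact him
    have : z - z₀ = N * Complex.log (τ / τ₀) := by rw [hz]; ring
    rw [this, norm_mul, Complex.norm_natCast]
    nlinarith [mul_pos hpi hNr]
  have hmem : z ∈ Metric.ball z₀ (8 * Real.pi * N / 2) := by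
    rw [Metric.mem_ball, dist_eq_norm]; exact hnorm
  have hmem' : z ∈ Metric.ball z₀ (8 * Real.pi * N) := by
    refine Metric.ball_subset_ball ?_ hmem
    nlinarith [mul_pos hpi hNr]
  have hexp : Complex.exp (z / N) = τ := by
    have h4 : z / N = z₀ / N + Complex.log (τ / τ₀) := by
      rw [hz, add_div, mul_div_cancel_left₀ (Complex.log (τ / τ₀)) hN']
    rw [h4, Complex.exp_add, h2, Complex.exp_log (div_ne_zero hτ0 hτ₀), mul_div_cancel₀ _ hτ₀]
  have := key z hmem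
  rw [← hh_exp hN hper (hball z hmem'), hexp] at this
  exact this

/-- if `hh` does not tend to infinity then it is bounded near `0` -/
lemma bounded (hN : 0 < N) (hf : DifferentiableOn ℂ f {z | z.re < b})
    (h0 : ∀ z : ℂ, z.re < b → f z ≠ 0) (h1 : ∀ z : ℂ, z.re < b → f z ≠ 1)
    (hper : ∀ z : ℂ, z.re < b → f (z + 2 * Real.pi * I * N) = f z) (M : ℝ)
    (hfr : ∃ᶠ τ in 𝓝[≠] (0 : ℂ), ‖hh f N τ‖ ≤ M) :
    ∃ K δ : ℝ, 0 < δ ∧ δ ≤ Real.exp (b / N) ∧ ∀ τ : ℂ, τ ≠ 0 → ‖τ‖ < δ → ‖hh f N τ‖ ≤ K := by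
  obtain ⟨K, δ, hδ, hδb, hK⟩ := circle_bound hN hf h0 h1 hper M
  -- points of the sequence in every punctured disc
  have hseq : ∀ ε : ℝ, 0 < ε → ∃ τ₀ : ℂ, τ₀ ≠ 0 ∧ ‖τ₀‖ < ε ∧ ‖hh f N τ₀‖ ≤ M := by
    intro ε hε
    have hev : ∀ᶠ τ in 𝓝[≠] (0 : ℂ), τ ≠ 0 ∧ ‖τ‖ < ε := by
      have h3 : ∀ᶠ τ in 𝓝[≠] (0 : ℂ), τ ∈ Metric.ball (0 : ℂ) ε :=
        mem_nhdsWithin_of_mem_nhds (Metric.ball_mem_nhds 0 hε)
      have h4 : ∀ᶠ τ in 𝓝[≠] (0 : ℂ), τ ∈ ({0}ᶜ : Set ℂ) := self_mem_nhdsWithin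
      filter_upwards [h3, h4] with τ h5 h6
      exact ⟨h6, by rwa [Metric.mem_ball, dist_zero_right] at h5⟩
    obtain ⟨τ, hτ1, hτ2⟩ := (hfr.and_eventually hev).exists
    exact ⟨τ, hτ2.1, hτ2.2, hτ1⟩
  obtain ⟨τ₁, hτ₁, hτ₁δ, hτ₁M⟩ := hseq δ hδ
  refine ⟨K, ‖τ₁‖, norm_pos_iff.mpr hτ₁, hτ₁δ.le.trans hδb, ?_⟩
  intro τ hτ hτlt
  obtain ⟨τ₂, hτ₂, hτ₂τ, hτ₂M⟩ := hseq ‖τ‖ (norm_pos_iff.mpr hτ)
  -- maximum principle in the annulus
  set U : Set ℂ := {w | ‖τ₂‖ < ‖w‖ ∧ ‖w‖ < ‖τ₁‖} with hU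
  have hUopen : IsOpen U :=
    (isOpen_lt continuous_const continuous_norm).inter (isOpen_lt continuous_norm continuous_const)
  have hUb : Bornology.IsBounded U := by
    have hball : Bornology.IsBounded (Metric.ball (0 : ℂ) ‖τ₁‖) := Metric.isBounded_ball
    refine hball.subset ?_
    intro w hw
    rw [Metric.mem_ball, dist_zero_right]
    exact hw.2
  have hcl : closure U ⊆ {w | ‖τ₂‖ ≤ ‖w‖ ∧ ‖w‖ ≤ ‖τ₁‖} := by
    refine closure_minimal ?_ ?_
    · intro w hw; exact ⟨hw.1.le, hw.2.le⟩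
    · exact (isClosed_le continuous_const continuous_norm).inter
        (isClosed_le continuous_norm continuous_const)
  have hpt : ∀ w ∈ closure U, w ≠ 0 ∧ ‖w‖ < Real.exp (b / N) := by
    intro w hw
    have h3 := hcl hw
    refine ⟨?_, ?_⟩
    · rw [← norm_pos_iff]
      exact (norm_pos_iff.mpr hτ₂).trans_le h3.1
    · exact h3.2.trans_lt (hτ₁δ.trans_le hδb)
  have hd : DiffContOnCl ℂ (hh f N) U := by
    refine DifferentiableOn.diffContOnCl ?_
    intro w hw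
    exact (hh_diff hN hf hper (hpt w hw).1 (hpt w hw).2).differentiableWithinAt
  have hfront : ∀ w ∈ frontier U, ‖hh f N w‖ ≤ K := by
    intro w hw
    have h3 := hcl (frontier_subset_closure hw)
    have h4 : w ∉ U := by
      rw [hUopen.frontier_eq] at hw
      exact hw.2
    have h5 : ‖w‖ = ‖τ₂‖ ∨ ‖w‖ = ‖τ₁‖ := by
      by_contra hcon
      push Not at hcon
      exact h4 ⟨lt_of_le_of_ne h3.1 (Ne.symm hcon.1), lt_of_le_of_ne h3.2 hcon.2⟩
    rcases h5 with h5 | h5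
    · exact hK τ₂ hτ₂ (hτ₂τ.trans (hτlt.trans hτ₁δ)) hτ₂M w h5
    · exact hK τ₁ hτ₁ hτ₁δ hτ₁M w h5
  exact Complex.norm_le_of_forall_mem_frontier_norm_le hUb hd hfront
    (subset_closure ⟨hτ₂τ, hτlt⟩)

/-- `hh` is meromorphic at `0` -/
lemma mero (hN : 0 < N) (hf : DifferentiableOn ℂ f {z | z.re < b})
    (h0 : ∀ z : ℂ, z.re < b → f z ≠ 0) (h1 : ∀ z : ℂ, z.re < b → f z ≠ 1)
    (hper : ∀ z : ℂ, z.re < b → f (z + 2 * Real.pi * I * N) = f z) :
    MeromorphicAt (hh f N) 0 := by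
  have hrem : ∀ (g : ℂ → ℂ) (K δ : ℝ), 0 < δ → (∀ τ : ℂ, τ ≠ 0 → ‖τ‖ < δ → DifferentiableAt ℂ g τ) →
      (∀ τ : ℂ, τ ≠ 0 → ‖τ‖ < δ → ‖g τ‖ ≤ K) → MeromorphicAt g 0 := by
    intro g K δ hδ hg hK
    have hs : Metric.ball (0 : ℂ) δ ∈ 𝓝 (0 : ℂ) := Metric.ball_mem_nhds 0 hδ
    have hd : DifferentiableOn ℂ g (Metric.ball (0 : ℂ) δ \ {0}) := by
      intro τ hτ
      refine (hg τ hτ.2 ?_).differentiableWithinAt
      have := hτ.1
      rwa [Metric.mem_ball, dist_zero_right] at this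
    have hb : BddAbove (norm ∘ g '' (Metric.ball (0 : ℂ) δ \ {0})) := by
      refine ⟨K, ?_⟩
      rintro _ ⟨τ, hτ, rfl⟩
      refine hK τ hτ.2 ?_
      have := hτ.1
      rwa [Metric.mem_ball, dist_zero_right] at this
    have hext := Complex.differentiableOn_update_limUnder_of_bddAbove hs hd hb
    have han : AnalyticAt ℂ (Function.update g 0 (limUnder (𝓝[≠] (0 : ℂ)) g)) 0 :=
      hext.analyticAt hs
    refine han.meromorphicAt.congr ?_
    filter_upwards [self_mem_nhdsWithin] with τ hτ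
    exact Function.update_of_ne hτ _ _
  by_cases hfr : ∃ M : ℝ, ∃ᶠ τ in 𝓝[≠] (0 : ℂ), ‖hh f N τ‖ ≤ M
  · obtain ⟨M, hM⟩ := hfr
    obtain ⟨K, δ, hδ, hδb, hK⟩ := bounded hN hf h0 h1 hper M hM
    exact hrem _ K δ hδ (fun τ hτ hlt => hh_diff hN hf hper hτ (hlt.trans_le hδb)) hK
  · push Not at hfr
    have h2 := hfr 1
    rw [eventually_nhdsWithin_iff, Metric.eventually_nhds_iff_ball] at h2
    obtain ⟨δ, hδ, h3⟩ := h2
    have hmin : 0 < min δ (Real.exp (b / N)) := lt_min hδ (Real.exp_pos _)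
    have h4 : MeromorphicAt (fun τ => (hh f N τ)⁻¹) 0 := by
      refine hrem _ 1 (min δ (Real.exp (b / N))) hmin ?_ ?_
      · intro τ hτ hlt
        exact (hh_diff hN hf hper hτ (hlt.trans_le (min_le_right _ _))).inv
          (hh_ne hN h0 hτ (hlt.trans_le (min_le_right _ _)))
      · intro τ hτ hlt
        have h5 := h3 τ (by
          rw [Metric.mem_ball, dist_zero_right]; exact hlt.trans_le (min_le_left _ _)) hτ
        rw [norm_inv]
        exact inv_le_one_of_one_le₀ h5.le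
    have h6 := h4.inv
    refine h6.congr ?_
    filter_upwards with τ
    simp

end Pic

open Pic

/-- big Picard theorem in half-plane coordinates -/
theorem picard_cusp {f : ℂ → ℂ} {b : ℝ} {N : ℕ} (hN : 0 < N)
    (hf : DifferentiableOn ℂ f {z | z.re < b}) (h0 : ∀ z : ℂ, z.re < b → f z ≠ 0)
    (h1 : ∀ z : ℂ, z.re < b → f z ≠ 1)
    (hper : ∀ z : ℂ, z.re < b → f (z + 2 * Real.pi * I * N) = f z) :
    ∃ (m : ℤ) (g : ℂ → ℂ) (ε : ℝ), 0 < ε ∧ DifferentiableOn ℂ g (Metric.ball 0 ε) ∧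
      (∀ τ ∈ Metric.ball (0 : ℂ) ε, g τ ≠ 0) ∧
      ∀ z : ℂ, z.re < b → ‖exp (z / N)‖ < ε → f z = exp (m * z / N) * g (exp (z / N)) := by
  have hm := mero hN hf h0 h1 hper
  have hord : meromorphicOrderAt (hh f N) 0 ≠ ⊤ := by
    intro htop
    rw [meromorphicOrderAt_eq_top_iff] at htop
    rw [eventually_nhdsWithin_iff, Metric.eventually_nhds_iff_ball] at htop
    obtain ⟨δ, hδ, h3⟩ := htop
    have hmin : 0 < min δ (Real.exp (b / N)) := lt_min hδ (Real.exp_pos _)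
    set τ : ℂ := ((min δ (Real.exp (b / N)) / 2 : ℝ) : ℂ) with hτ
    have hn : ‖τ‖ = min δ (Real.exp (b / N)) / 2 := by
      rw [hτ, Complex.norm_real, Real.norm_of_nonneg (by positivity)]
    have hτ0 : τ ≠ 0 := by
      rw [← norm_pos_iff, hn]; positivity
    have h4 := h3 τ (by
      rw [Metric.mem_ball, dist_zero_right, hn]
      have := min_le_left δ (Real.exp (b / N))
      linarith) hτ0
    refine hh_ne hN h0 hτ0 ?_ h4
    rw [hn]
    have := min_le_right δ (Real.exp (b / N))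
    linarith
  obtain ⟨m, hm'⟩ := WithTop.ne_top_iff_exists.mp hord
  obtain ⟨g, hg, hg0, hev⟩ := (meromorphicOrderAt_eq_int_iff hm).mp hm'.symm
  -- a small ball
  have h3 : ∀ᶠ τ in 𝓝 (0 : ℂ), AnalyticAt ℂ g τ := hg.eventually_analyticAt
  have h4 : ∀ᶠ τ in 𝓝 (0 : ℂ), g τ ≠ 0 := hg.continuousAt.eventually_ne hg0
  rw [eventually_nhdsWithin_iff] at hev
  obtain ⟨ε, hε, h5⟩ := Metric.eventually_nhds_iff_ball.mp (h3.and (h4.and hev))
  refine ⟨m, g, ε, hε, ?_, ?_, ?_⟩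
  · intro τ hτ
    exact (h5 τ hτ).1.differentiableAt.differentiableWithinAt
  · intro τ hτ
    exact (h5 τ hτ).2.1
  · intro z hz hlt
    have h6 := (h5 (exp (z / N)) (by
      rw [Metric.mem_ball, dist_zero_right]; exact hlt)).2.2 (Complex.exp_ne_zero _)
    rw [hh_exp hN hper hz] at h6
    rw [h6, sub_zero, smul_eq_mul, ← Complex.exp_int_mul]
    congr 2
    ring

/-- the exponent is the winding number -/
theorem picard_cusp_wnd {f : ℂ → ℂ} {b : ℝ} {N : ℕ} (hN : 0 < N)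
    (hf : DifferentiableOn ℂ f {z | z.re < b}) (h0 : ∀ z : ℂ, z.re < b → f z ≠ 0)
    (h1 : ∀ z : ℂ, z.re < b → f z ≠ 1)
    (hper : ∀ z : ℂ, z.re < b → f (z + 2 * Real.pi * I * N) = f z) {a : ℝ} (ha : a < b) :
    ∃ (m : ℤ) (g : ℂ → ℂ) (ε : ℝ), 0 < ε ∧ DifferentiableOn ℂ g (Metric.ball 0 ε) ∧
      (∀ τ ∈ Metric.ball (0 : ℂ) ε, g τ ≠ 0) ∧
      (∀ z : ℂ, z.re < b → ‖exp (z / N)‖ < ε → f z = exp (m * z / N) * g (exp (z / N))) ∧
      wnd (fun t => f (a + 2 * Real.pi * I * t)) 0 N = m := by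
  obtain ⟨m, g, ε, hε, hg, hg0, hfg⟩ := picard_cusp hN hf h0 h1 hper
  refine ⟨m, g, ε, hε, hg, hg0, hfg, ?_⟩
  have hNr : (0 : ℝ) < N := by exact_mod_cast hN
  have hN' : (N : ℂ) ≠ 0 := by exact_mod_cast hN.ne'
  have hre : ∀ s t : ℝ, ((s : ℂ) + 2 * Real.pi * I * t).re = s := by
    intro s t
    have : (2 * Real.pi * I * t : ℂ) = ((2 * Real.pi * t : ℝ) : ℂ) * I := by push_cast; ring
    rw [this]; simp
  -- continuity of `g` at `0`: small ball on which `g` is close to `g 0`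
  have hgc : ContinuousAt g 0 :=
    (hg.differentiableAt (Metric.ball_mem_nhds 0 hε)).continuousAt
  have hg00 : g 0 ≠ 0 := hg0 0 (Metric.mem_ball_self hε)
  obtain ⟨δ, hδ, hclose⟩ := Metric.continuousAt_iff.mp hgc ‖g 0‖ (norm_pos_iff.mpr hg00)
  -- choose a very negative real part
  set η : ℝ := min ε δ with hη
  have hηpos : 0 < η := lt_min hε hδ
  set s₀ : ℝ := min a (N * Real.log η - 1) with hs₀
  have hs₀a : s₀ ≤ a := min_le_left _ _
  have hs₀b : s₀ < b := hs₀a.trans_lt ha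
  have hsmall : ∀ t : ℝ, ‖exp (((s₀ : ℂ) + 2 * Real.pi * I * t) / N)‖ < η := by
    intro t
    rw [Complex.norm_exp]
    have h2 : (((s₀ : ℂ) + 2 * Real.pi * I * t) / N).re = s₀ / N := by
      rw [← Complex.ofReal_natCast, Complex.div_ofReal_re, hre]
    rw [h2, ← Real.lt_log_iff_exp_lt hηpos, div_lt_iff₀ hNr]
    have := min_le_right a (N * Real.log η - 1)
    rw [← hs₀] at this
    linarith
  -- homotopy
  have hopen : IsOpen {z : ℂ | z.re < b} := isOpen_lt Complex.continuous_re continuous_const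
  have hcont : Continuous (Function.uncurry
      (fun s t : ℝ => f (((min s a : ℝ) : ℂ) + 2 * Real.pi * I * t))) := by
    rw [continuous_iff_continuousAt]
    rintro ⟨s, t⟩
    have hmem : (((min s a : ℝ) : ℂ) + 2 * Real.pi * I * t).re < b := by
      rw [hre]; exact (min_le_right _ _).trans_lt ha
    have hfc : ContinuousAt f (((min s a : ℝ) : ℂ) + 2 * Real.pi * I * t) :=
      (hf.differentiableAt (hopen.mem_nhds hmem)).continuousAt
    exact ContinuousAt.comp (f := fun p : ℝ × ℝ => (((min p.1 a : ℝ) : ℂ) + 2 * Real.pi * I * p.2))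
      (x := (s, t)) hfc (by fun_prop)
  have hne : ∀ s t : ℝ, f (((min s a : ℝ) : ℂ) + 2 * Real.pi * I * t) ≠ 0 := by
    intro s t
    refine h0 _ ?_
    rw [hre]; exact (min_le_right _ _).trans_lt ha
  have hab : ∀ s : ℝ, f (((min s a : ℝ) : ℂ) + 2 * Real.pi * I * ((N : ℝ) : ℂ)) =
      1 * f (((min s a : ℝ) : ℂ) + 2 * Real.pi * I * ((0 : ℝ) : ℂ)) := by
    intro s
    have h2 : (((min s a : ℝ) : ℂ)).re < b := by
      rw [Complex.ofReal_re]; exact (min_le_right _ _).trans_lt ha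
    have := hper _ h2
    rw [Complex.ofReal_natCast, this]
    simp
  have hhom := wnd_homotopy (a := 0) (b := N) (c := 1) hcont hne hab a s₀
  simp only [min_self] at hhom
  rw [hhom]
  -- compute at `s₀`
  have hmin : min s₀ a = s₀ := min_eq_left hs₀a
  rw [hmin]
  have hform : (fun t : ℝ => f ((s₀ : ℂ) + 2 * Real.pi * I * t)) =
      fun t : ℝ => exp (m * ((s₀ : ℂ) + 2 * Real.pi * I * t) / N) *
        g (exp (((s₀ : ℂ) + 2 * Real.pi * I * t) / N)) := by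
    funext t
    refine hfg _ (by rw [hre]; exact hs₀b) ((hsmall t).trans_le (min_le_left _ _))
  rw [hform]
  have hgcont : Continuous (fun t : ℝ => g (exp (((s₀ : ℂ) + 2 * Real.pi * I * t) / N))) := by
    rw [continuous_iff_continuousAt]
    intro t
    have hmem : exp (((s₀ : ℂ) + 2 * Real.pi * I * t) / N) ∈ Metric.ball (0 : ℂ) ε := by
      rw [Metric.mem_ball, dist_zero_right]
      exact (hsmall t).trans_le (min_le_left _ _)
    have hgc' : ContinuousAt g (exp (((s₀ : ℂ) + 2 * Real.pi * I * t) / N)) :=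
      (hg.differentiableAt (Metric.isOpen_ball.mem_nhds hmem)).continuousAt
    exact ContinuousAt.comp (f := fun t : ℝ => exp (((s₀ : ℂ) + 2 * Real.pi * I * t) / N))
      hgc' (by fun_prop)
  have hgne : ∀ t : ℝ, g (exp (((s₀ : ℂ) + 2 * Real.pi * I * t) / N)) ≠ 0 := by
    intro t
    refine hg0 _ ?_
    rw [Metric.mem_ball, dist_zero_right]
    exact (hsmall t).trans_le (min_le_left _ _)
  rw [wnd_mul (by fun_prop) hgcont (fun t => Complex.exp_ne_zero _) hgne]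
  have hexp0 : wnd (fun t : ℝ => exp (m * ((s₀ : ℂ) + 2 * Real.pi * I * t) / N)) 0 N = m := by
    rw [wnd_exp (L := fun t : ℝ => m * ((s₀ : ℂ) + 2 * Real.pi * I * t) / N) (by fun_prop)]
    have hpi : (Real.pi : ℂ) ≠ 0 := by exact_mod_cast Real.pi_ne_zero
    push_cast
    field_simp
    ring
  have hnear : wnd (fun t : ℝ => g (exp (((s₀ : ℂ) + 2 * Real.pi * I * t) / N))) 0 N = 0 := by
    refine wnd_eq_zero_of_near hgcont (c := g 0) ?_ ?_
    · intro t
      have h2 := hclose (x := exp (((s₀ : ℂ) + 2 * Real.pi * I * t) / N)) (by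
        rw [dist_zero_right]
        exact (hsmall t).trans_le (min_le_right _ _))
      rwa [dist_eq_norm] at h2
    · congr 1
      have h2 : ((s₀ : ℂ) + 2 * Real.pi * I * ((N : ℝ) : ℂ)) / N =
          ((s₀ : ℂ) + 2 * Real.pi * I * ((0 : ℝ) : ℂ)) / N + 2 * Real.pi * I := by
        push_cast
        field_simp
        ring
      rw [h2, Complex.exp_add, Complex.exp_two_pi_mul_I, mul_one]
  rw [hexp0, hnear, add_zero]

end MP2d36f7
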