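import Pool.Agent.Lib_MP_2d36f7_ag.Loops
import Pool.Agent.Lib_MP_2d36f7_ag.Lift
import Pool.Agent.Lib_MP_2d36f7_ag.Wind
import Pool.Agent.Lib_MP_2d36f7_ag.Picard

/-! # Limits of the ratios at trivial cusps -/

open Polynomial Complex Set Filter Topology

namespace MP2d36f7

variable {k n : ℕ}

theorem Cusp_isOpen (b : ℝ) : IsOpen {z : ℂ | z.re < b} :=
  isOpen_lt Complex.continuous_re continuous_const

/-- the restriction of a lift over a half plane to a vertical line -/
theorem Cusp_line (d : Dat k n) {b : ℝ} {x : ℂ → Fin k → ℂ}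
    {l : ℂ → Fin n → ℂ} (hl : IsLiftOn d {z | z.re < b} x l) {z : ℂ} (hz : z.re < b) :
    IsLift d (fun t : ℝ => x (z + 2 * Real.pi * I * t)) (fun t : ℝ => l (z + 2 * Real.pi * I * t)) := by
  have hre : ∀ t : ℝ, (z + 2 * Real.pi * I * t) ∈ {z : ℂ | z.re < b} := by
    intro t
    show (z + 2 * Real.pi * I * t).re < b
    simpa using hz
  refine ⟨?_, fun t => hl.eq _ (hre t)⟩
  exact hl.cont.comp_continuous (by fun_prop) hre

theorem Cusp_core (d : Dat k n) {b : ℝ} {x : ℂ → Fin k → ℂ}
    (hx : DifferentiableOn ℂ x {z | z.re < b}) (hxi : ∀ z : ℂ, z.re < b → x z ∈ Inj k)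
    (hper : ∀ z : ℂ, z.re < b → d.F (x (z + 2 * Real.pi * I)) = d.F (x z))
    {l : ℂ → Fin n → ℂ} (hl : IsLiftOn d {z | z.re < b} x l) {a : ℝ} (ha : a < b)
    (hT : Triv d (fun t => x (a + 2 * Real.pi * I * t))) {p q r : Fin n}
    (hpq : p ≠ q) (hqr : q ≠ r) (hpr : p ≠ r) :
    ∃ c : ℂ, c ≠ 0 ∧ Tendsto (fun z => R (l z) p q r) (comap Complex.re atBot) (𝓝 c) := by
  have hhol : DifferentiableOn ℂ l {z : ℂ | z.re < b} :=
    liftOn_holo d (Cusp_isOpen b) hx (fun y hy => hxi y hy) hl
  have hinj : ∀ z : ℂ, z.re < b → l z ∈ Inj n := fun z hz => lift_inj d (hxi z hz) (hl.eq z hz)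
  have hcoord : ∀ i : Fin n, DifferentiableOn ℂ (fun z => l z i) {z : ℂ | z.re < b} := by
    intro i
    exact differentiableOn_pi.mp hhol i
  have hden : ∀ z : ℂ, z.re < b → ∀ i j : Fin n, i ≠ j → l z i - l z j ≠ 0 := by
    intro z hz i j hij h0
    exact hij (hinj z hz (sub_eq_zero.mp h0))
  have hf : DifferentiableOn ℂ (fun z => R (l z) p q r) {z : ℂ | z.re < b} := by
    unfold R
    exact ((hcoord p).sub (hcoord q)).div ((hcoord r).sub (hcoord q))
      (fun z hz => hden z hz r q hqr.symm)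
  have h0 : ∀ z : ℂ, z.re < b → R (l z) p q r ≠ 0 := by
    intro z hz
    unfold R
    exact div_ne_zero (hden z hz p q hpq) (hden z hz r q hqr.symm)
  have h1 : ∀ z : ℂ, z.re < b → R (l z) p q r ≠ 1 := by
    intro z hz h
    unfold R at h
    rw [div_eq_one_iff_eq (hden z hz r q hqr.symm)] at h
    exact hden z hz p r hpr (by linear_combination h)
  have hN : 0 < n.factorial := Nat.factorial_pos n
  -- periodicity
  have hline : ∀ z : ℂ, z.re < b → l (z + 2 * Real.pi * I * (n.factorial : ℕ)) = l z := by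
    intro z hz
    have hre : ∀ t : ℝ, (z + 2 * Real.pi * I * t).re < b := by
      intro t
      simpa using hz
    have hcx : Continuous (fun t : ℝ => x (z + 2 * Real.pi * I * t)) :=
      hx.continuousOn.comp_continuous (by fun_prop) hre
    have hp' : ∀ t : ℝ, d.F (x (z + 2 * Real.pi * I * ((t + 1 : ℝ) : ℂ))) =
        d.F (x (z + 2 * Real.pi * I * t)) := by
      intro t
      have := hper (z + 2 * Real.pi * I * t) (hre t)
      rw [← this]
      congr 2
      push_cast
      ring
    have h := lift_period_fact d hcx (fun t => hxi _ (hre t)) hp' (Cusp_line d hl hz) 0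
    simp only [zero_add, ofReal_zero, mul_zero, add_zero] at h
    rw [← h]
    congr 1
  have hfper : ∀ z : ℂ, z.re < b →
      R (l (z + 2 * Real.pi * I * (n.factorial : ℕ))) p q r = R (l z) p q r := by
    intro z hz
    rw [hline z hz]
  obtain ⟨m, g, ε, hε, hg, hg0, hfg, hw⟩ := picard_cusp_wnd hN hf h0 h1 hfper ha
  -- the winding number vanishes
  have hla := Cusp_line d (z := (a : ℂ)) hl (by simpa using ha)
  have hlain : ∀ t : ℝ, ∀ i j : Fin n, i ≠ j →
      l (a + 2 * Real.pi * I * t) i - l (a + 2 * Real.pi * I * t) j ≠ 0 := by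
    intro t i j hij
    apply hden _ _ i j hij
    simpa using ha
  have hcont : ∀ i j : Fin n, Continuous (fun t : ℝ =>
      l (a + 2 * Real.pi * I * t) i - l (a + 2 * Real.pi * I * t) j) := by
    intro i j
    exact ((continuous_apply i).comp hla.cont).sub ((continuous_apply j).comp hla.cont)
  have hwd : wnd (fun t : ℝ => R (l (a + 2 * Real.pi * I * t)) p q r) 0 (n.factorial : ℝ) = 0 := by
    have e := wnd_div (hcont p q) (hcont r q) (fun t => hlain t p q hpq)
      (fun t => hlain t r q hqr.symm) 0 (n.factorial : ℝ)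
    have e2 := hT _ hla p q r q hpq hqr.symm
    unfold V at e2
    rw [e2, sub_self] at e
    exact e
  have hm : m = 0 := by
    rw [hw] at hwd
    exact_mod_cast hwd
  subst hm
  refine ⟨g 0, hg0 0 (Metric.mem_ball_self hε), ?_⟩
  have hNR : (0 : ℝ) < n.factorial := by exact_mod_cast hN
  have hexp : Tendsto (fun z : ℂ => exp (z / (n.factorial : ℕ))) (comap Complex.re atBot) (𝓝 0) := by
    rw [tendsto_zero_iff_norm_tendsto_zero]
    have e : ∀ z : ℂ, ‖exp (z / (n.factorial : ℕ))‖ = Real.exp (z.re / n.factorial) := by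
      intro z
      rw [Complex.norm_exp]
      congr 1
      rw [Complex.div_natCast_re]
    simp_rw [e]
    exact Real.tendsto_exp_atBot.comp (tendsto_comap.atBot_div_const hNR)
  have hgc : ContinuousAt g 0 :=
    (hg.differentiableAt (Metric.isOpen_ball.mem_nhds (Metric.mem_ball_self hε))).continuousAt
  have hcomp : Tendsto (fun z : ℂ => g (exp (z / (n.factorial : ℕ)))) (comap Complex.re atBot)
      (𝓝 (g 0)) := hgc.tendsto.comp hexp
  refine hcomp.congr' ?_
  have hsmall : ∀ᶠ z : ℂ in comap Complex.re atBot, ‖exp (z / (n.factorial : ℕ))‖ < ε := by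
    have := hexp.eventually (Metric.ball_mem_nhds (0 : ℂ) hε)
    filter_upwards [this] with z hz
    simpa using hz
  have hreb : ∀ᶠ z : ℂ in comap Complex.re atBot, z.re < b :=
    tendsto_comap.eventually (eventually_lt_atBot b)
  filter_upwards [hsmall, hreb] with z hz hzb
  rw [hfg z hzb hz]
  simp

/-- at a trivial cusp all the ratios have limits different from `0` and `1` -/
theorem cusp_limit (d : Dat k n) {b : ℝ} {x : ℂ → Fin k → ℂ}
    (hx : DifferentiableOn ℂ x {z | z.re < b}) (hxi : ∀ z : ℂ, z.re < b → x z ∈ Inj k)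
    (hper : ∀ z : ℂ, z.re < b → d.F (x (z + 2 * Real.pi * I)) = d.F (x z))
    {l : ℂ → Fin n → ℂ} (hl : IsLiftOn d {z | z.re < b} x l) {a : ℝ} (ha : a < b)
    (hT : Triv d (fun t => x (a + 2 * Real.pi * I * t))) {p q r : Fin n}
    (hpq : p ≠ q) (hqr : q ≠ r) (hpr : p ≠ r) :
    ∃ c : ℂ, c ≠ 0 ∧ c ≠ 1 ∧
      Tendsto (fun z => R (l z) p q r) (comap Complex.re atBot) (𝓝 c) := by
  obtain ⟨c, hc, hlim⟩ := Cusp_core d hx hxi hper hl ha hT hpq hqr hpr
  obtain ⟨c', hc', hlim'⟩ := Cusp_core d hx hxi hper hl ha hT hpr hqr.symm hpq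
  refine ⟨c, hc, ?_, hlim⟩
  rintro rfl
  apply hc'
  have hne : NeBot (comap Complex.re (atBot : Filter ℝ)) :=
    (inferInstance : NeBot (atBot : Filter ℝ)).comap_of_surj Complex.re_surjective
  have h1 : Tendsto (fun z => 1 - R (l z) p q r) (comap Complex.re atBot) (𝓝 (1 - 1)) :=
    tendsto_const_nhds.sub hlim
  rw [sub_self] at h1
  refine tendsto_nhds_unique hlim' (h1.congr' ?_)
  have hreb : ∀ᶠ z : ℂ in comap Complex.re atBot, z.re < b :=
    tendsto_comap.eventually (eventually_lt_atBot b)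
  filter_upwards [hreb] with z hz
  have hinj : l z ∈ Inj n := lift_inj d (hxi z hz) (hl.eq z hz)
  have h2 : l z r - l z q ≠ 0 := fun h0 => hqr.symm (hinj (sub_eq_zero.mp h0))
  have h3 : l z q - l z r ≠ 0 := fun h0 => hqr (hinj (sub_eq_zero.mp h0))
  unfold R
  field_simp
  ring

end MP2d36f7
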