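import Pool.Agent.Lib_MP_2d36f7_ag.Defs

/-!
# Path connectedness of complements of complex hyperplanes
-/

open Polynomial Complex Set Filter Topology

namespace MP2d36f7

variable {k : ℕ}

/-- In an open convex plane set a finite set can be avoided. -/
theorem joinedIn_zero_one {U : Set ℂ} (hU : IsOpen U) (hc : Convex ℝ U) (h0 : (0 : ℂ) ∈ U)
    (h1 : (1 : ℂ) ∈ U) {E : Set ℂ} (hE : E.Finite) (e0 : (0 : ℂ) ∉ E) (e1 : (1 : ℂ) ∉ E) :
    JoinedIn (U ∩ Eᶜ) 0 1 := by
  have hhalf : (1 / 2 : ℂ) ∈ U := by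
    have := hc h0 h1 (by norm_num : (0 : ℝ) ≤ 1 / 2) (by norm_num : (0 : ℝ) ≤ 1 / 2) (by norm_num)
    simpa using this
  have hcont : Continuous (fun t : ℝ => (1 / 2 : ℂ) + t * I) := by fun_prop
  have hopen : IsOpen {t : ℝ | (1 / 2 : ℂ) + t * I ∈ U} := hU.preimage hcont
  have hmem : (0 : ℝ) ∈ {t : ℝ | (1 / 2 : ℂ) + t * I ∈ U} := by simpa using hhalf
  have hinf : {t : ℝ | (1 / 2 : ℂ) + t * I ∈ U}.Infinite :=
    infinite_of_mem_nhds (0 : ℝ) (hopen.mem_nhds hmem)
  have hbad : ((fun e : ℂ => e.im / (2 * e.re)) '' E ∪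
      (fun e : ℂ => e.im / (2 * (1 - e.re))) '' E).Finite := (hE.image _).union (hE.image _)
  obtain ⟨t, ht, htb⟩ := (hinf.sdiff hbad).nonempty
  have htU : (1 / 2 : ℂ) + t * I ∈ U := ht
  have A : JoinedIn (U ∩ Eᶜ) 0 ((1 / 2 : ℂ) + t * I) := by
    apply JoinedIn.of_segment_subset
    intro z hz
    refine ⟨hc.segment_subset h0 htU hz, ?_⟩
    intro hzE
    rw [segment_eq_image ℝ] at hz
    obtain ⟨r, hr, rfl⟩ := hz
    by_cases hr0 : r = 0
    · subst hr0; apply e0; simpa using hzE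
    · apply htb
      left
      refine ⟨_, hzE, ?_⟩
      simp
      field_simp
  have B : JoinedIn (U ∩ Eᶜ) ((1 / 2 : ℂ) + t * I) 1 := by
    apply JoinedIn.of_segment_subset
    intro z hz
    refine ⟨hc.segment_subset htU h1 hz, ?_⟩
    intro hzE
    rw [segment_eq_image ℝ] at hz
    obtain ⟨r, hr, rfl⟩ := hz
    by_cases hr0 : r = 1
    · subst hr0; apply e1; simpa using hzE
    · apply htb
      right
      refine ⟨_, hzE, ?_⟩
      have hr1 : 1 - r ≠ 0 := sub_ne_zero.2 (Ne.symm hr0)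
      simp
      have : (2 : ℝ) * (1 - ((1 - r) * 2⁻¹ + r)) = 1 - r := by ring
      rw [this]
      field_simp
  exact A.trans B

/-- complement of finitely many complex hyperplanes in a convex open set is path connected -/
theorem isPathConnected_compl_hyperplanes {m : ℕ} {ι : Type*} [Finite ι] {W : Set (Fin m → ℂ)}
    (hW : IsOpen W) (hc : Convex ℝ W) (hne : W.Nonempty) (f : ι → ((Fin m → ℂ) →ₗ[ℂ] ℂ))
    (hf : ∀ i, f i ≠ 0) : IsPathConnected (W ∩ {w | ∀ i, f i w ≠ 0}) := by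
  classical
  have key : ∀ a ∈ W ∩ {w | ∀ i, f i w ≠ 0}, ∀ b ∈ W ∩ {w | ∀ i, f i w ≠ 0},
      JoinedIn (W ∩ {w | ∀ i, f i w ≠ 0}) a b := by
    intro a ha b hb
    set g : ℂ → (Fin m → ℂ) := fun s => a + s • (b - a) with hg
    have gcont : Continuous g := by fun_prop
    have g0 : g 0 = a := by simp [hg]
    have g1 : g 1 = b := by simp [hg]
    have hU : IsOpen (g ⁻¹' W) := hW.preimage gcont
    have hUc : Convex ℝ (g ⁻¹' W) := by
      intro s hs t ht α β hα hβ hαβ
      have := hc hs ht hα hβ hαβ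
      simp only [mem_preimage] at *
      convert this using 1
      have h1 : (β : ℝ) = 1 - α := by linarith
      subst h1
      ext j
      simp [hg]
      ring
    set E : Set ℂ := ⋃ i, {s : ℂ | f i (g s) = 0} with hE
    have hEf : E.Finite := by
      apply Set.finite_iUnion
      intro i
      apply Set.Subsingleton.finite
      intro s hs t ht
      simp only [hg, mem_ofPred_eq, map_add, map_smul, smul_eq_mul] at hs ht
      by_cases hz : f i (b - a) = 0
      · exfalso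
        rw [hz] at hs
        simp at hs
        exact ha.2 i hs
      · have : (s - t) * f i (b - a) = 0 := by linear_combination hs - ht
        rcases mul_eq_zero.1 this with h | h
        · exact sub_eq_zero.1 h
        · exact absurd h hz
    have e0 : (0 : ℂ) ∉ E := by
      simp only [hE, mem_iUnion, mem_ofPred_eq, not_exists, g0]
      exact ha.2
    have e1 : (1 : ℂ) ∉ E := by
      simp only [hE, mem_iUnion, mem_ofPred_eq, not_exists, g1]
      exact hb.2
    have J := joinedIn_zero_one hU hUc (by rw [mem_preimage, g0]; exact ha.1)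
      (by rw [mem_preimage, g1]; exact hb.1) hEf e0 e1
    obtain ⟨γ, hγ⟩ := J
    rw [← g0, ← g1]
    refine ⟨γ.map gcont, fun t => ⟨(hγ t).1, fun i hi => (hγ t).2 (mem_iUnion.2 ⟨i, hi⟩)⟩⟩
  -- nonemptiness
  obtain ⟨w, hw⟩ := hne
  have hcov : ∃ v : Fin m → ℂ, ∀ i, f i v ≠ 0 := by
    by_contra hcon
    push Not at hcon
    have hun : (⋃ i, ((LinearMap.ker (f i) : Submodule ℂ (Fin m → ℂ)) :
        Set (Fin m → ℂ))) = Set.univ := by
      ext v
      simp only [mem_iUnion, mem_univ, iff_true]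
      obtain ⟨i, hi⟩ := hcon v
      exact ⟨i, by simpa using hi⟩
    obtain ⟨i, htop⟩ := Subspace.exists_eq_top_of_iUnion_eq_univ hun
    exact hf i (LinearMap.ker_eq_top.1 htop)
  obtain ⟨v, hv⟩ := hcov
  have hcont : Continuous (fun t : ℝ => w + (t : ℂ) • v) := by fun_prop
  have hopen : IsOpen {t : ℝ | w + (t : ℂ) • v ∈ W} := hW.preimage hcont
  have hmem : (0 : ℝ) ∈ {t : ℝ | w + (t : ℂ) • v ∈ W} := by simpa using hw
  have hinf : {t : ℝ | w + (t : ℂ) • v ∈ W}.Infinite :=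
    infinite_of_mem_nhds (0 : ℝ) (hopen.mem_nhds hmem)
  have hbad : (⋃ i, {t : ℝ | f i (w + (t : ℂ) • v) = 0}).Finite := by
    apply Set.finite_iUnion
    intro i
    apply Set.Subsingleton.finite
    intro s hs t ht
    simp only [mem_ofPred_eq, map_add, map_smul, smul_eq_mul] at hs ht
    have : ((s : ℂ) - t) * f i v = 0 := by linear_combination hs - ht
    rcases mul_eq_zero.1 this with h | h
    · exact_mod_cast sub_eq_zero.1 h
    · exact absurd h (hv i)
  obtain ⟨t, ht, htb⟩ := (hinf.sdiff hbad).nonempty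
  have hmem2 : w + (t : ℂ) • v ∈ W ∩ {w | ∀ i, f i w ≠ 0} := by
    refine ⟨ht, fun i hi => htb (mem_iUnion.2 ⟨i, hi⟩)⟩
  exact ⟨_, hmem2, fun {y} hy => key _ hmem2 y hy⟩

/-- a joined pair is joined by a path defined on the whole line -/
theorem exists_path_of_joinedIn {X : Type*} [TopologicalSpace X] {F : Set X} {x y : X}
    (h : JoinedIn F x y) :
    ∃ γ : ℝ → X, Continuous γ ∧ (∀ t, γ t ∈ F) ∧ γ 0 = x ∧ γ 1 = y := by
  obtain ⟨γ, hγ⟩ := h
  refine ⟨γ.extend, γ.continuous_extend, ?_, γ.extend_zero, γ.extend_one⟩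
  intro t
  have : γ.extend t ∈ range γ := by
    rw [← γ.extend_range]
    exact mem_range_self t
  obtain ⟨s, hs⟩ := this
  rw [← hs]
  exact hγ s

/-- the functional `w p - w q` -/
def diffFun (k : ℕ) (i : Fin k × Fin k) : (Fin k → ℂ) →ₗ[ℂ] ℂ :=
  (LinearMap.proj i.1 : (Fin k → ℂ) →ₗ[ℂ] ℂ) - LinearMap.proj i.2

theorem diffFun_apply {k : ℕ} (i : Fin k × Fin k) (w : Fin k → ℂ) :
    diffFun k i w = w i.1 - w i.2 := rfl

theorem diffFun_ne {k : ℕ} {i : Fin k × Fin k} (h : i.1 ≠ i.2) : diffFun k i ≠ 0 := by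
  intro h0
  have := LinearMap.congr_fun h0 (Pi.single i.1 1)
  simp [diffFun_apply, h.symm] at this

theorem isPathConnected_Inj (k : ℕ) : IsPathConnected (Inj k) := by
  have h := isPathConnected_compl_hyperplanes (m := k) (ι := {i : Fin k × Fin k // i.1 ≠ i.2})
    (W := univ) isOpen_univ convex_univ univ_nonempty (fun i => diffFun k i.1)
    (fun i => diffFun_ne i.2)
  convert h using 1
  ext w
  simp only [Inj, mem_ofPred_eq, univ_inter, Subtype.forall, Prod.forall, diffFun_apply]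
  constructor
  · intro hw a b hab h0
    exact hab (hw (sub_eq_zero.1 h0))
  · intro hw a b hab
    by_contra hne
    exact hw a b hne (sub_eq_zero.2 hab)

/-- paths defined on the whole line -/
theorem exists_path_Inj {x y : Fin k → ℂ} (hx : x ∈ Inj k) (hy : y ∈ Inj k) :
    ∃ γ : ℝ → Fin k → ℂ, Continuous γ ∧ (∀ t, γ t ∈ Inj k) ∧ γ 0 = x ∧ γ 1 = y :=
  exists_path_of_joinedIn ((isPathConnected_Inj k).joinedIn x hx y hy)

/-- normal forms of configurations with a disc: `i` points `w_a` in the unit disc, and the points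
`1 / w_b` outside -/
def Wset (k i : ℕ) : Set (Fin k → ℂ) :=
  {w | (∀ a, ‖w a‖ < 1) ∧ (∀ a b : Fin k, (a : ℕ) < i → (b : ℕ) < i → w a = w b → a = b) ∧
    (∀ a b : Fin k, i ≤ (a : ℕ) → i ≤ (b : ℕ) → w a = w b → a = b) ∧
    ∀ b : Fin k, i ≤ (b : ℕ) → w b ≠ 0}

theorem isPathConnected_Wset (k i : ℕ) : IsPathConnected (Wset k i) := by
  set W : Set (Fin k → ℂ) := univ.pi (fun _ => Metric.ball (0 : ℂ) 1) with hW
  have hWo : IsOpen W := isOpen_set_pi finite_univ (fun _ _ => Metric.isOpen_ball)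
  have hWc : Convex ℝ W := convex_pi (fun _ _ => convex_ball _ _)
  have hWn : W.Nonempty := ⟨0, by simp [hW]⟩
  let P : Type := {p : Fin k × Fin k // p.1 ≠ p.2 ∧
    (((p.1 : ℕ) < i ∧ (p.2 : ℕ) < i) ∨ (i ≤ (p.1 : ℕ) ∧ i ≤ (p.2 : ℕ)))}
  let Q : Type := {b : Fin k // i ≤ (b : ℕ)}
  have h := isPathConnected_compl_hyperplanes (m := k) (ι := P ⊕ Q)
    (W := W) hWo hWc hWn (Sum.elim (fun p => diffFun k p.1) (fun b => LinearMap.proj b.1))
    (by
      rintro (p | b)
      · exact diffFun_ne p.2.1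
      · intro h0
        have := LinearMap.congr_fun h0 (Pi.single b.1 1)
        simp at this)
  convert h using 1
  ext w
  simp only [Wset, mem_inter_iff, mem_ofPred_eq, hW, Set.mem_pi, mem_univ, true_imp_iff, Sum.forall,
    Sum.elim_inl, Sum.elim_inr, mem_ball_zero_iff]
  constructor
  · rintro ⟨h1, h2, h3, h4⟩
    refine ⟨h1, ?_, ?_⟩
    · rintro ⟨⟨a, b⟩, hab, hc⟩ h0
      simp only [diffFun_apply] at h0 hc hab
      rcases hc with ⟨ha, hb⟩ | ⟨ha, hb⟩
      · exact hab (h2 a b ha hb (sub_eq_zero.1 h0))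
      · exact hab (h3 a b ha hb (sub_eq_zero.1 h0))
    · rintro ⟨b, hb⟩ h0
      exact h4 b hb h0
  · rintro ⟨h1, h2, h3⟩
    refine ⟨h1, ?_, ?_, ?_⟩
    · intro a b ha hb hab
      by_contra hne
      exact h2 ⟨(a, b), hne, Or.inl ⟨ha, hb⟩⟩ (sub_eq_zero.2 hab)
    · intro a b ha hb hab
      by_contra hne
      exact h2 ⟨(a, b), hne, Or.inr ⟨ha, hb⟩⟩ (sub_eq_zero.2 hab)
    · intro b hb
      exact h3 ⟨b, hb⟩

theorem exists_path_Wset {i : ℕ} {x y : Fin k → ℂ} (hx : x ∈ Wset k i) (hy : y ∈ Wset k i) :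
    ∃ γ : ℝ → Fin k → ℂ, Continuous γ ∧ (∀ t, γ t ∈ Wset k i) ∧ γ 0 = x ∧ γ 1 = y :=
  exists_path_of_joinedIn ((isPathConnected_Wset k i).joinedIn x hx y hy)

/-- complement of a finite set in the plane -/
theorem exists_path_compl_finite (E : Finset ℂ) {a b : ℂ} (ha : a ∉ E) (hb : b ∉ E) :
    ∃ γ : ℝ → ℂ, Continuous γ ∧ (∀ t, γ t ∉ E) ∧ γ 0 = a ∧ γ 1 = b := by
  have h : IsPathConnected ((E : Set ℂ)ᶜ) :=
    E.countable_toSet.isPathConnected_compl_of_one_lt_rank (by
      rw [Complex.rank_real_complex]; exact_mod_cast Nat.one_lt_two)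
  obtain ⟨γ, h1, h2, h3, h4⟩ := exists_path_of_joinedIn
    (h.joinedIn a (by simpa using ha) b (by simpa using hb))
  exact ⟨γ, h1, fun t => by simpa using h2 t, h3, h4⟩

end MP2d36f7
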