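import Mathlib
import Pool.Agent.Lib_MP_2d36f7_ag.Defs
import Pool.Agent.Lib_MP_2d36f7_ag.Loops
import Pool.Agent.Lib_MP_2d36f7_ag.PathConn

/-!
# Rotations of a disc, and cusp families

The loop rotating the points of a configuration lying in a disc, with the other points outside the
disc, is shape-trivial if and only if the standard rotation `rot k i` is, `i` being the number of
the points in the disc. The same for the loops about the parameter `0` of a family in which the
points of `S` collide linearly.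
-/

open Polynomial Complex Set Filter Topology

namespace MP2d36f7

variable {k n : ℕ}

/-- the loop in normal form -/
noncomputable def nfLoop (i : ℕ) (c : ℂ) (ρ : ℝ) (w : Fin k → ℂ) (t : ℝ) : Fin k → ℂ := fun a =>
  if (a : ℕ) < i then c + (ρ : ℂ) * (exp (2 * Real.pi * I * t) * w a) else c + (ρ : ℂ) / w a

theorem disc_norm_exp (t : ℝ) : ‖exp (2 * Real.pi * I * t)‖ = 1 := by
  rw [Complex.norm_exp]
  simp

theorem disc_exp_add_one (t : ℝ) :
    exp (2 * Real.pi * I * ((t + 1 : ℝ) : ℂ)) = exp (2 * Real.pi * I * t) := by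
  have h : (2 * Real.pi * I * ((t + 1 : ℝ) : ℂ)) = 2 * Real.pi * I * t + 2 * Real.pi * I := by
    push_cast; ring
  rw [h, Complex.exp_add, Complex.exp_two_pi_mul_I, mul_one]

theorem nfLoop_mem {i : ℕ} {c : ℂ} {ρ : ℝ} (hρ : 0 < ρ) {w : Fin k → ℂ} (hw : w ∈ Wset k i)
    (t : ℝ) : nfLoop i c ρ w t ∈ Inj k := by
  obtain ⟨h1, h2, h3, h4⟩ := hw
  have hρ' : (ρ : ℂ) ≠ 0 := by exact_mod_cast hρ.ne'
  have hmix : ∀ a b : Fin k, (a : ℕ) < i → ¬ (b : ℕ) < i →
      c + (ρ : ℂ) * (exp (2 * Real.pi * I * t) * w a) ≠ c + (ρ : ℂ) / w b := by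
    intro a b ha hb h
    have hb0 := h4 b (not_lt.mp hb)
    have h5 : exp (2 * Real.pi * I * t) * w a = (w b)⁻¹ := by
      have h6 := add_left_cancel h
      rw [div_eq_mul_inv] at h6
      exact mul_left_cancel₀ hρ' h6
    have h7 := congrArg (fun z : ℂ => ‖z‖) h5
    simp only [norm_mul, disc_norm_exp, one_mul, norm_inv] at h7
    have h8 : (1 : ℝ) < ‖w b‖⁻¹ := by
      rw [one_lt_inv₀ (norm_pos_iff.mpr hb0)]
      exact h1 b
    have h9 := h1 a
    linarith
  intro a b hab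
  simp only [nfLoop] at hab
  by_cases ha : (a : ℕ) < i
  · by_cases hb : (b : ℕ) < i
    · rw [if_pos ha, if_pos hb] at hab
      have h6 := mul_left_cancel₀ hρ' (add_left_cancel hab)
      exact h2 a b ha hb (mul_left_cancel₀ (Complex.exp_ne_zero _) h6)
    · rw [if_pos ha, if_neg hb] at hab
      exact absurd hab (hmix a b ha hb)
  · by_cases hb : (b : ℕ) < i
    · rw [if_neg ha, if_pos hb] at hab
      exact absurd hab.symm (hmix b a hb ha)
    · rw [if_neg ha, if_neg hb] at hab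
      have h6 := add_left_cancel hab
      rw [div_eq_mul_inv, div_eq_mul_inv] at h6
      exact h3 a b (not_lt.mp ha) (not_lt.mp hb) (inv_injective (mul_left_cancel₀ hρ' h6))

theorem nfLoop_add_one (i : ℕ) (c : ℂ) (ρ : ℝ) (w : Fin k → ℂ) (t : ℝ) :
    nfLoop i c ρ w (t + 1) = nfLoop i c ρ w t := by
  funext a
  simp only [nfLoop]
  rw [disc_exp_add_one]

theorem triv_nfLoop (d : Dat k n) {i : ℕ} {c c' : ℂ} {ρ ρ' : ℝ} (hρ : 0 < ρ) (hρ' : 0 < ρ')
    {w w' : Fin k → ℂ} (hw : w ∈ Wset k i) (hw' : w' ∈ Wset k i) :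
    Triv d (nfLoop i c ρ w) ↔ Triv d (nfLoop i c' ρ' w') := by
  obtain ⟨γ, hγc, hγW, hγ0, hγ1⟩ := exists_path_Wset hw hw'
  set C : ℝ → ℂ := fun s => (1 - (s : ℂ)) * c + s * c' with hC
  set P : ℝ → ℝ := fun s => Real.exp ((1 - s) * Real.log ρ + s * Real.log ρ') with hP
  have hCc : Continuous C := by
    simp only [hC]; fun_prop
  have hPc : Continuous P := by
    simp only [hP]; fun_prop
  set X : ℝ × ℝ → Fin k → ℂ := fun y => nfLoop i (C y.1) (P y.1) (γ y.1) y.2 with hX
  have hXc : Continuous X := by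
    refine continuous_pi fun a => ?_
    simp only [hX, nfLoop]
    have hγa : Continuous fun y : ℝ × ℝ => γ y.1 a :=
      (continuous_apply a).comp (hγc.comp continuous_fst)
    have hC' : Continuous fun y : ℝ × ℝ => C y.1 := hCc.comp continuous_fst
    have hP' : Continuous fun y : ℝ × ℝ => ((P y.1 : ℝ) : ℂ) :=
      Complex.continuous_ofReal.comp (hPc.comp continuous_fst)
    by_cases ha : (a : ℕ) < i
    · simp only [if_pos ha]
      refine hC'.add (hP'.mul (Continuous.mul ?_ hγa))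
      fun_prop
    · simp only [if_neg ha]
      exact hC'.add (hP'.div hγa fun y => (hγW y.1).2.2.2 a (not_lt.mp ha))
  have hXi : ∀ y, X y ∈ Inj k := fun y => nfLoop_mem (Real.exp_pos _) (hγW y.1) y.2
  have hper : ∀ s t, d.F (X (s, t + 1)) = d.F (X (s, t)) := by
    intro s t
    simp only [hX]
    rw [nfLoop_add_one]
  have h := triv_homotopy d hXc hXi hper 0 1
  have e0 : (fun t => X (0, t)) = nfLoop i c ρ w := by
    funext t
    simp only [hX, hC, hP, hγ0]
    have h1 : Real.exp ((1 - 0) * Real.log ρ + 0 * Real.log ρ') = ρ := by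
      rw [sub_zero, one_mul, zero_mul, add_zero, Real.exp_log hρ]
    rw [h1]
    simp
  have e1 : (fun t => X (1, t)) = nfLoop i c' ρ' w' := by
    funext t
    simp only [hX, hC, hP, hγ1]
    have h1 : Real.exp ((1 - 1) * Real.log ρ + 1 * Real.log ρ') = ρ' := by
      rw [sub_self, one_mul, zero_mul, zero_add, Real.exp_log hρ']
    rw [h1]
    simp
  rw [e0, e1] at h
  exact h

/-- the standard rotation in normal form -/
theorem rot_eq_nfLoop {i : ℕ} (hi : 1 ≤ i) :
    rot k i = nfLoop i 0 ((i : ℝ) - 1 / 2) (fun a : Fin k =>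
      if (a : ℕ) < i then ((a : ℕ) : ℂ) / (((i : ℝ) - 1 / 2 : ℝ) : ℂ)
      else (((i : ℝ) - 1 / 2 : ℝ) : ℂ) / ((a : ℕ) : ℂ)) := by
  have hi' : (1 : ℝ) ≤ (i : ℝ) := by exact_mod_cast hi
  have hr : (0 : ℝ) < (i : ℝ) - 1 / 2 := by linarith
  have hr' : (((i : ℝ) - 1 / 2 : ℝ) : ℂ) ≠ 0 := by exact_mod_cast hr.ne'
  generalize (i : ℝ) - 1 / 2 = r at hr hr'
  funext t a
  simp only [rot, nfLoop]
  by_cases ha : (a : ℕ) < i
  · simp only [if_pos ha]
    field_simp
    ring
  · simp only [if_neg ha]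
    have ha0 : ((a : ℕ) : ℂ) ≠ 0 := by
      have : (a : ℕ) ≠ 0 := by omega
      exact_mod_cast this
    field_simp
    ring

theorem rot_w_mem {i : ℕ} (hi : 1 ≤ i) : (fun a : Fin k =>
      if (a : ℕ) < i then ((a : ℕ) : ℂ) / (((i : ℝ) - 1 / 2 : ℝ) : ℂ)
      else (((i : ℝ) - 1 / 2 : ℝ) : ℂ) / ((a : ℕ) : ℂ)) ∈ Wset k i := by
  have hi' : (1 : ℝ) ≤ (i : ℝ) := by exact_mod_cast hi
  have hr : (0 : ℝ) < (i : ℝ) - 1 / 2 := by linarith
  have hr' : (((i : ℝ) - 1 / 2 : ℝ) : ℂ) ≠ 0 := by exact_mod_cast hr.ne'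
  have hnr : ‖(((i : ℝ) - 1 / 2 : ℝ) : ℂ)‖ = (i : ℝ) - 1 / 2 := by
    rw [Complex.norm_real, Real.norm_of_nonneg hr.le]
  refine ⟨?_, ?_, ?_, ?_⟩
  · intro a
    simp only
    by_cases ha : (a : ℕ) < i
    · rw [if_pos ha, norm_div, hnr, Complex.norm_natCast, div_lt_one hr]
      have : ((a : ℕ) : ℝ) + 1 ≤ (i : ℝ) := by exact_mod_cast ha
      linarith
    · rw [if_neg ha, norm_div, hnr, Complex.norm_natCast]
      have h1 : (i : ℝ) ≤ ((a : ℕ) : ℝ) := by exact_mod_cast (not_lt.mp ha)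
      rw [div_lt_one (by linarith)]
      linarith
  · intro a b ha hb hab
    simp only [if_pos ha, if_pos hb] at hab
    have h := (div_left_inj' hr').mp hab
    exact Fin.ext (by exact_mod_cast h)
  · intro a b ha hb hab
    simp only [if_neg (not_lt.mpr ha), if_neg (not_lt.mpr hb)] at hab
    rw [div_eq_mul_inv, div_eq_mul_inv] at hab
    have h := inv_injective (mul_left_cancel₀ hr' hab)
    exact Fin.ext (by exact_mod_cast h)
  · intro b hb
    simp only [if_neg (not_lt.mpr hb)]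
    have hb0 : ((b : ℕ) : ℂ) ≠ 0 := by
      have : (b : ℕ) ≠ 0 := by omega
      exact_mod_cast this
    exact div_ne_zero hr' hb0

/-- a permutation putting the points of `S` first -/
theorem disc_exists_perm {i : ℕ} {S : Finset (Fin k)} (hS : S.card = i) :
    ∃ σ : Equiv.Perm (Fin k), ∀ a : Fin k, σ a ∈ S ↔ (a : ℕ) < i := by
  classical
  have hik : i ≤ k := by
    rw [← hS]
    exact (Finset.card_le_univ S).trans (by simp)
  have h1 : Fintype.card {a : Fin k // (a : ℕ) < i} = Fintype.card {a : Fin k // a ∈ S} := by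
    rw [Fintype.card_coe, hS, Fintype.card_subtype]
    have : (Finset.univ.filter fun a : Fin k => (a : ℕ) < i).card = i := by
      rw [Fin.card_filter_val_lt]
      omega
    exact this
  let e : {a : Fin k // (a : ℕ) < i} ≃ {a : Fin k // a ∈ S} := Fintype.equivOfCardEq h1
  refine ⟨e.extendSubtype, fun a => ?_⟩
  constructor
  · intro h
    by_contra hc
    exact e.extendSubtype_not_mem a hc h
  · intro h
    exact e.extendSubtype_mem a h

theorem triv_disc_iff (d : Dat k n) {i : ℕ} (hi : 1 ≤ i) (hik : i < k) {x : Fin k → ℂ}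
    (hx : x ∈ Inj k) {S : Finset (Fin k)} (hS : S.card = i) {c : ℂ} {ρ : ℝ}
    (hin : ∀ a ∈ S, ‖x a - c‖ < ρ) (hout : ∀ a, a ∉ S → ρ < ‖x a - c‖) :
    Triv d (fun t a => if a ∈ S then c + exp (2 * Real.pi * I * t) * (x a - c) else x a) ↔
      Triv d (rot k i) := by
  classical
  obtain ⟨σ, hσ⟩ := disc_exists_perm hS
  have hρ : 0 < ρ := by
    have hne : S.Nonempty := by
      rw [← Finset.card_pos]; omega
    obtain ⟨a, ha⟩ := hne
    exact lt_of_le_of_lt (norm_nonneg _) (hin a ha)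
  have hρ' : (ρ : ℂ) ≠ 0 := by exact_mod_cast hρ.ne'
  have hnρ : ‖(ρ : ℂ)‖ = ρ := by
    rw [Complex.norm_real, Real.norm_of_nonneg hρ.le]
  have hin' : ∀ a : Fin k, (a : ℕ) < i → ‖x (σ a) - c‖ < ρ := fun a ha =>
    hin _ ((hσ a).mpr ha)
  have hout' : ∀ a : Fin k, ¬ (a : ℕ) < i → ρ < ‖x (σ a) - c‖ := fun a ha =>
    hout _ (fun h => ha ((hσ a).mp h))
  set w : Fin k → ℂ := fun a =>
    if (a : ℕ) < i then (x (σ a) - c) / ρ else (ρ : ℂ) / (x (σ a) - c) with hw
  have hxc : ∀ a : Fin k, ¬ (a : ℕ) < i → x (σ a) - c ≠ 0 := by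
    intro a ha h
    have := hout' a ha
    rw [h, norm_zero] at this
    linarith
  have hwm : w ∈ Wset k i := by
    refine ⟨?_, ?_, ?_, ?_⟩
    · intro a
      simp only [hw]
      by_cases ha : (a : ℕ) < i
      · rw [if_pos ha, norm_div, hnρ, div_lt_one hρ]
        exact hin' a ha
      · rw [if_neg ha, norm_div, hnρ, div_lt_one (norm_pos_iff.mpr (hxc a ha))]
        exact hout' a ha
    · intro a b ha hb hab
      simp only [hw, if_pos ha, if_pos hb] at hab
      have h := (div_left_inj' hρ').mp hab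
      exact σ.injective (hx (sub_left_inj.mp h))
    · intro a b ha hb hab
      simp only [hw, if_neg (not_lt.mpr ha), if_neg (not_lt.mpr hb)] at hab
      rw [div_eq_mul_inv, div_eq_mul_inv] at hab
      have h := inv_injective (mul_left_cancel₀ hρ' hab)
      exact σ.injective (hx (sub_left_inj.mp h))
    · intro b hb
      simp only [hw, if_neg (not_lt.mpr hb)]
      exact div_ne_zero hρ' (hxc b (not_lt.mpr hb))
  -- the loop in normal form
  have hloop : ∀ t : ℝ, (fun a => if a ∈ S then c + exp (2 * Real.pi * I * t) * (x a - c)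
      else x a) ∘ σ = nfLoop i c ρ w t := by
    intro t
    funext a
    simp only [Function.comp, nfLoop, hw]
    by_cases ha : (a : ℕ) < i
    · rw [if_pos ((hσ a).mpr ha), if_pos ha, if_pos ha]
      field_simp
    · rw [if_neg (fun h => ha ((hσ a).mp h)), if_neg ha, if_neg ha]
      have := hxc a ha
      field_simp
      ring
  have hmem : ∀ t : ℝ, (fun a => if a ∈ S then c + exp (2 * Real.pi * I * t) * (x a - c)
      else x a) ∈ Inj k := by
    intro t
    have h1 := nfLoop_mem (c := c) hρ hwm t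
    rw [← hloop t] at h1
    exact (Function.Injective.of_comp_iff' _ σ.bijective).mp h1
  have h1 : Triv d (fun t a => if a ∈ S then c + exp (2 * Real.pi * I * t) * (x a - c) else x a) ↔
      Triv d (nfLoop i c ρ w) := by
    refine triv_congr d fun t => ?_
    rw [← hloop t, d.symm _ (hmem t) σ]
  rw [h1, rot_eq_nfLoop hi]
  have hi' : (1 : ℝ) ≤ (i : ℝ) := by exact_mod_cast hi
  exact triv_nfLoop d hρ (by linarith) hwm (rot_w_mem hi)

/-- cusp families: the points of `S` collide linearly at parameter `0` -/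
theorem triv_cusp_iff (d : Dat k n) {i : ℕ} (hi : 1 ≤ i) (hik : i < k)
    {S : Finset (Fin k)} (hS : S.card = i) {c : ℂ → ℂ} {u : ℂ → Fin k → ℂ} {δ : ℝ} (hδ : 0 < δ)
    (hc : ContinuousOn c (Metric.ball 0 δ)) (hu : ContinuousOn u (Metric.ball 0 δ))
    (hin : ∀ a ∈ S, ∀ b ∈ S, u 0 a = u 0 b → a = b)
    (hout : ∀ a, a ∉ S → ∀ b, b ∉ S → u 0 a = u 0 b → a = b) (hoc : ∀ a, a ∉ S → u 0 a ≠ c 0) :
    ∃ ε₀ : ℝ, 0 < ε₀ ∧ ε₀ ≤ δ ∧
      (∀ τ : ℂ, τ ≠ 0 → ‖τ‖ < ε₀ → (fun a => if a ∈ S then c τ + τ * u τ a else u τ a) ∈ Inj k) ∧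
      ∀ ε : ℝ, 0 < ε → ε < ε₀ →
        (Triv d (fun t a => if a ∈ S then c (ε * exp (2 * Real.pi * I * t)) +
          (ε * exp (2 * Real.pi * I * t)) * u (ε * exp (2 * Real.pi * I * t)) a
          else u (ε * exp (2 * Real.pi * I * t)) a) ↔ Triv d (rot k i)) := by
  classical
  have h0 : (0 : ℂ) ∈ Metric.ball (0 : ℂ) δ := Metric.mem_ball_self hδ
  have hnhds : Metric.ball (0 : ℂ) δ ∈ 𝓝 (0 : ℂ) := Metric.ball_mem_nhds _ hδ
  have hc0 : Tendsto c (𝓝 0) (𝓝 (c 0)) := (hc.continuousAt hnhds)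
  have hu0 : ∀ a, Tendsto (fun τ => u τ a) (𝓝 0) (𝓝 (u 0 a)) := fun a =>
    ((continuous_apply a).tendsto _).comp (hu.continuousAt hnhds)
  -- a radius separating the outer points from the centre
  have hm : ∃ m : ℝ, 0 < m ∧ ∀ b, b ∉ S → m < ‖u 0 b - c 0‖ := by
    have h1 : ∀ᶠ m : ℝ in 𝓝[>] 0, ∀ b, b ∉ S → m < ‖u 0 b - c 0‖ := by
      rw [Filter.eventually_all]
      intro b
      by_cases hb : b ∈ S
      · exact Eventually.of_forall fun m h => absurd hb h
      · have h2 : 0 < ‖u 0 b - c 0‖ := norm_pos_iff.mpr (sub_ne_zero.mpr (hoc b hb))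
        have h3 : ∀ᶠ m : ℝ in 𝓝[>] 0, m < ‖u 0 b - c 0‖ :=
          nhdsWithin_le_nhds (gt_mem_nhds h2)
        exact h3.mono fun m hm _ => hm
    obtain ⟨m, hm1, hm2⟩ := (h1.and self_mem_nhdsWithin).exists
    exact ⟨m, hm2, hm1⟩
  obtain ⟨m, hm0, hm⟩ := hm
  -- eventual separation near (0,0)
  have hev : ∀ᶠ y : ℂ × ℂ in 𝓝 ((0 : ℂ), (0 : ℂ)), (∀ a b : Fin k, a ≠ b →
      (a ∈ S → b ∈ S → u y.1 a ≠ u y.1 b) ∧ (a ∉ S → b ∉ S → u y.1 a ≠ u y.1 b) ∧
      (a ∈ S → b ∉ S → c y.1 + y.2 * u y.1 a ≠ u y.1 b)) ∧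
      ∀ a : Fin k, ‖y.2 * u 0 a‖ < m := by
    have hfst : Tendsto (fun y : ℂ × ℂ => y.1) (𝓝 ((0 : ℂ), (0 : ℂ))) (𝓝 0) :=
      continuous_fst.tendsto' _ _ rfl
    have hsnd : Tendsto (fun y : ℂ × ℂ => y.2) (𝓝 ((0 : ℂ), (0 : ℂ))) (𝓝 0) :=
      continuous_snd.tendsto' _ _ rfl
    refine Eventually.and ?_ ?_
    · rw [Filter.eventually_all]
      intro a
      rw [Filter.eventually_all]
      intro b
      have hne : ∀ {f g : ℂ × ℂ → ℂ} {p q : ℂ}, Tendsto f (𝓝 ((0 : ℂ), (0 : ℂ))) (𝓝 p) →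
          Tendsto g (𝓝 ((0 : ℂ), (0 : ℂ))) (𝓝 q) → p ≠ q →
          ∀ᶠ y in 𝓝 ((0 : ℂ), (0 : ℂ)), f y ≠ g y := by
        intro f g p q hf hg hpq
        exact ((hf.sub hg).eventually_ne (sub_ne_zero.mpr hpq)).mono fun y hy => sub_ne_zero.mp hy
      by_cases hab : a = b
      · exact Eventually.of_forall fun y h => absurd hab h
      have hua := (hu0 a).comp hfst
      have hub := (hu0 b).comp hfst
      have hcc := hc0.comp hfst
      have e1 : ∀ᶠ y : ℂ × ℂ in 𝓝 ((0 : ℂ), (0 : ℂ)), a ∈ S → b ∈ S → u y.1 a ≠ u y.1 b := by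
        by_cases h : a ∈ S ∧ b ∈ S
        · exact (hne hua hub (fun h' => hab (hin a h.1 b h.2 h'))).mono fun y hy _ _ => hy
        · exact Eventually.of_forall fun y h1 h2 => absurd ⟨h1, h2⟩ h
      have e2 : ∀ᶠ y : ℂ × ℂ in 𝓝 ((0 : ℂ), (0 : ℂ)), a ∉ S → b ∉ S → u y.1 a ≠ u y.1 b := by
        by_cases h : a ∉ S ∧ b ∉ S
        · exact (hne hua hub (fun h' => hab (hout a h.1 b h.2 h'))).mono fun y hy _ _ => hy
        · exact Eventually.of_forall fun y h1 h2 => absurd ⟨h1, h2⟩ h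
      have e3 : ∀ᶠ y : ℂ × ℂ in 𝓝 ((0 : ℂ), (0 : ℂ)), a ∈ S → b ∉ S →
          c y.1 + y.2 * u y.1 a ≠ u y.1 b := by
        by_cases h : b ∈ S
        · exact Eventually.of_forall fun y _ h2 => absurd h h2
        · have h3 := hcc.add (hsnd.mul hua)
          rw [zero_mul, add_zero] at h3
          exact (hne h3 hub (fun h' => hoc b h h'.symm)).mono fun y hy _ _ => hy
      exact (e1.and (e2.and e3)).mono fun y hy _ => hy
    · rw [Filter.eventually_all]
      intro a
      have h1 : Tendsto (fun y : ℂ × ℂ => ‖y.2 * u 0 a‖) (𝓝 ((0 : ℂ), (0 : ℂ))) (𝓝 0) := by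
        have h2 := (hsnd.mul_const (u 0 a)).norm
        rwa [zero_mul, norm_zero] at h2
      exact h1.eventually (gt_mem_nhds hm0)
  obtain ⟨ε₁, hε₁, hball⟩ := Metric.eventually_nhds_iff.mp hev
  have hmemY : ∀ τ θ : ℂ, ‖τ‖ < ε₁ → θ ≠ 0 → ‖θ‖ < ε₁ →
      (fun a => if a ∈ S then c τ + θ * u τ a else u τ a) ∈ Inj k := by
    intro τ θ hτ hθ hθ1
    have hy : dist ((τ, θ) : ℂ × ℂ) ((0 : ℂ), (0 : ℂ)) < ε₁ := by
      rw [Prod.dist_eq, dist_zero_right, dist_zero_right]
      exact max_lt hτ hθ1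
    have h := (hball hy).1
    intro a b hab
    by_contra hne
    obtain ⟨h1, h2, h3⟩ := h a b hne
    obtain ⟨-, -, h4⟩ := h b a (Ne.symm hne)
    simp only at hab
    by_cases ha : a ∈ S
    · by_cases hb : b ∈ S
      · rw [if_pos ha, if_pos hb] at hab
        exact h1 ha hb (mul_left_cancel₀ hθ (add_left_cancel hab))
      · rw [if_pos ha, if_neg hb] at hab
        exact h3 ha hb hab
    · by_cases hb : b ∈ S
      · rw [if_neg ha, if_pos hb] at hab
        exact h4 hb ha hab.symm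
      · rw [if_neg ha, if_neg hb] at hab
        exact h2 ha hb hab
  refine ⟨min ε₁ δ, lt_min hε₁ hδ, min_le_right _ _, ?_, ?_⟩
  · intro τ hτ hτ1
    exact hmemY τ τ (lt_of_lt_of_le hτ1 (min_le_left _ _)) hτ
      (lt_of_lt_of_le hτ1 (min_le_left _ _))
  · intro ε hε hε0
    have hε1 : ε < ε₁ := lt_of_lt_of_le hε0 (min_le_left _ _)
    have hεδ : ε < δ := lt_of_lt_of_le hε0 (min_le_right _ _)
    have hεc : (ε : ℂ) ≠ 0 := by exact_mod_cast hε.ne'
    have hnε : ‖(ε : ℂ)‖ = ε := by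
      rw [Complex.norm_real, Real.norm_of_nonneg hε.le]
    set E : ℝ → ℂ := fun t => (ε : ℂ) * exp (2 * Real.pi * I * t) with hE
    have hEc : Continuous E := by
      simp only [hE]; fun_prop
    have hEn : ∀ t, ‖E t‖ = ε := by
      intro t
      simp only [hE]
      rw [norm_mul, disc_norm_exp, hnε, mul_one]
    have hE0 : ∀ t, E t ≠ 0 := fun t => mul_ne_zero hεc (Complex.exp_ne_zero _)
    set v : ℝ → ℝ := fun s => max 0 (min s 1) with hv
    have hvc : Continuous v := by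
      simp only [hv]; fun_prop
    have hv0 : ∀ s, 0 ≤ v s := fun s => le_max_left _ _
    have hv1 : ∀ s, v s ≤ 1 := fun s => max_le zero_le_one (min_le_right _ _)
    set T : ℝ × ℝ → ℂ := fun y => ((v y.1 : ℝ) : ℂ) * E y.2 with hT
    have hTc : Continuous T := by
      simp only [hT]
      exact (Complex.continuous_ofReal.comp (hvc.comp continuous_fst)).mul
        (hEc.comp continuous_snd)
    have hTn : ∀ y, ‖T y‖ ≤ ε := by
      intro y
      simp only [hT]
      rw [norm_mul, hEn, Complex.norm_real, Real.norm_of_nonneg (hv0 _)]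
      exact mul_le_of_le_one_left hε.le (hv1 _)
    have hTb : ∀ y, T y ∈ Metric.ball (0 : ℂ) δ := by
      intro y
      rw [Metric.mem_ball, dist_zero_right]
      exact lt_of_le_of_lt (hTn y) hεδ
    set X : ℝ × ℝ → Fin k → ℂ := fun y a =>
      if a ∈ S then c (T y) + E y.2 * u (T y) a else u (T y) a with hX
    have hcT : Continuous fun y => c (T y) :=
      hc.comp_continuous hTc hTb
    have huT : ∀ a, Continuous fun y => u (T y) a := fun a =>
      (continuous_apply a).comp (hu.comp_continuous hTc hTb)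
    have hXc : Continuous X := by
      refine continuous_pi fun a => ?_
      simp only [hX]
      by_cases ha : a ∈ S
      · simp only [if_pos ha]
        exact hcT.add ((hEc.comp continuous_snd).mul (huT a))
      · simp only [if_neg ha]
        exact huT a
    have hXi : ∀ y, X y ∈ Inj k := fun y =>
      hmemY (T y) (E y.2) (lt_of_le_of_lt (hTn y) hε1) (hE0 _) (by rw [hEn]; exact hε1)
    have hEper : ∀ t, E (t + 1) = E t := by
      intro t
      simp only [hE]
      rw [disc_exp_add_one]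
    have hper : ∀ s t, d.F (X (s, t + 1)) = d.F (X (s, t)) := by
      intro s t
      simp only [hX, hT, hEper]
    have h := triv_homotopy d hXc hXi hper 1 0
    have e1 : (fun t => X (1, t)) = (fun (t : ℝ) a => if a ∈ S then
          c (ε * exp (2 * Real.pi * I * t)) +
          (ε * exp (2 * Real.pi * I * t)) * u (ε * exp (2 * Real.pi * I * t)) a
          else u (ε * exp (2 * Real.pi * I * t)) a) := by
      funext t a
      have hv : v 1 = 1 := by simp [hv]
      simp only [hX, hT, hv, hE, Complex.ofReal_one, one_mul]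
    have e0 : (fun t => X (0, t)) = (fun (t : ℝ) a => if a ∈ S then
          c 0 + exp (2 * Real.pi * I * t) *
            ((fun a => if a ∈ S then c 0 + ε * u 0 a else u 0 a) a - c 0)
          else (fun a => if a ∈ S then c 0 + ε * u 0 a else u 0 a) a) := by
      funext t a
      have hv : v 0 = 0 := by simp [hv]
      simp only [hX, hT, hv, hE, Complex.ofReal_zero, zero_mul]
      by_cases ha : a ∈ S
      · simp only [if_pos ha]
        ring
      · simp only [if_neg ha]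
    rw [e1, e0] at h
    rw [h]
    have hyε : dist (((0 : ℂ), (ε : ℂ)) : ℂ × ℂ) ((0 : ℂ), (0 : ℂ)) < ε₁ := by
      rw [Prod.dist_eq, dist_self, dist_zero_right, hnε]
      exact max_lt hε₁ hε1
    refine triv_disc_iff d hi hik (x := fun a => if a ∈ S then c 0 + ε * u 0 a else u 0 a)
      (ρ := m) ?_ hS ?_ ?_
    · exact hmemY 0 ε (by rw [norm_zero]; exact hε₁) hεc (by rw [hnε]; exact hε1)
    · intro a ha
      simp only [if_pos ha, add_sub_cancel_left]
      exact (hball hyε).2 a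
    · intro a ha
      simp only [if_neg ha]
      exact hm a ha

end MP2d36f7
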