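import Mathlib

/-!
# The spaces `G_n^0` and the notion of splittability
-/

open Polynomial Complex Set Filter Topology

namespace MP2d36f7

/-- The polynomial `X^n + ∑_{i < n-1} z_i X^i` (monic of degree `n` without term of degree
`n - 1`, i.e. `z_1 = 0` in the notation of the problem). -/
noncomputable def P (n : ℕ) (z : Fin (n - 1) → ℂ) : ℂ[X] :=
  X ^ n + ∑ i : Fin (n - 1), C (z i) * X ^ (i : ℕ)

/-- The discriminant `d_n(z)` of `P n z`. -/
noncomputable def disc (n : ℕ) (z : Fin (n - 1) → ℂ) : ℂ := (P n z).discr

/-- The space `G_n^0` of the problem, in the coordinates given by the remaining `n - 1`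
coefficients. -/
def G0 (n : ℕ) : Set (Fin (n - 1) → ℂ) := {z | disc n z ≠ 0}

end MP2d36f7
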