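import Mathlib
import Pool.Agent.Lib_MP_2d36f7_ag.FinalDefs

/-!
# Affine algebraic manifolds and holomorphic maps on them
-/

open Polynomial Complex Set Filter Topology

namespace MP2d36f7

/-- The closed algebraic subset of `ℂ^N` defined by a set `E` of polynomials. -/
def Zeros {N : ℕ} (E : Set (MvPolynomial (Fin N) ℂ)) : Set (Fin N → ℂ) :=
  {x | ∀ p ∈ E, MvPolynomial.eval x p = 0}

/-- The Zariski tangent space at `x` of a subset `X` of `ℂ^N`: the common kernel of the
differentials at `x` of all the polynomials vanishing on `X`. -/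
def TanSpace {N : ℕ} (X : Set (Fin N → ℂ)) (x : Fin N → ℂ) : Submodule ℂ (Fin N → ℂ) where
  carrier := {v | ∀ p : MvPolynomial (Fin N) ℂ, (∀ y ∈ X, MvPolynomial.eval y p = 0) →
    ∑ i, MvPolynomial.eval x (MvPolynomial.pderiv i p) * v i = 0}
  add_mem' := by
    intro v w hv hw p hp
    have h1 := hv p hp
    have h2 := hw p hp
    simp only [Pi.add_apply, mul_add, Finset.sum_add_distrib, h1, h2, add_zero]
  zero_mem' := by
    intro p hp
    simp
  smul_mem' := by
    intro c v hv p hp
    have h1 := hv p hp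
    have : ∀ i, MvPolynomial.eval x (MvPolynomial.pderiv i p) * (c • v) i =
        c * (MvPolynomial.eval x (MvPolynomial.pderiv i p) * v i) := by
      intro i
      simp only [Pi.smul_apply, smul_eq_mul]
      ring
    simp_rw [this]
    rw [← Finset.mul_sum, h1, mul_zero]

/-- `X` is an affine algebraic manifold of dimension `l` in `ℂ^N`: an algebraic subset of `ℂ^N`,
connected, all of whose Zariski tangent spaces have dimension `l`. -/
def IsAffineManifold {N : ℕ} (X : Set (Fin N → ℂ)) (l : ℕ) : Prop :=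
  (∃ E : Set (MvPolynomial (Fin N) ℂ), X = Zeros E) ∧ IsConnected X ∧
    ∀ x ∈ X, Module.finrank ℂ (TanSpace X x) = l

/-- `f` is holomorphic on the subset `X` of `ℂ^N`: near each point of `X` it agrees on `X` with
a holomorphic function on an open subset of `ℂ^N`. -/
def HolOn {N m : ℕ} (f : (Fin N → ℂ) → (Fin m → ℂ)) (X : Set (Fin N → ℂ)) : Prop :=
  ∀ x ∈ X, ∃ g : (Fin N → ℂ) → (Fin m → ℂ), AnalyticAt ℂ g x ∧ ∀ᶠ y in 𝓝[X] x, f y = g y

end MP2d36f7
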