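import Mathlib
import Pool.Agent.Lib_MP_2d36f7_ag.Defs
import Pool.Agent.Lib_MP_2d36f7_ag.TwRot

/-!
# Gluing: the monodromy of a covering over configuration space is generated by the half twists

The proof uses the lexicographic order of the points (real part, then imaginary part). A
configuration `x` lies in exactly one cell `x ∘ τ ∈ Clex`, and every cell is convex.
-/

open Polynomial Complex Set Filter Topology

namespace MP2d36f7

namespace GlueAux

/-! ### Lifts -/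

lemma glue_unique {E B A : Type*} [TopologicalSpace E] [TopologicalSpace B] [TopologicalSpace A]
    [PreconnectedSpace A] {p : E → B} {s : Set B} (hp : IsCoveringMapOn p s) {f g : A → E}
    (hf : Continuous f) (hg : Continuous g) (hfs : ∀ a, p (f a) ∈ s)
    (h : ∀ a, p (f a) = p (g a)) {a₀ : A} (h0 : f a₀ = g a₀) (a : A) : f a = g a := by
  have hgs : ∀ a, p (g a) ∈ s := fun a => h a ▸ hfs a
  have h1 := hp.isCoveringMap_restrictPreimage.eq_of_comp_eq
    (g₁ := fun a : A => (⟨f a, hfs a⟩ : p ⁻¹' s)) (g₂ := fun a : A => (⟨g a, hgs a⟩ : p ⁻¹' s))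
    (by fun_prop) (by fun_prop) (by
      funext a
      exact Subtype.ext (h a)) a₀ (Subtype.ext h0)
  exact congrArg Subtype.val (congrFun h1 a)

lemma glue_uniqueOn {E B A : Type*} [TopologicalSpace E] [TopologicalSpace B] [TopologicalSpace A]
    {D : Set A} (hD : IsPreconnected D) {p : E → B} {s : Set B} (hp : IsCoveringMapOn p s)
    {f g : A → E} (hf : ContinuousOn f D) (hg : ContinuousOn g D) (hfs : ∀ a ∈ D, p (f a) ∈ s)
    (h : ∀ a ∈ D, p (f a) = p (g a)) {a₀ : A} (ha₀ : a₀ ∈ D) (h0 : f a₀ = g a₀) {a : A}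
    (ha : a ∈ D) : f a = g a := by
  have : PreconnectedSpace D := Subtype.preconnectedSpace hD
  exact glue_unique hp (f := fun a : D => f a) (g := fun a : D => g a)
    (continuousOn_iff_continuous_domRestrict.mp hf) (continuousOn_iff_continuous_domRestrict.mp hg)
    (fun a => hfs a a.2) (fun a => h a a.2) (a₀ := ⟨a₀, ha₀⟩) h0 ⟨a, ha⟩

lemma glue_exists {E B A : Type*} [TopologicalSpace E] [TopologicalSpace B]
    [NormedAddCommGroup A] [NormedSpace ℝ A] {p : E → B} {s : Set B} (hp : IsCoveringMapOn p s)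
    {u : A → B} (hu : Continuous u) (hus : ∀ a, u a ∈ s) (a₀ : A) {e₀ : E} (he : p e₀ = u a₀) :
    ∃ g : A → E, Continuous g ∧ (∀ a, p (g a) = u a) ∧ g a₀ = e₀ := by
  obtain ⟨F, ⟨hF1, hF2⟩, -⟩ := hp.existsUnique_continuousMap_lifts (⟨u, hu⟩ : C(A, B)) he hus
  exact ⟨F, F.continuous, fun a => congrFun hF2 a, hF1⟩

lemma glue_existsOn {E B A : Type*} [TopologicalSpace E] [TopologicalSpace B]
    [NormedAddCommGroup A] [NormedSpace ℝ A] {p : E → B} {s : Set B} (hp : IsCoveringMapOn p s)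
    {Ω : Set A} (hΩ : IsOpen Ω) {w : A} (hw : w ∈ Ω) (hst : StarConvex ℝ w Ω)
    {u : A → B} (hu : ContinuousOn u Ω) (hus : ∀ a ∈ Ω, u a ∈ s) {a₀ : A} (ha₀ : a₀ ∈ Ω) {e₀ : E}
    (he : p e₀ = u a₀) :
    ∃ g : A → E, ContinuousOn g Ω ∧ (∀ a ∈ Ω, p (g a) = u a) ∧ g a₀ = e₀ := by
  classical
  have h1 : ContractibleSpace Ω := hst.contractibleSpace ⟨w, hw⟩
  have h2 := hΩ.locallyPathConnectedSpace
  obtain ⟨F, ⟨hF1, hF2⟩, -⟩ := hp.existsUnique_continuousMap_lifts
    (⟨fun a : Ω => u a, continuousOn_iff_continuous_domRestrict.mp hu⟩ : C(Ω, B)) (a₀ := ⟨a₀, ha₀⟩) he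
    (fun a => hus a a.2)
  refine ⟨fun a => if h : a ∈ Ω then F ⟨a, h⟩ else e₀, ?_, ?_, ?_⟩
  · rw [continuousOn_iff_continuous_domRestrict]
    have : (Ω.domRestrict fun a => if h : a ∈ Ω then F ⟨a, h⟩ else e₀) = F := by
      funext a
      have h3 : (a : A) ∈ Ω := a.2
      change (if h : (a : A) ∈ Ω then F ⟨a, h⟩ else e₀) = F a
      rw [dif_pos h3]
    rw [this]
    exact F.continuous
  · intro a ha
    simp only [ha, dif_pos]
    exact congrFun hF2 ⟨a, ha⟩
  · simp only [ha₀, dif_pos]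
    exact hF1

/-! ### Segments -/

/-- projection to `[0,1]` -/
noncomputable def clm (t : ℝ) : ℝ := max 0 (min 1 t)

lemma clm_zero : clm 0 = 0 := by simp [clm]
lemma clm_one : clm 1 = 1 := by simp [clm]
lemma clm_nonneg (t : ℝ) : 0 ≤ clm t := le_max_left _ _
lemma clm_le (t : ℝ) : clm t ≤ 1 := max_le zero_le_one (min_le_left _ _)
lemma clm_of_mem {t : ℝ} (h0 : 0 ≤ t) (h1 : t ≤ 1) : clm t = t := by
  rw [clm, min_eq_right h1, max_eq_right h0]
lemma clm_symm (t : ℝ) : clm (1 - t) = 1 - clm t := by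
  rcases le_total t 0 with h | h
  · rw [clm, clm, min_eq_left (by linarith), min_eq_right (by linarith), max_eq_left h,
      max_eq_right zero_le_one]; ring
  · rcases le_total t 1 with h' | h'
    · rw [clm_of_mem h h', clm_of_mem (by linarith) (by linarith)]
    · rw [clm, clm, min_eq_right (by linarith), min_eq_left h', max_eq_left (by linarith),
        max_eq_right zero_le_one]; ring
@[fun_prop] lemma continuous_clm : Continuous clm := by unfold clm; fun_prop

/-- segment from `a` to `b`, constant outside `[0,1]` -/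
noncomputable def seg {k : ℕ} (a b : Fin k → ℂ) (t : ℝ) : Fin k → ℂ :=
  fun i => a i + (clm t : ℂ) * (b i - a i)

variable {k : ℕ}

lemma seg_zero (a b : Fin k → ℂ) : seg a b 0 = a := by funext i; simp [seg, clm_zero]
lemma seg_one (a b : Fin k → ℂ) : seg a b 1 = b := by funext i; simp [seg, clm_one]
lemma seg_self (a : Fin k → ℂ) (t : ℝ) : seg a a t = a := by funext i; simp [seg]
lemma seg_symm (a b : Fin k → ℂ) (t : ℝ) : seg b a t = seg a b (1 - t) := by
  funext i; simp only [seg, clm_symm]; push_cast; ring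
lemma seg_comp (a b : Fin k → ℂ) (τ : Equiv.Perm (Fin k)) (t : ℝ) :
    seg (a ∘ τ) (b ∘ τ) t = seg a b t ∘ τ := by funext i; simp [seg]
lemma seg_re (a b : Fin k → ℂ) (t : ℝ) (i : Fin k) :
    (seg a b t i).re = (1 - clm t) * (a i).re + clm t * (b i).re := by
  simp [seg]; ring
lemma seg_im (a b : Fin k → ℂ) (t : ℝ) (i : Fin k) :
    (seg a b t i).im = (1 - clm t) * (a i).im + clm t * (b i).im := by
  simp [seg]; ring
@[fun_prop] lemma continuous_seg (a b : Fin k → ℂ) : Continuous (seg a b) := by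
  unfold seg; fun_prop
lemma continuous_seg2 (x a b : Fin k → ℂ) :
    Continuous fun q : ℝ × ℝ => seg x (seg a b q.1) q.2 := by
  unfold seg; fun_prop

section SLsec

set_option linter.unusedSectionVars false

variable {E B : Type*} [TopologicalSpace E] [TopologicalSpace B]

/-- the lift over the segment from `a` to `b` starting at `e` ends at `e'` -/
def SL (p : E → B) (c : (Fin k → ℂ) → B) (a b : Fin k → ℂ) (e e' : E) : Prop :=
  ∃ Y : ℝ → E, Continuous Y ∧ (∀ t, p (Y t) = c (seg a b t)) ∧ Y 0 = e ∧ Y 1 = e'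

variable {p : E → B} {s : Set B} {c : (Fin k → ℂ) → B}

lemma SL.exists (hp : IsCoveringMapOn p s) (hc : ContinuousOn c (Inj k))
    (hcs : ∀ x ∈ Inj k, c x ∈ s) {a b : Fin k → ℂ} (hab : ∀ t, seg a b t ∈ Inj k) {e : E}
    (he : p e = c a) : ∃ e', SL p c a b e e' := by
  obtain ⟨Y, hY, hY1, hY2⟩ := glue_exists hp (u := fun t => c (seg a b t))
    (hc.comp_continuous (continuous_seg a b) hab) (fun t => hcs _ (hab t)) 0 (e₀ := e)
    (by rw [seg_zero]; exact he)
  exact ⟨Y 1, Y, hY, hY1, hY2, rfl⟩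

lemma SL.unique (hp : IsCoveringMapOn p s)
    (hcs : ∀ x ∈ Inj k, c x ∈ s) {a b : Fin k → ℂ} (hab : ∀ t, seg a b t ∈ Inj k) {e e' e'' : E}
    (h : SL p c a b e e') (h' : SL p c a b e e'') : e' = e'' := by
  obtain ⟨Y, hY, hY1, hY2, rfl⟩ := h
  obtain ⟨Z, hZ, hZ1, hZ2, rfl⟩ := h'
  exact glue_unique hp hY hZ (fun t => by rw [hY1]; exact hcs _ (hab t))
    (fun t => by rw [hY1, hZ1]) (hY2.trans hZ2.symm) 1

lemma SL.symm {a b : Fin k → ℂ} {e e' : E} (h : SL p c a b e e') : SL p c b a e' e := by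
  obtain ⟨Y, hY, hY1, rfl, rfl⟩ := h
  refine ⟨fun t => Y (1 - t), by fun_prop, fun t => ?_, by simp, by simp⟩
  rw [hY1, seg_symm a b t]

lemma SL.refl {a : Fin k → ℂ} {e : E} (he : p e = c a) : SL p c a a e e :=
  ⟨fun _ => e, continuous_const, fun t => by rw [seg_self]; exact he, rfl, rfl⟩

lemma SL.end_eq {a b : Fin k → ℂ} {e e' : E} (h : SL p c a b e e') : p e' = c b := by
  obtain ⟨Y, hY, hY1, rfl, rfl⟩ := h
  rw [hY1, seg_one]

lemma SL.start_eq {a b : Fin k → ℂ} {e e' : E} (h : SL p c a b e e') : p e = c a := by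
  obtain ⟨Y, hY, hY1, rfl, rfl⟩ := h
  rw [hY1, seg_zero]

lemma SL.comp (hsym : ∀ x ∈ Inj k, ∀ σ : Equiv.Perm (Fin k), c (x ∘ σ) = c x)
    {a b : Fin k → ℂ} (hab : ∀ t, seg a b t ∈ Inj k) {e e' : E} (h : SL p c a b e e')
    (τ : Equiv.Perm (Fin k)) : SL p c (a ∘ τ) (b ∘ τ) e e' := by
  obtain ⟨Y, hY, hY1, rfl, rfl⟩ := h
  refine ⟨Y, hY, fun t => ?_, rfl, rfl⟩
  rw [hY1, seg_comp, hsym _ (hab t)]

lemma SL.of_lift {U : Set (Fin k → ℂ)} {g : (Fin k → ℂ) → E} (hg : ContinuousOn g U)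
    (hpg : ∀ x ∈ U, p (g x) = c x) {a b : Fin k → ℂ} (hab : ∀ t, seg a b t ∈ U) :
    SL p c a b (g a) (g b) :=
  ⟨fun t => g (seg a b t), hg.comp_continuous (continuous_seg a b) hab,
    fun t => hpg _ (hab t), by simp only [seg_zero], by simp only [seg_one]⟩

/-- the triangle lemma -/
lemma SL.triangle (hp : IsCoveringMapOn p s) (hc : ContinuousOn c (Inj k))
    (hcs : ∀ x ∈ Inj k, c x ∈ s) {x a b : Fin k → ℂ}
    (h : ∀ s t, seg x (seg a b s) t ∈ Inj k) {e y y' : E}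
    (h1 : SL p c x a e y) (h2 : SL p c a b y y') : SL p c x b e y' := by
  obtain ⟨Y, hY, hY1, rfl, rfl⟩ := h1
  obtain ⟨Z, hZ, hZ1, hZ2, rfl⟩ := h2
  obtain ⟨L, hL, hL1, hL2⟩ := glue_exists hp (u := fun q : ℝ × ℝ => c (seg x (seg a b q.1) q.2))
    (hc.comp_continuous (continuous_seg2 x a b) (fun q => h _ _)) (fun q => hcs _ (h _ _)) (0, 0)
    (e₀ := Y 0) (by simp only [seg_zero]; rw [hY1, seg_zero])
  have hLs : ∀ q, p (L q) ∈ s := fun q => by rw [hL1]; exact hcs _ (h _ _)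
  have e1 : ∀ r, L (r, 0) = Y 0 := by
    intro r
    refine glue_unique hp (f := fun r => L (r, 0)) (g := fun _ : ℝ => Y 0) (by fun_prop)
      continuous_const (fun r => hLs _) (fun r => ?_) (a₀ := 0) hL2 r
    rw [hL1, hY1]; simp only [seg_zero]
  have e2 : ∀ t, L (0, t) = Y t := by
    intro t
    refine glue_unique hp (f := fun t => L (0, t)) (g := Y) (by fun_prop)
      hY (fun r => hLs _) (fun t => ?_) (a₀ := 0) hL2 t
    rw [hL1, hY1]; simp only [seg_zero]
  have e3 : ∀ r, L (r, 1) = Z r := by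
    intro r
    refine glue_unique hp (f := fun r => L (r, 1)) (g := Z) (by fun_prop)
      hZ (fun r => hLs _) (fun t => ?_) (a₀ := 0) (by rw [e2, hZ2]) r
    rw [hL1, hZ1]; simp only [seg_one]
  refine ⟨fun t => L (1, t), by fun_prop, fun t => ?_, e1 1, e3 1⟩
  rw [hL1]; simp only [seg_one]

end SLsec

/-! ### The lexicographic cells -/

/-- lexicographic order of the plane -/
def llt (z w : ℂ) : Prop := z.re < w.re ∨ (z.re = w.re ∧ z.im < w.im)

lemma llt_comb {z w z' w' : ℂ} (h : llt z w) (h' : llt z' w') {t : ℝ} (h0 : 0 ≤ t) (h1 : t ≤ 1)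
    {u v : ℂ} (hur : u.re = (1 - t) * z.re + t * z'.re) (hui : u.im = (1 - t) * z.im + t * z'.im)
    (hvr : v.re = (1 - t) * w.re + t * w'.re) (hvi : v.im = (1 - t) * w.im + t * w'.im) :
    llt u v := by
  unfold llt at *
  rw [hur, hui, hvr, hvi]
  rcases eq_or_lt_of_le h0 with h0 | h0
  · subst h0; simpa using h
  rcases eq_or_lt_of_le h1 with h1 | h1
  · subst h1; simpa using h'
  have h2 : 0 < 1 - t := by linarith
  rcases h with h | ⟨h, h3⟩
  · left
    have h4 : z'.re ≤ w'.re := by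
      rcases h' with h' | h'
      · exact h'.le
      · exact h'.1.le
    have a1 := mul_lt_mul_of_pos_left h h2
    have a2 := mul_le_mul_of_nonneg_left h4 h0.le
    linarith
  · rcases h' with h' | ⟨h', h3'⟩
    · left
      rw [h]
      have a2 := mul_lt_mul_of_pos_left h' h0
      linarith
    · right
      refine ⟨by rw [h, h'], ?_⟩
      have a1 := mul_lt_mul_of_pos_left h3 h2
      have a2 := mul_lt_mul_of_pos_left h3' h0
      linarith

/-- lexicographically increasing configurations -/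
def Clex (k : ℕ) : Set (Fin k → ℂ) := {x | ∀ i j, i < j → llt (x i) (x j)}

/-- configurations with increasing real parts -/
def Cst (k : ℕ) : Set (Fin k → ℂ) := {x | ∀ i j, i < j → (x i).re < (x j).re}

lemma Cst_sub {x : Fin k → ℂ} (h : x ∈ Cst k) : x ∈ Clex k := fun i j hij => Or.inl (h i j hij)

lemma llt_irrefl (z : ℂ) : ¬ llt z z := by
  rintro (h | h)
  · exact lt_irrefl _ h
  · exact lt_irrefl _ h.2

lemma Clex_sub {x : Fin k → ℂ} (h : x ∈ Clex k) : x ∈ Inj k := by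
  intro i j hij
  rcases lt_trichotomy i j with h1 | h1 | h1
  · have := h i j h1; rw [hij] at this; exact absurd this (llt_irrefl _)
  · exact h1
  · have := h j i h1; rw [hij] at this; exact absurd this (llt_irrefl _)

lemma Clex_seg {a b : Fin k → ℂ} (ha : a ∈ Clex k) (hb : b ∈ Clex k) (t : ℝ) :
    seg a b t ∈ Clex k := fun i j hij =>
  llt_comb (ha i j hij) (hb i j hij) (clm_nonneg t) (clm_le t) (seg_re a b t i) (seg_im a b t i)
    (seg_re a b t j) (seg_im a b t j)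

lemma Cst_seg {a b : Fin k → ℂ} (ha : a ∈ Cst k) (hb : b ∈ Cst k) (t : ℝ) :
    seg a b t ∈ Cst k := by
  intro i j hij
  rw [seg_re, seg_re]
  have h0 := clm_nonneg t
  have h1 := clm_le t
  have h2 := ha i j hij
  have h3 := hb i j hij
  rcases eq_or_lt_of_le h0 with h0 | h0
  · rw [← h0]; linarith
  · have a1 := mul_le_mul_of_nonneg_left h2.le (by linarith : 0 ≤ 1 - clm t)
    have a2 := mul_lt_mul_of_pos_left h3 h0
    linarith

lemma x0_Cst (k : ℕ) : x0 k ∈ Cst k := by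
  intro i j hij
  simp only [x0, Complex.natCast_re]
  exact_mod_cast hij

lemma Inj_comp {x : Fin k → ℂ} (hx : x ∈ Inj k) (τ : Equiv.Perm (Fin k)) : x ∘ τ ∈ Inj k :=
  Function.Injective.comp hx τ.injective

lemma Inj_of_comp {x : Fin k → ℂ} {τ : Equiv.Perm (Fin k)} (hx : x ∘ τ ∈ Inj k) : x ∈ Inj k := by
  have := Inj_comp hx τ⁻¹
  have e : (x ∘ ⇑τ) ∘ ⇑(τ⁻¹) = x := by funext i; simp
  rwa [e] at this

/-- linear key -/
def lkey (z : ℂ) : ℝ ×ₗ ℝ := toLex (z.re, z.im)

lemma lkey_lt {z w : ℂ} : lkey z < lkey w ↔ llt z w := by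
  unfold lkey llt
  rw [Prod.Lex.lt_iff]
  rfl

lemma lkey_inj {z w : ℂ} (h : lkey z = lkey w) : z = w := by
  unfold lkey at h
  have h1 : (z.re, z.im) = (w.re, w.im) := toLex.injective h
  exact Complex.ext (congrArg Prod.fst h1) (congrArg Prod.snd h1)

lemma exists_sort {x : Fin k → ℂ} (hx : x ∈ Inj k) : ∃ τ : Equiv.Perm (Fin k), x ∘ τ ∈ Clex k := by
  refine ⟨Tuple.sort (fun i => lkey (x i)), fun i j hij => ?_⟩
  have hm := Tuple.monotone_sort (fun i => lkey (x i))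
  have hinj : Function.Injective ((fun i => lkey (x i)) ∘ Tuple.sort (fun i => lkey (x i))) := by
    intro a b hab
    exact (Tuple.sort fun i => lkey (x i)).injective (hx (lkey_inj hab))
  exact lkey_lt.mp (hm.strictMono_of_injective hinj hij)

lemma sort_unique {x : Fin k → ℂ} {τ τ' : Equiv.Perm (Fin k)} (h : x ∘ τ ∈ Clex k)
    (h' : x ∘ τ' ∈ Clex k) : τ = τ' := by
  have hx : x ∈ Inj k := Inj_of_comp (Clex_sub h)
  have m1 : StrictMono (fun i => lkey (x (τ i))) := fun i j hij => lkey_lt.mpr (h i j hij)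
  have m2 : StrictMono (fun i => lkey (x (τ' i))) := fun i j hij => lkey_lt.mpr (h' i j hij)
  have hr : Set.range (fun i => lkey (x (τ i))) = Set.range (fun i => lkey (x (τ' i))) := by
    ext y
    constructor
    · rintro ⟨i, rfl⟩; exact ⟨τ'⁻¹ (τ i), by simp⟩
    · rintro ⟨i, rfl⟩; exact ⟨τ⁻¹ (τ' i), by simp⟩
  have := (StrictMono.range_inj m1 m2).mp hr
  ext i
  exact congrArg Fin.val (hx (lkey_inj (congrFun this i)))

/-! ### Good sheets -/

section GoodSec

variable {E B : Type*} [TopologicalSpace E] [TopologicalSpace B] {p : E → B} {s : Set B}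
  {c : (Fin k → ℂ) → B}

/-- the sheet `y` over `x` is obtained from an element of `S` by lifting inside the cell -/
def Good (p : E → B) (c : (Fin k → ℂ) → B) (S : Set E) (x : Fin k → ℂ) (y : E) : Prop :=
  ∃ τ : Equiv.Perm (Fin k), x ∘ τ ∈ Clex k ∧ ∃ e ∈ S, SL p c (x0 k) (x ∘ τ) e y

lemma seg_Inj_of_cell {a b : Fin k → ℂ} {τ : Equiv.Perm (Fin k)} (ha : a ∘ τ ∈ Clex k)
    (hb : b ∘ τ ∈ Clex k) (t : ℝ) : seg a b t ∈ Inj k :=
  Inj_of_comp (τ := τ) (by rw [← seg_comp]; exact Clex_sub (Clex_seg ha hb t))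

lemma Good.of_cell (hp : IsCoveringMapOn p s) (hc : ContinuousOn c (Inj k))
    (hcs : ∀ x ∈ Inj k, c x ∈ s) (hsym : ∀ x ∈ Inj k, ∀ σ : Equiv.Perm (Fin k), c (x ∘ σ) = c x)
    {S : Set E} {a b : Fin k → ℂ} {τ : Equiv.Perm (Fin k)} (ha : a ∘ τ ∈ Clex k)
    (hb : b ∘ τ ∈ Clex k) {y y' : E} (h : SL p c a b y y') (hG : Good p c S a y) :
    Good p c S b y' := by
  obtain ⟨τ', hτ', e, he, hS⟩ := hG
  have := sort_unique hτ' ha
  subst this
  refine ⟨τ', hb, e, he, ?_⟩
  exact SL.triangle hp hc hcs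
    (fun r t => Clex_sub (Clex_seg (Cst_sub (x0_Cst k)) (Clex_seg ha hb r) t)) hS
    (h.comp hsym (seg_Inj_of_cell ha hb) τ')

lemma Good.cell_iff (hp : IsCoveringMapOn p s) (hc : ContinuousOn c (Inj k))
    (hcs : ∀ x ∈ Inj k, c x ∈ s) (hsym : ∀ x ∈ Inj k, ∀ σ : Equiv.Perm (Fin k), c (x ∘ σ) = c x)
    {S : Set E} {a b : Fin k → ℂ} {τ : Equiv.Perm (Fin k)} (ha : a ∘ τ ∈ Clex k)
    (hb : b ∘ τ ∈ Clex k) {y y' : E} (h : SL p c a b y y') : Good p c S a y ↔ Good p c S b y' :=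
  ⟨Good.of_cell hp hc hcs hsym ha hb h, Good.of_cell hp hc hcs hsym hb ha h.symm⟩

omit [TopologicalSpace B] in
lemma Good.comp_iff {S : Set E} {x : Fin k → ℂ} {y : E} (ρ : Equiv.Perm (Fin k)) :
    Good p c S (x ∘ ρ) y ↔ Good p c S x y := by
  constructor
  · rintro ⟨τ, hτ, e, he, h⟩
    exact ⟨ρ * τ, hτ, e, he, h⟩
  · rintro ⟨τ, hτ, e, he, h⟩
    have e1 : (x ∘ ⇑ρ) ∘ ⇑(ρ⁻¹ * τ) = x ∘ ⇑τ := by funext i; simp
    exact ⟨ρ⁻¹ * τ, by rw [e1]; exact hτ, e, he, by rw [e1]; exact h⟩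

/-! ### the half twist -/

lemma glue_exp_re (t : ℝ) : (exp (Real.pi * I * t)).re = Real.cos (Real.pi * t) := by
  have : (Real.pi : ℂ) * I * t = ((Real.pi * t : ℝ) : ℂ) * I := by push_cast; ring
  rw [this, Complex.exp_ofReal_mul_I_re]

lemma glue_exp_im (t : ℝ) : (exp (Real.pi * I * t)).im = Real.sin (Real.pi * t) := by
  have : (Real.pi : ℂ) * I * t = ((Real.pi * t : ℝ) : ℂ) * I := by push_cast; ring
  rw [this, Complex.exp_ofReal_mul_I_im]

lemma glue_tw_re (m : ℕ) (t : ℝ) (i : Fin k) : (tw k m t i).re =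
    if (i : ℕ) = m then (m : ℝ) + 1 / 2 - 1 / 2 * Real.cos (Real.pi * t)
    else if (i : ℕ) = m + 1 then (m : ℝ) + 1 / 2 + 1 / 2 * Real.cos (Real.pi * t)
    else ((i : ℕ) : ℝ) := by
  unfold tw
  split_ifs
  · have := glue_exp_re t
    simp only [Complex.sub_re, Complex.add_re, Complex.natCast_re, Complex.mul_re, this]
    norm_num
  · have := glue_exp_re t
    simp only [Complex.add_re, Complex.natCast_re, Complex.mul_re, this]
    norm_num
  · simp

lemma glue_tw_im (m : ℕ) (t : ℝ) (i : Fin k) : (tw k m t i).im =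
    if (i : ℕ) = m then - (1 / 2 * Real.sin (Real.pi * t))
    else if (i : ℕ) = m + 1 then 1 / 2 * Real.sin (Real.pi * t)
    else 0 := by
  unfold tw
  split_ifs
  · have := glue_exp_im t
    simp only [Complex.sub_im, Complex.add_im, Complex.natCast_im, Complex.mul_im, this]
    norm_num
  · have := glue_exp_im t
    simp only [Complex.add_im, Complex.natCast_im, Complex.mul_im, this]
    norm_num
  · simp

/-! ### Wall crossing -/

/-- the region containing the two cells adjacent to a wall -/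
def Om (k m : ℕ) (hm : m + 1 < k) : Set (Fin k → ℂ) :=
  {z | (∀ i j : Fin k, i < j → ¬((i : ℕ) = m ∧ (j : ℕ) = m + 1) → (z i).re < (z j).re) ∧
    ((z ⟨m + 1, hm⟩ - z ⟨m, by omega⟩).re ≠ 0 ∨ (z ⟨m + 1, hm⟩ - z ⟨m, by omega⟩).im < 0)}

lemma Om_open (m : ℕ) (hm : m + 1 < k) : IsOpen (Om k m hm) := by
  unfold Om
  refine IsOpen.inter ?_ ?_
  · have : {z : Fin k → ℂ | ∀ i j : Fin k, i < j → ¬((i : ℕ) = m ∧ (j : ℕ) = m + 1) →
        (z i).re < (z j).re} = ⋂ i : Fin k, ⋂ j : Fin k, ⋂ _ : i < j,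
        ⋂ _ : ¬((i : ℕ) = m ∧ (j : ℕ) = m + 1), {z : Fin k → ℂ | (z i).re < (z j).re} := by
      ext z; simp
    change IsOpen {z : Fin k → ℂ | ∀ i j : Fin k, i < j → ¬((i : ℕ) = m ∧ (j : ℕ) = m + 1) →
        (z i).re < (z j).re}
    rw [this]
    refine isOpen_iInter_of_finite fun i => isOpen_iInter_of_finite fun j =>
      isOpen_iInter_of_finite fun _ => isOpen_iInter_of_finite fun _ => ?_
    exact isOpen_lt (by fun_prop) (by fun_prop)
  · refine IsOpen.union ?_ ?_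
    · have h1 : Continuous fun z : Fin k → ℂ => (z ⟨m + 1, hm⟩ - z ⟨m, by omega⟩).re := by
        fun_prop
      exact isOpen_ne_fun h1 continuous_const
    · have h1 : Continuous fun z : Fin k → ℂ => (z ⟨m + 1, hm⟩ - z ⟨m, by omega⟩).im := by
        fun_prop
      exact isOpen_lt h1 continuous_const

lemma Om_sub {m : ℕ} {hm : m + 1 < k} {z : Fin k → ℂ} (hz : z ∈ Om k m hm) : z ∈ Inj k := by
  have key : ∀ i j : Fin k, i < j → z i ≠ z j := by
    intro i j hij h
    by_cases h1 : (i : ℕ) = m ∧ (j : ℕ) = m + 1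
    · have e1 : i = ⟨m, by omega⟩ := Fin.ext h1.1
      have e2 : j = ⟨m + 1, hm⟩ := Fin.ext h1.2
      have h2 := hz.2
      rw [← e1, ← e2, h, sub_self] at h2
      rcases h2 with h2 | h2
      · exact h2 rfl
      · exact lt_irrefl _ h2
    · have := hz.1 i j hij h1
      rw [h] at this
      exact lt_irrefl _ this
  intro i j h
  rcases lt_trichotomy i j with h1 | h1 | h1
  · exact absurd h (key i j h1)
  · exact h1
  · exact absurd h.symm (key j i h1)

/-- centre of the region -/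
noncomputable def omc (k m : ℕ) : Fin k → ℂ := fun i =>
  if (i : ℕ) = m then ⟨(m : ℝ) + 1 / 2, 1 / 2⟩ else
    if (i : ℕ) = m + 1 then ⟨(m : ℝ) + 1 / 2, -(1 / 2)⟩ else ((i : ℕ) : ℂ)

lemma omc_re (m : ℕ) (i : Fin k) : (omc k m i).re =
    if (i : ℕ) = m then (m : ℝ) + 1 / 2 else if (i : ℕ) = m + 1 then (m : ℝ) + 1 / 2
      else ((i : ℕ) : ℝ) := by
  unfold omc
  split_ifs <;> simp

lemma omc_mem (m : ℕ) (hm : m + 1 < k) : omc k m ∈ Om k m hm := by
  refine ⟨fun i j hij hne => ?_, Or.inr ?_⟩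
  · rw [omc_re, omc_re]
    have hij' : (i : ℕ) < j := hij
    have hij1 : ((i : ℕ) : ℝ) + 1 ≤ ((j : ℕ) : ℝ) := by exact_mod_cast hij'
    split_ifs with h1 h2 h3 h4 h5 h6 h7
    all_goals first
      | (exfalso; omega)
      | (have h8 : (m : ℝ) + 2 ≤ ((j : ℕ) : ℝ) := by
           have : m + 2 ≤ (j : ℕ) := by omega
           exact_mod_cast this
         linarith)
      | (have h8 : ((i : ℕ) : ℝ) + 1 ≤ (m : ℝ) := by
           have : (i : ℕ) + 1 ≤ m := by omega
           exact_mod_cast this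
         linarith)
      | linarith
  · simp [omc]

lemma Om_star (m : ℕ) (hm : m + 1 < k) : StarConvex ℝ (omc k m) (Om k m hm) := by
  intro z hz a b ha hb hab
  have hw := omc_mem m hm
  refine ⟨fun i j hij hne => ?_, ?_⟩
  · have h1 := hw.1 i j hij hne
    have h2 := hz.1 i j hij hne
    simp only [Pi.add_apply, Pi.smul_apply, Complex.add_re, Complex.smul_re, smul_eq_mul]
    rcases eq_or_lt_of_le ha with h0 | h0
    · subst h0
      have : b = 1 := by linarith
      subst this; simpa using h2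
    · have a1 := mul_lt_mul_of_pos_left h1 h0
      have a2 := mul_le_mul_of_nonneg_left h2.le hb
      linarith
  · have e0 : omc k m ⟨m + 1, hm⟩ - omc k m ⟨m, by omega⟩ = -I := by
      apply Complex.ext <;> simp [omc]
      norm_num
    have e1 : (a • omc k m + b • z) ⟨m + 1, hm⟩ - (a • omc k m + b • z) ⟨m, by omega⟩ =
        a • (-I) + b • (z ⟨m + 1, hm⟩ - z ⟨m, by omega⟩) := by
      rw [← e0]
      simp only [Pi.add_apply, Pi.smul_apply]
      module
    rw [e1]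
    simp only [Complex.add_re, Complex.smul_re, Complex.neg_re, Complex.I_re, Complex.add_im,
      Complex.smul_im, Complex.neg_im, Complex.I_im, smul_eq_mul]
    set r := (z ⟨m + 1, hm⟩ - z ⟨m, by omega⟩).re with hr
    set q := (z ⟨m + 1, hm⟩ - z ⟨m, by omega⟩).im with hq
    by_cases h3 : b * r = 0
    · right
      rcases mul_eq_zero.mp h3 with h4 | h4
      · rw [h4]; have : a = 1 := by linarith
        rw [this]; norm_num
      · rcases hz.2 with h5 | h5
        · exact absurd h4 h5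
        · rcases eq_or_lt_of_le hb with h6 | h6
          · rw [← h6]; have : a = 1 := by linarith
            rw [this]; norm_num
          · have := mul_neg_of_pos_of_neg h6 h5
            linarith
    · left
      simpa using h3

/-- exchange the real parts of two points -/
def exch (p q : Fin k) (b : Fin k → ℂ) : Fin k → ℂ := fun i =>
  if i = p then ⟨(b q).re, (b p).im⟩ else if i = q then ⟨(b p).re, (b q).im⟩ else b i

lemma exch_comp (p q : Fin k) (b : Fin k → ℂ) (τ : Equiv.Perm (Fin k)) :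
    exch (τ p) (τ q) b ∘ τ = exch p q (b ∘ τ) := by
  funext i
  simp only [exch, Function.comp_apply, τ.injective.eq_iff]

lemma exch_left (p q : Fin k) (b : Fin k → ℂ) : exch p q b p = ⟨(b q).re, (b p).im⟩ := by
  simp [exch]
lemma exch_right {p q : Fin k} (h : p ≠ q) (b : Fin k → ℂ) :
    exch p q b q = ⟨(b p).re, (b q).im⟩ := by
  simp [exch, h.symm]
lemma exch_other {p q i : Fin k} (b : Fin k → ℂ) (h1 : i ≠ p) (h2 : i ≠ q) :
    exch p q b i = b i := by
  simp [exch, h1, h2]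

lemma Cst_sub_Om {m : ℕ} (hm : m + 1 < k) {z : Fin k → ℂ} (hz : z ∈ Cst k) : z ∈ Om k m hm := by
  refine ⟨fun i j hij _ => hz i j hij, Or.inl ?_⟩
  have := hz ⟨m, by omega⟩ ⟨m + 1, hm⟩ (Fin.mk_lt_mk.mpr (Nat.lt_succ_self m))
  rw [Complex.sub_re]
  exact (sub_pos.mpr this).ne'

/-- cells on the other side of the wall -/
lemma Cst_swap_sub_Om {m : ℕ} (hm : m + 1 < k) {z : Fin k → ℂ} (hz : z ∈ Cst k) :
    z ∘ (Equiv.swap (⟨m, by omega⟩ : Fin k) ⟨m + 1, hm⟩) ∈ Om k m hm := by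
  have hne : (⟨m, by omega⟩ : Fin k) ≠ ⟨m + 1, hm⟩ := by simp
  refine ⟨fun i j hij hne' => ?_, Or.inl ?_⟩
  · apply hz
    have hij' : (i : ℕ) < j := hij
    rw [Fin.lt_def]
    by_cases h1 : (i : ℕ) = m
    · have e1 : i = ⟨m, by omega⟩ := Fin.ext h1
      have h2 : (j : ℕ) ≠ m + 1 := fun h => hne' ⟨h1, h⟩
      rw [e1, Equiv.swap_apply_left, Equiv.swap_apply_of_ne_of_ne
        (fun h => by have := congrArg Fin.val h; simp at this; omega)
        (fun h => h2 (congrArg Fin.val h))]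
      simp only
      omega
    · by_cases h2 : (i : ℕ) = m + 1
      · have e1 : i = ⟨m + 1, hm⟩ := Fin.ext h2
        rw [e1, Equiv.swap_apply_right, Equiv.swap_apply_of_ne_of_ne
          (fun h => by have := congrArg Fin.val h; simp at this; omega)
          (fun h => by have := congrArg Fin.val h; simp at this; omega)]
        simp only
        omega
      · rw [Equiv.swap_apply_of_ne_of_ne (a := (⟨m, by omega⟩ : Fin k)) (b := ⟨m + 1, hm⟩) (x := i)
          (fun h => h1 (congrArg Fin.val h)) (fun h => h2 (congrArg Fin.val h))]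
        by_cases h3 : (j : ℕ) = m
        · have e1 : j = ⟨m, by omega⟩ := Fin.ext h3
          rw [e1, Equiv.swap_apply_left]
          simp only
          omega
        · by_cases h4 : (j : ℕ) = m + 1
          · have e1 : j = ⟨m + 1, hm⟩ := Fin.ext h4
            rw [e1, Equiv.swap_apply_right]
            simp only
            omega
          · rw [Equiv.swap_apply_of_ne_of_ne (fun h => h3 (congrArg Fin.val h))
              (fun h => h4 (congrArg Fin.val h))]
            exact hij'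
  · simp only [Function.comp_apply, Equiv.swap_apply_left, Equiv.swap_apply_right]
    have := hz ⟨m, by omega⟩ ⟨m + 1, hm⟩ (Fin.mk_lt_mk.mpr (Nat.lt_succ_self m))
    rw [Complex.sub_re]
    exact (sub_neg.mpr this).ne

lemma tw_mem_Om {m : ℕ} (hm : m + 1 < k) {t : ℝ} (h0 : -1 ≤ t) (h1 : t ≤ 0) :
    tw k m t ∈ Om k m hm := by
  have hc1 := Real.cos_le_one (Real.pi * t)
  have hc2 := Real.neg_one_le_cos (Real.pi * t)
  have hcs := Real.sin_sq_add_cos_sq (Real.pi * t)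
  refine ⟨fun i j hij hne => ?_, ?_⟩
  · rw [glue_tw_re, glue_tw_re]
    have hij' : (i : ℕ) < j := hij
    have hij1 : ((i : ℕ) : ℝ) + 1 ≤ ((j : ℕ) : ℝ) := by exact_mod_cast hij'
    split_ifs with h1 h2 h3 h4 h5 h6 h7
    all_goals first
      | (exfalso; omega)
      | (have h8 : (m : ℝ) + 2 ≤ ((j : ℕ) : ℝ) := by
           have : m + 2 ≤ (j : ℕ) := by omega
           exact_mod_cast this
         linarith)
      | (have h8 : ((i : ℕ) : ℝ) + 1 ≤ (m : ℝ) := by
           have : (i : ℕ) + 1 ≤ m := by omega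
           exact_mod_cast this
         linarith)
      | linarith
  · have e1 : (tw k m t ⟨m + 1, hm⟩ - tw k m t ⟨m, by omega⟩).re = Real.cos (Real.pi * t) := by
      rw [Complex.sub_re, glue_tw_re, glue_tw_re]
      simp only [if_true]
      rw [if_neg (by omega)]
      ring
    have e2 : (tw k m t ⟨m + 1, hm⟩ - tw k m t ⟨m, by omega⟩).im = Real.sin (Real.pi * t) := by
      rw [Complex.sub_im, glue_tw_im, glue_tw_im]
      simp only [if_true]
      rw [if_neg (by omega)]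
      ring
    rw [e1, e2]
    by_cases h3 : Real.cos (Real.pi * t) = 0
    · right
      rcases eq_or_lt_of_le h0 with h4 | h4
      · rw [← h4] at h3; norm_num at h3
      · rcases eq_or_lt_of_le h1 with h5 | h5
        · rw [h5] at h3; norm_num at h3
        · apply Real.sin_neg_of_neg_of_neg_pi_lt
          · exact mul_neg_of_pos_of_neg Real.pi_pos h5
          · nlinarith [Real.pi_pos]
    · exact Or.inl h3

lemma tw_neg_one {m : ℕ} (hm : m + 1 < k) :
    tw k m (-1) = x0 k ∘ (Equiv.swap (⟨m, by omega⟩ : Fin k) ⟨m + 1, hm⟩) := by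
  have h := tw_add_one hm (-1)
  have e : (-1 : ℝ) + 1 = 0 := by norm_num
  rw [e, tw_zero] at h
  rw [h]
  funext i
  simp

/-- crossing one wall -/
lemma wall (hp : IsCoveringMapOn p s) (hc : ContinuousOn c (Inj k))
    (hcs : ∀ x ∈ Inj k, c x ∈ s) (hsym : ∀ x ∈ Inj k, ∀ σ : Equiv.Perm (Fin k), c (x ∘ σ) = c x)
    {S : Set E}
    (htw : ∀ m : ℕ, m + 1 < k → ∀ y : ℝ → E, Continuous y → (∀ t, p (y t) = c (tw k m t)) →
      (y 0 ∈ S ↔ y 1 ∈ S)) {m : ℕ} (hm : m + 1 < k) {a a' : Fin k → ℂ} (ha : a ∈ Cst k)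
    (ha' : a' ∘ (Equiv.swap (⟨m, by omega⟩ : Fin k) ⟨m + 1, hm⟩) ∈ Cst k)
    (haa : ∀ t, seg a a' t ∈ Om k m hm) {e e' y y' : E}
    (h1 : SL p c (x0 k) a e y) (h2 : SL p c a a' y y')
    (h3 : SL p c (x0 k) (a' ∘ (Equiv.swap (⟨m, by omega⟩ : Fin k) ⟨m + 1, hm⟩)) e' y') :
    e ∈ S ↔ e' ∈ S := by
  set sw := Equiv.swap (⟨m, by omega⟩ : Fin k) ⟨m + 1, hm⟩ with hsw
  have hss : ∀ z : Fin k → ℂ, (z ∘ sw) ∘ sw = z := by
    intro z; funext i; simp [hsw]
  have hx0 : x0 k ∈ Om k m hm := Cst_sub_Om hm (x0_Cst k)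
  obtain ⟨g, hg, hpg, hg0⟩ := glue_existsOn hp (Om_open m hm) (omc_mem m hm) (Om_star m hm)
    (hc.mono fun z hz => Om_sub hz) (fun z hz => hcs z (Om_sub hz)) hx0 (e₀ := e) h1.start_eq
  have hseg1 : ∀ t, seg (x0 k) a t ∈ Om k m hm := fun t =>
    Cst_sub_Om hm (Cst_seg (x0_Cst k) ha t)
  have hy : y = g a := by
    have h4 : SL p c (x0 k) a (g (x0 k)) (g a) := SL.of_lift hg hpg hseg1
    rw [hg0] at h4
    exact SL.unique hp hcs (fun t => Om_sub (hseg1 t)) h1 h4
  have hy' : y' = g a' := by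
    have h4 : SL p c a a' (g a) (g a') := SL.of_lift hg hpg haa
    rw [← hy] at h4
    exact SL.unique hp hcs (fun t => Om_sub (haa t)) h2 h4
  have hseg2 : ∀ t, seg (x0 k ∘ sw) a' t ∈ Om k m hm := by
    intro t
    have e1 : seg (x0 k ∘ sw) a' t = seg (x0 k) (a' ∘ sw) t ∘ sw := by
      rw [← seg_comp, hss]
    rw [e1]
    exact Cst_swap_sub_Om hm (Cst_seg (x0_Cst k) ha' t)
  have he' : e' = g (x0 k ∘ sw) := by
    have h4 : SL p c (x0 k ∘ sw) a' (g (x0 k ∘ sw)) (g a') := SL.of_lift hg hpg hseg2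
    have h5 := h4.comp hsym (fun t => Om_sub (hseg2 t)) sw
    rw [hss, ← hy'] at h5
    refine SL.unique hp hcs (a := a' ∘ sw) (b := x0 k) (fun t => ?_) h3.symm h5.symm
    exact Clex_sub (Cst_sub (Cst_seg ha' (x0_Cst k) t))
  obtain ⟨yt, hyt, hyt1, hyt0⟩ := glue_exists hp (u := fun t => c (tw k m t))
    (hc.comp_continuous (continuous_tw k m) fun t => tw_mem t) (fun t => hcs _ (tw_mem t)) 0
    (e₀ := e') (by rw [tw_zero]; exact h3.start_eq)
  have hcont : Continuous fun t : ℝ => tw k m (t - 1) :=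
    (continuous_tw k m).comp (by fun_prop)
  have hend : yt 1 = e := by
    have h4 : yt 1 = g (tw k m (1 - 1)) := by
      refine glue_uniqueOn (D := Set.Icc (0:ℝ) 1) (isPreconnected_Icc) hp (f := yt)
        (g := fun t => g (tw k m (t - 1))) hyt.continuousOn ?_ (fun t _ => ?_) (fun t ht => ?_)
        (a₀ := 0) (by simp) ?_ (by simp)
      · refine hg.comp hcont.continuousOn fun t ht => ?_
        exact tw_mem_Om hm (by linarith [ht.1]) (by linarith [ht.2])
      · rw [hyt1]; exact hcs _ (tw_mem t)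
      · rw [hyt1, hpg _ (tw_mem_Om hm (by linarith [ht.1]) (by linarith [ht.2]))]
        have h5 := tw_add_one hm (t - 1)
        rw [sub_add_cancel] at h5
        rw [h5]
        exact hsym _ (tw_mem _) _
      · rw [hyt0, he', zero_sub, tw_neg_one hm]
    rw [h4, sub_self, tw_zero, hg0]
  have := htw m hm yt hyt hyt1
  rw [hyt0, hend] at this
  exact this.symm

/-- the segment of an exchange stays in the region of the wall -/
lemma exch_seg_Om {m : ℕ} (hm : m + 1 < k) {a : Fin k → ℂ} (ha : a ∈ Cst k)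
    (him : (a ⟨m + 1, hm⟩).im < (a ⟨m, by omega⟩).im) (t : ℝ) :
    seg a (exch ⟨m, by omega⟩ ⟨m + 1, hm⟩ a) t ∈ Om k m hm := by
  set i0 : Fin k := ⟨m, by omega⟩ with hi0
  set i1 : Fin k := ⟨m + 1, hm⟩ with hi1
  have hne : i0 ≠ i1 := by simp [hi0, hi1]
  have h0 := clm_nonneg t
  have h1 := clm_le t
  refine ⟨fun i j hij hnn => ?_, Or.inr ?_⟩
  · rw [seg_re, seg_re]
    have hij' : (i : ℕ) < j := hij
    have h2 : (a i).re < (a j).re := ha i j hij
    have h3 : (exch i0 i1 a i).re < (exch i0 i1 a j).re := by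
      by_cases e1 : i = i0
      · subst e1
        have e2 : j ≠ i1 := fun h => hnn ⟨rfl, by rw [h]⟩
        have e3 : i1 < j := by
          rw [Fin.lt_def]
          have : (j : ℕ) ≠ m + 1 := fun h => e2 (Fin.ext h)
          simp only [hi0] at hij'
          simp only [hi1]
          omega
        rw [exch_left, exch_other a hij.ne' e2]
        exact ha i1 j e3
      · by_cases e2 : i = i1
        · subst e2
          have e3 : i0 < j := by
            rw [Fin.lt_def]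
            simp only [hi1] at hij'
            simp only [hi0]
            omega
          rw [exch_right hne, exch_other a e3.ne' hij.ne']
          exact ha i0 j e3
        · rw [exch_other a e1 e2]
          by_cases e3 : j = i0
          · subst e3
            rw [exch_left]
            apply ha
            rw [Fin.lt_def]
            simp only [hi0] at hij'
            simp only [hi1]
            omega
          · by_cases e4 : j = i1
            · subst e4
              rw [exch_right hne]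
              apply ha
              rw [Fin.lt_def]
              have : (i : ℕ) ≠ m := fun h => e1 (Fin.ext h)
              simp only [hi1] at hij'
              simp only [hi0]
              omega
            · rw [exch_other a e3 e4]
              exact h2
    rcases eq_or_lt_of_le h0 with h0 | h0
    · rw [← h0]; linarith
    · have a1 := mul_le_mul_of_nonneg_left h2.le (by linarith : 0 ≤ 1 - clm t)
      have a2 := mul_lt_mul_of_pos_left h3 h0
      linarith
  · rw [Complex.sub_im, seg_im, seg_im, exch_left, exch_right hne]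
    simp only
    nlinarith

lemma exch_swap_Cst {m : ℕ} (hm : m + 1 < k) {a : Fin k → ℂ} (ha : a ∈ Cst k) :
    exch ⟨m, by omega⟩ ⟨m + 1, hm⟩ a ∘
      (Equiv.swap (⟨m, by omega⟩ : Fin k) ⟨m + 1, hm⟩) ∈ Cst k := by
  set i0 : Fin k := ⟨m, by omega⟩ with hi0
  set i1 : Fin k := ⟨m + 1, hm⟩ with hi1
  have hne : i0 ≠ i1 := by simp [hi0, hi1]
  have key : ∀ i, ((exch i0 i1 a ∘ Equiv.swap i0 i1) i).re = (a i).re := by
    intro i
    rw [Function.comp_apply]
    by_cases e1 : i = i0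
    · rw [e1, Equiv.swap_apply_left, exch_right hne]
    · by_cases e2 : i = i1
      · rw [e2, Equiv.swap_apply_right, exch_left]
      · rw [Equiv.swap_apply_of_ne_of_ne e1 e2, exch_other a e1 e2]
  intro i j hij
  rw [key, key]
  exact ha i j hij

lemma Good.wall (hp : IsCoveringMapOn p s) (hc : ContinuousOn c (Inj k))
    (hcs : ∀ x ∈ Inj k, c x ∈ s) (hsym : ∀ x ∈ Inj k, ∀ σ : Equiv.Perm (Fin k), c (x ∘ σ) = c x)
    {S : Set E}
    (htw : ∀ m : ℕ, m + 1 < k → ∀ y : ℝ → E, Continuous y → (∀ t, p (y t) = c (tw k m t)) →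
      (y 0 ∈ S ↔ y 1 ∈ S)) {m : ℕ} (hm : m + 1 < k) {b : Fin k → ℂ} {τ : Equiv.Perm (Fin k)}
    (hb : b ∘ τ ∈ Cst k) (him : (b (τ ⟨m + 1, hm⟩)).im < (b (τ ⟨m, by omega⟩)).im) {y y' : E}
    (h : SL p c b (exch (τ ⟨m, by omega⟩) (τ ⟨m + 1, hm⟩) b) y y') :
    Good p c S b y ↔ Good p c S (exch (τ ⟨m, by omega⟩) (τ ⟨m + 1, hm⟩) b) y' := by
  set i0 : Fin k := ⟨m, by omega⟩ with hi0
  set i1 : Fin k := ⟨m + 1, hm⟩ with hi1
  set b' := exch (τ i0) (τ i1) b with hb'
  have e1 : b' ∘ τ = exch i0 i1 (b ∘ τ) := exch_comp i0 i1 b τ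
  have hOm : ∀ t, seg (b ∘ τ) (b' ∘ τ) t ∈ Om k m hm := by
    rw [e1]; exact exch_seg_Om hm hb him
  have hsegb : ∀ t, seg b b' t ∈ Inj k := fun t =>
    Inj_of_comp (τ := τ) (by rw [← seg_comp]; exact Om_sub (hOm t))
  have h2 : SL p c (b ∘ τ) (b' ∘ τ) y y' := h.comp hsym hsegb τ
  have hC : (b' ∘ τ) ∘ (Equiv.swap i0 i1) ∈ Cst k := by
    rw [e1]; exact exch_swap_Cst hm hb
  have hb'i : b' ∘ τ ∈ Inj k := by
    have := Om_sub (hOm 1)
    rwa [seg_one] at this
  have hcell' : b' ∘ (τ * Equiv.swap i0 i1 : Equiv.Perm (Fin k)) ∈ Clex k := Cst_sub hC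
  have hy' : p y' = c ((b' ∘ τ) ∘ (Equiv.swap i0 i1)) := by
    rw [h2.end_eq, hsym _ hb'i]
  have hy : p y = c (b ∘ τ) := h2.start_eq
  constructor
  · rintro ⟨τ', hτ', e, he, h1⟩
    have := sort_unique hτ' (Cst_sub hb)
    subst this
    obtain ⟨e', h3⟩ := SL.exists hp hc hcs (a := (b' ∘ τ') ∘ (Equiv.swap i0 i1)) (b := x0 k)
      (fun t => Clex_sub (Cst_sub (Cst_seg hC (x0_Cst k) t))) hy'
    exact ⟨τ' * Equiv.swap i0 i1, hcell', e',
      (GlueAux.wall hp hc hcs hsym htw hm hb hC hOm h1 h2 h3.symm).mp he, h3.symm⟩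
  · rintro ⟨τ', hτ', e', he', h3⟩
    have := sort_unique hτ' hcell'
    subst this
    obtain ⟨e, h1⟩ := SL.exists hp hc hcs (a := b ∘ τ) (b := x0 k)
      (fun t => Clex_sub (Cst_sub (Cst_seg hb (x0_Cst k) t))) hy
    exact ⟨τ, Cst_sub hb, e,
      (GlueAux.wall hp hc hcs hsym htw hm hb hC hOm h1.symm h2 h3).mpr he', h1.symm⟩

/-! ### Local constancy -/

/-- open boxes -/
def Bx (x : Fin k → ℂ) (ε : ℝ) : Set (Fin k → ℂ) :=
  {z | ∀ i, |(z i).re - (x i).re| < ε ∧ |(z i).im - (x i).im| < ε}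

lemma Bx_open (x : Fin k → ℂ) (ε : ℝ) : IsOpen (Bx x ε) := by
  have : Bx x ε = ⋂ i, ({z : Fin k → ℂ | |(z i).re - (x i).re| < ε} ∩
      {z : Fin k → ℂ | |(z i).im - (x i).im| < ε}) := by
    ext z; simp [Bx]
  rw [this]
  refine isOpen_iInter_of_finite fun i => IsOpen.inter ?_ ?_
  · exact isOpen_lt (by fun_prop) continuous_const
  · exact isOpen_lt (by fun_prop) continuous_const

lemma Bx_seg {x : Fin k → ℂ} {ε : ℝ} {a b : Fin k → ℂ} (ha : a ∈ Bx x ε) (hb : b ∈ Bx x ε)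
    (t : ℝ) : seg a b t ∈ Bx x ε := by
  intro i
  have h0 := clm_nonneg t
  have h1 := clm_le t
  have key : ∀ u v w : ℝ, |u - w| < ε → |v - w| < ε → |(1 - clm t) * u + clm t * v - w| < ε := by
    intro u v w hu hv
    rw [abs_lt] at *
    rcases eq_or_lt_of_le h0 with h0 | h0
    · rw [← h0]; constructor <;> linarith [hu.1, hu.2]
    · constructor
      · have a1 := mul_le_mul_of_nonneg_left hu.1.le (by linarith : 0 ≤ 1 - clm t)
        have a2 := mul_lt_mul_of_pos_left hv.1 h0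
        linarith
      · have a1 := mul_le_mul_of_nonneg_left hu.2.le (by linarith : 0 ≤ 1 - clm t)
        have a2 := mul_lt_mul_of_pos_left hv.2 h0
        linarith
  rw [seg_re, seg_im]
  exact ⟨key _ _ _ (ha i).1 (hb i).1, key _ _ _ (ha i).2 (hb i).2⟩

lemma self_mem_Bx (x : Fin k → ℂ) {ε : ℝ} (hε : 0 < ε) : x ∈ Bx x ε := fun i => by simp [hε]

lemma Bx_star (x : Fin k → ℂ) {ε : ℝ} (hε : 0 < ε) : StarConvex ℝ x (Bx x ε) := by
  rw [starConvex_iff_segment_subset]
  intro y hy z hz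
  rw [segment_eq_image] at hz
  obtain ⟨t, ht, rfl⟩ := hz
  have h1 := Bx_seg (self_mem_Bx x hε) hy t
  have h2 : seg x y t = (1 - t) • x + t • y := by
    funext i
    simp only [seg, clm_of_mem ht.1 ht.2, Pi.add_apply, Pi.smul_apply, Complex.real_smul]
    push_cast
    ring
  rwa [h2] at h1

lemma exists_eps (x : Fin k → ℂ) : ∃ ε : ℝ, 0 < ε ∧ ∀ i j,
    ((x i).re < (x j).re → 2 * ε ≤ (x j).re - (x i).re) ∧
    ((x i).im < (x j).im → 2 * ε ≤ (x j).im - (x i).im) := by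
  have h1 : ∀ d : ℝ, 0 < d → ∀ᶠ ε : ℝ in 𝓝[>] 0, 2 * ε ≤ d := by
    intro d hd
    have : ∀ᶠ ε : ℝ in 𝓝 0, 2 * ε < d := by
      have hcont : Continuous fun ε : ℝ => 2 * ε := by fun_prop
      exact hcont.continuousAt.eventually_lt_const (by simpa using hd)
    exact (this.filter_mono nhdsWithin_le_nhds).mono fun _ h => h.le
  have h2 : ∀ᶠ ε : ℝ in 𝓝[>] 0, ∀ i j,
      ((x i).re < (x j).re → 2 * ε ≤ (x j).re - (x i).re) ∧
      ((x i).im < (x j).im → 2 * ε ≤ (x j).im - (x i).im) := by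
    rw [Filter.eventually_all]; intro i
    rw [Filter.eventually_all]; intro j
    refine Filter.Eventually.and ?_ ?_
    · by_cases h : (x i).re < (x j).re
      · exact (h1 _ (sub_pos.mpr h)).mono fun _ h _ => h
      · exact Filter.Eventually.of_forall fun _ h' => absurd h' h
    · by_cases h : (x i).im < (x j).im
      · exact (h1 _ (sub_pos.mpr h)).mono fun _ h _ => h
      · exact Filter.Eventually.of_forall fun _ h' => absurd h' h
  obtain ⟨ε, hε, hε0⟩ := (h2.and self_mem_nhdsWithin).exists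
  exact ⟨ε, hε0, hε⟩

lemma Bx_re {x : Fin k → ℂ} {ε : ℝ} (h : ∀ i j,
    ((x i).re < (x j).re → 2 * ε ≤ (x j).re - (x i).re) ∧
    ((x i).im < (x j).im → 2 * ε ≤ (x j).im - (x i).im)) {z : Fin k → ℂ} (hz : z ∈ Bx x ε)
    {i j : Fin k} (hij : (x i).re < (x j).re) : (z i).re < (z j).re := by
  have h1 := (h i j).1 hij
  have h2 := abs_lt.mp (hz i).1
  have h3 := abs_lt.mp (hz j).1
  linarith [h2.2, h3.1]

lemma Bx_im {x : Fin k → ℂ} {ε : ℝ} (h : ∀ i j,
    ((x i).re < (x j).re → 2 * ε ≤ (x j).re - (x i).re) ∧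
    ((x i).im < (x j).im → 2 * ε ≤ (x j).im - (x i).im)) {z : Fin k → ℂ} (hz : z ∈ Bx x ε)
    {i j : Fin k} (hij : (x i).im < (x j).im) : (z i).im < (z j).im := by
  have h1 := (h i j).2 hij
  have h2 := abs_lt.mp (hz i).2
  have h3 := abs_lt.mp (hz j).2
  linarith [h2.2, h3.1]

lemma Bx_sub {x : Fin k → ℂ} {ε : ℝ} (h : ∀ i j,
    ((x i).re < (x j).re → 2 * ε ≤ (x j).re - (x i).re) ∧
    ((x i).im < (x j).im → 2 * ε ≤ (x j).im - (x i).im)) (hx : x ∈ Inj k) {z : Fin k → ℂ}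
    (hz : z ∈ Bx x ε) : z ∈ Inj k := by
  intro i j hij
  apply hx
  apply Complex.ext
  · rcases lt_trichotomy (x i).re (x j).re with h1 | h1 | h1
    · have := Bx_re h hz h1; rw [hij] at this; exact absurd this (lt_irrefl _)
    · exact h1
    · have := Bx_re h hz h1; rw [hij] at this; exact absurd this (lt_irrefl _)
  · rcases lt_trichotomy (x i).im (x j).im with h1 | h1 | h1
    · have := Bx_im h hz h1; rw [hij] at this; exact absurd this (lt_irrefl _)
    · exact h1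
    · have := Bx_im h hz h1; rw [hij] at this; exact absurd this (lt_irrefl _)

/-- a strictly monotone permutation is the identity -/
lemma perm_eq_one_of_no_descent {τ : Equiv.Perm (Fin k)}
    (h : ∀ m (hm : m + 1 < k), τ ⟨m, by omega⟩ < τ ⟨m + 1, hm⟩) : τ = 1 := by
  have hmono : StrictMono τ := by
    cases k with
    | zero => intro i; exact i.elim0
    | succ n =>
      rw [Fin.strictMono_iff_lt_succ]
      intro i
      exact h i.1 (by omega)
  have hr : Set.range (τ : Fin k → Fin k) = Set.range (id : Fin k → Fin k) := by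
    rw [τ.surjective.range_eq, Function.surjective_id.range_eq]
  have := (StrictMono.range_inj hmono strictMono_id).mp hr
  ext i
  rw [this]
  rfl

/-- a measure for the induction -/
def meas (τ : Equiv.Perm (Fin k)) : ℕ := ∑ i : Fin k, (i : ℕ) * (τ i : ℕ)

lemma meas_le (τ : Equiv.Perm (Fin k)) : meas τ ≤ ∑ _i : Fin k, k * k :=
  Finset.sum_le_sum fun i _ => Nat.mul_le_mul i.2.le (τ i).2.le

lemma meas_lt {τ : Equiv.Perm (Fin k)} {m : ℕ} (hm : m + 1 < k)
    (h : τ ⟨m + 1, hm⟩ < τ ⟨m, by omega⟩) :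
    meas τ < meas (τ * Equiv.swap (⟨m, by omega⟩ : Fin k) ⟨m + 1, hm⟩) := by
  set i0 : Fin k := ⟨m, by omega⟩ with hi0
  set i1 : Fin k := ⟨m + 1, hm⟩ with hi1
  have hne : i0 ≠ i1 := by simp [hi0, hi1]
  have h1 : meas (τ * Equiv.swap i0 i1) = ∑ i : Fin k, ((Equiv.swap i0 i1 i : Fin k) : ℕ) *
      (τ i : ℕ) := by
    unfold meas
    rw [← Equiv.sum_comp (Equiv.swap i0 i1)]
    refine Finset.sum_congr rfl fun i _ => ?_
    rw [Equiv.Perm.mul_apply, Equiv.swap_apply_self]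
  have h2 : (meas (τ * Equiv.swap i0 i1) : ℤ) - meas τ = (τ i0 : ℕ) - (τ i1 : ℕ) := by
    rw [h1]
    unfold meas
    push_cast
    rw [← Finset.sum_sub_distrib]
    rw [Fintype.sum_eq_add i0 i1 hne]
    · rw [Equiv.swap_apply_left, Equiv.swap_apply_right]
      simp only [hi0, hi1]
      push_cast
      ring
    · rintro i ⟨hi, hi'⟩
      rw [Equiv.swap_apply_of_ne_of_ne hi hi', sub_self]
  have h3 : ((τ i1 : Fin k) : ℕ) < (τ i0 : ℕ) := h
  have h4 : (meas τ : ℤ) < meas (τ * Equiv.swap i0 i1) := by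
    have : (((τ i1 : Fin k) : ℕ) : ℤ) < ((τ i0 : ℕ) : ℤ) := by exact_mod_cast h3
    linarith
  exact_mod_cast h4

lemma exch_mem_Bx {x : Fin k → ℂ} {ε : ℝ} {b : Fin k → ℂ} (hb : b ∈ Bx x ε) {i j : Fin k}
    (hij : (x i).re = (x j).re) : exch i j b ∈ Bx x ε := by
  intro l
  by_cases h1 : l = i
  · rw [h1, exch_left]
    simp only
    exact ⟨by rw [hij]; exact (hb j).1, (hb i).2⟩
  · by_cases h2 : l = j
    · have hne : i ≠ j := fun h => h1 (h2.trans h.symm)
      rw [h2, exch_right hne]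
      simp only
      exact ⟨by rw [← hij]; exact (hb i).1, (hb j).2⟩
    · rw [exch_other b h1 h2]
      exact hb l

/-- comparison with the centre of the box, generic points -/
lemma local_gen (hp : IsCoveringMapOn p s) (hc : ContinuousOn c (Inj k))
    (hcs : ∀ x ∈ Inj k, c x ∈ s) (hsym : ∀ x ∈ Inj k, ∀ σ : Equiv.Perm (Fin k), c (x ∘ σ) = c x)
    {S : Set E}
    (htw : ∀ m : ℕ, m + 1 < k → ∀ y : ℝ → E, Continuous y → (∀ t, p (y t) = c (tw k m t)) →
      (y 0 ∈ S ↔ y 1 ∈ S)) {x : Fin k → ℂ} (hx : x ∈ Clex k) {ε : ℝ} (hε : 0 < ε) (h : ∀ i j,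
    ((x i).re < (x j).re → 2 * ε ≤ (x j).re - (x i).re) ∧
    ((x i).im < (x j).im → 2 * ε ≤ (x j).im - (x i).im)) {g : (Fin k → ℂ) → E}
    (hg : ContinuousOn g (Bx x ε)) (hpg : ∀ z ∈ Bx x ε, p (g z) = c z) :
    ∀ (N : ℕ) (b : Fin k → ℂ) (τ : Equiv.Perm (Fin k)), b ∈ Bx x ε → b ∘ τ ∈ Cst k →
      (∑ _i : Fin k, k * k) - meas τ = N → (Good p c S b (g b) ↔ Good p c S x (g x)) := by
  intro N
  induction N using Nat.strong_induction_on with
  | _ N ih =>
    intro b τ hb hbτ hN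
    by_cases hd : ∀ m (hm : m + 1 < k), τ ⟨m, by omega⟩ < τ ⟨m + 1, hm⟩
    · have hτ := perm_eq_one_of_no_descent hd
      subst hτ
      refine Good.cell_iff hp hc hcs hsym (τ := 1) (Cst_sub hbτ) hx ?_
      exact SL.of_lift hg hpg (Bx_seg hb (self_mem_Bx x hε))
    · push Not at hd
      obtain ⟨m, hm, hd⟩ := hd
      set i0 : Fin k := ⟨m, by omega⟩ with hi0
      set i1 : Fin k := ⟨m + 1, hm⟩ with hi1
      have hne : i0 ≠ i1 := by simp [hi0, hi1]
      have hd' : τ i1 < τ i0 := lt_of_le_of_ne hd fun h => hne (τ.injective h).symm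
      have hre : (b (τ i0)).re < (b (τ i1)).re := hbτ i0 i1 (by
        rw [Fin.lt_def]; simp only [hi0, hi1]; omega)
      have hlex := hx _ _ hd'
      have hlex' : (x (τ i1)).re = (x (τ i0)).re ∧ (x (τ i1)).im < (x (τ i0)).im := by
        rcases hlex with h1 | h1
        · exact absurd (Bx_re h hb h1) (not_lt.mpr hre.le)
        · exact h1
      have him := Bx_im h hb hlex'.2
      have hb' : exch (τ i0) (τ i1) b ∈ Bx x ε := exch_mem_Bx hb hlex'.1.symm
      have hw := Good.wall hp hc hcs hsym htw hm hbτ him (SL.of_lift hg hpg (Bx_seg hb hb'))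
      rw [hw]
      have hlt := meas_lt hm hd'
      have hle := meas_le (τ * Equiv.swap i0 i1)
      refine ih ((∑ _i : Fin k, k * k) - meas (τ * Equiv.swap i0 i1)) ?_ _ (τ * Equiv.swap i0 i1)
        hb' ?_ rfl
      · rw [← hN]
        have hlt' : meas τ < meas (τ * Equiv.swap i0 i1) := hlt
        omega
      · have e1 : exch (τ i0) (τ i1) b ∘ (τ * Equiv.swap i0 i1 : Equiv.Perm (Fin k)) =
            exch i0 i1 (b ∘ τ) ∘ Equiv.swap i0 i1 := by
          rw [← exch_comp i0 i1 b τ]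
          rfl
        rw [e1]
        exact exch_swap_Cst hm hbτ

lemma local_lex (hp : IsCoveringMapOn p s) (hc : ContinuousOn c (Inj k))
    (hcs : ∀ x ∈ Inj k, c x ∈ s) (hsym : ∀ x ∈ Inj k, ∀ σ : Equiv.Perm (Fin k), c (x ∘ σ) = c x)
    {S : Set E}
    (htw : ∀ m : ℕ, m + 1 < k → ∀ y : ℝ → E, Continuous y → (∀ t, p (y t) = c (tw k m t)) →
      (y 0 ∈ S ↔ y 1 ∈ S)) {x : Fin k → ℂ} (hx : x ∈ Clex k) {ε : ℝ} (hε : 0 < ε) (h : ∀ i j,
    ((x i).re < (x j).re → 2 * ε ≤ (x j).re - (x i).re) ∧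
    ((x i).im < (x j).im → 2 * ε ≤ (x j).im - (x i).im)) {g : (Fin k → ℂ) → E}
    (hg : ContinuousOn g (Bx x ε)) (hpg : ∀ z ∈ Bx x ε, p (g z) = c z) {b : Fin k → ℂ}
    (hb : b ∈ Bx x ε) : Good p c S b (g b) ↔ Good p c S x (g x) := by
  obtain ⟨τ, hτ⟩ := exists_sort (Bx_sub h (Clex_sub hx) hb)
  -- perturb
  obtain ⟨δ, hδ, hδb⟩ : ∃ δ : ℝ, 0 < δ ∧
      (fun i => b i + ((δ * ((τ⁻¹ i : Fin k) : ℕ) : ℝ) : ℂ)) ∈ Bx x ε := by
    have hcont : Continuous fun δ : ℝ =>
        (fun i : Fin k => b i + ((δ * ((τ⁻¹ i : Fin k) : ℕ) : ℝ) : ℂ)) := by fun_prop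
    have h1 : ∀ᶠ δ : ℝ in 𝓝 0,
        (fun i : Fin k => b i + ((δ * ((τ⁻¹ i : Fin k) : ℕ) : ℝ) : ℂ)) ∈ Bx x ε := by
      apply hcont.continuousAt.eventually_mem
      apply (Bx_open x ε).mem_nhds
      simpa using hb
    obtain ⟨δ, h2, h3⟩ := ((h1.filter_mono nhdsWithin_le_nhds).and
      (self_mem_nhdsWithin (s := Set.Ioi (0:ℝ)))).exists
    exact ⟨δ, h3, h2⟩
  set b' : Fin k → ℂ := fun i => b i + ((δ * ((τ⁻¹ i : Fin k) : ℕ) : ℝ) : ℂ) with hb'
  have hgen : b' ∘ τ ∈ Cst k := by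
    intro i j hij
    have h1 : (b (τ i)).re ≤ (b (τ j)).re := by
      rcases hτ i j hij with h1 | h1
      · exact h1.le
      · exact h1.1.le
    have h2 : ((i : ℕ) : ℝ) < ((j : ℕ) : ℝ) := by exact_mod_cast hij
    have h3 := mul_lt_mul_of_pos_left h2 hδ
    have e1 : ∀ l, τ⁻¹ (τ l) = l := fun l => by simp
    simp only [hb', Function.comp_apply, e1, Complex.add_re, Complex.ofReal_re]
    linarith
  rw [Good.cell_iff hp hc hcs hsym hτ (Cst_sub hgen) (SL.of_lift hg hpg (Bx_seg hb hδb))]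
  exact local_gen hp hc hcs hsym htw hx hε h hg hpg _ b' τ hδb hgen rfl

/-- local constancy of `Good` on sheets -/
lemma local_const (hp : IsCoveringMapOn p s) (hc : ContinuousOn c (Inj k))
    (hcs : ∀ x ∈ Inj k, c x ∈ s) (hsym : ∀ x ∈ Inj k, ∀ σ : Equiv.Perm (Fin k), c (x ∘ σ) = c x)
    {S : Set E}
    (htw : ∀ m : ℕ, m + 1 < k → ∀ y : ℝ → E, Continuous y → (∀ t, p (y t) = c (tw k m t)) →
      (y 0 ∈ S ↔ y 1 ∈ S)) {x : Fin k → ℂ} (hx : x ∈ Inj k) :
    ∃ ε : ℝ, 0 < ε ∧ Bx x ε ⊆ Inj k ∧ ∀ g : (Fin k → ℂ) → E, ContinuousOn g (Bx x ε) →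
      (∀ z ∈ Bx x ε, p (g z) = c z) → ∀ b ∈ Bx x ε,
        (Good p c S b (g b) ↔ Good p c S x (g x)) := by
  obtain ⟨ρ, hρ⟩ := exists_sort hx
  obtain ⟨ε, hε, h⟩ := exists_eps x
  refine ⟨ε, hε, fun z hz => Bx_sub h hx hz, fun g hg hpg b hb => ?_⟩
  have h' : ∀ i j, (((x ∘ ρ) i).re < ((x ∘ ρ) j).re →
      2 * ε ≤ ((x ∘ ρ) j).re - ((x ∘ ρ) i).re) ∧
    (((x ∘ ρ) i).im < ((x ∘ ρ) j).im → 2 * ε ≤ ((x ∘ ρ) j).im - ((x ∘ ρ) i).im) :=
    fun i j => h (ρ i) (ρ j)
  have hmem : ∀ z : Fin k → ℂ, z ∈ Bx (x ∘ ρ) ε → z ∘ ⇑(ρ⁻¹) ∈ Bx x ε := by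
    intro z hz i
    have := hz (ρ⁻¹ i)
    simpa using this
  have hmem' : ∀ z : Fin k → ℂ, z ∈ Bx x ε → z ∘ ⇑ρ ∈ Bx (x ∘ ρ) ε := fun z hz i => hz (ρ i)
  have hback : ∀ z : Fin k → ℂ, (z ∘ ⇑ρ) ∘ ⇑(ρ⁻¹) = z := by
    intro z; funext i; simp
  have hcont : Continuous fun z : Fin k → ℂ => z ∘ ⇑(ρ⁻¹) :=
    continuous_pi fun i => continuous_apply _
  have key := local_lex hp hc hcs hsym htw hρ hε h' (g := fun z => g (z ∘ ⇑(ρ⁻¹)))
    (hg.comp hcont.continuousOn fun z hz => hmem z hz)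
    (fun z hz => by
      rw [hpg _ (hmem z hz)]
      have hz' : z ∘ ⇑(ρ⁻¹) ∈ Inj k := Bx_sub h hx (hmem z hz)
      rw [← hsym _ hz' ρ]
      congr 1
      funext i
      simp) (hmem' b hb)
  simp only [hback, Good.comp_iff] at key
  exact key

end GoodSec

end GlueAux

open GlueAux in
theorem glue {k : ℕ} {E B : Type*} [TopologicalSpace E] [TopologicalSpace B] {p : E → B} {s : Set B}
    (hp : IsCoveringMapOn p s) {c : (Fin k → ℂ) → B} (hc : ContinuousOn c (Inj k))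
    (hcs : ∀ x ∈ Inj k, c x ∈ s)
    (hsym : ∀ x ∈ Inj k, ∀ σ : Equiv.Perm (Fin k), c (x ∘ σ) = c x)
    {S : Set E} (hS : ∀ e ∈ S, p e = c (x0 k))
    (htw : ∀ m : ℕ, m + 1 < k → ∀ y : ℝ → E, Continuous y → (∀ t, p (y t) = c (tw k m t)) →
      (y 0 ∈ S ↔ y 1 ∈ S))
    {x : ℝ → Fin k → ℂ} (hx : Continuous x) (hxi : ∀ t, x t ∈ Inj k) (h0 : x 0 = x0 k)
    {σ : Equiv.Perm (Fin k)} (h1 : x 1 = x0 k ∘ σ)
    {y : ℝ → E} (hy : Continuous y) (hpy : ∀ t, p (y t) = c (x t)) (hy0 : y 0 ∈ S) : y 1 ∈ S := by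
  -- local constancy along the path
  have hloc : IsLocallyConstant fun t : ℝ => Good p c S (x t) (y t) := by
    rw [IsLocallyConstant.iff_eventually_eq]
    intro t₀
    obtain ⟨ε, hε, hsub, hloc⟩ := local_const hp hc hcs hsym htw (hxi t₀)
    obtain ⟨g, hg, hpg, hg0⟩ := glue_existsOn hp (Bx_open (x t₀) ε) (self_mem_Bx _ hε)
      (Bx_star _ hε) (hc.mono hsub) (fun z hz => hcs z (hsub hz)) (self_mem_Bx _ hε)
      (e₀ := y t₀) (hpy t₀)
    have hnh : x ⁻¹' (Bx (x t₀) ε) ∈ 𝓝 t₀ :=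
      hx.continuousAt ((Bx_open _ _).mem_nhds (self_mem_Bx _ hε))
    obtain ⟨δ, hδ, hball⟩ := Metric.mem_nhds_iff.mp hnh
    filter_upwards [Metric.ball_mem_nhds t₀ hδ] with t ht
    have hyg : y t = g (x t) := by
      refine glue_uniqueOn (D := Metric.ball t₀ δ) (convex_ball t₀ δ).isPreconnected hp
        hy.continuousOn (hg.comp hx.continuousOn fun r hr => hball hr) (fun r _ => ?_)
        (fun r hr => ?_) (Metric.mem_ball_self hδ) hg0.symm ht
      · rw [hpy]; exact hcs _ (hxi r)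
      · rw [hpy, Function.comp_apply, hpg _ (hball hr)]
    have := hloc g hg hpg (x t) (hball ht)
    rw [← hyg, hg0] at this
    exact propext this
  have hstart : Good p c S (x 0) (y 0) := by
    rw [h0]
    refine ⟨1, Cst_sub (x0_Cst k), y 0, hy0, ?_⟩
    exact SL.refl (by rw [hpy, h0])
  have hend : Good p c S (x 1) (y 1) := by
    have := hloc.apply_eq_of_preconnectedSpace 1 0
    rw [this]
    exact hstart
  rw [h1, Good.comp_iff] at hend
  obtain ⟨τ, hτ, e, he, hSL⟩ := hend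
  have h2 : τ = 1 := sort_unique hτ (τ' := 1) (Cst_sub (x0_Cst k))
  subst h2
  have h3 : SL p c (x0 k) (x0 k) e (y 1) := hSL
  have h4 : SL p c (x0 k) (x0 k) e e := SL.refl (hS e he)
  have h5 := SL.unique hp hcs (fun t => by rw [seg_self]; exact Clex_sub (Cst_sub (x0_Cst k))) h3 h4
  rw [h5]
  exact he

end MP2d36f7
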