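import Pool.Agent.Lib_MP_2d36f7_ag.Lift
import Pool.Agent.Lib_MP_2d36f7_ag.Wind
import Pool.Agent.Lib_MP_2d36f7_ag.Coef
import Pool.Agent.Lib_MP_2d36f7_ag.Picard

/-! # Scaling a configuration scales the roots -/

open Polynomial Complex Set Filter Topology

namespace MP2d36f7

variable {k n : ℕ}

theorem Scal_mem {x : Fin k → ℂ} (hx : x ∈ Inj k) {c : ℂ} (hc : c ≠ 0) : c • x ∈ Inj k := by
  intro i j hij
  exact hx (mul_left_cancel₀ hc hij)

theorem scal (hn : 3 ≤ n) (d : Dat k n) {x : Fin k → ℂ} (hx : x ∈ Inj k) {l : ℂ → Fin n → ℂ}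
    (hl : IsLift d (fun z => exp z • x) l) :
    ∃ χ : ℂ → ℂ, Continuous χ ∧ (∀ z, χ z ≠ 0) ∧ ∀ z, l z = χ z • l 0 := by
  have hxi : ∀ z : ℂ, exp z • x ∈ Inj k := fun z => Scal_mem hx (exp_ne_zero z)
  have hinj : ∀ z : ℂ, l z ∈ Inj n := fun z => lift_inj d (hxi z) (hl.eq z)
  have hhol : DifferentiableOn ℂ l univ := by
    refine liftOn_holo d isOpen_univ (x := fun z : ℂ => exp z • x) ?_ (fun y _ => hxi y)
      ⟨hl.cont.continuousOn, fun y _ => hl.eq y⟩
    exact (Complex.differentiable_exp.smul_const x).differentiableOn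
  have hcoord : ∀ i : Fin n, Differentiable ℂ (fun z => l z i) := by
    intro i
    exact differentiableOn_univ.mp (differentiableOn_pi.mp hhol i)
  have hden : ∀ z : ℂ, ∀ i j : Fin n, i ≠ j → l z i - l z j ≠ 0 := by
    intro z i j hij h0
    exact hij (hinj z (sub_eq_zero.mp h0))
  set i0 : Fin n := ⟨0, by omega⟩ with hi0
  set i1 : Fin n := ⟨1, by omega⟩ with hi1
  have h10 : i1 ≠ i0 := by
    intro h
    have := congrArg Fin.val h
    simp [hi0, hi1] at this
  have hconst : ∀ p : Fin n, p ≠ i0 → p ≠ i1 → ∀ z : ℂ, R (l z) p i0 i1 = R (l 0) p i0 i1 := by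
    intro p hp0 hp1 z
    refine picard_entire (f := fun z => R (l z) p i0 i1) ?_ ?_ ?_ z 0
    · unfold R
      exact ((hcoord p).sub (hcoord i0)).div ((hcoord i1).sub (hcoord i0))
        (fun z => hden z i1 i0 h10)
    · intro z
      unfold R
      exact div_ne_zero (hden z p i0 hp0) (hden z i1 i0 h10)
    · intro z h
      unfold R at h
      rw [div_eq_one_iff_eq (hden z i1 i0 h10)] at h
      exact hden z p i1 hp1 (by linear_combination h)
  have hd0 := hden 0 i1 i0 h10
  refine ⟨fun z => (l z i1 - l z i0) / (l 0 i1 - l 0 i0), ?_, ?_, ?_⟩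
  · exact (((continuous_apply i1).comp hl.cont).sub ((continuous_apply i0).comp hl.cont)).div_const _
  · intro z
    exact div_ne_zero (hden z i1 i0 h10) hd0
  · intro z
    set χ := (l z i1 - l z i0) / (l 0 i1 - l 0 i0) with hχ
    have hdiff : ∀ p : Fin n, l z p - l z i0 = χ * (l 0 p - l 0 i0) := by
      intro p
      by_cases hp0 : p = i0
      · rw [hp0]; ring
      · by_cases hp1 : p = i1
        · rw [hp1, hχ]
          field_simp
        · have h := hconst p hp0 hp1 z
          unfold R at h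
          rw [div_eq_div_iff (hden z i1 i0 h10) hd0] at h
          rw [hχ, div_mul_eq_mul_div, eq_div_iff hd0]
          linear_combination h
    have hs1 : ∑ i, l z i = 0 := d.sum0 _ (hxi z) _ (hl.eq z)
    have hs0 : ∑ i, l 0 i = 0 := d.sum0 _ (hxi 0) _ (hl.eq 0)
    have hsum : ∑ p : Fin n, (l z p - l z i0) = ∑ p : Fin n, χ * (l 0 p - l 0 i0) :=
      Finset.sum_congr rfl fun p _ => hdiff p
    rw [← Finset.mul_sum, Finset.sum_sub_distrib, Finset.sum_sub_distrib, hs1, hs0,
      Finset.sum_const, Finset.sum_const, Finset.card_univ, Fintype.card_fin, nsmul_eq_mul,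
      nsmul_eq_mul] at hsum
    have hnn : (n : ℂ) ≠ 0 := by
      have : n ≠ 0 := by omega
      exact_mod_cast this
    have hbase : l z i0 = χ * l 0 i0 := by
      apply mul_left_cancel₀ hnn
      linear_combination -hsum
    funext p
    have := hdiff p
    rw [Pi.smul_apply, smul_eq_mul]
    linear_combination this + hbase

/-- pointwise form: roots of `F (c x)` are a multiple of the roots of `F x` -/
theorem scal_point (hn : 3 ≤ n) (d : Dat k n) {x : Fin k → ℂ} (hx : x ∈ Inj k) {c : ℂ} (hc : c ≠ 0) :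
    ∃ χ : ℂ, χ ≠ 0 ∧ ∀ l : Fin n → ℂ, coef l = d.F x → coef (χ • l) = d.F (c • x) := by
  obtain ⟨l₀, -, h₀⟩ := d.reg x hx
  have hcx : Continuous (fun z : ℂ => exp z • x) := by fun_prop
  have h₀' : coef l₀ = d.F (exp (0 : ℂ) • x) := by rw [exp_zero, one_smul]; exact h₀
  obtain ⟨l, hl, hl0⟩ := exists_lift d hcx (fun z => Scal_mem hx (exp_ne_zero z)) 0 h₀'
  obtain ⟨χ, -, hχ0, hχ⟩ := scal hn d hx hl
  refine ⟨χ (log c), hχ0 _, ?_⟩
  intro l' hl'
  obtain ⟨σ, hσ⟩ := exists_perm_of_coef_eq (h₀.trans hl'.symm)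
  have e1 : χ (log c) • l' = (χ (log c) • l₀) ∘ σ := by
    rw [hσ]
    rfl
  rw [e1, coef_perm, ← hl0, ← hχ, hl.eq, exp_log hc]

end MP2d36f7
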