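import Pool.Agent.Lib_MP_2d36f7_ag.LogLemma
import Pool.Agent.Lib_MP_2d36f7_ag.Lift
import Pool.Agent.Lib_MP_2d36f7_ag.Loops
import Pool.Agent.Lib_MP_2d36f7_ag.Scal

/-!
MP_2d36f7_ag, piece LemmaW.
-/

open Polynomial Complex Set Filter Topology

namespace MP2d36f7

variable {k n : ℕ}

namespace LemW

/-- the product of the powers of the differences -/
noncomputable def Th (e : Fin n → Fin n → ℤ) (l : Fin n → ℂ) : ℂ :=
  ∏ p, ∏ q, if p ≠ q then (l p - l q) ^ e p q else 1

theorem sub_ne {l : Fin n → ℂ} (hl : l ∈ Inj n) {p q : Fin n} (h : p ≠ q) : l p - l q ≠ 0 :=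
  sub_ne_zero.2 (fun h' => h (hl h'))

theorem Th_ne (e : Fin n → Fin n → ℤ) {l : Fin n → ℂ} (hl : l ∈ Inj n) : Th e l ≠ 0 := by
  unfold Th
  refine Finset.prod_ne_zero_iff.2 fun p _ => Finset.prod_ne_zero_iff.2 fun q _ => ?_
  split_ifs with h
  · exact zpow_ne_zero _ (sub_ne hl h)
  · exact one_ne_zero

theorem Th_perm {e : Fin n → Fin n → ℤ} (l : Fin n → ℂ) {σ : Equiv.Perm (Fin n)}
    (hσ : ∀ p q, p ≠ q → e (σ p) (σ q) = e p q) : Th e (l ∘ σ) = Th e l := by
  unfold Th
  rw [← Equiv.prod_comp σ (fun p => ∏ q, if p ≠ q then (l p - l q) ^ e p q else 1)]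
  refine Finset.prod_congr rfl fun p _ => ?_
  rw [← Equiv.prod_comp σ (fun q => if σ p ≠ q then (l (σ p) - l q) ^ e (σ p) q else 1)]
  refine Finset.prod_congr rfl fun q _ => ?_
  by_cases h : p = q
  · subst h
    simp
  · rw [if_pos h, if_pos (fun h' => h (σ.injective h')), hσ p q h]
    rfl

theorem zpow_fsum {ι : Type*} {c : ℂ} (hc : c ≠ 0) (s : Finset ι) (f : ι → ℤ) :
    ∏ i ∈ s, c ^ f i = c ^ ∑ i ∈ s, f i := by
  classical
  induction s using Finset.induction_on with
  | empty => simp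
  | insert a s ha ih => rw [Finset.prod_insert ha, Finset.sum_insert ha, ih, zpow_add₀ hc]

theorem Th_smul {e : Fin n → Fin n → ℤ} (l : Fin n → ℂ) {c : ℂ} (hc : c ≠ 0)
    (hsum : ∑ p, ∑ q, (if p ≠ q then e p q else 0) = 0) : Th e (c • l) = Th e l := by
  have h1 : Th e (c • l) = c ^ (∑ p, ∑ q, (if p ≠ q then e p q else 0)) * Th e l := by
    unfold Th
    rw [← zpow_fsum hc, ← Finset.prod_mul_distrib]
    refine Finset.prod_congr rfl fun p _ => ?_
    rw [← zpow_fsum hc, ← Finset.prod_mul_distrib]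
    refine Finset.prod_congr rfl fun q _ => ?_
    split_ifs with h
    · rw [Pi.smul_apply, Pi.smul_apply, smul_eq_mul, smul_eq_mul, ← mul_sub, mul_zpow]
    · simp
  rw [h1, hsum, zpow_zero, one_mul]

theorem Th_continuousOn (e : Fin n → Fin n → ℤ) : ContinuousOn (Th e) (Inj n) := by
  unfold Th
  refine continuousOn_finsetProd _ fun p _ => continuousOn_finsetProd _ fun q _ => ?_
  split_ifs with h
  · refine ContinuousOn.zpow₀ (by fun_prop) _ (fun l hl => Or.inl (sub_ne hl h))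
  · exact continuousOn_const

theorem sum_split {M : Type*} [AddCommMonoid M] (f : Fin n → Fin n → M)
    (hf : ∀ p q, f p q = f q p) :
    ∑ p, ∑ q, (if p ≠ q then f p q else 0) =
      ∑ p, ∑ q, (if p < q then f p q else 0) + ∑ p, ∑ q, (if p < q then f p q else 0) := by
  have h1 : ∑ p, ∑ q, (if p ≠ q then f p q else 0) =
      ∑ p, ∑ q, ((if p < q then f p q else 0) + (if q < p then f q p else 0)) := by
    refine Finset.sum_congr rfl fun p _ => Finset.sum_congr rfl fun q _ => ?_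
    rcases lt_trichotomy p q with h | h | h
    · rw [if_pos h.ne, if_pos h, if_neg (not_lt.2 h.le), add_zero]
    · subst h; simp
    · rw [if_pos h.ne', if_neg (not_lt.2 h.le), if_pos h, zero_add, hf]
  rw [h1]
  simp only [Finset.sum_add_distrib]
  congr 1
  exact Finset.sum_comm

theorem rot_nat (k j : ℕ) (N : ℕ) : rot k j (N : ℝ) = rot k j 0 := by
  induction N with
  | zero => simp
  | succ N ih => rw [Nat.cast_succ, rot_add_one, ih]

theorem smul_mem_Inj {x : Fin k → ℂ} (hx : x ∈ Inj k) {c : ℂ} (hc : c ≠ 0) : c • x ∈ Inj k := by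
  intro a b hab
  exact hx (mul_left_cancel₀ hc hab)

end LemW

open LogL LemW in
theorem lemmaW (hn : 3 ≤ n) (hk : 2 ≤ k) (d : Dat k n) {l₀ : Fin n → ℂ} (h₀ : coef l₀ = d.F (x0 k))
    {π : ℕ → Equiv.Perm (Fin n)}
    (hπ : ∀ m, m + 1 < k → ∀ l : ℝ → Fin n → ℂ, IsLift d (tw k m) l → l 0 = l₀ → l 1 = l₀ ∘ π m)
    (e : Fin n → Fin n → ℤ) (hes : ∀ p q, e p q = e q p)
    (he : ∀ m, m + 1 < k → ∀ p q, p ≠ q → e (π m p) (π m q) = e p q)
    (hsum : ∑ p, ∑ q, (if p < q then e p q else 0) = 0)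
    {j : ℕ} (hj : 2 ≤ j) (hjk : j ≤ k) {r : ℝ → Fin n → ℂ} (hr : IsLift d (rot k j) r)
    (hr0 : r 0 = l₀) :
    ∑ p, ∑ q, (if p < q then (e p q : ℂ) * V r p q else 0) = 0 := by
  classical
  have hFc : ContinuousOn d.F (Inj k) := d.hol.continuousOn
  have hl₀ : l₀ ∈ Inj n := lift_inj d (x0_mem k) h₀
  have hcomp : ∀ {X Y : Type} [TopologicalSpace X] [TopologicalSpace Y] {m : ℕ}
      {f : (Fin m → ℂ) → Y} {g : X → Fin m → ℂ},
      ContinuousOn f (Inj m) → Continuous g → (∀ t, g t ∈ Inj m) → Continuous (fun t => f (g t)) := by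
    intro X Y _ _ m f g hf hg hgi
    rw [← continuousOn_univ] at hg ⊢
    exact hf.comp hg (fun t _ => hgi t)
  set Stab : Equiv.Perm (Fin n) → Prop := fun σ => ∀ p q, p ≠ q → e (σ p) (σ q) = e p q with hStab
  set S : Set (Fin n → ℂ) := {l | ∃ σ : Equiv.Perm (Fin n), Stab σ ∧ l = l₀ ∘ σ} with hS
  have hinjσ : ∀ {σ τ : Equiv.Perm (Fin n)}, l₀ ∘ σ = l₀ ∘ τ → σ = τ := by
    intro σ τ h
    ext p
    have := congrFun h p
    exact congrArg Fin.val (hl₀ this)
  have hglue : ∀ {x : ℝ → Fin k → ℂ}, Continuous x → (∀ t, x t ∈ Inj k) → x 0 = x0 k →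
      ∀ {σ : Equiv.Perm (Fin k)}, x 1 = x0 k ∘ σ → ∀ {y : ℝ → Fin n → ℂ}, Continuous y →
      (∀ t, coef (y t) = d.F (x t)) → y 0 ∈ S → y 1 ∈ S := by
    intro x hx hxi hx0 σ hx1 y hy hpy hy0
    refine glue (coef_isCoveringMapOn n) hFc (fun x hx => ?_) d.symm (S := S) ?_ ?_
      hx hxi hx0 hx1 hy hpy hy0
    · obtain ⟨l, hl, hl2⟩ := d.reg x hx
      exact ⟨l, hl, hl2⟩
    · rintro l ⟨σ, _, rfl⟩
      rw [coef_perm, h₀]
    · intro m hm y hy hpy
      have key : ∀ σ : Equiv.Perm (Fin n), y 0 = l₀ ∘ σ → y 1 = l₀ ∘ (π m * σ : Equiv.Perm (Fin n)) := by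
        intro σ h0
        have hl : IsLift d (tw k m) (fun t => y t ∘ σ.symm) := by
          refine ⟨?_, fun t => ?_⟩
          · refine continuous_pi fun i => ?_
            exact (continuous_apply (σ.symm i)).comp hy
          · show coef (y t ∘ σ.symm) = _
            rw [coef_perm, hpy]
        have h1 := hπ m hm _ hl (by
          show y 0 ∘ σ.symm = l₀
          rw [h0]
          funext i
          simp)
        have h2 : y 1 ∘ σ.symm = l₀ ∘ π m := h1
        funext i
        have h3 := congrFun h2 (σ i)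
        simp only [Function.comp_apply, Equiv.symm_apply_apply] at h3
        rw [h3]
        rfl
      constructor
      · rintro ⟨σ, hσ, h0⟩
        refine ⟨π m * σ, fun p q hpq => ?_, key σ h0⟩
        show e (π m (σ p)) (π m (σ q)) = e p q
        rw [he m hm _ _ (fun h => hpq (σ.injective h)), hσ p q hpq]
      · rintro ⟨τ, hτ, h1⟩
        obtain ⟨σ, hσ⟩ := exists_perm_of_coef_eq (x := l₀) (y := y 0) (by
          rw [hpy, tw_zero, h₀])
        have h2 := key σ hσ
        rw [h1] at h2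
        have h3 := hinjσ h2
        refine ⟨σ, fun p q hpq => ?_, hσ⟩
        rw [← he m hm _ _ (fun h => hpq (σ.injective h)), ← hτ p q hpq, h3]
        rfl
  -- the choice of paths and lifts
  have hex : ∀ x : Fin k → ℂ, ∃ (γ : ℝ → Fin k → ℂ) (y : ℝ → Fin n → ℂ), x ∈ Inj k →
      (Continuous γ ∧ (∀ t, γ t ∈ Inj k) ∧ γ 0 = x0 k ∧ γ 1 = x ∧ Continuous y ∧
        (∀ t, coef (y t) = d.F (γ t)) ∧ y 0 = l₀) := by
    intro x
    by_cases hx : x ∈ Inj k
    · obtain ⟨γ, h1, h2, h3, h4⟩ := exists_path_Inj (x0_mem k) hx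
      obtain ⟨y, h5, h6⟩ := exists_lift d h1 h2 0 (l₀ := l₀) (by rw [h3, h₀])
      exact ⟨γ, y, fun _ => ⟨h1, h2, h3, h4, h5.cont, h5.eq, h6⟩⟩
    · exact ⟨fun _ => 0, fun _ => 0, fun h => absurd h hx⟩
  choose Γ Y hΓ using hex
  set g : (Fin k → ℂ) → ℂ := fun x => Th e (Y x 1) with hg
  have huniq : ∀ {x : Fin k → ℂ}, x ∈ Inj k → ∀ {σ : Equiv.Perm (Fin k)} {γ : ℝ → Fin k → ℂ}
      {y : ℝ → Fin n → ℂ}, Continuous γ → (∀ t, γ t ∈ Inj k) → γ 0 = x0 k → γ 1 = x ∘ σ →
      Continuous y → (∀ t, coef (y t) = d.F (γ t)) → y 0 = l₀ → Th e (y 1) = g x := by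
    intro x hx σ γ y h1 h2 h3 h4 h5 h6 h7
    obtain ⟨a1, a2, a3, a4, a5, a6, a7⟩ := hΓ x hx
    obtain ⟨τ, hτ⟩ := exists_perm_of_coef_eq (x := Y x 1) (y := y 1) (by
      rw [h6, a6, h4, a4, d.symm x hx])
    have h8 := hglue (x := cat γ (fun t => Γ x (1 - t) ∘ σ)) (σ := σ)
      (y := cat y (fun t => Y x (1 - t) ∘ τ))
      (continuous_cat h1 (by
        refine continuous_pi fun i => ?_
        have h9 : Continuous (fun t : ℝ => Γ x t (σ i)) := (continuous_apply (σ i)).comp a1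
        simp only [Function.comp_apply]
        exact h9.comp (by fun_prop)) (by rw [h4, sub_zero, a4]))
      (cat_all h2 (fun t => comp_mem_Inj (a2 _) σ))
      (by rw [cat_zero, h3]) (by rw [cat_one, sub_self, a3])
      (continuous_cat h5 (by
        refine continuous_pi fun i => ?_
        have h9 : Continuous (fun t : ℝ => Y x t (τ i)) := (continuous_apply (τ i)).comp a5
        simp only [Function.comp_apply]
        exact h9.comp (by fun_prop)) (by rw [sub_zero, hτ]))
      (cat_rel (Q := fun l x => coef l = d.F x) h6 (fun t => by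
        rw [coef_perm, a6, d.symm _ (a2 _)]))
      (by rw [cat_zero, h7]; exact ⟨1, fun p q _ => rfl, rfl⟩)
    rw [cat_one, sub_self, a7] at h8
    obtain ⟨τ', hτ', h9⟩ := h8
    have h10 := hinjσ h9
    rw [hτ, Th_perm _ (σ := τ) (by rw [h10]; exact hτ')]
  have hYinj : ∀ x ∈ Inj k, Y x 1 ∈ Inj n := by
    intro x hx
    obtain ⟨a1, a2, a3, a4, a5, a6, a7⟩ := hΓ x hx
    exact lift_inj d (a2 1) (a6 1)
  have hgc : ContinuousOn g (Inj k) := by
    intro x hx
    obtain ⟨ε, hε, hball⟩ := Metric.mem_nhds_iff.1 ((isOpen_Inj k).mem_nhds hx)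
    obtain ⟨a1, a2, a3, a4, a5, a6, a7⟩ := hΓ x hx
    obtain ⟨l, hl1, hl2⟩ := exists_liftOn d (S := Metric.ball x ε) Metric.isOpen_ball
      ((convex_ball x ε).starConvex (Metric.mem_ball_self hε)) (Metric.mem_ball_self hε)
      (x := fun y => y) continuousOn_id (fun y hy => hball hy)
      (Metric.mem_ball_self hε) (l₀ := Y x 1) (by rw [a6, a4])
    have hloc : ∀ y ∈ Metric.ball x ε, g y = Th e (l y) := by
      intro y hy
      have h8 := huniq (x := y) (hball hy) (σ := 1) (γ := cat (Γ x) (seg x y))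
        (y := cat (Y x) (fun t => l (seg x y t)))
        (continuous_cat a1 (continuous_seg x y) (by rw [a4, seg_zero]))
        (cat_all a2 (fun t => hball (seg_mem hy t)))
        (by rw [cat_zero, a3]) (by rw [cat_one, seg_one]; rfl)
        (continuous_cat a5 (by
          have h9 := continuous_seg x y
          rw [← continuousOn_univ] at h9 ⊢
          exact hl1.cont.comp h9 (fun t _ => seg_mem hy t)) (by rw [seg_zero, hl2]))
        (cat_rel (Q := fun l x => coef l = d.F x) a6 (fun t => hl1.eq _ (seg_mem hy t)))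
        (by rw [cat_zero, a7])
      rw [cat_one, seg_one] at h8
      exact h8.symm
    have h9 : ContinuousOn (fun y => Th e (l y)) (Metric.ball x ε) :=
      (Th_continuousOn e).comp hl1.cont (fun y hy => lift_inj d (hball hy) (hl1.eq y hy))
    have h10 := h9.continuousAt (Metric.ball_mem_nhds x hε)
    refine (h10.congr ?_).continuousWithinAt
    filter_upwards [Metric.ball_mem_nhds x hε] with y hy
    exact (hloc y hy).symm
  have hgs : ∀ x ∈ Inj k, ∀ σ : Equiv.Perm (Fin k), g (x ∘ σ) = g x := by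
    intro x hx σ
    obtain ⟨a1, a2, a3, a4, a5, a6, a7⟩ := hΓ (x ∘ σ) (comp_mem_Inj hx σ)
    exact huniq hx a1 a2 a3 a4 a5 a6 a7
  obtain ⟨j', G, hGc, hGs, hG⟩ := log_lemma hk hgc (fun x hx => Th_ne e (hYinj x hx)) hgs
  have hpi : (2 * Real.pi * I : ℂ) ≠ 0 := by simp [Real.pi_ne_zero]
  -- the exponent vanishes
  have hsum2 : ∑ p, ∑ q, (if p ≠ q then e p q else 0) = 0 := by
    rw [sum_split e hes, hsum, add_zero]
  have hj' : j' = 0 := by
    obtain ⟨l, hl, hl0⟩ := exists_lift d (E := ℂ) (x := fun z => exp z • x0 k)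
      (by fun_prop) (fun z => smul_mem_Inj (x0_mem k) (exp_ne_zero z)) 0 (l₀ := l₀)
      (by rw [exp_zero, one_smul, h₀])
    obtain ⟨χ, hχc, hχ0, hχ⟩ := scal hn d (x0_mem k) hl
    have h1 : ∀ t, g (rot k k t) = Th e l₀ := by
      intro t
      have h2 := huniq (x := rot k k t) (rot_mem k k t) (σ := 1) (γ := fun s => rot k k (s * t))
        (y := fun s => l (2 * Real.pi * I * ((s * t : ℝ) : ℂ)))
        ((continuous_rot k k).comp (by fun_prop)) (fun s => rot_mem k k _)
        (by rw [zero_mul, rot_zero]) (by rw [one_mul]; rfl)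
        (hl.cont.comp (by fun_prop)) (fun s => by rw [hl.eq, rot_self]) (by
          rw [zero_mul, Complex.ofReal_zero, mul_zero, hl0])
      rw [← h2, hχ, Th_smul _ (hχ0 _) hsum2, hl0]
    have h2 : wnd (fun t => g (rot k k t)) 0 1 = 0 := by
      simp only [h1]
      exact wnd_const _ _ _
    have hdne : ∀ t, dsc (rot k k t) ≠ 0 := fun t => (dsc_ne_zero_iff _).2 (rot_mem k k t)
    have h3 : (fun t => g (rot k k t)) = fun t => dsc (rot k k t) ^ j' * exp (G (rot k k t)) := by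
      funext t; exact hG _ (rot_mem k k t)
    have hdc : Continuous (fun t => dsc (rot k k t)) := (continuous_dsc k).comp (continuous_rot k k)
    have hGr : Continuous (fun t => G (rot k k t)) :=
      hcomp hGc (continuous_rot k k) (fun t => rot_mem k k t)
    rw [h3, wnd_mul (u := fun t => dsc (rot k k t) ^ j') (v := fun t => exp (G (rot k k t)))
      (hdc.zpow₀ j' (fun t => Or.inl (hdne t))) hGr.cexp
      (fun t => zpow_ne_zero _ (hdne t)) (fun t => exp_ne_zero _), wnd_zpow hdc hdne,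
      wnd_dsc_rot_self, wnd_exp hGr] at h2
    have h4 : rot k k 1 = rot k k 0 := by
      have := rot_add_one k k 0
      rwa [zero_add] at this
    rw [h4, sub_self, zero_div, add_zero] at h2
    have hk1 : (k : ℂ) ≠ 0 := by exact_mod_cast (by omega : k ≠ 0)
    have hk2 : (k : ℂ) - 1 ≠ 0 := by
      rw [sub_ne_zero]
      exact_mod_cast (by omega : k ≠ 1)
    have h5 : (j' : ℂ) = 0 := by
      rcases mul_eq_zero.1 h2 with h | h
      · exact h
      · rcases mul_eq_zero.1 h with h | h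
        · exact absurd h hk1
        · exact absurd h hk2
    exact_mod_cast h5
  -- conclusion
  have hrg : ∀ t, Th e (r t) = exp (G (rot k j t)) := by
    intro t
    have h2 := huniq (x := rot k j t) (rot_mem k j t) (σ := 1) (γ := fun s => rot k j (s * t))
      (y := fun s => r (s * t))
      ((continuous_rot k j).comp (by fun_prop)) (fun s => rot_mem k j _)
      (by rw [zero_mul, rot_zero]) (by rw [one_mul]; rfl)
      (hr.cont.comp (by fun_prop)) (fun s => hr.eq _) (by rw [zero_mul, hr0])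
    rw [one_mul] at h2
    rw [h2, hG _ (rot_mem k j t), hj', zpow_zero, one_mul]
  have hGr : Continuous (fun t => G (rot k j t)) :=
    hcomp hGc (continuous_rot k j) (fun t => rot_mem k j t)
  have h1 : wnd (fun t => Th e (r t)) 0 (n.factorial : ℝ) = 0 := by
    simp only [hrg]
    rw [wnd_exp hGr, rot_nat, sub_self, zero_div]
  have hri : ∀ t, r t ∈ Inj n := fun t => lift_inj d (rot_mem k j t) (hr.eq t)
  have hrc : ∀ p q : Fin n, Continuous (fun t => r t p - r t q) := fun p q =>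
    ((continuous_apply p).comp hr.cont).sub ((continuous_apply q).comp hr.cont)
  have hfac : ∀ p q : Fin n, Continuous (fun t => if p ≠ q then (r t p - r t q) ^ e p q else 1) := by
    intro p q
    split_ifs with h
    · exact (hrc p q).zpow₀ _ (fun t => Or.inl (sub_ne (hri t) h))
    · exact continuous_const
  have hfac0 : ∀ (p q : Fin n) (t : ℝ), (if p ≠ q then (r t p - r t q) ^ e p q else 1) ≠ 0 := by
    intro p q t
    split_ifs with h
    · exact zpow_ne_zero _ (sub_ne (hri t) h)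
    · exact one_ne_zero
  have h2 : wnd (fun t => Th e (r t)) 0 (n.factorial : ℝ) =
      ∑ p, ∑ q, (if p ≠ q then (e p q : ℂ) * V r p q else 0) := by
    unfold Th
    rw [wnd_prod Finset.univ (u := fun p t => ∏ q, if p ≠ q then (r t p - r t q) ^ e p q else 1)
      (fun p _ => continuous_finsetProd _ fun q _ => hfac p q)
      (fun p _ t => Finset.prod_ne_zero_iff.2 fun q _ => hfac0 p q t)]
    refine Finset.sum_congr rfl fun p _ => ?_
    rw [wnd_prod Finset.univ (u := fun q t => if p ≠ q then (r t p - r t q) ^ e p q else 1)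
      (fun q _ => hfac p q) (fun q _ t => hfac0 p q t)]
    refine Finset.sum_congr rfl fun q _ => ?_
    by_cases h : p = q
    · simp only [h, ne_eq, not_true_eq_false, if_false]
      exact wnd_const _ _ _
    · simp only [ne_eq, h, not_false_eq_true, if_true]
      rw [wnd_zpow (hrc p q) (fun t => sub_ne (hri t) h)]
      rfl
  rw [h1, sum_split (fun p q => (e p q : ℂ) * V r p q) (fun p q => by
    rw [hes p q, V_symm d (fun t => rot_mem k j t) hr p q])] at h2
  have h3 : (2 : ℂ) * ∑ p, ∑ q, (if p < q then (e p q : ℂ) * V r p q else 0) = 0 := by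
    rw [two_mul]
    exact h2.symm
  rcases mul_eq_zero.1 h3 with h | h
  · norm_num at h
  · exact h

open LogL LemW in
/-- if the windings of `rot k j` are invariant under all half twists, then `rot k j` is trivial -/
theorem triv_of_invariant (hn : 3 ≤ n) (hk : 2 ≤ k) (d : Dat k n) {l₀ : Fin n → ℂ}
    (h₀ : coef l₀ = d.F (x0 k)) {π : ℕ → Equiv.Perm (Fin n)}
    (hπ : ∀ m, m + 1 < k → ∀ l : ℝ → Fin n → ℂ, IsLift d (tw k m) l → l 0 = l₀ → l 1 = l₀ ∘ π m)
    {j : ℕ} (hj : 2 ≤ j) (hjk : j ≤ k) {r : ℝ → Fin n → ℂ} (hr : IsLift d (rot k j) r)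
    (hr0 : r 0 = l₀)
    (hinv : ∀ m, m + 1 < k → ∀ p q, p ≠ q → V r (π m p) (π m q) = V r p q) :
    Triv d (rot k j) := by
  classical
  have hxi : ∀ t, rot k j t ∈ Inj k := fun t => rot_mem k j t
  have hex : ∀ p q : Fin n, ∃ m : ℤ, p ≠ q → V r p q = m := by
    intro p q
    by_cases h : p = q
    · exact ⟨0, fun h' => absurd h h'⟩
    · obtain ⟨m, hm⟩ := V_int d (continuous_rot k j) hxi (fun t => by rw [rot_add_one]) hr h
      exact ⟨m, fun _ => hm⟩
  choose v0 hv0 using hex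
  set v : Fin n → Fin n → ℤ := fun p q => if p = q then 0 else v0 p q with hvdef
  have hv : ∀ p q, p ≠ q → V r p q = v p q := by
    intro p q h
    simp only [hvdef, if_neg h]
    exact hv0 p q h
  have hvs : ∀ p q, v p q = v q p := by
    intro p q
    by_cases h : p = q
    · rw [h]
    · have h1 : (v p q : ℂ) = v q p := by
        rw [← hv p q h, ← hv q p (fun h' => h h'.symm), V_symm d hxi hr p q]
      exact_mod_cast h1
  set T : Finset (Fin n × Fin n) := Finset.univ.filter (fun x => x.1 < x.2) with hT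
  have hsumT : ∀ {M : Type} [AddCommMonoid M] (f : Fin n → Fin n → M),
      ∑ p, ∑ q, (if p < q then f p q else 0) = ∑ x ∈ T, f x.1 x.2 := by
    intro M _ f
    rw [hT, Finset.sum_filter, ← Finset.univ_product_univ, Finset.sum_product]
  set A : ℤ := ∑ x ∈ T, v x.1 x.2 with hA
  set Mn : ℤ := (T.card : ℤ) with hMn
  have h1 := lemmaW hn hk d h₀ hπ (fun p q => Mn * v p q - A) (fun p q => by rw [hvs])
    (fun m hm p q hpq => by
      have h2 : (v (π m p) (π m q) : ℂ) = v p q := by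
        rw [← hv _ _ (fun h => hpq ((π m).injective h)), ← hv p q hpq, hinv m hm p q hpq]
      have h3 : v (π m p) (π m q) = v p q := by exact_mod_cast h2
      rw [h3])
    (by
      rw [hsumT (fun p q => Mn * v p q - A), Finset.sum_sub_distrib, ← Finset.mul_sum,
        Finset.sum_const, nsmul_eq_mul]
      ring) hj hjk hr hr0
  rw [hsumT (fun p q => (((Mn * v p q - A : ℤ)) : ℂ) * V r p q)] at h1
  have h2 : ∑ x ∈ T, (Mn * v x.1 x.2 - A) * v x.1 x.2 = 0 := by
    have h3 : ∑ x ∈ T, (((Mn * v x.1 x.2 - A : ℤ)) : ℂ) * V r x.1 x.2 =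
        ((∑ x ∈ T, (Mn * v x.1 x.2 - A) * v x.1 x.2 : ℤ) : ℂ) := by
      push_cast
      refine Finset.sum_congr rfl fun x hx => ?_
      rw [hv x.1 x.2 (Finset.mem_filter.1 hx).2.ne]
    rw [h3] at h1
    exact_mod_cast h1
  have h3 : ∑ x ∈ T, ∑ y ∈ T, (v x.1 x.2 - v y.1 y.2) ^ 2 = 0 := by
    have h4 : ∑ x ∈ T, ∑ y ∈ T, (v x.1 x.2 - v y.1 y.2) ^ 2 =
        2 * (Mn * ∑ x ∈ T, v x.1 x.2 ^ 2 - A * A) := by
      have h5 : ∀ x ∈ T, ∑ y ∈ T, (v x.1 x.2 - v y.1 y.2) ^ 2 =
          Mn * v x.1 x.2 ^ 2 - 2 * v x.1 x.2 * A + ∑ y ∈ T, v y.1 y.2 ^ 2 := by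
        intro x _
        rw [hA, Finset.mul_sum, hMn]
        rw [show ((T.card : ℤ)) * v x.1 x.2 ^ 2 = ∑ y ∈ T, v x.1 x.2 ^ 2 by
          rw [Finset.sum_const, nsmul_eq_mul], ← Finset.sum_sub_distrib, ← Finset.sum_add_distrib]
        exact Finset.sum_congr rfl fun y _ => by ring
      rw [Finset.sum_congr rfl h5, Finset.sum_add_distrib, Finset.sum_sub_distrib,
        ← Finset.mul_sum, ← Finset.sum_mul, ← Finset.mul_sum, ← hA, Finset.sum_const, nsmul_eq_mul,
        ← hMn]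
      ring
    have h6 : ∑ x ∈ T, (Mn * v x.1 x.2 - A) * v x.1 x.2 = Mn * ∑ x ∈ T, v x.1 x.2 ^ 2 - A * A := by
      have h7 : A * A = ∑ x ∈ T, A * v x.1 x.2 := by rw [← Finset.mul_sum]
      rw [h7, Finset.mul_sum, ← Finset.sum_sub_distrib]
      exact Finset.sum_congr rfl fun y _ => by ring
    rw [h4, ← h6, h2, mul_zero]
  have h4 : ∀ x ∈ T, ∀ y ∈ T, v x.1 x.2 = v y.1 y.2 := by
    intro x hx y hy
    have h5 := (Finset.sum_eq_zero_iff_of_nonneg (fun x _ => Finset.sum_nonneg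
      fun y _ => sq_nonneg _)).1 h3 x hx
    have h6 := (Finset.sum_eq_zero_iff_of_nonneg (fun y _ => sq_nonneg _)).1 h5 y hy
    have h7 := pow_eq_zero_iff (two_ne_zero) |>.1 h6
    linarith
  refine triv_of_lift d hxi hr ?_
  have h5 : ∀ p q : Fin n, p ≠ q → ∃ x ∈ T, v p q = v x.1 x.2 := by
    intro p q h
    rcases lt_or_gt_of_ne h with h | h
    · exact ⟨(p, q), Finset.mem_filter.2 ⟨Finset.mem_univ _, h⟩, rfl⟩
    · exact ⟨(q, p), Finset.mem_filter.2 ⟨Finset.mem_univ _, h⟩, hvs p q⟩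
  intro p q a b hpq hab
  obtain ⟨x, hx, hx2⟩ := h5 p q hpq
  obtain ⟨y, hy, hy2⟩ := h5 a b hab
  rw [hv p q hpq, hv a b hab, hx2, hy2, h4 x hx y hy]

end MP2d36f7
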