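import Pool.Agent.Lib_MP_2d36f7_ag.Coef
import Pool.Agent.Lib_MP_2d36f7_ag.Wind
import Pool.Agent.Lib_MP_2d36f7_ag.TwRot
import Pool.Agent.Lib_MP_2d36f7_ag.Glue
import Pool.Agent.Lib_MP_2d36f7_ag.PathConn

/-!
MP_2d36f7_ag, piece LogLemma.
-/

open Polynomial Complex Set Filter Topology

namespace MP2d36f7

variable {k n : ℕ}

namespace LogL

/-- concatenation of two paths defined on the whole line -/
noncomputable def cat {X : Type*} (f g : ℝ → X) : ℝ → X :=
  fun t => if t ≤ 1 / 2 then f (2 * t) else g (2 * t - 1)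

theorem continuous_cat {X : Type*} [TopologicalSpace X] {f g : ℝ → X} (hf : Continuous f)
    (hg : Continuous g) (h : f 1 = g 0) : Continuous (cat f g) := by
  unfold cat
  refine Continuous.if_le (by fun_prop) (by fun_prop) continuous_id continuous_const ?_
  intro t ht
  have ht' : t = 1 / 2 := ht
  subst ht'
  norm_num
  exact h

theorem cat_zero {X : Type*} (f g : ℝ → X) : cat f g 0 = f 0 := by
  simp [cat]

theorem cat_one {X : Type*} (f g : ℝ → X) : cat f g 1 = g 1 := by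
  have h : ¬ (1 : ℝ) ≤ 1 / 2 := by norm_num
  unfold cat
  rw [if_neg h]
  norm_num

theorem cat_rel {X Y : Type*} {Q : X → Y → Prop} {f g : ℝ → X} {f' g' : ℝ → Y}
    (h1 : ∀ t, Q (f t) (f' t)) (h2 : ∀ t, Q (g t) (g' t)) (t : ℝ) :
    Q (cat f g t) (cat f' g' t) := by
  unfold cat
  split_ifs
  · exact h1 _
  · exact h2 _

theorem cat_all {X : Type*} {Q : X → Prop} {f g : ℝ → X}
    (h1 : ∀ t, Q (f t)) (h2 : ∀ t, Q (g t)) (t : ℝ) : Q (cat f g t) := by
  unfold cat
  split_ifs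
  · exact h1 _
  · exact h2 _

/-- clamping to the unit interval -/
noncomputable def clp (t : ℝ) : ℝ := max 0 (min 1 t)

theorem continuous_clp : Continuous clp := by
  unfold clp
  fun_prop

theorem clp_zero : clp 0 = 0 := by simp [clp]

theorem clp_one : clp 1 = 1 := by simp [clp]

theorem clp_nonneg (t : ℝ) : 0 ≤ clp t := le_max_left _ _

theorem clp_le_one (t : ℝ) : clp t ≤ 1 := by simp [clp]

/-- the segment, defined on the whole line -/
noncomputable def seg {k : ℕ} (x y : Fin k → ℂ) (t : ℝ) : Fin k → ℂ := x + clp t • (y - x)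

theorem continuous_seg {k : ℕ} (x y : Fin k → ℂ) : Continuous (seg x y) := by
  unfold seg
  have := continuous_clp
  fun_prop

theorem seg_zero {k : ℕ} (x y : Fin k → ℂ) : seg x y 0 = x := by simp [seg, clp_zero]

theorem seg_one {k : ℕ} (x y : Fin k → ℂ) : seg x y 1 = y := by simp [seg, clp_one]

theorem seg_mem {k : ℕ} {x y : Fin k → ℂ} {ε : ℝ} (hy : y ∈ Metric.ball x ε) (t : ℝ) :
    seg x y t ∈ Metric.ball x ε := by
  have hε : 0 < ε := lt_of_le_of_lt dist_nonneg hy
  have hx : x ∈ Metric.ball x ε := Metric.mem_ball_self hε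
  exact (convex_ball x ε).add_smul_sub_mem hx hy ⟨clp_nonneg t, clp_le_one t⟩

theorem comp_mem_Inj {x : Fin k → ℂ} (hx : x ∈ Inj k) (σ : Equiv.Perm (Fin k)) :
    x ∘ σ ∈ Inj k := hx.comp σ.injective

theorem norm_e (t : ℝ) : ‖exp (Real.pi * I * t)‖ = 1 := by
  rw [show (Real.pi : ℂ) * I * t = ((Real.pi * t : ℝ) : ℂ) * I by push_cast; ring,
    Complex.norm_exp_ofReal_mul_I]

/-- rotation by a half turn of the three points about the middle one -/
noncomputable def hh (k m : ℕ) (s t : ℝ) : Fin k → ℂ := fun i =>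
  if m ≤ (i : ℕ) ∧ (i : ℕ) ≤ m + 2 then
    ((m : ℂ) + 1) + exp (Real.pi * I * s) * (tw k m t i - ((m : ℂ) + 1)) else ((i : ℕ) : ℂ)

theorem continuous_hh (k m : ℕ) : Continuous (Function.uncurry (hh k m)) := by
  refine continuous_pi fun i => ?_
  have h1 := (continuous_apply i).comp ((continuous_tw k m).comp (continuous_snd (X := ℝ)))
  unfold Function.uncurry hh
  split_ifs
  · have h2 : Continuous (fun p : ℝ × ℝ => tw k m p.2 i) := h1
    fun_prop
  · fun_prop

theorem tw_norm {m : ℕ} (t : ℝ) (i : Fin k) (h1 : m ≤ (i : ℕ)) (h2 : (i : ℕ) ≤ m + 2) :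
    ‖tw k m t i - ((m : ℂ) + 1)‖ ≤ 1 := by
  unfold tw
  have he := norm_e t
  by_cases h3 : (i : ℕ) = m
  · rw [if_pos h3]
    have : (m : ℂ) + 1 / 2 - 1 / 2 * exp (Real.pi * I * t) - (m + 1) =
      (1 / 2 : ℂ) * (-1 - exp (Real.pi * I * t)) := by ring
    rw [this, norm_mul]
    have h4 : ‖(-1 : ℂ) - exp (Real.pi * I * t)‖ ≤ 1 + 1 := by
      refine (norm_sub_le _ _).trans ?_
      rw [he]
      simp
    have h5 : ‖(1 / 2 : ℂ)‖ = 1 / 2 := by norm_num
    rw [h5]
    linarith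
  · rw [if_neg h3]
    by_cases h4 : (i : ℕ) = m + 1
    · rw [if_pos h4]
      have : (m : ℂ) + 1 / 2 + 1 / 2 * exp (Real.pi * I * t) - (m + 1) =
        (1 / 2 : ℂ) * (-1 + exp (Real.pi * I * t)) := by ring
      rw [this, norm_mul]
      have h4 : ‖(-1 : ℂ) + exp (Real.pi * I * t)‖ ≤ 1 + 1 := by
        refine (norm_add_le _ _).trans ?_
        rw [he]
        simp
      have h5 : ‖(1 / 2 : ℂ)‖ = 1 / 2 := by norm_num
      rw [h5]
      linarith
    · rw [if_neg h4]
      have h5 : (i : ℕ) = m + 2 := by omega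
      rw [h5]
      push_cast
      have : (m : ℂ) + 2 - (m + 1) = 1 := by ring
      rw [this]
      simp

theorem hh_mem {m : ℕ} (s t : ℝ) : hh k m s t ∈ Inj k := by
  intro i i' h
  unfold hh at h
  have hcross : ∀ i i' : Fin k, (m ≤ (i : ℕ) ∧ (i : ℕ) ≤ m + 2) → ¬ (m ≤ (i' : ℕ) ∧ (i' : ℕ) ≤ m + 2) →
      ((m : ℂ) + 1) + exp (Real.pi * I * s) * (tw k m t i - ((m : ℂ) + 1)) ≠ ((i' : ℕ) : ℂ) := by
    intro i i' h1 h2 h3
    have h4 : exp (Real.pi * I * s) * (tw k m t i - ((m : ℂ) + 1)) = ((i' : ℕ) : ℂ) - (m + 1) := by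
      rw [← h3]; ring
    have h5 := congrArg norm h4
    rw [norm_mul, norm_e, one_mul] at h5
    have h6 := tw_norm (k := k) t i h1.1 h1.2
    rw [h5] at h6
    have h7 : ((i' : ℕ) : ℂ) - (m + 1) = (((i' : ℕ) - (m + 1) : ℝ) : ℂ) := by push_cast; ring
    rw [h7, Complex.norm_real, Real.norm_eq_abs, abs_le] at h6
    have h8 : ((m : ℝ) ≤ ((i' : ℕ) : ℝ)) := by linarith
    have h9 : (((i' : ℕ) : ℝ) ≤ (m : ℝ) + 2) := by linarith
    exact h2 ⟨by exact_mod_cast h8, by exact_mod_cast h9⟩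
  split_ifs at h with h1 h2 h2
  · have h3 := mul_left_cancel₀ (exp_ne_zero _) (add_left_cancel h)
    have h4 : tw k m t i = tw k m t i' := by linear_combination h3
    exact tw_mem (k := k) (m := m) t h4
  · exact absurd h (hcross i i' h1 h2)
  · exact absurd h.symm (hcross i' i h2 h1)
  · exact Fin.ext (by exact_mod_cast h)

theorem hh_zero {m : ℕ} (t : ℝ) : hh k m 0 t = tw k m t := by
  funext i
  unfold hh
  split_ifs with h
  · simp
  · unfold tw
    rw [if_neg (by omega), if_neg (by omega)]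

theorem hh_one {m : ℕ} (hm : m + 2 < k) (t : ℝ) : hh k m 1 t =
    tw k (m + 1) t ∘ (Equiv.swap (⟨m, by omega⟩ : Fin k) ⟨m + 2, hm⟩) := by
  funext i
  have he : exp (Real.pi * I * (1 : ℝ)) = -1 := by
    rw [Complex.ofReal_one, mul_one, Complex.exp_pi_mul_I]
  unfold hh
  rw [he]
  simp only [Function.comp_apply]
  by_cases h0 : (i : ℕ) = m
  · have hi : i = (⟨m, by omega⟩ : Fin k) := Fin.ext h0
    rw [if_pos (by omega), hi, Equiv.swap_apply_left]
    unfold tw
    simp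
    ring
  by_cases h2 : (i : ℕ) = m + 2
  · have hi : i = (⟨m + 2, hm⟩ : Fin k) := Fin.ext h2
    rw [if_pos (by omega), hi, Equiv.swap_apply_right]
    unfold tw
    rw [if_neg (show ¬ (m + 2 = m) by omega), if_neg (show ¬ (m + 2 = m + 1) by omega),
      if_neg (show ¬ (m = m + 1) by omega), if_neg (show ¬ (m = m + 1 + 1) by omega)]
    push_cast
    ring
  · rw [Equiv.swap_apply_of_ne_of_ne (fun h => h0 (congrArg Fin.val h))
      (fun h => h2 (congrArg Fin.val h))]
    by_cases h1 : (i : ℕ) = m + 1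
    · rw [if_pos (by omega)]
      unfold tw
      rw [if_neg (by omega), if_pos h1, if_pos h1]
      push_cast
      ring
    · rw [if_neg (by omega)]
      unfold tw
      rw [if_neg h1, if_neg (by omega)]

theorem hh_end {m : ℕ} (hm : m + 1 < k) (s : ℝ) : hh k m s 1 =
    hh k m s 0 ∘ (Equiv.swap (⟨m, by omega⟩ : Fin k) ⟨m + 1, hm⟩) := by
  have h1 := tw_add_one (k := k) (m := m) hm 0
  rw [zero_add] at h1
  funext i
  unfold hh
  rw [h1]
  simp only [Function.comp_apply]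
  by_cases h0 : (i : ℕ) = m
  · have hi : i = (⟨m, by omega⟩ : Fin k) := Fin.ext h0
    rw [if_pos (by omega), hi, Equiv.swap_apply_left, if_pos (by simp)]
  by_cases h2 : (i : ℕ) = m + 1
  · have hi : i = (⟨m + 1, hm⟩ : Fin k) := Fin.ext h2
    rw [if_pos (by omega), hi, Equiv.swap_apply_right, if_pos (by simp)]
  · rw [Equiv.swap_apply_of_ne_of_ne (fun h => h0 (congrArg Fin.val h))
      (fun h => h2 (congrArg Fin.val h))]

end LogL

open LogL in
theorem log_lemma (hk : 2 ≤ k) {ρ : (Fin k → ℂ) → ℂ} (hρ : ContinuousOn ρ (Inj k))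
    (h0 : ∀ x ∈ Inj k, ρ x ≠ 0)
    (hsym : ∀ x ∈ Inj k, ∀ σ : Equiv.Perm (Fin k), ρ (x ∘ σ) = ρ x) :
    ∃ (j : ℤ) (G : (Fin k → ℂ) → ℂ), ContinuousOn G (Inj k) ∧
      (∀ x ∈ Inj k, ∀ σ : Equiv.Perm (Fin k), G (x ∘ σ) = G x) ∧
      ∀ x ∈ Inj k, ρ x = dsc x ^ j * exp (G x) := by
  classical
  have hcomp : ∀ {X : Type} [TopologicalSpace X] {f : (Fin k → ℂ) → ℂ} {g : X → Fin k → ℂ},
      ContinuousOn f (Inj k) → Continuous g → (∀ t, g t ∈ Inj k) → Continuous (fun t => f (g t)) := by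
    intro X _ f g hf hg hgi
    rw [← continuousOn_univ] at hg ⊢
    exact hf.comp hg (fun t _ => hgi t)
  have hint : ∀ m, m + 1 < k → ∃ w : ℤ, wnd (fun t => ρ (tw k m t)) 0 1 = w := by
    intro m hm
    refine wnd_int (hcomp hρ (continuous_tw k m) (fun t => tw_mem t)) (fun t => h0 _ (tw_mem t)) ?_
    have h1 := tw_add_one (k := k) (m := m) hm 0
    rw [zero_add] at h1
    rw [h1, hsym _ (tw_mem 0)]
  have hstep : ∀ m, m + 2 < k → wnd (fun t => ρ (tw k m t)) 0 1 =
      wnd (fun t => ρ (tw k (m + 1) t)) 0 1 := by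
    intro m hm
    have h1 := wnd_homotopy (u := fun s t => ρ (hh k m s t)) (a := 0) (b := 1) (c := 1)
      (hcomp (X := ℝ × ℝ) hρ (continuous_hh k m) (fun p => hh_mem p.1 p.2))
      (fun s t => h0 _ (hh_mem s t))
      (fun s => by rw [one_mul, hh_end (by omega), hsym _ (hh_mem s 0)]) 0 1
    have h2 : (fun t => ρ (hh k m 0 t)) = fun t => ρ (tw k m t) := by
      funext t; rw [hh_zero]
    have h3 : (fun t => ρ (hh k m 1 t)) = fun t => ρ (tw k (m + 1) t) := by
      funext t; rw [hh_one hm, hsym _ (tw_mem t)]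
    rw [h2, h3] at h1
    exact h1
  obtain ⟨j, hj⟩ := hint 0 (by omega)
  have hall : ∀ m, m + 1 < k → wnd (fun t => ρ (tw k m t)) 0 1 = j := by
    intro m
    induction m with
    | zero => intro _; exact hj
    | succ m ih => intro hm; rw [← hstep m (by omega)]; exact ih (by omega)
  -- the modified function
  set ρ' : (Fin k → ℂ) → ℂ := fun x => ρ x / dsc x ^ j with hρ'
  have hd0 : ∀ x ∈ Inj k, dsc x ≠ 0 := fun x hx => (dsc_ne_zero_iff x).2 hx
  have hρ'c : ContinuousOn ρ' (Inj k) :=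
    hρ.div ((continuous_dsc k).continuousOn.zpow₀ j (fun x hx => Or.inl (hd0 x hx)))
      (fun x hx => zpow_ne_zero _ (hd0 x hx))
  have hρ'0 : ∀ x ∈ Inj k, ρ' x ≠ 0 := fun x hx =>
    div_ne_zero (h0 x hx) (zpow_ne_zero _ (hd0 x hx))
  have hρ's : ∀ x ∈ Inj k, ∀ σ : Equiv.Perm (Fin k), ρ' (x ∘ σ) = ρ' x := by
    intro x hx σ
    simp only [hρ']
    rw [hsym x hx, dsc_perm]
  have hw0 : ∀ m, m + 1 < k → wnd (fun t => ρ' (tw k m t)) 0 1 = 0 := by
    intro m hm
    have h1 := wnd_div (u := fun t => ρ (tw k m t)) (v := fun t => dsc (tw k m t) ^ j)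
      (hcomp hρ (continuous_tw k m) (fun t => tw_mem t))
      (((continuous_dsc k).comp (continuous_tw k m)).zpow₀ j
        (fun t => Or.inl (hd0 _ (tw_mem t)))) (fun t => h0 _ (tw_mem t))
      (fun t => zpow_ne_zero _ (hd0 _ (tw_mem t))) 0 1
    have h2 := wnd_zpow (u := fun t => dsc (tw k m t))
      ((continuous_dsc k).comp (continuous_tw k m)) (fun t => hd0 _ (tw_mem t)) j 0 1
    simp only [hρ']
    rw [h1, hall m hm, h2, wnd_dsc_tw hm]
    ring
  obtain ⟨G0, hG0⟩ : ∃ G0 : ℂ, exp G0 = ρ' (x0 k) :=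
    ⟨Complex.log (ρ' (x0 k)), Complex.exp_log (hρ'0 _ (x0_mem k))⟩
  have hglue : ∀ {x : ℝ → Fin k → ℂ}, Continuous x → (∀ t, x t ∈ Inj k) → x 0 = x0 k →
      ∀ {σ : Equiv.Perm (Fin k)}, x 1 = x0 k ∘ σ → ∀ {y : ℝ → ℂ}, Continuous y →
      (∀ t, exp (y t) = ρ' (x t)) → y 0 = G0 → y 1 = G0 := by
    intro x hx hxi hx0 σ hx1 y hy hpy hy0
    have h1 := glue isCoveringMapOn_exp hρ'c (fun x hx => hρ'0 x hx) hρ's (S := {G0})
      (fun e he => by rw [Set.mem_singleton_iff.1 he]; exact hG0)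
      (fun m hm y hy hpy => by
        have h2 := wnd_eq hy hpy 0 1
        rw [hw0 m hm] at h2
        have h3 : (2 * Real.pi * I : ℂ) ≠ 0 := by
          simp [Real.pi_ne_zero]
        have h4 : y 1 - y 0 = 0 := by
          rcases div_eq_zero_iff.1 h2.symm with h | h
          · exact h
          · exact absurd h h3
        rw [sub_eq_zero.1 h4])
      hx hxi hx0 hx1 hy hpy (by rw [hy0]; rfl)
    exact h1
  -- the choice of paths and logarithms
  have hex : ∀ x : Fin k → ℂ, ∃ (γ : ℝ → Fin k → ℂ) (L : ℝ → ℂ), x ∈ Inj k →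
      (Continuous γ ∧ (∀ t, γ t ∈ Inj k) ∧ γ 0 = x0 k ∧ γ 1 = x ∧ Continuous L ∧
        (∀ t, exp (L t) = ρ' (γ t)) ∧ L 0 = G0) := by
    intro x
    by_cases hx : x ∈ Inj k
    · obtain ⟨γ, h1, h2, h3, h4⟩ := exists_path_Inj (x0_mem k) hx
      obtain ⟨L, h5, h6⟩ := exists_clog (u := fun t => ρ' (γ t)) (hcomp hρ'c h1 h2)
        (fun t => hρ'0 _ (h2 t))
      refine ⟨γ, fun t => L t + (G0 - L 0), fun _ => ⟨h1, h2, h3, h4, by fun_prop, ?_, by ring⟩⟩
      intro t
      rw [exp_add, h6, exp_sub, hG0, h6, h3, div_self (hρ'0 _ (x0_mem k)), mul_one]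
    · exact ⟨fun _ => 0, fun _ => 0, fun h => absurd h hx⟩
  choose Γ Λ hΓ using hex
  set G : (Fin k → ℂ) → ℂ := fun x => Λ x 1 with hG
  have huniq : ∀ {x : Fin k → ℂ}, x ∈ Inj k → ∀ {σ : Equiv.Perm (Fin k)} {γ : ℝ → Fin k → ℂ}
      {L : ℝ → ℂ}, Continuous γ → (∀ t, γ t ∈ Inj k) → γ 0 = x0 k → γ 1 = x ∘ σ →
      Continuous L → (∀ t, exp (L t) = ρ' (γ t)) → L 0 = G0 → L 1 = G x := by
    intro x hx σ γ L h1 h2 h3 h4 h5 h6 h7
    obtain ⟨a1, a2, a3, a4, a5, a6, a7⟩ := hΓ x hx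
    have hE : exp (L 1 - Λ x 1) = 1 := by
      rw [exp_sub, h6, a6, h4, a4, hρ's x hx, div_self (hρ'0 x hx)]
    have h8 := hglue (x := cat γ (fun t => Γ x (1 - t) ∘ σ)) (σ := σ)
      (y := cat L (fun t => Λ x (1 - t) + (L 1 - Λ x 1)))
      (continuous_cat h1 (by
        refine continuous_pi fun i => ?_
        have := (continuous_apply (σ i)).comp a1
        have h9 : Continuous (fun t : ℝ => Γ x t (σ i)) := this
        simp only [Function.comp_apply]
        exact h9.comp (by fun_prop)) (by rw [h4, sub_zero, a4]))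
      (cat_all h2 (fun t => comp_mem_Inj (a2 _) σ))
      (by rw [cat_zero, h3]) (by rw [cat_one, sub_self, a3])
      (continuous_cat h5 (by fun_prop) (by rw [sub_zero]; ring))
      (cat_rel (Q := fun z x => exp z = ρ' x) h6 (fun t => by
        rw [exp_add, hE, mul_one, a6, hρ's _ (a2 _)]))
      (by rw [cat_zero, h7])
    rw [cat_one, sub_self, a7] at h8
    show L 1 = Λ x 1
    linear_combination h8
  refine ⟨j, G, ?_, ?_, ?_⟩
  · intro x hx
    have hnh := (isOpen_Inj k).mem_nhds hx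
    obtain ⟨ε, hε, hball⟩ := Metric.mem_nhds_iff.1 hnh
    obtain ⟨L, hL1, hL2⟩ := exists_clogOn (S := Metric.ball x ε) Metric.isOpen_ball
      ((convex_ball x ε).starConvex (Metric.mem_ball_self hε)) (Metric.mem_ball_self hε)
      (hρ'c.mono hball) (fun y hy => hρ'0 y (hball hy))
    obtain ⟨a1, a2, a3, a4, a5, a6, a7⟩ := hΓ x hx
    have hloc : ∀ y ∈ Metric.ball x ε, G y = L y + (G x - L x) := by
      intro y hy
      have hE : exp (G x - L x) = 1 := by
        rw [exp_sub, hL2 x (Metric.mem_ball_self hε)]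
        show exp (Λ x 1) / ρ' x = 1
        rw [a6, a4, div_self (hρ'0 x hx)]
      have h8 := huniq (x := y) (hball hy) (σ := 1) (γ := cat (Γ x) (seg x y))
        (L := cat (Λ x) (fun t => L (seg x y t) + (G x - L x)))
        (continuous_cat a1 (continuous_seg x y) (by rw [a4, seg_zero]))
        (cat_all a2 (fun t => hball (seg_mem hy t)))
        (by rw [cat_zero, a3]) (by rw [cat_one, seg_one]; rfl)
        (continuous_cat a5 (by
          have : Continuous (fun t => L (seg x y t)) := by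
            have h9 := continuous_seg x y
            rw [← continuousOn_univ] at h9 ⊢
            exact hL1.comp h9 (fun t _ => seg_mem hy t)
          exact this.add continuous_const) (by rw [seg_zero]; show G x = _; ring))
        (cat_rel (Q := fun z x => exp z = ρ' x) a6 (fun t => by
          rw [exp_add, hE, mul_one, hL2 _ (seg_mem hy t)]))
        (by rw [cat_zero, a7])
      rw [cat_one, seg_one] at h8
      exact h8.symm
    have hLx : ContinuousAt L x := hL1.continuousAt (Metric.ball_mem_nhds x hε)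
    have h9 : ContinuousAt (fun y => L y + (G x - L x)) x := hLx.add continuousAt_const
    refine (h9.congr ?_).continuousWithinAt
    filter_upwards [Metric.ball_mem_nhds x hε] with y hy
    exact (hloc y hy).symm
  · intro x hx σ
    obtain ⟨a1, a2, a3, a4, a5, a6, a7⟩ := hΓ (x ∘ σ) (comp_mem_Inj hx σ)
    exact huniq hx a1 a2 a3 a4 a5 a6 a7
  · intro x hx
    obtain ⟨a1, a2, a3, a4, a5, a6, a7⟩ := hΓ x hx
    have h8 : exp (G x) = ρ' x := by
      show exp (Λ x 1) = ρ' x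
      rw [a6, a4]
    rw [h8]
    simp only [hρ']
    rw [mul_div_cancel₀ _ (zpow_ne_zero j (hd0 x hx))]

end MP2d36f7
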