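import Pool.Agent.Lib_MP_2d36f7_ag.Defs

/-! # Bounded multivalued functions on a punctured sphere are constant -/

open Polynomial Complex Set Filter Topology

namespace MP2d36f7

/-- removal of finitely many bounded isolated singularities -/
theorem MV_removable (E : Finset ℂ) : ∀ f : ℂ → ℂ, (∀ s ∉ E, AnalyticAt ℂ f s) →
    (∀ e ∈ E, ∃ K : ℝ, ∀ᶠ s in 𝓝[≠] e, ‖f s‖ ≤ K) →
    ∃ F : ℂ → ℂ, Differentiable ℂ F ∧ ∀ s ∉ E, F s = f s := by
  classical
  induction E using Finset.induction_on with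
  | empty =>
    intro f hf _
    exact ⟨f, fun s => (hf s (by simp)).differentiableAt, fun _ _ => rfl⟩
  | insert e E he ih =>
    intro f hf hb
    set f' : ℂ → ℂ := Function.update f e (limUnder (𝓝[≠] e) f) with hf'
    obtain ⟨K, hK⟩ := hb e (Finset.mem_insert_self e E)
    -- a neighbourhood of `e` where everything is fine
    have hnE : ∀ᶠ s in 𝓝 e, s ∉ E := by
      have : IsOpen ((E : Set ℂ)ᶜ) := (Finset.finite_toSet E).isClosed.isOpen_compl
      exact this.mem_nhds he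
    rw [eventually_nhdsWithin_iff] at hK
    obtain ⟨U, hU, hUo, heU⟩ := eventually_nhds_iff.mp (hK.and hnE)
    have hdiff : DifferentiableOn ℂ f (U \ {e}) := by
      intro s hs
      have hs' : s ∉ insert e E := by
        rw [Finset.mem_insert, not_or]
        exact ⟨fun h => hs.2 h, (hU s hs.1).2⟩
      exact (hf s hs').differentiableAt.differentiableWithinAt
    have hbdd : BddAbove (norm ∘ f '' (U \ {e})) := by
      refine ⟨K, ?_⟩
      rintro _ ⟨s, hs, rfl⟩
      exact (hU s hs.1).1 hs.2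
    have hd' : DifferentiableOn ℂ f' U :=
      Complex.differentiableOn_update_limUnder_of_bddAbove (hUo.mem_nhds heU) hdiff hbdd
    have hev : ∀ s, s ≠ e → f' =ᶠ[𝓝 s] f := by
      intro s hs
      filter_upwards [isOpen_ne.mem_nhds hs] with z hz
      exact Function.update_of_ne hz _ _
    have h1 : ∀ s ∉ E, AnalyticAt ℂ f' s := by
      intro s hs
      by_cases hse : s = e
      · subst hse
        exact hd'.analyticAt (hUo.mem_nhds heU)
      · have hs' : s ∉ insert e E := by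
          rw [Finset.mem_insert, not_or]
          exact ⟨hse, hs⟩
        exact (hf s hs').congr (hev s hse).symm
    have h2 : ∀ a ∈ E, ∃ K : ℝ, ∀ᶠ s in 𝓝[≠] a, ‖f' s‖ ≤ K := by
      intro a ha
      have hae : a ≠ e := fun h => he (h ▸ ha)
      obtain ⟨K', hK'⟩ := hb a (Finset.mem_insert_of_mem ha)
      refine ⟨K', ?_⟩
      filter_upwards [hK', (hev a hae).filter_mono nhdsWithin_le_nhds] with s hs hs'
      rw [hs']
      exact hs
    obtain ⟨F, hF, hFe⟩ := ih f' h1 h2
    refine ⟨F, hF, ?_⟩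
    intro s hs
    rw [Finset.mem_insert, not_or] at hs
    rw [hFe s hs.2]
    exact Function.update_of_ne hs.1 _ _

/-- an analytic function on a punctured sphere, bounded near the punctures, is constant -/
theorem MV_const (E : Finset ℂ) (f : ℂ → ℂ) (hf : ∀ s ∉ E, AnalyticAt ℂ f s)
    (hE : ∀ e ∈ E, ∃ K : ℝ, ∀ᶠ s in 𝓝[≠] e, ‖f s‖ ≤ K)
    (hinf : ∃ K : ℝ, ∀ᶠ s in cocompact ℂ, ‖f s‖ ≤ K) :
    ∀ s ∉ E, ∀ s' ∉ E, f s = f s' := by
  obtain ⟨F, hF, hFe⟩ := MV_removable E f hf hE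
  obtain ⟨K, hK⟩ := hinf
  have hEc : ∀ᶠ s in cocompact ℂ, s ∉ E := (Finset.finite_toSet E).isCompact.compl_mem_cocompact
  have hK' : ∀ᶠ s in cocompact ℂ, ‖F s‖ ≤ K := by
    filter_upwards [hK, hEc] with s hs hs'
    rw [hFe s hs']
    exact hs
  obtain ⟨C, hC, hCK⟩ := (hasBasis_cocompact.eventually_iff).mp hK'
  obtain ⟨K₂, hK₂⟩ := hC.exists_bound_of_continuousOn hF.continuous.continuousOn
  have hb : Bornology.IsBounded (Set.range F) := by
    rw [isBounded_iff_forall_norm_le]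
    refine ⟨max K K₂, ?_⟩
    rintro _ ⟨s, rfl⟩
    by_cases hs : s ∈ C
    · exact (hK₂ s hs).trans (le_max_right _ _)
    · exact (hCK hs).trans (le_max_left _ _)
  intro s hs s' hs'
  rw [← hFe s hs, ← hFe s' hs']
  exact hF.apply_eq_apply_of_bounded hb s s'

theorem mv {ι : Type*} [Fintype ι] [DecidableEq ι] (E : Finset ℂ) (ξ : ℂ → ι → ℂ)
    (hloc : ∀ s₀ ∉ E, ∃ h : ℂ → ι → ℂ, (∀ i, AnalyticAt ℂ (fun s => h s i) s₀) ∧
      ∀ᶠ s in 𝓝 s₀, ∃ e : Equiv.Perm ι, ξ s = h s ∘ e)
    (hE : ∀ e ∈ E, ∃ K : ℝ, ∀ᶠ s in 𝓝[≠] e, ∀ i, ‖ξ s i‖ ≤ K)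
    (hinf : ∃ K : ℝ, ∀ᶠ s in cocompact ℂ, ∀ i, ‖ξ s i‖ ≤ K) :
    ∀ s ∉ E, ∀ s' ∉ E, ∃ e : Equiv.Perm ι, ξ s' = ξ s ∘ e := by
  have hbound : ∀ (w : ℂ) (K : ℝ) (s : ℂ), (∀ i, ‖ξ s i‖ ≤ K) →
      ‖∏ i, (w - ξ s i)‖ ≤ (‖w‖ + K) ^ (Fintype.card ι) := by
    intro w K s h
    rw [norm_prod]
    calc ∏ i, ‖w - ξ s i‖ ≤ ∏ _i : ι, (‖w‖ + K) := by
          apply Finset.prod_le_prod
          · intro i _
            exact norm_nonneg _
          · intro i _
            exact (norm_sub_le _ _).trans (by linarith [h i])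
      _ = (‖w‖ + K) ^ (Fintype.card ι) := by
          rw [Finset.prod_const, Finset.card_univ]
  have key : ∀ w : ℂ, ∀ s ∉ E, ∀ s' ∉ E, ∏ i, (w - ξ s i) = ∏ i, (w - ξ s' i) := by
    intro w
    apply MV_const E (fun s => ∏ i, (w - ξ s i))
    · intro s₀ hs₀
      obtain ⟨h, ha, he⟩ := hloc s₀ hs₀
      have h1 : AnalyticAt ℂ (fun s => ∏ i, (w - h s i)) s₀ := by
        apply Finset.analyticAt_fun_prod
        intro i _
        exact analyticAt_const.sub (ha i)
      refine h1.congr ?_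
      filter_upwards [he] with s hs
      obtain ⟨e, hse⟩ := hs
      rw [hse]
      exact (Equiv.prod_comp e (fun i => (w - h s i))).symm
    · intro e he
      obtain ⟨K, hK⟩ := hE e he
      refine ⟨(‖w‖ + K) ^ (Fintype.card ι), ?_⟩
      filter_upwards [hK] with s hs
      exact hbound w K s hs
    · obtain ⟨K, hK⟩ := hinf
      refine ⟨(‖w‖ + K) ^ (Fintype.card ι), ?_⟩
      filter_upwards [hK] with s hs
      exact hbound w K s hs
  intro s hs s' hs'
  have hpoly : (∏ i, (X - C (ξ s i)) : ℂ[X]) = ∏ i, (X - C (ξ s' i)) := by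
    apply Polynomial.funext
    intro w
    rw [Polynomial.eval_prod, Polynomial.eval_prod]
    simp only [Polynomial.eval_sub, Polynomial.eval_X, Polynomial.eval_C]
    exact key w s hs s' hs'
  have hms : (Finset.univ.val.map (ξ s)) = Finset.univ.val.map (ξ s') := by
    have h1 := Polynomial.roots_multiset_prod_X_sub_C (Finset.univ.val.map (ξ s))
    have h2 := Polynomial.roots_multiset_prod_X_sub_C (Finset.univ.val.map (ξ s'))
    rw [Multiset.map_map] at h1 h2
    rw [← h1, ← h2]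
    congr 1
  have hcard : ∀ c : ℂ, Nonempty ({i // ξ s' i = c} ≃ {i // ξ s i = c}) := by
    intro c
    rw [← Fintype.card_eq]
    have h1 := congrArg (Multiset.count c) hms
    rw [Multiset.count_map, Multiset.count_map] at h1
    rw [Fintype.card_subtype, Fintype.card_subtype]
    have e1 : ∀ t : ℂ, (Finset.univ.filter (fun i => ξ t i = c)).card =
        (Multiset.filter (fun a => c = ξ t a) Finset.univ.val).card := by
      intro t
      rw [Finset.card_def, Finset.filter_val]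
      congr 1
      apply Multiset.filter_congr
      intro i _
      exact eq_comm
    rw [e1, e1]
    exact h1.symm
  have φ' : ∀ c : ℂ, {i // ξ s' i = c} ≃ {i // ξ s i = c} := fun c => (hcard c).some
  refine ⟨Equiv.ofFiberEquiv φ', ?_⟩
  funext i
  exact (Equiv.ofFiberEquiv_map φ' i).symm

end MP2d36f7
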