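import Pool.Agent.Lib_MP_2d36f7_ag.Defs

/-!
# The mean of a Jacobian determinant on a torus
-/

set_option autoImplicit false

open Polynomial Complex Set Filter Topology MeasureTheory

namespace MP2d36f7

namespace Tor

/-- interpolation of `z ↦ det (A + z B)` -/
lemma det_interp {d : ℕ} (A B : Matrix (Fin d) (Fin d) ℂ) (v : Fin (d + 1) → ℂ)
    (hv : Function.Injective v) (u : ℂ) :
    (A + u • B).det = ∑ k, (A + v k • B).det * (Lagrange.basis Finset.univ v k).eval u := by
  set p : ℂ[X] := Matrix.det ((X : ℂ[X]) • B.map C + A.map C) with hp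
  have heval : ∀ z : ℂ, p.eval z = (A + z • B).det := by
    intro z
    rw [hp, ← Polynomial.coe_evalRingHom, RingHom.map_det]
    congr 1
    ext i j
    simp only [RingHom.mapMatrix_apply, Matrix.map_apply, Matrix.add_apply, Matrix.smul_apply,
      smul_eq_mul, Polynomial.coe_evalRingHom, Polynomial.eval_add, Polynomial.eval_mul,
      Polynomial.eval_X, Polynomial.eval_C]
    ring
  have hdeg : p.degree < (Finset.univ : Finset (Fin (d + 1))).card := by
    have h1 := Polynomial.natDegree_det_X_add_C_le B A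
    rw [Fintype.card_fin] at h1
    have h2 : p.natDegree ≤ d := h1
    rw [Finset.card_univ, Fintype.card_fin]
    exact (Polynomial.degree_le_of_natDegree_le h2).trans_lt (by exact_mod_cast Nat.lt_succ_self d)
  have h3 := Lagrange.eq_interpolate (s := Finset.univ) (v := v) (hv.injOn) hdeg
  rw [← heval u]
  conv_lhs => rw [h3]
  rw [Lagrange.interpolate_apply, Polynomial.eval_finsetSum]
  refine Finset.sum_congr rfl fun k _ => ?_
  rw [Polynomial.eval_mul, Polynomial.eval_C, heval]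

lemma const_of_nodes {X : Type*} [MeasurableSpace X] {μ : Measure X} {d : ℕ}
    (A B : X → Matrix (Fin d) (Fin d) ℂ)
    (hint : ∀ z : ℂ, Integrable (fun x => (A x + z • B x).det) μ)
    (v : Fin (d + 1) → ℂ) (hv : Function.Injective v) {c : ℂ}
    (hc : ∀ k, ∫ x, (A x + v k • B x).det ∂μ = c) (u : ℂ) :
    ∫ x, (A x + u • B x).det ∂μ = c := by
  have h1 : (fun x => (A x + u • B x).det) =
      fun x => ∑ k, (A x + v k • B x).det * (Lagrange.basis Finset.univ v k).eval u := by
    funext x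
    exact det_interp (A x) (B x) v hv u
  rw [h1, integral_finsetSum _ fun k _ => (hint (v k)).mul_const _]
  simp_rw [integral_mul_const, hc]
  rw [← Finset.mul_sum]
  have h2 : ∑ k, (Lagrange.basis Finset.univ v k).eval u = 1 := by
    rw [← Polynomial.eval_finsetSum, Lagrange.sum_basis (hv.injOn) Finset.univ_nonempty]
    simp
  rw [h2, mul_one]

section Real

variable {d : ℕ} (b : Module.Basis (Fin d) ℝ (Fin d → ℝ))

lemma fderiv_bdd {Q : (Fin d → ℝ) → (Fin d → ℝ)} (hQ : ContDiff ℝ 1 Q)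
    (hper : ∀ v ∈ Submodule.span ℤ (Set.range b), ∀ x, Q (x + v) = Q x) :
    ∃ C : ℝ, 1 ≤ C ∧ ∀ x, ‖fderiv ℝ Q x‖ ≤ C := by
  have hc : Continuous (fderiv ℝ Q) := hQ.continuous_fderiv one_ne_zero
  have hK : IsCompact (closure (ZSpan.fundamentalDomain b)) :=
    (ZSpan.fundamentalDomain_isBounded b).isCompact_closure
  obtain ⟨C, hC⟩ := hK.exists_bound_of_continuousOn (f := fderiv ℝ Q) hc.continuousOn
  refine ⟨max C 1, le_max_right _ _, fun x => ?_⟩
  have h1 : fderiv ℝ Q x = fderiv ℝ Q (ZSpan.fract b x) := by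
    have h2 : (fun y => Q (y + (ZSpan.floor b x : Fin d → ℝ))) = Q := by
      funext y
      exact hper _ (ZSpan.floor b x).2 y
    have h3 := fderiv_comp_add_right (𝕜 := ℝ) (f := Q) (x := ZSpan.fract b x)
      (ZSpan.floor b x : Fin d → ℝ)
    rw [h2] at h3
    rw [h3, ZSpan.fract_apply, sub_add_cancel]
  rw [h1]
  exact (hC _ (subset_closure (ZSpan.fract_mem_fundamentalDomain b x))).trans (le_max_left _ _)

lemma det_pos_of_small {E : Type*} [NormedAddCommGroup E] [NormedSpace ℝ E]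
    [FiniteDimensional ℝ E] (N : E →L[ℝ] E) (hN : ‖N‖ < 1) :
    0 < (ContinuousLinearMap.id ℝ E + N).det := by
  have hcont : Continuous fun s : ℝ => (ContinuousLinearMap.id ℝ E + s • N).det :=
    ContinuousLinearMap.continuous_det.comp (by fun_prop)
  have hne : ∀ s ∈ Icc (0 : ℝ) 1, (ContinuousLinearMap.id ℝ E + s • N).det ≠ 0 := by
    intro s hs h0
    have h1 : IsUnit (1 - (-(s • N)) : E →L[ℝ] E) := by
      apply isUnit_one_sub_of_norm_lt_one
      rw [norm_neg, norm_smul, Real.norm_eq_abs, abs_of_nonneg hs.1]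
      calc s * ‖N‖ ≤ 1 * ‖N‖ := mul_le_mul_of_nonneg_right hs.2 (norm_nonneg _)
        _ < 1 := by rw [one_mul]; exact hN
    have h2 : (1 - (-(s • N)) : E →L[ℝ] E) = ContinuousLinearMap.id ℝ E + s • N := by
      rw [sub_neg_eq_add]; rfl
    rw [h2] at h1
    obtain ⟨u, hu⟩ := h1
    have h3 : (u : E →L[ℝ] E).comp ((u⁻¹ : (E →L[ℝ] E)ˣ) : E →L[ℝ] E) =
        ContinuousLinearMap.id ℝ E := u.mul_inv
    have h4 : (u : E →L[ℝ] E).det * ((u⁻¹ : (E →L[ℝ] E)ˣ) : E →L[ℝ] E).det = 1 := by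
      have h5 := congrArg ContinuousLinearMap.det h3
      have h6 : (ContinuousLinearMap.id ℝ E).det = 1 := LinearMap.det_id
      rw [h6] at h5
      rw [← h5]
      exact (LinearMap.det_comp _ _).symm
    rw [hu, h0, zero_mul] at h4
    exact zero_ne_one h4
  have h0 : (ContinuousLinearMap.id ℝ E + (0 : ℝ) • N).det = 1 := by
    rw [zero_smul, add_zero]
    exact LinearMap.det_id
  by_contra hneg
  push Not at hneg
  have h1 : (0 : ℝ) ∈ Icc ((ContinuousLinearMap.id ℝ E + (1 : ℝ) • N).det)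
      ((ContinuousLinearMap.id ℝ E + (0 : ℝ) • N).det) := by
    rw [h0, one_smul]
    exact ⟨hneg, zero_le_one⟩
  obtain ⟨s, hs, hs0⟩ := intermediate_value_Icc' (zero_le_one' ℝ) hcont.continuousOn h1
  exact hne s hs hs0

lemma small_eps {Q : (Fin d → ℝ) → (Fin d → ℝ)} (hQ : ContDiff ℝ 1 Q)
    (hper : ∀ v ∈ Submodule.span ℤ (Set.range b), ∀ x, Q (x + v) = Q x) :
    ∃ ε₀ : ℝ, 0 < ε₀ ∧ ∀ ε : ℝ, 0 < ε → ε < ε₀ →
      ∫ x in ZSpan.fundamentalDomain b,
        (ContinuousLinearMap.id ℝ (Fin d → ℝ) + ε • fderiv ℝ Q x).det =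
      (volume (ZSpan.fundamentalDomain b)).toReal := by
  obtain ⟨C, hC1, hC⟩ := fderiv_bdd b hQ hper
  have hCpos : 0 < C := lt_of_lt_of_le one_pos hC1
  refine ⟨1 / C, by positivity, fun ε hε hεC => ?_⟩
  have hεC' : ε * C < 1 := by rwa [lt_div_iff₀ hCpos] at hεC
  set K := ZSpan.fundamentalDomain b with hK
  set Φ : (Fin d → ℝ) → (Fin d → ℝ) := fun x => x + ε • Q x with hΦ
  have hdiff : Differentiable ℝ Q := hQ.differentiable one_ne_zero
  have hder : ∀ x, HasFDerivAt Φ (ContinuousLinearMap.id ℝ (Fin d → ℝ) + ε • fderiv ℝ Q x) x :=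
    fun x => (hasFDerivAt_id x).add ((hdiff x).hasFDerivAt.const_smul ε)
  have hlip : LipschitzWith ⟨C, hCpos.le⟩ Q := by
    apply lipschitzWith_of_nnnorm_fderiv_le hdiff
    intro x
    exact hC x
  have happ : ApproximatesLinearOn Φ
      ((ContinuousLinearEquiv.refl ℝ (Fin d → ℝ) : (Fin d → ℝ) ≃L[ℝ] (Fin d → ℝ)) :
        (Fin d → ℝ) →L[ℝ] (Fin d → ℝ)) univ ⟨ε * C, by positivity⟩ := by
    intro x _ y _
    have h1 : Φ x - Φ y - ((ContinuousLinearEquiv.refl ℝ (Fin d → ℝ) :
        (Fin d → ℝ) ≃L[ℝ] (Fin d → ℝ)) : (Fin d → ℝ) →L[ℝ] (Fin d → ℝ)) (x - y) =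
        ε • (Q x - Q y) := by
      simp only [hΦ, ContinuousLinearEquiv.coe_refl, ContinuousLinearMap.coe_id', id_eq, smul_sub]
      abel
    rw [h1, norm_smul, Real.norm_eq_abs, abs_of_pos hε]
    have h2 : ‖Q x - Q y‖ ≤ C * ‖x - y‖ := by
      have := hlip.dist_le_mul x y
      rw [dist_eq_norm, dist_eq_norm] at this
      exact this
    calc ε * ‖Q x - Q y‖ ≤ ε * (C * ‖x - y‖) := mul_le_mul_of_nonneg_left h2 hε.le
      _ = ε * C * ‖x - y‖ := by ring
  have hc : Subsingleton (Fin d → ℝ) ∨ (⟨ε * C, by positivity⟩ : NNReal) <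
      ‖((ContinuousLinearEquiv.refl ℝ (Fin d → ℝ)).symm : (Fin d → ℝ) →L[ℝ] (Fin d → ℝ))‖₊⁻¹ := by
    rcases subsingleton_or_nontrivial (Fin d → ℝ) with h | h
    · exact Or.inl h
    · right
      have h1 : ‖((ContinuousLinearEquiv.refl ℝ (Fin d → ℝ)).symm :
          (Fin d → ℝ) →L[ℝ] (Fin d → ℝ))‖₊ = 1 := by
        rw [ContinuousLinearEquiv.refl_symm, ContinuousLinearEquiv.coe_refl]
        exact ContinuousLinearMap.nnnorm_id
      rw [h1, inv_one]
      exact hεC'
  let H : (Fin d → ℝ) ≃ₜ (Fin d → ℝ) := ApproximatesLinearOn.toHomeomorph Φ happ hc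
  have hH : ∀ x, H x = Φ x := fun x => rfl
  have hinj : Function.Injective Φ := H.injective
  have hfd := ZSpan.isAddFundamentalDomain b (volume : Measure (Fin d → ℝ))
  have hfd2 : IsAddFundamentalDomain (Submodule.span ℤ (Set.range b)) (H '' K) volume := by
    refine hfd.image_of_equiv H.toEquiv ?_ (Equiv.refl _) ?_
    · have hm : Measurable (H.toEquiv.symm) := H.symm.continuous.measurable
      refine ⟨hm, ?_⟩
      refine Measure.AbsolutelyContinuous.mk fun s hs h0 => ?_
      rw [Measure.map_apply hm hs]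
      have h1 : (H.toEquiv.symm) ⁻¹' s = Φ '' s := by
        rw [← H.toEquiv.image_eq_preimage_symm]
        rfl
      rw [h1]
      exact addHaar_image_eq_zero_of_differentiableOn_of_addHaar_eq_zero volume
        (fun x _ => (hder x).differentiableAt.differentiableWithinAt) h0
    · rintro ⟨v, hv⟩ x
      change Φ (v + x) = v + Φ x
      simp only [hΦ]
      rw [add_comm v x, hper v hv x]
      abel
  have hinv : VAddInvariantMeasure (Submodule.span ℤ (Set.range b)) (Fin d → ℝ) volume :=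
    inferInstanceAs <|
      VAddInvariantMeasure (Submodule.span ℤ (Set.range b)).toAddSubgroup (Fin d → ℝ) volume
  have hvol : volume (Φ '' K) = volume K := (hfd.measure_eq hfd2).symm
  have hmeas : MeasurableSet K := ZSpan.fundamentalDomain_measurableSet b
  have h1 := lintegral_abs_det_fderiv_eq_addHaar_image volume hmeas
    (fun x _ => (hder x).hasFDerivWithinAt) hinj.injOn
  rw [hvol] at h1
  have hpos : ∀ x, 0 < (ContinuousLinearMap.id ℝ (Fin d → ℝ) + ε • fderiv ℝ Q x).det := by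
    intro x
    apply det_pos_of_small
    rw [norm_smul, Real.norm_eq_abs, abs_of_pos hε]
    exact lt_of_le_of_lt (mul_le_mul_of_nonneg_left (hC x) hε.le) hεC'
  have hcont : Continuous fun x =>
      (ContinuousLinearMap.id ℝ (Fin d → ℝ) + ε • fderiv ℝ Q x).det :=
    ContinuousLinearMap.continuous_det.comp
      (continuous_const.add ((hQ.continuous_fderiv one_ne_zero).const_smul ε))
  rw [integral_eq_lintegral_of_nonneg_ae (Eventually.of_forall fun x => (hpos x).le)
    hcont.aestronglyMeasurable]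
  congr 1
  rw [← h1]
  refine lintegral_congr fun x => ?_
  rw [abs_of_pos (hpos x)]

lemma per_span {Y : Type*} {f : (Fin d → ℝ) → Y} (hf : ∀ j x, f (x + b j) = f x) :
    ∀ v ∈ Submodule.span ℤ (Set.range b), ∀ x, f (x + v) = f x := by
  let S : AddSubgroup (Fin d → ℝ) :=
    { carrier := {v | ∀ x, f (x + v) = f x}
      zero_mem' := fun x => by rw [add_zero]
      add_mem' := fun {v w} hv hw x => by rw [← add_assoc, hw, hv]
      neg_mem' := fun {v} hv x => by
        have h := hv (x + -v)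
        rw [neg_add_cancel_right] at h
        exact h.symm }
  have h1 : Submodule.span ℤ (Set.range b) ≤ AddSubgroup.toIntSubmodule S := by
    rw [Submodule.span_le]
    rintro _ ⟨j, rfl⟩ x
    exact hf j x
  intro v hv x
  exact h1 hv x

/-- the complex matrix of a real linear map -/
noncomputable def Jm (D : (Fin d → ℝ) →L[ℝ] (Fin d → ℝ)) : Matrix (Fin d) (Fin d) ℂ :=
  Matrix.of fun i j => ((D (Pi.single j 1) i : ℝ) : ℂ)

lemma Jm_add_smul (D E : (Fin d → ℝ) →L[ℝ] (Fin d → ℝ)) (u : ℝ) :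
    Jm (D + u • E) = Jm D + (u : ℂ) • Jm E := by
  ext i j
  simp [Jm]

lemma det_Jm (D : (Fin d → ℝ) →L[ℝ] (Fin d → ℝ)) (ε : ℝ) :
    (((ContinuousLinearMap.id ℝ (Fin d → ℝ) + ε • D).det : ℝ) : ℂ) =
      (1 + (ε : ℂ) • Jm D).det := by
  have h1 : (ContinuousLinearMap.id ℝ (Fin d → ℝ) + ε • D).det =
      (LinearMap.toMatrix' ((ContinuousLinearMap.id ℝ (Fin d → ℝ) + ε • D :
        (Fin d → ℝ) →L[ℝ] (Fin d → ℝ)) : (Fin d → ℝ) →ₗ[ℝ] (Fin d → ℝ))).det :=
    (LinearMap.det_toMatrix' _).symm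
  rw [h1, ← Complex.ofRealHom_eq_coe, RingHom.map_det]
  congr 1
  ext i j
  rw [RingHom.mapMatrix_apply, Matrix.map_apply, LinearMap.toMatrix'_apply]
  have h2 : (fun j' : Fin d => if j' = j then (1 : ℝ) else 0) = Pi.single j 1 := by
    funext j'
    rw [Pi.single_apply]
  simp only [Jm, Matrix.add_apply, Matrix.smul_apply, Matrix.of_apply, Matrix.one_apply,
    ContinuousLinearMap.toLinearMap_add, ContinuousLinearMap.coe_id,
    ContinuousLinearMap.toLinearMap_smul,
    LinearMap.add_apply, LinearMap.id_apply, LinearMap.smul_apply, ContinuousLinearMap.coe_coe,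
    Pi.add_apply, Pi.smul_apply, smul_eq_mul, map_add, map_mul, Complex.ofRealHom_eq_coe]
  congr 1
  rw [Pi.single_apply]
  split_ifs <;> simp

lemma continuous_Jm {Q : (Fin d → ℝ) → (Fin d → ℝ)} (hQ : ContDiff ℝ 1 Q) :
    Continuous fun x => Jm (fderiv ℝ Q x) := by
  refine continuous_matrix fun i j => ?_
  have h1 := hQ.continuous_fderiv one_ne_zero
  exact Complex.continuous_ofReal.comp ((continuous_apply i).comp (h1.clm_apply continuous_const))

lemma real_case {Q₁ Q₂ : (Fin d → ℝ) → (Fin d → ℝ)} (hQ₁ : ContDiff ℝ 1 Q₁)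
    (hQ₂ : ContDiff ℝ 1 Q₂) (h₁ : ∀ j x, Q₁ (x + b j) = Q₁ x) (h₂ : ∀ j x, Q₂ (x + b j) = Q₂ x) :
    ∫ x in ZSpan.fundamentalDomain b,
      (1 + Jm (fderiv ℝ Q₁ x) + I • Jm (fderiv ℝ Q₂ x)).det =
      (((volume (ZSpan.fundamentalDomain b)).toReal : ℝ) : ℂ) := by
  set c : ℂ := (((volume (ZSpan.fundamentalDomain b)).toReal : ℝ) : ℂ) with hcdef
  have hint : ∀ {g : (Fin d → ℝ) → ℂ}, Continuous g →
      Integrable g (volume.restrict (ZSpan.fundamentalDomain b)) := by
    intro g hg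
    have hK : IsCompact (closure (ZSpan.fundamentalDomain b)) :=
      (ZSpan.fundamentalDomain_isBounded b).isCompact_closure
    exact (hg.continuousOn.integrableOn_compact hK).mono_set subset_closure
  have hc₁ := continuous_Jm hQ₁
  have hc₂ := continuous_Jm hQ₂
  -- real values of the second parameter
  have key : ∀ u : ℝ, ∫ x in ZSpan.fundamentalDomain b,
      (1 + Jm (fderiv ℝ Q₁ x) + (u : ℂ) • Jm (fderiv ℝ Q₂ x)).det = c := by
    intro u
    set Q : (Fin d → ℝ) → (Fin d → ℝ) := fun x => Q₁ x + u • Q₂ x with hQdef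
    have hQ : ContDiff ℝ 1 Q := hQ₁.add (hQ₂.const_smul u)
    have hQper : ∀ v ∈ Submodule.span ℤ (Set.range b), ∀ x, Q (x + v) = Q x := by
      apply per_span
      intro j x
      simp only [hQdef]
      rw [h₁, h₂]
    have hfd : ∀ x, fderiv ℝ Q x = fderiv ℝ Q₁ x + u • fderiv ℝ Q₂ x := by
      intro x
      have hd₁ := (hQ₁.differentiable one_ne_zero x).hasFDerivAt
      have hd₂ := (hQ₂.differentiable one_ne_zero x).hasFDerivAt
      exact (hd₁.add (hd₂.const_smul u)).fderiv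
    obtain ⟨ε₀, hε₀, hε⟩ := small_eps b hQ hQper
    set v : Fin (d + 1) → ℂ := fun k => (((ε₀ / ((k : ℕ) + 2) : ℝ)) : ℂ) with hv
    have hvinj : Function.Injective v := by
      intro k k' hkk
      simp only [hv, Complex.ofReal_inj] at hkk
      have hk : (0 : ℝ) < (k : ℕ) + 2 := by positivity
      have hk' : (0 : ℝ) < (k' : ℕ) + 2 := by positivity
      rw [div_eq_div_iff hk.ne' hk'.ne'] at hkk
      have h3 := mul_left_cancel₀ hε₀.ne' hkk
      have h4 : ((k' : ℕ) : ℝ) = (k : ℕ) := by linarith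
      exact Fin.ext (by exact_mod_cast h4.symm)
    have h5 := const_of_nodes (μ := volume.restrict (ZSpan.fundamentalDomain b))
      (fun _ => (1 : Matrix (Fin d) (Fin d) ℂ)) (fun x => Jm (fderiv ℝ Q x))
      (fun z => hint (continuous_const.add ((continuous_Jm hQ).const_smul z)).matrix_det)
      v hvinj (c := c) ?_ 1
    · rw [← h5]
      refine integral_congr_ae (Eventually.of_forall fun x => ?_)
      simp only
      rw [hfd, Jm_add_smul, one_smul, add_assoc]
    · intro k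
      have hk : (0 : ℝ) < (k : ℕ) + 2 := by positivity
      have h6 := hε (ε₀ / ((k : ℕ) + 2)) (by positivity) (by
        rw [div_lt_iff₀ hk]
        nlinarith [(Nat.cast_nonneg (k : ℕ) : (0 : ℝ) ≤ ((k : ℕ) : ℝ))])
      rw [hcdef, ← h6, ← integral_complex_ofReal]
      refine integral_congr_ae (Eventually.of_forall fun x => ?_)
      simp only [hv]
      rw [det_Jm]
  set v : Fin (d + 1) → ℂ := fun k => (((k : ℕ) : ℝ) : ℂ) with hv
  have hvinj : Function.Injective v := by
    intro k k' hkk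
    simp only [hv, Complex.ofReal_inj] at hkk
    exact Fin.ext (by exact_mod_cast hkk)
  exact const_of_nodes (μ := volume.restrict (ZSpan.fundamentalDomain b))
    (fun x => 1 + Jm (fderiv ℝ Q₁ x)) (fun x => Jm (fderiv ℝ Q₂ x))
    (fun z => hint ((continuous_const.add hc₁).add (hc₂.const_smul z)).matrix_det)
    v hvinj (c := c) (fun k => key _) I

end Real

end Tor

theorem torus_det {d : ℕ} {T : ℝ} (hT : 0 < T) {L : (Fin d → ℝ) → (Fin d → ℂ)}
    (hL : ContDiff ℝ 1 L) (B : Matrix (Fin d) (Fin d) ℂ)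
    (hper : ∀ θ : Fin d → ℝ, ∀ j, L (θ + T • Pi.single j 1) = L θ + fun i => B i j)
    (hdet : ∀ θ, (Matrix.of fun i j => fderiv ℝ L θ (Pi.single j 1) i).det = 0) : B.det = 0 := by
  by_contra hB
  have hBu : IsUnit B.det := isUnit_iff_ne_zero.2 hB
  set M : Matrix (Fin d) (Fin d) ℂ := (T : ℂ) • B⁻¹ with hM
  set b : Module.Basis (Fin d) ℝ (Fin d → ℝ) :=
    (Pi.basisFun ℝ (Fin d)).unitsSMul (fun _ => Units.mk0 T hT.ne') with hb
  have hbj : ∀ j, b j = T • Pi.single j 1 := by
    intro j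
    rw [hb, Module.Basis.unitsSMul_apply, Pi.basisFun_apply]
    rfl
  let mM : (Fin d → ℂ) →L[ℝ] (Fin d → ℂ) :=
    LinearMap.toContinuousLinearMap ((Matrix.mulVecLin M).restrictScalars ℝ)
  let oR : (Fin d → ℝ) →L[ℝ] (Fin d → ℂ) :=
    ContinuousLinearMap.pi fun i => Complex.ofRealCLM.comp (ContinuousLinearMap.proj i)
  let reL : (Fin d → ℂ) →L[ℝ] (Fin d → ℝ) :=
    ContinuousLinearMap.pi fun i => Complex.reCLM.comp (ContinuousLinearMap.proj i)
  let imL : (Fin d → ℂ) →L[ℝ] (Fin d → ℝ) :=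
    ContinuousLinearMap.pi fun i => Complex.imCLM.comp (ContinuousLinearMap.proj i)
  set P : (Fin d → ℝ) → (Fin d → ℂ) := fun θ => mM (L θ) - oR θ with hP
  have hPc : ContDiff ℝ 1 P := (mM.contDiff.comp hL).sub oR.contDiff
  have hPder : ∀ θ, HasFDerivAt P (mM.comp (fderiv ℝ L θ) - oR) θ := by
    intro θ
    have h1 := (hL.differentiable one_ne_zero θ).hasFDerivAt
    exact (mM.hasFDerivAt.comp θ h1).sub oR.hasFDerivAt
  have hPper : ∀ j θ, P (θ + b j) = P θ := by
    intro j θ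
    simp only [hP]
    rw [hbj, hper, map_add, map_add]
    have h1 : mM (fun i => B i j) = oR (T • Pi.single j 1) := by
      funext i
      have h2 : mM (fun i => B i j) i = (M * B) i j := by
        change (M.mulVec fun i => B i j) i = _
        rw [Matrix.mul_apply]
        rfl
      rw [h2, hM, Matrix.smul_mul, Matrix.nonsing_inv_mul B hBu]
      change (T : ℂ) * (1 : Matrix (Fin d) (Fin d) ℂ) i j =
        (((T • Pi.single j (1 : ℝ) : Fin d → ℝ) i : ℝ) : ℂ)
      rw [Pi.smul_apply, Pi.single_apply, Matrix.one_apply]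
      split_ifs <;> simp
    rw [h1]
    abel
  have h1 := Tor.real_case b (Q₁ := fun θ => reL (P θ)) (Q₂ := fun θ => imL (P θ))
    (reL.contDiff.comp hPc) (imL.contDiff.comp hPc) (fun j x => by simp only [hPper])
    (fun j x => by simp only [hPper])
  have h2 : ∀ θ, (1 + Tor.Jm (fderiv ℝ (fun θ => reL (P θ)) θ) +
      I • Tor.Jm (fderiv ℝ (fun θ => imL (P θ)) θ)).det = 0 := by
    intro θ
    have h3 : fderiv ℝ (fun θ => reL (P θ)) θ = reL.comp (mM.comp (fderiv ℝ L θ) - oR) :=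
      (reL.hasFDerivAt.comp θ (hPder θ)).fderiv
    have h4 : fderiv ℝ (fun θ => imL (P θ)) θ = imL.comp (mM.comp (fderiv ℝ L θ) - oR) :=
      (imL.hasFDerivAt.comp θ (hPder θ)).fderiv
    rw [h3, h4]
    have h5 : (1 + Tor.Jm (reL.comp (mM.comp (fderiv ℝ L θ) - oR)) +
        I • Tor.Jm (imL.comp (mM.comp (fderiv ℝ L θ) - oR))) =
        M * (Matrix.of fun i j => fderiv ℝ L θ (Pi.single j 1) i) := by
      ext i j
      rw [Matrix.mul_apply]
      have h6 : ∑ k, M i k * (Matrix.of fun i j => fderiv ℝ L θ (Pi.single j 1) i) k j =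
          mM (fderiv ℝ L θ (Pi.single j 1)) i := rfl
      rw [h6]
      set w : ℂ := mM (fderiv ℝ L θ (Pi.single j 1)) i with hw
      have h7 : oR (Pi.single j 1) i = (1 : Matrix (Fin d) (Fin d) ℂ) i j := by
        change (((Pi.single j (1 : ℝ) : Fin d → ℝ) i : ℝ) : ℂ) = _
        rw [Pi.single_apply, Matrix.one_apply]
        split_ifs <;> simp
      have h8 : Tor.Jm (reL.comp (mM.comp (fderiv ℝ L θ) - oR)) i j =
          (((w - (1 : Matrix (Fin d) (Fin d) ℂ) i j).re : ℝ) : ℂ) := by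
        rw [← h7]
        rfl
      have h9 : Tor.Jm (imL.comp (mM.comp (fderiv ℝ L θ) - oR)) i j =
          (((w - (1 : Matrix (Fin d) (Fin d) ℂ) i j).im : ℝ) : ℂ) := by
        rw [← h7]
        rfl
      rw [Matrix.add_apply, Matrix.add_apply, Matrix.smul_apply, h8, h9, smul_eq_mul, add_assoc,
        mul_comm I, Complex.re_add_im]
      ring
    rw [h5, Matrix.det_mul, hdet, mul_zero]
  simp_rw [h2] at h1
  rw [integral_zero] at h1
  have h3 : (volume (ZSpan.fundamentalDomain b)).toReal = 0 := by exact_mod_cast h1.symm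
  have h4 : volume (ZSpan.fundamentalDomain b) ≠ 0 := ZSpan.measure_fundamentalDomain_ne_zero b
  have h5 : volume (ZSpan.fundamentalDomain b) ≠ ⊤ :=
    (ZSpan.fundamentalDomain_isBounded b).measure_lt_top.ne
  exact (ENNReal.toReal_ne_zero.2 ⟨h4, h5⟩) h3

end MP2d36f7
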