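import Mathlib
import Pool.Agent.Lib_MP_2d36f7_ag.Coef
import Pool.Agent.Lib_MP_2d36f7_ag.Lift
import Pool.Agent.Lib_MP_2d36f7_ag.Wind
import Pool.Agent.Lib_MP_2d36f7_ag.Loops
import Pool.Agent.Lib_MP_2d36f7_ag.TwRot
import Pool.Agent.Lib_MP_2d36f7_ag.Torus

/-!
# The linear relation between the winding vectors of the rotations
-/

open Polynomial Complex Set Filter Topology

namespace MP2d36f7

variable {k n : ℕ}

/-- the torus of rotations -/
private noncomputable def xth (k : ℕ) (θ : Fin (k - 1) → ℝ) : Fin k → ℂ := fun i =>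
  exp (2 * Real.pi * I * ((∑ j : Fin (k - 1), if (i : ℕ) < (j : ℕ) + 2 then θ j else 0 : ℝ) : ℂ)) *
    ((i : ℕ) : ℂ)

private theorem contDiff_xth (k : ℕ) : ContDiff ℝ 1 (xth k) := by
  rw [contDiff_pi]
  intro i
  unfold xth
  refine ContDiff.mul ?_ contDiff_const
  refine ContDiff.cexp ?_
  refine ContDiff.mul contDiff_const ?_
  have hof : ContDiff ℝ 1 (fun t : ℝ => (t : ℂ)) := Complex.ofRealCLM.contDiff
  refine hof.comp ?_
  refine ContDiff.sum fun j _ => ?_
  by_cases h : (i : ℕ) < (j : ℕ) + 2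
  · simp only [h, if_true]
    exact contDiff_apply ℝ ℝ j
  · simp only [h, if_false]
    exact contDiff_const

private theorem norm_xth (θ : Fin (k - 1) → ℝ) (i : Fin k) : ‖xth k θ i‖ = (i : ℕ) := by
  unfold xth
  rw [norm_mul, Complex.norm_natCast]
  rw [show ∀ t : ℝ, (2 * Real.pi * I * (t : ℂ) : ℂ) = ((2 * Real.pi * t : ℝ) : ℂ) * I from
    fun t => by push_cast; ring]
  rw [Complex.norm_exp_ofReal_mul_I, one_mul]

private theorem xth_mem (θ : Fin (k - 1) → ℝ) : xth k θ ∈ Inj k := by
  intro a b h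
  have : (((a : ℕ) : ℝ)) = ((b : ℕ) : ℝ) := by
    rw [← norm_xth θ a, ← norm_xth θ b, h]
  exact Fin.ext (by exact_mod_cast this)

private theorem xth_zero (k : ℕ) : xth k 0 = x0 k := by
  funext i
  simp [xth, x0]

private theorem sum_single (i : Fin k) (j : Fin (k - 1)) (θ : Fin (k - 1) → ℝ) (t : ℝ) :
    (∑ j' : Fin (k - 1), if (i : ℕ) < (j' : ℕ) + 2 then
      (θ + t • (Pi.single j 1 : Fin (k - 1) → ℝ)) j' else 0 : ℝ) =
    (∑ j' : Fin (k - 1), if (i : ℕ) < (j' : ℕ) + 2 then θ j' else 0 : ℝ) +
      if (i : ℕ) < (j : ℕ) + 2 then t else 0 := by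
  have h : (if (i : ℕ) < (j : ℕ) + 2 then t else 0 : ℝ) =
      ∑ j' : Fin (k - 1), if j' = j then (if (i : ℕ) < (j' : ℕ) + 2 then t else 0) else 0 := by
    rw [Finset.sum_ite_eq' Finset.univ j]
    simp
  rw [h, ← Finset.sum_add_distrib]
  refine Finset.sum_congr rfl fun j' _ => ?_
  rcases eq_or_ne j' j with h | h
  · subst h
    by_cases h2 : (i : ℕ) < (j' : ℕ) + 2 <;> simp [h2]
  · by_cases h2 : (i : ℕ) < (j' : ℕ) + 2 <;> simp [h2, h]

private theorem xth_single (k : ℕ) (j : Fin (k - 1)) (t : ℝ) :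
    xth k (t • (Pi.single j 1 : Fin (k - 1) → ℝ)) = rot k ((j : ℕ) + 2) t := by
  funext i
  have h := sum_single i j 0 t
  rw [zero_add] at h
  simp only [xth, rot, h]
  by_cases h2 : (i : ℕ) < (j : ℕ) + 2 <;> simp [h2]

private theorem xth_period (θ : Fin (k - 1) → ℝ) (j : Fin (k - 1)) :
    xth k (θ + (Pi.single j 1 : Fin (k - 1) → ℝ)) = xth k θ := by
  funext i
  have h := sum_single i j θ 1
  rw [one_smul] at h
  simp only [xth, h]
  by_cases h2 : (i : ℕ) < (j : ℕ) + 2
  · simp only [h2, if_true]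
    push_cast
    rw [mul_add, mul_one, Complex.exp_add, Complex.exp_two_pi_mul_I, mul_one]
  · simp only [h2, if_false, add_zero]

/-- a continuous logarithm of a `C^1` function is `C^1` -/
private theorem contDiff_clog {E : Type*} [NormedAddCommGroup E] [NormedSpace ℝ E] {u L : E → ℂ}
    (hu : ContDiff ℝ 1 u) (hL : Continuous L) (h : ∀ y, exp (L y) = u y) : ContDiff ℝ 1 L := by
  rw [contDiff_iff_contDiffAt]
  intro y
  have hball : ∀ᶠ z in 𝓝 y, L z - L y ∈ Metric.ball (0 : ℂ) 1 := by
    have : ContinuousAt (fun z => L z - L y) y := (hL.sub continuous_const).continuousAt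
    refine this ?_
    simp only [sub_self]
    exact Metric.ball_mem_nhds _ one_pos
  have hlog : ∀ᶠ z in 𝓝 y, L z = L y + log (u z / u y) := by
    filter_upwards [hball] with z hz
    rw [← h z, ← h y, ← Complex.exp_sub, Complex.log_exp]
    · ring
    · have h1 := Complex.abs_im_le_norm (L z - L y)
      have h2 : ‖L z - L y‖ < 1 := by simpa using hz
      have h3 := (abs_lt.1 (h1.trans_lt h2)).1
      have := Real.pi_gt_three
      linarith
    · have h1 := Complex.abs_im_le_norm (L z - L y)
      have h2 : ‖L z - L y‖ < 1 := by simpa using hz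
      have h3 := (abs_lt.1 (h1.trans_lt h2)).2
      have := Real.pi_gt_three
      linarith
  refine ContDiffAt.congr_of_eventuallyEq ?_ hlog
  refine contDiffAt_const.add ?_
  have hu0 : u y ≠ 0 := by
    rw [← h]
    exact Complex.exp_ne_zero _
  have h1 : ContDiffAt ℝ 1 (fun z => u z / u y) y := hu.contDiffAt.div_const _
  have h2 : ContDiffAt ℝ 1 log (u y / u y) := by
    refine ContDiffAt.restrict_scalars (𝕜' := ℂ) ℝ (Complex.contDiffAt_log ?_)
    rw [div_self hu0]
    exact Complex.one_mem_slitPlane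
  exact ContDiffAt.comp y h2 h1

private theorem fderiv_clog {E : Type*} [NormedAddCommGroup E] [NormedSpace ℝ E] {u L : E → ℂ}
    (hL : ContDiff ℝ 1 L) (h : ∀ y, exp (L y) = u y) (y v : E) :
    fderiv ℝ L y v = fderiv ℝ u y v / u y := by
  have h1 : HasFDerivAt L (fderiv ℝ L y) y := (hL.differentiable one_ne_zero y).hasFDerivAt
  have h2 : HasFDerivAt u (exp (L y) • fderiv ℝ L y) y := by
    have := h1.cexp
    have e : (fun y => exp (L y)) = u := funext h
    rwa [e] at this
  rw [h2.fderiv, _root_.smul_apply, ← h y, smul_eq_mul,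
    mul_div_cancel_left₀ _ (Complex.exp_ne_zero _)]

theorem relation (d : Dat k n) (hk : 2 ≤ k)
    (hrk : ∀ x ∈ Inj k, Module.finrank ℂ (LinearMap.range (fderiv ℂ d.F x).toLinearMap) + 2 ≤ k)
    {l₀ : Fin n → ℂ} (h₀ : coef l₀ = d.F (x0 k)) (r : ℕ → ℝ → Fin n → ℂ)
    (hr : ∀ j, 2 ≤ j → j ≤ k → IsLift d (rot k j) (r j) ∧ r j 0 = l₀) :
    ∃ a : ℕ → ℂ, (∃ j, 2 ≤ j ∧ j ≤ k ∧ a j ≠ 0) ∧
      ∀ p q, p ≠ q → ∑ j ∈ Finset.Icc 2 k, a j * V (r j) p q = 0 := by
  classical
  set N : ℕ := n.factorial with hN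
  have hNpos : (0 : ℝ) < (N : ℝ) := by exact_mod_cast Nat.factorial_pos n
  have hxc : ContDiff ℝ 1 (xth k) := contDiff_xth k
  obtain ⟨l, hl, hl0⟩ := exists_lift d hxc.continuous xth_mem 0 (l₀ := l₀) (by rw [h₀, xth_zero])
  have hlc : ContDiff ℝ 1 l := lift_contDiff d hxc xth_mem hl
  have hinj : ∀ θ, Function.Injective (l θ) := fun θ => lift_inj d (xth_mem θ) (hl.eq θ)
  -- restriction to the axes
  have haxis : ∀ (j : Fin (k - 1)) (t : ℝ),
      l (t • (Pi.single j 1 : Fin (k - 1) → ℝ)) = r ((j : ℕ) + 2) t := by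
    intro j
    have hj := hr ((j : ℕ) + 2) (by omega) (by omega)
    have h1 : IsLiftOn d univ (rot k ((j : ℕ) + 2))
        (fun t : ℝ => l (t • (Pi.single j 1 : Fin (k - 1) → ℝ))) :=
      ⟨(hl.cont.comp (by fun_prop)).continuousOn, fun t _ => by rw [hl.eq, xth_single]⟩
    have h2 : IsLiftOn d univ (rot k ((j : ℕ) + 2)) (r ((j : ℕ) + 2)) :=
      ⟨hj.1.cont.continuousOn, fun t _ => hj.1.eq t⟩
    have h3 := liftOn_eqOn d isPreconnected_univ (fun t _ => rot_mem k _ t) h1 h2
      (mem_univ (0 : ℝ)) (by rw [zero_smul, hl0, hj.2])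
    exact fun t => h3 (mem_univ t)
  -- periodicity
  have hper : ∀ (θ : Fin (k - 1) → ℝ) (j : Fin (k - 1)),
      l (θ + (N : ℝ) • (Pi.single j 1 : Fin (k - 1) → ℝ)) = l θ := by
    intro θ j
    have h1 : IsLift d (fun t : ℝ => xth k (θ + t • (Pi.single j 1 : Fin (k - 1) → ℝ)))
        (fun t : ℝ => l (θ + t • (Pi.single j 1 : Fin (k - 1) → ℝ))) :=
      ⟨hl.cont.comp (by fun_prop), fun t => by rw [hl.eq]⟩
    have h2 := lift_period_fact d (x := fun t : ℝ =>
      xth k (θ + t • (Pi.single j 1 : Fin (k - 1) → ℝ))) (hxc.continuous.comp (by fun_prop))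
      (fun t => xth_mem _) (fun t => by
        rw [add_smul, one_smul, ← add_assoc, xth_period]) h1 0
    simp only [zero_add, zero_smul, add_zero] at h2
    exact h2
  -- logarithms
  have hlog : ∀ pq : Fin n × Fin n, ∃ L : (Fin (k - 1) → ℝ) → ℂ, ContDiff ℝ 1 L ∧
      (pq.1 ≠ pq.2 → ∀ θ, exp (L θ) = l θ pq.1 - l θ pq.2) ∧ (pq.1 = pq.2 → L = fun _ => 0) := by
    rintro ⟨p, q⟩
    rcases eq_or_ne p q with h | h
    · exact ⟨fun _ => 0, contDiff_const, fun h' => absurd h h', fun _ => rfl⟩
    · have hu : ContDiff ℝ 1 fun θ => l θ p - l θ q :=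
        ((contDiff_apply ℝ ℂ p).comp hlc).sub ((contDiff_apply ℝ ℂ q).comp hlc)
      obtain ⟨L, hL, hLe⟩ := exists_clog hu.continuous
        (fun θ => sub_ne_zero.2 fun h' => h (hinj θ h'))
      exact ⟨L, contDiff_clog hu hL hLe, fun _ => hLe, fun h' => absurd h' h⟩
  choose L hLc hLe hL0 using hlog
  -- the winding vectors
  set v : Fin (k - 1) → (Fin n × Fin n → ℂ) := fun j pq =>
    if pq.1 = pq.2 then 0 else V (r ((j : ℕ) + 2)) pq.1 pq.2 with hv
  have hLper : ∀ (pq : Fin n × Fin n) (θ : Fin (k - 1) → ℝ) (j : Fin (k - 1)),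
      L pq (θ + (N : ℝ) • (Pi.single j 1 : Fin (k - 1) → ℝ)) =
        L pq θ + 2 * Real.pi * I * v j pq := by
    intro pq θ j
    rcases eq_or_ne pq.1 pq.2 with h | h
    · rw [hL0 pq h]
      simp [hv, h]
    · have h1 : ∀ θ : Fin (k - 1) → ℝ,
          exp (L pq (θ + (N : ℝ) • (Pi.single j 1 : Fin (k - 1) → ℝ)) - L pq θ) = 1 := by
        intro θ
        rw [Complex.exp_sub, hLe pq h, hLe pq h, hper]
        exact div_self (sub_ne_zero.2 fun h' => h (hinj θ h'))
      have h2 : Continuous fun θ : Fin (k - 1) → ℝ =>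
          L pq (θ + (N : ℝ) • (Pi.single j 1 : Fin (k - 1) → ℝ)) - L pq θ :=
        ((hLc pq).continuous.comp (by fun_prop)).sub (hLc pq).continuous
      have h3 := const_of_exp_const h2 h1 θ 0
      simp only [zero_add] at h3
      have h4 : V (r ((j : ℕ) + 2)) pq.1 pq.2 =
          (L pq ((N : ℝ) • (Pi.single j 1 : Fin (k - 1) → ℝ)) - L pq 0) / (2 * Real.pi * I) := by
        have hw := wnd_eq (u := fun t : ℝ => r ((j : ℕ) + 2) t pq.1 - r ((j : ℕ) + 2) t pq.2)
          (L := fun t : ℝ => L pq (t • (Pi.single j 1 : Fin (k - 1) → ℝ)))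
          ((hLc pq).continuous.comp (by fun_prop)) (fun t => by
            rw [hLe pq h, haxis]) 0 (N : ℝ)
        simp only [zero_smul] at hw
        exact hw
      have h5 : v j pq = V (r ((j : ℕ) + 2)) pq.1 pq.2 := by
        simp [hv, h]
      rw [h5, h4, mul_div_cancel₀ _ Complex.two_pi_I_ne_zero]
      linear_combination h3
  -- the winding vectors are linearly dependent
  have hdep : ¬ LinearIndependent ℂ v := by
    intro hind
    have hker : LinearMap.ker (Fintype.linearCombination ℂ v) = ⊥ := by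
      rw [LinearMap.ker_eq_bot']
      intro g hg
      rw [Fintype.linearCombination_apply] at hg
      funext i
      exact (Fintype.linearIndependent_iff.1 hind) g hg i
    obtain ⟨φ, hφ⟩ := LinearMap.exists_leftInverse_of_injective _ hker
    have hφv : ∀ j, φ (v j) = Pi.single j 1 := by
      intro j
      have h1 : Fintype.linearCombination ℂ v (Pi.single j 1) = v j := by
        rw [Fintype.linearCombination_apply]
        simp [Pi.single_apply, ite_smul]
      rw [← h1, ← LinearMap.comp_apply, hφ, LinearMap.id_apply]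
    set Φ : (Fin n × Fin n → ℂ) →L[ℝ] (Fin (k - 1) → ℂ) :=
      (LinearMap.toContinuousLinearMap φ).restrictScalars ℝ with hΦ
    have hΦφ : ∀ w, Φ w = φ w := fun w => rfl
    set LL : (Fin (k - 1) → ℝ) → (Fin (k - 1) → ℂ) := fun θ => Φ (fun pq => L pq θ) with hLL
    have hLvec : ContDiff ℝ 1 fun θ : Fin (k - 1) → ℝ => fun pq : Fin n × Fin n => L pq θ :=
      contDiff_pi.2 hLc
    have hLLc : ContDiff ℝ 1 LL := Φ.contDiff.comp hLvec
    have hBdet := torus_det hNpos hLLc (Matrix.of fun i j => if i = j then 2 * Real.pi * I else 0)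
      (by
        intro θ j
        have e : (fun pq => L pq (θ + (N : ℝ) • (Pi.single j 1 : Fin (k - 1) → ℝ))) =
            (fun pq => L pq θ) + (2 * Real.pi * I : ℂ) • v j := by
          funext pq
          rw [hLper]
          rfl
        simp only [hLL]
        rw [e, map_add, hΦφ ((2 * Real.pi * I : ℂ) • v j), map_smul, hφv]
        congr 1
        funext i
        simp [Pi.single_apply])
      (by
        intro θ
        -- linear dependence of the partial derivatives
        obtain ⟨M, hM⟩ := lift_fderiv d hxc xth_mem hl θ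
        set w : Fin (k - 1) → (Fin n → ℂ) := fun j =>
          fderiv ℂ d.F (xth k θ) (fderiv ℝ (xth k) θ (Pi.single j 1)) with hw
        have hwdep : ¬ LinearIndependent ℂ w := by
          intro hwi
          have hspan : Submodule.span ℂ (range w) ≤
              LinearMap.range (fderiv ℂ d.F (xth k θ)).toLinearMap := by
            rw [Submodule.span_le]
            rintro _ ⟨j, rfl⟩
            exact ⟨_, rfl⟩
          have h1 := Submodule.finrank_mono hspan
          rw [finrank_span_eq_card hwi, Fintype.card_fin] at h1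
          have h2 := hrk (xth k θ) (xth_mem θ)
          omega
        rw [Fintype.not_linearIndependent_iff] at hwdep
        obtain ⟨b, hb, i₀, hi₀⟩ := hwdep
        have hbl : ∑ j, b j • fderiv ℝ l θ (Pi.single j 1) = 0 := by
          have : ∑ j, b j • fderiv ℝ l θ (Pi.single j 1) = M (∑ j, b j • w j) := by
            rw [map_sum]
            refine Finset.sum_congr rfl fun j _ => ?_
            rw [map_smul, hM]
          rw [this, hb, map_zero]
        have hbL : ∀ pq : Fin n × Fin n, ∑ j, b j * fderiv ℝ (L pq) θ (Pi.single j 1) = 0 := by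
          intro pq
          rcases eq_or_ne pq.1 pq.2 with h | h
          · rw [hL0 pq h]
            simp
          · have hcomp : ∀ (p : Fin n) (u : Fin (k - 1) → ℝ),
                fderiv ℝ (fun θ => l θ p) θ u = fderiv ℝ l θ u p := by
              intro p u
              have h1 : HasFDerivAt l (fderiv ℝ l θ) θ :=
                (hlc.differentiable one_ne_zero θ).hasFDerivAt
              have h2 := (hasFDerivAt_pi'.1 h1) p
              rw [h2.fderiv]
              rfl
            have h1 : ∀ j : Fin (k - 1), fderiv ℝ (L pq) θ (Pi.single j 1) =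
                (fderiv ℝ l θ (Pi.single j 1) pq.1 - fderiv ℝ l θ (Pi.single j 1) pq.2) /
                  (l θ pq.1 - l θ pq.2) := by
              intro j
              rw [fderiv_clog (u := fun θ => l θ pq.1 - l θ pq.2) (hLc pq) (hLe pq h)]
              congr 1
              have hd : ∀ p : Fin n, DifferentiableAt ℝ (fun θ => l θ p) θ := fun p =>
                ((contDiff_apply ℝ ℂ p).comp hlc).differentiable one_ne_zero θ
              rw [← hcomp, ← hcomp]
              have h3 := ((hd pq.1).hasFDerivAt.sub (hd pq.2).hasFDerivAt).fderiv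
              have h4 : (fun θ => l θ pq.1 - l θ pq.2) =
                ((fun θ => l θ pq.1) - fun θ => l θ pq.2) := rfl
              rw [h4, h3]
              rfl
            have h2 : ∑ j, b j * fderiv ℝ (L pq) θ (Pi.single j 1) =
                ((∑ j, b j • fderiv ℝ l θ (Pi.single j 1)) pq.1 -
                  (∑ j, b j • fderiv ℝ l θ (Pi.single j 1)) pq.2) / (l θ pq.1 - l θ pq.2) := by
              rw [Finset.sum_apply, Finset.sum_apply, ← Finset.sum_sub_distrib, Finset.sum_div]
              refine Finset.sum_congr rfl fun j _ => ?_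
              rw [h1]
              simp only [Pi.smul_apply, smul_eq_mul]
              ring
            rw [h2, hbl]
            simp
        rw [← Matrix.exists_mulVec_eq_zero_iff]
        refine ⟨b, fun h => hi₀ (by rw [h]; rfl), ?_⟩
        have hfd : ∀ u : Fin (k - 1) → ℝ, fderiv ℝ LL θ u =
            Φ (fun pq => fderiv ℝ (L pq) θ u) := by
          intro u
          have h1 : HasFDerivAt (fun θ : Fin (k - 1) → ℝ => fun pq : Fin n × Fin n => L pq θ)
              (ContinuousLinearMap.pi fun pq => fderiv ℝ (L pq) θ) θ :=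
            hasFDerivAt_pi.2 fun pq => ((hLc pq).differentiable one_ne_zero θ).hasFDerivAt
          have h2 : HasFDerivAt LL (Φ.comp (ContinuousLinearMap.pi fun pq => fderiv ℝ (L pq) θ)) θ :=
            Φ.hasFDerivAt.comp θ h1
          rw [h2.fderiv]
          rfl
        have hsum : ∑ j, b j • fderiv ℝ LL θ (Pi.single j 1) = 0 := by
          have : ∑ j, b j • fderiv ℝ LL θ (Pi.single j 1) =
              φ (∑ j, b j • fun pq => fderiv ℝ (L pq) θ (Pi.single j 1)) := by
            rw [map_sum]
            refine Finset.sum_congr rfl fun j _ => ?_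
            rw [map_smul, hfd, hΦφ]
          rw [this]
          have h0 : (∑ j, b j • fun pq => fderiv ℝ (L pq) θ (Pi.single j 1)) = 0 := by
            funext pq
            rw [Finset.sum_apply]
            exact hbL pq
          rw [h0, map_zero]
        funext i
        have := congrFun hsum i
        rw [Finset.sum_apply] at this
        rw [Matrix.mulVec, dotProduct]
        simp only [Matrix.of_apply, Pi.zero_apply]
        simp only [Pi.smul_apply, smul_eq_mul, Pi.zero_apply] at this
        rw [← this]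
        exact Finset.sum_congr rfl fun j _ => mul_comm _ _)
    have hB : (Matrix.of fun i j : Fin (k - 1) => if i = j then (2 * Real.pi * I : ℂ) else 0) =
        Matrix.diagonal fun _ => (2 * Real.pi * I : ℂ) := by
      ext i j
      rw [Matrix.of_apply, Matrix.diagonal_apply]
    rw [hB, Matrix.det_diagonal] at hBdet
    exact Finset.prod_ne_zero_iff.2 (fun _ _ => Complex.two_pi_I_ne_zero) hBdet
  rw [Fintype.not_linearIndependent_iff] at hdep
  obtain ⟨g, hg, i₀, hi₀⟩ := hdep
  refine ⟨fun j => if h : j - 2 < k - 1 then g ⟨j - 2, h⟩ else 0,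
    ⟨(i₀ : ℕ) + 2, by omega, by omega, ?_⟩, fun p q hpq => ?_⟩
  · have h1 : ((i₀ : ℕ) + 2 - 2) < k - 1 := by
      have := i₀.2
      omega
    show (if h : (i₀ : ℕ) + 2 - 2 < k - 1 then g ⟨(i₀ : ℕ) + 2 - 2, h⟩ else 0) ≠ 0
    rw [dif_pos h1]
    exact hi₀
  · have h1 := congrFun hg (p, q)
    rw [Finset.sum_apply] at h1
    simp only [Pi.smul_apply, smul_eq_mul, Pi.zero_apply, hv, if_neg hpq] at h1
    refine Eq.trans ?_ h1
    have h2 : Finset.Icc 2 k = Finset.image (fun i : Fin (k - 1) => (i : ℕ) + 2) Finset.univ := by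
      ext j
      simp only [Finset.mem_Icc, Finset.mem_image, Finset.mem_univ, true_and]
      constructor
      · rintro ⟨h2, h3⟩
        exact ⟨⟨j - 2, by omega⟩, by simp only; omega⟩
      · rintro ⟨i, rfl⟩
        have := i.2
        omega
    rw [h2, Finset.sum_image (fun a _ b _ hab => by
      apply Fin.ext
      have hab' : (a : ℕ) + 2 = (b : ℕ) + 2 := hab
      omega)]
    refine Finset.sum_congr rfl fun i _ => ?_
    have h3 : ((i : ℕ) + 2 - 2) < k - 1 := by
      have := i.2
      omega
    show (if h : (i : ℕ) + 2 - 2 < k - 1 then g ⟨(i : ℕ) + 2 - 2, h⟩ else 0) * _ = _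
    rw [dif_pos h3]
    rfl

end MP2d36f7
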