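import Mathlib
import Pool.Agent.Lib_MP_2d36f7_ag.Coef
import Pool.Agent.Lib_MP_2d36f7_ag.Lift
import Pool.Agent.Lib_MP_2d36f7_ag.Wind
import Pool.Agent.Lib_MP_2d36f7_ag.Loops
import Pool.Agent.Lib_MP_2d36f7_ag.TwRot

/-!
# If all the windings over the full rotation vanish then the exponent of the discriminant is `0`
-/

open Polynomial Complex Set Filter Topology

namespace MP2d36f7

variable {k n : ℕ}

private theorem wnd_self (u : ℝ → ℂ) (a : ℝ) : wnd u a a = 0 := by
  have := wnd_add u a a a
  simpa using this

/-- winding over several periods -/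
private theorem wnd_nat_period {u : ℝ → ℂ} (hu : Continuous u) (hu0 : ∀ t, u t ≠ 0)
    (hT : ∀ t, u (t + 1) = u t) (N : ℕ) : wnd u 0 (N : ℝ) = N * wnd u 0 1 := by
  induction N with
  | zero => simp [wnd_self]
  | succ N ih =>
    have h1 := wnd_period hu hu0 hT (N : ℝ) 0
    rw [zero_add] at h1
    push_cast
    rw [← wnd_add u 0 (N : ℝ) ((N : ℝ) + 1), ih, h1]
    ring

theorem j_eq_zero (hk : 2 ≤ k) (d : Dat k n)
    {j : ℤ} {G : (Fin k → ℂ) → ℂ} (hGc : ContinuousOn G (Inj k))
    (hG : ∀ x ∈ Inj k, ∀ l : Fin n → ℂ, coef l = d.F x → dsc l = dsc x ^ j * exp (G x))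
    {r : ℝ → Fin n → ℂ} (hr : IsLift d (rot k k) r) (hV : ∀ p q, p ≠ q → V r p q = 0) : j = 0 := by
  set N : ℕ := n.factorial with hN
  have hNpos : 0 < N := Nat.factorial_pos n
  have hmem := rot_mem k k
  have hinj : ∀ t, Function.Injective (r t) := fun t => lift_inj d (hmem t) (hr.eq t)
  -- the left hand side
  have hc : ∀ p, Continuous fun t => r t p := fun p => (continuous_apply p).comp hr.cont
  have hL : wnd (fun t => dsc (r t)) 0 (N : ℝ) = 0 := by
    have e : (fun t => dsc (r t)) = fun t => ∏ p ∈ Finset.univ, (fun (p : Fin n) (t : ℝ) =>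
        ∏ q ∈ Finset.univ, (fun (q : Fin n) (t : ℝ) =>
          if p < q then (r t p - r t q) ^ 2 else 1) q t) p t := rfl
    have hcq : ∀ p q : Fin n, Continuous fun t : ℝ =>
        if p < q then (r t p - r t q) ^ 2 else 1 := by
      intro p q
      by_cases h : p < q
      · simp only [h, if_true]
        exact ((hc p).sub (hc q)).pow 2
      · simp only [h, if_false]
        exact continuous_const
    have hnz : ∀ (p q : Fin n) (t : ℝ), (if p < q then (r t p - r t q) ^ 2 else 1 : ℂ) ≠ 0 := by
      intro p q t
      by_cases h : p < q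
      · simp only [h, if_true]
        exact pow_ne_zero _ (sub_ne_zero.2 fun h' => h.ne (hinj t h'))
      · simp only [h, if_false]
        exact one_ne_zero
    rw [e, wnd_prod]
    · refine Finset.sum_eq_zero fun p _ => ?_
      rw [wnd_prod]
      · refine Finset.sum_eq_zero fun q _ => ?_
        by_cases h : p < q
        · simp only [h, if_true]
          have h1 := wnd_pow (u := fun t => r t p - r t q) ((hc p).sub (hc q))
            (fun t => sub_ne_zero.2 fun h' => h.ne (hinj t h')) 2 0 (N : ℝ)
          rw [h1]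
          have h2 := hV p q h.ne
          simp only [V] at h2
          rw [h2, mul_zero]
        · simp only [h, if_false]
          exact wnd_const _ _ _
      · exact fun q _ => hcq p q
      · exact fun q _ t => hnz p q t
    · exact fun p _ => continuous_finsetProd _ fun q _ => hcq p q
    · exact fun p _ t => Finset.prod_ne_zero_iff.2 fun q _ => hnz p q t
  -- the right hand side
  have hcr := continuous_rot k k
  have hD : Continuous fun t => dsc (rot k k t) := (continuous_dsc k).comp hcr
  have hD0 : ∀ t, dsc (rot k k t) ≠ 0 := fun t => (dsc_ne_zero_iff _).2 (hmem t)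
  have hGr : Continuous fun t => G (rot k k t) := by
    have := hGc.comp (s := univ) hcr.continuousOn (fun t _ => hmem t)
    exact continuousOn_univ.1 this
  have hR : wnd (fun t => dsc (r t)) 0 (N : ℝ) = j * (N * ((k : ℂ) * (k - 1))) := by
    have e : (fun t => dsc (r t)) = fun t => (fun t => dsc (rot k k t) ^ j) t *
        (fun t => exp (G (rot k k t))) t := by
      funext t
      exact hG _ (hmem t) _ (hr.eq t)
    have hE : Continuous fun t => exp (G (rot k k t)) := Complex.continuous_exp.comp hGr
    rw [e, wnd_mul (hD.zpow₀ j fun t => Or.inl (hD0 t)) hE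
      (fun t => zpow_ne_zero _ (hD0 t)) (fun t => Complex.exp_ne_zero _), wnd_zpow hD hD0,
      wnd_exp hGr, wnd_nat_period hD hD0 (fun t => by rw [rot_add_one]), wnd_dsc_rot_self]
    have h1 : rot k k (N : ℝ) = rot k k 0 := by
      have : ∀ M : ℕ, rot k k (M : ℝ) = rot k k 0 := by
        intro M
        induction M with
        | zero => simp
        | succ M ih =>
          push_cast
          rw [rot_add_one, ih]
      exact this N
    rw [h1]
    simp
  rw [hL] at hR
  have hNC : (N : ℂ) ≠ 0 := by exact_mod_cast hNpos.ne'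
  have hkC : (k : ℂ) ≠ 0 := by
    have : k ≠ 0 := by omega
    exact_mod_cast this
  have hk1 : (k : ℂ) - 1 ≠ 0 := by
    have : k ≠ 1 := by omega
    intro h
    apply this
    have : (k : ℂ) = 1 := sub_eq_zero.1 h
    exact_mod_cast this
  have : (j : ℂ) = 0 := by
    rcases mul_eq_zero.1 hR.symm with h | h
    · exact h
    · exact absurd h (mul_ne_zero hNC (mul_ne_zero hkC hk1))
  exact_mod_cast this

end MP2d36f7
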