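import Pool.Agent.Lib_MP_2d36f7_ag.Coef
import Pool.Agent.Lib_MP_2d36f7_ag.Lift
import Pool.Agent.Lib_MP_2d36f7_ag.Scal
import Pool.Agent.Lib_MP_2d36f7_ag.Disc
import Pool.Agent.Lib_MP_2d36f7_ag.Cusp
import Pool.Agent.Lib_MP_2d36f7_ag.MV
import Pool.Agent.Lib_MP_2d36f7_ag.PathConn

/-!
# S7: if the rotation of two points is shape-trivial, the shape is constant
-/

open Polynomial Complex Set Filter Topology

namespace MP2d36f7

variable {k n : ℕ}

namespace S7aux

/-! ### triples of distinct indices and the ratios -/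

/-- triples of distinct indices -/
abbrev Trip (n : ℕ) : Type :=
  {t : Fin n × Fin n × Fin n // t.1 ≠ t.2.1 ∧ t.2.1 ≠ t.2.2 ∧ t.1 ≠ t.2.2}

/-- all ratios -/
noncomputable def rr (l : Fin n → ℂ) (t : Trip n) : ℂ := R l t.1.1 t.1.2.1 t.1.2.2

/-- permutation of the triples induced by a permutation of the indices -/
def tripPerm (τ : Equiv.Perm (Fin n)) : Equiv.Perm (Trip n) where
  toFun t := ⟨(τ t.1.1, τ t.1.2.1, τ t.1.2.2),
    τ.injective.ne t.2.1, τ.injective.ne t.2.2.1, τ.injective.ne t.2.2.2⟩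
  invFun t := ⟨(τ.symm t.1.1, τ.symm t.1.2.1, τ.symm t.1.2.2),
    τ.symm.injective.ne t.2.1, τ.symm.injective.ne t.2.2.1, τ.symm.injective.ne t.2.2.2⟩
  left_inv t := by
    apply Subtype.ext
    simp
  right_inv t := by
    apply Subtype.ext
    simp

lemma rr_perm (l : Fin n → ℂ) (τ : Equiv.Perm (Fin n)) : rr (l ∘ τ) = rr l ∘ tripPerm τ := rfl

lemma rr_smul (l : Fin n → ℂ) {χ : ℂ} (hχ : χ ≠ 0) : rr (χ • l) = rr l := by
  funext t
  simp only [rr, R, Pi.smul_apply, smul_eq_mul, ← mul_sub]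
  exact mul_div_mul_left _ _ hχ

lemma rr_of_coef_eq {l l' : Fin n → ℂ} (h : coef l = coef l') :
    ∃ e : Equiv.Perm (Trip n), rr l' = rr l ∘ e := by
  obtain ⟨σ, hσ⟩ := exists_perm_of_coef_eq h
  exact ⟨tripPerm σ, by rw [hσ, rr_perm]⟩

lemma rr_contOn {D : Type*} [TopologicalSpace D] {S : Set D} {l : D → Fin n → ℂ}
    (hl : ContinuousOn l S) (hi : ∀ y ∈ S, l y ∈ Inj n) (t : Trip n) :
    ContinuousOn (fun y => rr (l y) t) S := by
  have h : ∀ i, ContinuousOn (fun y => l y i) S := fun i => (continuous_apply i).comp_continuousOn hl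
  refine ((h _).sub (h _)).div ((h _).sub (h _)) ?_
  intro y hy h0
  exact t.2.2.1 (hi y hy (sub_eq_zero.mp h0)).symm

lemma rr_diffOn {S : Set ℂ} {l : ℂ → Fin n → ℂ}
    (hl : DifferentiableOn ℂ l S) (hi : ∀ y ∈ S, l y ∈ Inj n) (t : Trip n) :
    DifferentiableOn ℂ (fun y => rr (l y) t) S := by
  have h : ∀ i, DifferentiableOn ℂ (fun y => l y i) S := fun i => by
    rw [differentiableOn_pi] at hl
    exact hl i
  refine ((h _).sub (h _)).div ((h _).sub (h _)) ?_
  intro y hy h0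
  exact t.2.2.1 (hi y hy (sub_eq_zero.mp h0)).symm

/-- configurations with the same ratios and centre `0` are proportional -/
lemma smul_of_rr (hn : 3 ≤ n) {l l' : Fin n → ℂ} (hl : l ∈ Inj n) (hl' : l' ∈ Inj n)
    (h0 : ∑ i, l i = 0) (h0' : ∑ i, l' i = 0) (h : rr l' = rr l) :
    ∃ χ : ℂ, χ ≠ 0 ∧ l' = χ • l := by
  let i0 : Fin n := ⟨0, by omega⟩
  let i1 : Fin n := ⟨1, by omega⟩
  have h01 : i0 ≠ i1 := by
    intro h
    have := congrArg Fin.val h
    simp [i0, i1] at this
  have hd : l i1 - l i0 ≠ 0 := sub_ne_zero.mpr (fun h => h01 (hl h).symm)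
  have hd' : l' i1 - l' i0 ≠ 0 := sub_ne_zero.mpr (fun h => h01 (hl' h).symm)
  set χ : ℂ := (l' i1 - l' i0) / (l i1 - l i0) with hχ
  have hχ0 : χ ≠ 0 := div_ne_zero hd' hd
  have key : ∀ p, l' p - l' i0 = χ * (l p - l i0) := by
    intro p
    by_cases hp0 : p = i0
    · rw [hp0]; simp
    by_cases hp1 : p = i1
    · rw [hp1, hχ]; field_simp
    have h1 := congrFun h ⟨(p, i0, i1), hp0, h01, hp1⟩
    simp only [rr, R] at h1
    rw [div_eq_div_iff hd' hd] at h1
    rw [hχ]
    field_simp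
    linear_combination h1
  have hc : ∀ p, l' p = χ * l p + (l' i0 - χ * l i0) := fun p => by
    linear_combination key p
  have hsum : ∑ p, l' p = χ * ∑ p, l p + n * (l' i0 - χ * l i0) := by
    rw [Finset.sum_congr rfl fun p _ => hc p, Finset.sum_add_distrib, ← Finset.mul_sum,
      Finset.sum_const, Finset.card_univ, Fintype.card_fin, nsmul_eq_mul]
  rw [h0, h0', mul_zero, zero_add] at hsum
  have hn0 : (n : ℂ) ≠ 0 := by
    have : n ≠ 0 := by omega
    exact_mod_cast this
  have hz : l' i0 - χ * l i0 = 0 := by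
    rcases mul_eq_zero.mp hsum.symm with h | h
    · exact absurd h hn0
    · exact h
  refine ⟨χ, hχ0, ?_⟩
  funext p
  rw [hc p, hz, add_zero]
  rfl

/-! ### local lifts -/

lemma s7_local (d : Dat k n) {x₀ : Fin k → ℂ} (hx₀ : x₀ ∈ Inj k) {l₀ : Fin n → ℂ}
    (h₀ : coef l₀ = d.F x₀) :
    ∃ δ : ℝ, 0 < δ ∧ Metric.ball x₀ δ ⊆ Inj k ∧ ∃ L : (Fin k → ℂ) → Fin n → ℂ,
      IsLiftOn d (Metric.ball x₀ δ) id L ∧ L x₀ = l₀ := by
  obtain ⟨δ, hδ, hsub⟩ := Metric.isOpen_iff.mp (isOpen_Inj k) x₀ hx₀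
  refine ⟨δ, hδ, hsub, ?_⟩
  have hst : StarConvex ℝ x₀ (Metric.ball x₀ δ) :=
    (convex_ball x₀ δ).starConvex (Metric.mem_ball_self hδ)
  obtain ⟨L, hL, hL0⟩ := exists_liftOn d Metric.isOpen_ball hst (Metric.mem_ball_self hδ)
    (x := id) continuousOn_id (fun y hy => hsub hy) (Metric.mem_ball_self hδ) h₀
  exact ⟨L, hL, hL0⟩

/-! ### generic directions -/

/-- generic directions at `x` -/
def Gen (x v : Fin k → ℂ) : Prop :=
  (∀ a b, a ≠ b → v a ≠ v b) ∧ ∀ a b c d : Fin k, a < b → c < d → (a, b) ≠ (c, d) →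
    (x a - x b) * (v c - v d) ≠ (x c - x d) * (v a - v b)

lemma exists_gen {x : Fin k → ℂ} (hx : x ∈ Inj k) (v₀ : Fin k → ℂ) {ε : ℝ} (hε : 0 < ε) :
    ∃ v ∈ Metric.ball v₀ ε, Gen x v := by
  let ι := {p : Fin k × Fin k // p.1 ≠ p.2} ⊕
    {q : (Fin k × Fin k) × (Fin k × Fin k) // q.1.1 < q.1.2 ∧ q.2.1 < q.2.2 ∧ q.1 ≠ q.2}
  let pr : Fin k → ((Fin k → ℂ) →ₗ[ℂ] ℂ) := fun a => LinearMap.proj a
  let f : ι → ((Fin k → ℂ) →ₗ[ℂ] ℂ) := fun i => match i with
    | Sum.inl p => pr p.1.1 - pr p.1.2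
    | Sum.inr q => (x q.1.1.1 - x q.1.1.2) • (pr q.1.2.1 - pr q.1.2.2) -
        (x q.1.2.1 - x q.1.2.2) • (pr q.1.1.1 - pr q.1.1.2)
  have hf : ∀ i, f i ≠ 0 := by
    rintro (⟨⟨a, b⟩, hab⟩ | ⟨⟨⟨a, b⟩, ⟨c, e⟩⟩, hab, hce, hne⟩) h0
    · have h1 := congrArg (fun g : (Fin k → ℂ) →ₗ[ℂ] ℂ => g (Pi.single a 1)) h0
      simp only at hab
      simp [f, pr, hab.symm] at h1
    · simp only at hab hce hne
      have hxab : x a - x b ≠ 0 := sub_ne_zero.mpr (fun h => hab.ne (hx h))
      have hcd : (c ≠ a ∧ c ≠ b) ∨ (e ≠ a ∧ e ≠ b) := by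
        by_contra hcon
        push Not at hcon
        obtain ⟨h1, h2⟩ := hcon
        apply hne
        have ha := a.isLt
        by_cases hca : c = a
        · by_cases hea : e = a
          · omega
          · have := h2 hea
            rw [hca, this]
        · have hcb := h1 hca
          by_cases hea : e = a
          · subst hcb hea
            exact absurd hab (not_lt.mpr hce.le)
          · have := h2 hea
            subst hcb this
            exact absurd hce (lt_irrefl _)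
      rcases hcd with ⟨h1, h2⟩ | ⟨h1, h2⟩
      · have h3 := congrArg (fun g : (Fin k → ℂ) →ₗ[ℂ] ℂ => g (Pi.single c 1)) h0
        simp [f, pr, h1.symm, h2.symm, hce.ne'] at h3
        exact hxab h3
      · have h3 := congrArg (fun g : (Fin k → ℂ) →ₗ[ℂ] ℂ => g (Pi.single e 1)) h0
        simp [f, pr, h1.symm, h2.symm, hce.ne] at h3
        exact hxab (by rw [← neg_sub, neg_eq_zero]; linear_combination h3)
  obtain ⟨v, hv⟩ := (isPathConnected_compl_hyperplanes (Metric.isOpen_ball (x := v₀) (ε := ε))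
    (convex_ball v₀ ε) ⟨v₀, Metric.mem_ball_self hε⟩ f hf).nonempty
  refine ⟨v, hv.1, ?_, ?_⟩
  · intro a b hab h
    have := hv.2 (Sum.inl ⟨(a, b), hab⟩)
    apply this
    simp [f, pr, h]
  · intro a b c e hab hce hne h
    have := hv.2 (Sum.inr ⟨((a, b), (c, e)), hab, hce, hne⟩)
    apply this
    simp [f, pr, h]

/-! ### configurations on a line -/

/-- the configuration `x + s v` -/
def ln (x v : Fin k → ℂ) (s : ℂ) : Fin k → ℂ := fun a => x a + s * v a

lemma ln_eq (x v : Fin k → ℂ) (s : ℂ) : ln x v s = x + s • v := by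
  funext a
  simp [ln]

open Classical in
/-- the ratios of the roots over the point `s` of the line -/
noncomputable def xi (d : Dat k n) (x v : Fin k → ℂ) (s : ℂ) : Trip n → ℂ :=
  if h : ln x v s ∈ Inj k then rr (d.reg _ h).choose else 0

lemma xi_eq (d : Dat k n) {x v : Fin k → ℂ} {s : ℂ} (h : ln x v s ∈ Inj k) {l : Fin n → ℂ}
    (hl : coef l = d.F (ln x v s)) : ∃ e : Equiv.Perm (Trip n), xi d x v s = rr l ∘ e := by
  rw [xi, dif_pos h]
  apply rr_of_coef_eq
  rw [hl, (d.reg _ h).choose_spec.2]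

lemma xi_bound (d : Dat k n) {x v : Fin k → ℂ} {s : ℂ} (h : ln x v s ∈ Inj k) {l : Fin n → ℂ}
    (hl : coef l = d.F (ln x v s)) {K : ℝ} (hK : ∀ t, ‖rr l t‖ ≤ K) (t : Trip n) :
    ‖xi d x v s t‖ ≤ K := by
  obtain ⟨e, he⟩ := xi_eq d h hl
  rw [he]
  exact hK _

/-- near a collision of two points the ratios are bounded -/
lemma s7_cusp (hk : 3 ≤ k) (d : Dat k n) (hT : Triv d (rot k 2)) {x v : Fin k → ℂ}
    (hv : Gen x v) {a b : Fin k} (hab : a < b) {e : ℂ} (he : x a + e * v a = x b + e * v b) :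
    ∃ K : ℝ, ∀ᶠ s in 𝓝[≠] e, ∀ t, ‖xi d x v s t‖ ≤ K := by
  classical
  set c0 : ℂ := x a + e * v a with hc0
  -- the other pairs do not collide
  have hother : ∀ c c' : Fin k, c < c' → (a, b) ≠ (c, c') → x c + e * v c ≠ x c' + e * v c' := by
    intro c c' hcc hne h
    have h1 := hv.2 a b c c' hab hcc hne
    apply h1
    have e1 : x a - x b = -(e * (v a - v b)) := by linear_combination he
    have e2 : x c - x c' = -(e * (v c - v c')) := by linear_combination h
    rw [e1, e2]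
    ring
  have hother' : ∀ c c' : Fin k, c ≠ c' → ¬ (c ∈ ({a, b} : Finset (Fin k)) ∧
      c' ∈ ({a, b} : Finset (Fin k))) → x c + e * v c ≠ x c' + e * v c' := by
    intro c c' hcc hne
    rcases lt_or_gt_of_ne hcc with h | h
    · apply hother c c' h
      intro heq
      rw [Prod.mk.injEq] at heq
      apply hne
      simp [heq.1, heq.2]
    · intro h2
      apply hother c' c h
      · intro heq
        rw [Prod.mk.injEq] at heq
        apply hne
        simp [heq.1, heq.2]
      · exact h2.symm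
  let S : Finset (Fin k) := {a, b}
  have hScard : S.card = 2 := Finset.card_pair hab.ne
  let u : ℂ → Fin k → ℂ := fun τ c => if c ∈ S then v c else x c + (e + τ) * v c
  have hconf : ∀ τ : ℂ, (fun c => if c ∈ S then c0 + τ * u τ c else u τ c) = ln x v (e + τ) := by
    intro τ
    funext c
    by_cases hc : c ∈ S
    · simp only [hc, if_true, u, ln]
      have hc' : c = a ∨ c = b := by simpa [S] using hc
      rcases hc' with h | h
      · rw [h, hc0]; ring
      · rw [h, he]; ring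
    · simp only [hc, if_false, u, ln]
  have hu : ContinuousOn u (Metric.ball 0 1) := by
    refine Continuous.continuousOn ?_
    refine continuous_pi fun c => ?_
    by_cases hc : c ∈ S
    · simp only [u, hc, if_true]; exact continuous_const
    · simp only [u, hc, if_false]; fun_prop
  obtain ⟨ε₀, hε₀, hε₁, hInj, hTr⟩ := triv_cusp_iff d (i := 2) (by norm_num) (by omega) hScard
    (c := fun _ => c0) (u := u) one_pos continuousOn_const hu
    (by
      intro c hc c' hc' h
      simp only [u, hc, hc', if_true] at h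
      by_contra hne
      exact hv.1 c c' hne h)
    (by
      intro c hc c' hc' h
      simp only [u, hc, hc', if_false, add_zero] at h
      by_contra hne
      exact hother' c c' hne (fun h => hc h.1) h)
    (by
      intro c hc h
      simp only [u, hc, if_false, add_zero] at h
      have hca : c ≠ a := by rintro rfl; exact hc (by simp [S])
      exact hother' c a hca (fun h => hc h.1) h)
  simp only [hconf] at hInj hTr
  set bb : ℝ := Real.log ε₀ with hbb
  set y : ℂ → Fin k → ℂ := fun z => ln x v (e + exp z) with hy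
  have hlt : ∀ z : ℂ, z.re < bb → ‖exp z‖ < ε₀ := by
    intro z hz
    rw [Complex.norm_exp, ← Real.lt_log_iff_exp_lt hε₀]
    exact hz
  have hyi : ∀ z : ℂ, z.re < bb → y z ∈ Inj k := fun z hz => hInj _ (exp_ne_zero z) (hlt z hz)
  have hyd : Differentiable ℂ y := by
    rw [differentiable_pi]
    intro c
    simp only [hy, ln]
    fun_prop
  have hper : ∀ z : ℂ, z.re < bb → d.F (y (z + 2 * Real.pi * I)) = d.F (y z) := by
    intro z _
    simp only [hy, Complex.exp_periodic z]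
  -- a lift on the half plane
  have hopen : IsOpen {z : ℂ | z.re < bb} := isOpen_lt continuous_re continuous_const
  have hconv : Convex ℝ {z : ℂ | z.re < bb} := convex_halfSpace_re_lt bb
  have hy₁ : ((bb - 1 : ℝ) : ℂ) ∈ {z : ℂ | z.re < bb} := by simp
  obtain ⟨l₀, -, hl₀⟩ := d.reg _ (hyi _ hy₁)
  obtain ⟨l, hl, -⟩ := exists_liftOn d hopen (hconv.starConvex hy₁) hy₁
    hyd.continuous.continuousOn (fun z hz => hyi z hz) hy₁ hl₀
  have ha : bb - 1 < bb := by linarith
  have hTl : Triv d (fun t => y (((bb - 1 : ℝ) : ℂ) + 2 * Real.pi * I * t)) := by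
    have h1 := (hTr (Real.exp (bb - 1)) (Real.exp_pos _) (by
      rw [← Real.lt_log_iff_exp_lt hε₀]; exact ha)).mpr hT
    have h2 : (fun t : ℝ => y (((bb - 1 : ℝ) : ℂ) + 2 * Real.pi * I * t)) = fun t : ℝ =>
        ln x v (e + ((Real.exp (bb - 1) : ℝ) : ℂ) * exp (2 * Real.pi * I * t)) := by
      funext t
      simp only [hy]
      rw [exp_add, Complex.ofReal_exp]
    rw [h2]
    have h3 : (fun t : ℝ => ln x v (e + ((Real.exp (bb - 1) : ℝ) : ℂ) *
        exp (2 * Real.pi * I * t))) = fun (t : ℝ) a => if a ∈ S then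
          c0 + ((Real.exp (bb - 1) : ℝ) : ℂ) * exp (2 * Real.pi * I * t) *
            u (((Real.exp (bb - 1) : ℝ) : ℂ) * exp (2 * Real.pi * I * t)) a
          else u (((Real.exp (bb - 1) : ℝ) : ℂ) * exp (2 * Real.pi * I * t)) a := by
      funext t
      exact (hconf _).symm
    rw [h3]
    exact h1
  have hlim : ∀ t : Trip n, ∃ K : ℝ, ∀ᶠ z in comap Complex.re atBot, ‖rr (l z) t‖ ≤ K := by
    intro t
    obtain ⟨c, -, -, hc⟩ := cusp_limit d hyd.differentiableOn hyi hper hl ha hTl t.2.1 t.2.2.1 t.2.2.2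
    exact ⟨‖c‖ + 1, (hc.norm.eventually_le_const (lt_add_one _))⟩
  choose K hK using hlim
  refine ⟨∑ t, |K t|, ?_⟩
  have hall : ∀ᶠ z in comap Complex.re atBot, ∀ t, ‖rr (l z) t‖ ≤ ∑ t, |K t| := by
    rw [eventually_all]
    intro t
    refine (hK t).mono fun z hz => hz.trans ((le_abs_self _).trans ?_)
    exact Finset.single_le_sum (f := fun t => |K t|) (fun i _ => abs_nonneg _) (Finset.mem_univ t)
  rw [eventually_comap, eventually_atBot] at hall
  obtain ⟨b', hb'⟩ := hall
  have hnear : ∀ᶠ s in 𝓝[≠] e, ‖s - e‖ < Real.exp (min b' (bb - 1)) ∧ s ≠ e := by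
    refine (eventually_nhdsWithin_of_eventually_nhds ?_).and eventually_mem_nhdsWithin
    have : Tendsto (fun s : ℂ => ‖s - e‖) (𝓝 e) (𝓝 0) := by
      have h : Continuous fun s : ℂ => ‖s - e‖ := by fun_prop
      have := h.tendsto e
      simpa using this
    exact this.eventually_lt_const (Real.exp_pos _)
  refine hnear.mono fun s hs t => ?_
  obtain ⟨hs1, hs2⟩ := hs
  have hse : s - e ≠ 0 := sub_ne_zero.mpr hs2
  set z := Complex.log (s - e) with hz
  have hez : exp z = s - e := Complex.exp_log hse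
  have hre : z.re < min b' (bb - 1) := by
    rw [hz, Complex.log_re, Real.log_lt_iff_lt_exp (norm_pos_iff.mpr hse)]
    exact hs1
  have hzb : z.re < bb := (hre.trans_le (min_le_right _ _)).trans ha
  have hys : y z = ln x v s := by
    simp only [hy, hez]
    congr 1
    ring
  have hi := hyi z hzb
  rw [hys] at hi
  have hle := hl.eq z hzb
  rw [hys] at hle
  exact xi_bound d hi hle (hb' z.re ((hre.le).trans (min_le_left _ _)) z rfl) t

/-- near infinity the ratios are bounded -/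
lemma s7_inf (hn : 3 ≤ n) (d : Dat k n) {x v : Fin k → ℂ} (hv : v ∈ Inj k) :
    ∃ K : ℝ, ∀ᶠ s in cocompact ℂ, ∀ t, ‖xi d x v s t‖ ≤ K := by
  obtain ⟨l₀, -, hl₀⟩ := d.reg v hv
  obtain ⟨δ, hδ, hsub, L, hL, hL0⟩ := s7_local d hv hl₀
  have hLi : ∀ y ∈ Metric.ball v δ, L y ∈ Inj n := fun y hy => lift_inj d (hsub hy) (hL.eq y hy)
  have hlim : ∀ t : Trip n, ∃ K : ℝ, ∀ᶠ y in 𝓝 v, ‖rr (L y) t‖ ≤ K := by
    intro t
    have h1 := (rr_contOn hL.cont hLi t).continuousAt (Metric.ball_mem_nhds v hδ)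
    exact ⟨‖rr (L v) t‖ + 1, h1.norm.eventually_le_const (lt_add_one _)⟩
  choose K hK using hlim
  refine ⟨∑ t, |K t|, ?_⟩
  have hall : ∀ᶠ y in 𝓝 v, ∀ t, ‖rr (L y) t‖ ≤ ∑ t, |K t| := by
    rw [eventually_all]
    intro t
    refine (hK t).mono fun z hz => hz.trans ((le_abs_self _).trans ?_)
    exact Finset.single_le_sum (f := fun t => |K t|) (fun i _ => abs_nonneg _) (Finset.mem_univ t)
  rw [← Metric.cobounded_eq_cocompact]
  have htend : Tendsto (fun s : ℂ => s⁻¹ • x + v) (Bornology.cobounded ℂ) (𝓝 v) := by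
    have h1 : Tendsto (fun s : ℂ => s⁻¹ • x + v) (Bornology.cobounded ℂ) (𝓝 ((0 : ℂ) • x + v)) :=
      (tendsto_inv₀_cobounded.smul_const x).add_const v
    simpa using h1
  have h2 := (htend.eventually hall).and ((htend.eventually (Metric.ball_mem_nhds v hδ)).and
    (Bornology.eventually_ne_cobounded (0 : ℂ)))
  refine h2.mono fun s hs t => ?_
  obtain ⟨hs1, hs2, hs3⟩ := hs
  set y := s⁻¹ • x + v with hy
  have hyb : y ∈ Metric.ball v δ := hs2
  have hsy : s • y = ln x v s := by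
    rw [hy, ln_eq, smul_add, smul_smul, mul_inv_cancel₀ hs3, one_smul]
  obtain ⟨χ, hχ, hχl⟩ := scal_point hn d (hsub hyb) hs3
  have h3 := hχl (L y) (hL.eq y hyb)
  rw [hsy] at h3
  have h4 : ln x v s ∈ Inj k := by
    rw [← hsy]
    intro a b hab
    simp only [Pi.smul_apply, smul_eq_mul] at hab
    exact hsub hyb (mul_left_cancel₀ hs3 hab)
  refine xi_bound d h4 h3 (fun t => ?_) t
  rw [rr_smul _ hχ]
  exact hs1 t

/-- the ratios at two generic points agree up to a permutation -/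
lemma s7_line (hn : 3 ≤ n) (hk : 3 ≤ k) (d : Dat k n) (hT : Triv d (rot k 2)) {x v : Fin k → ℂ}
    (hx : x ∈ Inj k) (hv : Gen x v) (hxv : x + v ∈ Inj k) {l₀ l₁ : Fin n → ℂ}
    (h₀ : coef l₀ = d.F x) (h₁ : coef l₁ = d.F (x + v)) :
    ∃ e : Equiv.Perm (Trip n), rr l₁ = rr l₀ ∘ e := by
  classical
  let E : Finset ℂ := (Finset.univ.filter (fun p : Fin k × Fin k => p.1 < p.2)).image
    (fun p => -(x p.1 - x p.2) / (v p.1 - v p.2))
  have hE1 : ∀ s, s ∉ E → ln x v s ∈ Inj k := by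
    intro s hs a b hab
    by_contra hne
    have key : ∀ a b : Fin k, a < b → ln x v s a = ln x v s b → False := by
      intro a b hlt hab
      apply hs
      rw [Finset.mem_image]
      refine ⟨(a, b), by simp [hlt], ?_⟩
      simp only [ln] at hab
      have hvab : v a - v b ≠ 0 := sub_ne_zero.mpr (hv.1 a b hlt.ne)
      rw [div_eq_iff hvab]
      linear_combination -hab
    rcases lt_or_gt_of_ne hne with h | h
    · exact key a b h hab
    · exact key b a h hab.symm
  have hE2 : ∀ s, ln x v s ∈ Inj k → s ∉ E := by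
    intro s hs hsE
    rw [Finset.mem_image] at hsE
    obtain ⟨⟨a, b⟩, hlt, hab⟩ := hsE
    simp only [Finset.mem_filter, Finset.mem_univ, true_and] at hlt
    have hvab : v a - v b ≠ 0 := sub_ne_zero.mpr (hv.1 a b hlt.ne)
    simp only at hab
    rw [div_eq_iff hvab] at hab
    apply hlt.ne
    apply hs
    simp only [ln]
    linear_combination -hab
  have hvI : v ∈ Inj k := by
    intro a b hab
    by_contra hne
    exact hv.1 a b hne hab
  have h0 : ln x v 0 = x := by funext a; simp [ln]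
  have h1 : ln x v 1 = x + v := by funext a; simp [ln]
  obtain ⟨e, he⟩ := mv E (xi d x v)
    (by
      intro s₀ hs₀
      have hs₀' := hE1 s₀ hs₀
      have hcont : Continuous (ln x v) := by
        refine continuous_pi fun a => ?_
        simp only [ln]
        fun_prop
      have hopen : IsOpen (ln x v ⁻¹' Inj k) := (isOpen_Inj k).preimage hcont
      obtain ⟨δ, hδ, hsub⟩ := Metric.isOpen_iff.mp hopen s₀ hs₀'
      obtain ⟨l₂, -, hl₂⟩ := d.reg _ hs₀'
      have hst : StarConvex ℝ s₀ (Metric.ball s₀ δ) :=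
        (convex_ball s₀ δ).starConvex (Metric.mem_ball_self hδ)
      obtain ⟨l, hl, -⟩ := exists_liftOn d Metric.isOpen_ball hst (Metric.mem_ball_self hδ)
        hcont.continuousOn (fun s hs => hsub hs) (Metric.mem_ball_self hδ) hl₂
      have hdiff : DifferentiableOn ℂ (ln x v) (Metric.ball s₀ δ) := by
        refine Differentiable.differentiableOn ?_
        rw [differentiable_pi]
        intro a
        simp only [ln]
        fun_prop
      have hld := liftOn_holo d Metric.isOpen_ball hdiff (fun s hs => hsub hs) hl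
      refine ⟨fun s => rr (l s), fun t => ?_, ?_⟩
      · exact (rr_diffOn hld (fun s hs => lift_inj d (hsub hs) (hl.eq s hs)) t).analyticAt
          (Metric.ball_mem_nhds s₀ hδ)
      · filter_upwards [Metric.ball_mem_nhds s₀ hδ] with s hs
        exact xi_eq d (hsub hs) (hl.eq s hs))
    (by
      intro e he
      rw [Finset.mem_image] at he
      obtain ⟨⟨a, b⟩, hlt, hab⟩ := he
      simp only [Finset.mem_filter, Finset.mem_univ, true_and] at hlt
      have hvab : v a - v b ≠ 0 := sub_ne_zero.mpr (hv.1 a b hlt.ne)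
      simp only at hab
      rw [div_eq_iff hvab] at hab
      exact s7_cusp hk d hT hv hlt (by linear_combination -hab))
    (s7_inf hn d hvI) 0 (hE2 0 (by rw [h0]; exact hx)) 1 (hE2 1 (by rw [h1]; exact hxv))
  obtain ⟨e₀, he₀⟩ := xi_eq d (s := 0) (v := v) (by rw [h0]; exact hx) (by rw [h0]; exact h₀)
  obtain ⟨e₁, he₁⟩ := xi_eq d (x := x) (s := 1) (by rw [h1]; exact hxv) (by rw [h1]; exact h₁)
  rw [he₀, he₁] at he
  refine ⟨e₁.symm.trans (e.trans e₀), ?_⟩
  funext t
  have := congrFun he (e₁.symm t)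
  simp only [Function.comp_apply, Equiv.apply_symm_apply] at this
  simpa using this

/-- the ratios are locally constant -/
lemma s7_ball (hn : 3 ≤ n) (hk : 3 ≤ k) (d : Dat k n) (hT : Triv d (rot k 2)) {x₀ : Fin k → ℂ}
    {δ : ℝ} (hδ : 0 < δ) (hsub : Metric.ball x₀ δ ⊆ Inj k) {L : (Fin k → ℂ) → Fin n → ℂ}
    (hL : IsLiftOn d (Metric.ball x₀ δ) id L) {y : Fin k → ℂ} (hy : y ∈ Metric.ball x₀ δ) :
    rr (L y) = rr (L x₀) := by
  have hx₀ : x₀ ∈ Metric.ball x₀ δ := Metric.mem_ball_self hδ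
  have hLi : ∀ y ∈ Metric.ball x₀ δ, L y ∈ Inj n := fun y hy => lift_inj d (hsub hy) (hL.eq y hy)
  funext t
  have hc := rr_contOn hL.cont hLi t
  have hfin : (Set.range (rr (L x₀))).Finite := Set.finite_range _
  have hmaps : MapsTo (fun y => rr (L y) t) (Metric.ball x₀ δ) (Set.range (rr (L x₀))) := by
    intro y hy
    by_contra hne
    have hopen : IsOpen (Metric.ball x₀ δ ∩ (fun y => rr (L y) t) ⁻¹' (Set.range (rr (L x₀)))ᶜ) :=
      hc.isOpen_inter_preimage Metric.isOpen_ball hfin.isClosed.isOpen_compl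
    obtain ⟨ε, hε, hεs⟩ := Metric.isOpen_iff.mp hopen y ⟨hy, hne⟩
    obtain ⟨v, hv, hgen⟩ := exists_gen (hsub hx₀) (y - x₀) hε
    have hy' : x₀ + v ∈ Metric.ball y ε := by
      rw [Metric.mem_ball, dist_eq_norm] at hv ⊢
      have : x₀ + v - y = v - (y - x₀) := by abel
      rw [this]
      exact hv
    have h2 := hεs hy'
    obtain ⟨e, he⟩ := s7_line hn hk d hT (hsub hx₀) hgen (hsub h2.1) (hL.eq x₀ hx₀) (hL.eq _ h2.1)
    apply h2.2
    rw [Set.mem_range]
    exact ⟨e t, (congrFun he t).symm⟩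
  exact (convex_ball x₀ δ).isPreconnected.constant_of_mapsTo hfin.isDiscrete hc hmaps hy hx₀

end S7aux

open S7aux in
theorem shapeConst_of_triv_two (hn : 3 ≤ n) (hk : 3 ≤ k) (d : Dat k n)
    (hT : Triv d (rot k 2)) : ShapeConst d := by
  intro x hx hxi l hl
  have hli : ∀ t, l t ∈ Inj n := fun t => lift_inj d (hxi t) (hl.eq t)
  have hloc : IsLocallyConstant (fun t => rr (l t)) := by
    rw [IsLocallyConstant.iff_eventually_eq]
    intro t₀
    obtain ⟨δ, hδ, hsub, L, hL, hL0⟩ := s7_local d (hxi t₀) (hl.eq t₀)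
    obtain ⟨ε, hε, hεs⟩ := Metric.isOpen_iff.mp (Metric.isOpen_ball.preimage hx) t₀
      (show t₀ ∈ x ⁻¹' Metric.ball (x t₀) δ from Metric.mem_ball_self hδ)
    have h1 : IsLiftOn d (Metric.ball t₀ ε) x (fun t => L (x t)) :=
      ⟨hL.cont.comp hx.continuousOn hεs, fun t ht => hL.eq _ (hεs ht)⟩
    have h2 : IsLiftOn d (Metric.ball t₀ ε) x l := ⟨hl.cont.continuousOn, fun t _ => hl.eq t⟩
    have h3 := liftOn_eqOn d (convex_ball t₀ ε).isPreconnected (fun t _ => hxi t) h2 h1
      (Metric.mem_ball_self hε) hL0.symm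
    filter_upwards [Metric.ball_mem_nhds t₀ hε] with t ht
    have h4 := h3 ht
    simp only at h4
    rw [h4, s7_ball hn hk d hT hδ hsub hL (hεs ht), hL0]
  intro t
  have h5 : rr (l t) = rr (l 0) := hloc.apply_eq_of_preconnectedSpace t 0
  exact smul_of_rr hn (hli 0) (hli t) (d.sum0 _ (hxi 0) _ (hl.eq 0)) (d.sum0 _ (hxi t) _ (hl.eq t)) h5

end MP2d36f7
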