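import Mathlib
import Pool.Agent.Lib_MP_2d36f7_ag.Defs
import Pool.Agent.Lib_MP_2d36f7_ag.Lift
import Pool.Agent.Lib_MP_2d36f7_ag.Loops
import Pool.Agent.Lib_MP_2d36f7_ag.Disc
import Pool.Agent.Lib_MP_2d36f7_ag.Cusp

/-!
# Limit ratios of germs (piece S8a)
-/

open Polynomial Complex Set Filter Topology

namespace MP2d36f7

variable {k n : ℕ}

/-- configurations in which the first `i` points are closer to `0` than the other points -/
def Cl (k i : ℕ) : Set (Fin k → ℂ) :=
  {y | (∀ a b : Fin k, (a : ℕ) < i → (b : ℕ) < i → y a = y b → a = b) ∧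
    (∀ a b : Fin k, i ≤ (a : ℕ) → i ≤ (b : ℕ) → y a = y b → a = b) ∧
    ∀ a b : Fin k, (a : ℕ) < i → i ≤ (b : ℕ) → ‖y a‖ < ‖y b‖}

/-- multiply the first `i` points by `c` -/
noncomputable def scl {k : ℕ} (i : ℕ) (c : ℂ) (y : Fin k → ℂ) : Fin k → ℂ :=
  fun a => if (a : ℕ) < i then c * y a else y a

/-- lifts over the punctured disc of shrinkings of the cluster -/
def Germ (d : Dat k n) (i : ℕ) (y : Fin k → ℂ) (l : ℂ → Fin n → ℂ) : Prop :=
  IsLiftOn d {z | z.re < 0} (fun z => scl i (exp z) y) l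

/-- the limit ratio -/
noncomputable def R0 (l : ℂ → Fin n → ℂ) (p q r : Fin n) : ℂ :=
  limUnder (comap Complex.re atBot) (fun z => R (l z) p q r)

theorem scl_mem {i : ℕ} {y : Fin k → ℂ} (hy : y ∈ Cl k i) {c : ℂ} (hc : c ≠ 0) (hc1 : ‖c‖ ≤ 1) :
    scl i c y ∈ Inj k := by
  obtain ⟨h1, h2, h3⟩ := hy
  intro a b hab
  simp only [scl] at hab
  by_cases ha : (a : ℕ) < i <;> by_cases hb : (b : ℕ) < i
  · simp only [ha, hb, if_true] at hab
    exact h1 a b ha hb (mul_left_cancel₀ hc hab)
  · simp only [ha, hb, if_true, if_false] at hab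
    exfalso
    have h := h3 a b ha (not_lt.mp hb)
    rw [← hab, norm_mul] at h
    have : ‖c‖ * ‖y a‖ ≤ 1 * ‖y a‖ := mul_le_mul_of_nonneg_right hc1 (norm_nonneg _)
    linarith
  · simp only [ha, hb, if_true, if_false] at hab
    exfalso
    have h := h3 b a hb (not_lt.mp ha)
    rw [hab, norm_mul] at h
    have : ‖c‖ * ‖y b‖ ≤ 1 * ‖y b‖ := mul_le_mul_of_nonneg_right hc1 (norm_nonneg _)
    linarith
  · simp only [ha, hb, if_false] at hab
    exact h2 a b (not_lt.mp ha) (not_lt.mp hb) hab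

namespace S8a

theorem norm_exp_le_one {z : ℂ} (hz : z.re < 0) : ‖exp z‖ ≤ 1 := by
  rw [Complex.norm_exp]
  exact Real.exp_le_one_iff.mpr hz.le

theorem scl_exp_mem {i : ℕ} {y : Fin k → ℂ} (hy : y ∈ Cl k i) {z : ℂ} (hz : z.re < 0) :
    scl i (exp z) y ∈ Inj k := scl_mem hy (exp_ne_zero _) (norm_exp_le_one hz)

theorem scl_differentiable {i : ℕ} (y : Fin k → ℂ) :
    Differentiable ℂ (fun z : ℂ => scl i (exp z) y) := by
  rw [differentiable_pi]
  intro a
  simp only [scl]
  by_cases ha : (a : ℕ) < i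
  · simp only [ha, if_true]
    exact (differentiable_exp.mul_const _)
  · simp only [ha, if_false]
    exact differentiable_const _

theorem neBot : NeBot (comap Complex.re atBot) := by
  apply Filter.NeBot.comap_of_surj
  · infer_instance
  · intro x
    exact ⟨x, by simp⟩

theorem eventually_re_lt (b : ℝ) : ∀ᶠ z in comap Complex.re atBot, z.re < b := by
  have := (eventually_lt_atBot b)
  exact this.comap _

/-- the rotation loop of a configuration with a cluster is trivial -/
theorem triv_rot {i : ℕ} (d : Dat k n) (hi : 1 ≤ i) (hik : i < k) (hT : Triv d (rot k i))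
    {y : Fin k → ℂ} (hy : y ∈ Cl k i) {a : ℝ} (ha : a < 0) :
    Triv d (fun t : ℝ => scl i (exp (a + 2 * Real.pi * I * t)) y) := by
  classical
  set x : Fin k → ℂ := scl i (exp (a : ℂ)) y with hx
  have hxm : x ∈ Inj k := scl_exp_mem hy (by simpa using ha)
  set S : Finset (Fin k) := Finset.univ.filter (fun b : Fin k => (b : ℕ) < i) with hS
  have hSc : S.card = i := by
    rw [hS, Fin.card_filter_val_lt]
    omega
  have hmem : ∀ b : Fin k, b ∈ S ↔ (b : ℕ) < i := by intro b; simp [hS]
  have hexp : ‖exp (a : ℂ)‖ < 1 := by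
    rw [Complex.norm_exp]
    exact Real.exp_lt_one_iff.mpr (by simpa using ha)
  obtain ⟨ρ, hρ1, hρ2⟩ : ∃ ρ : ℝ, (∀ b ∈ S, ‖x b - 0‖ < ρ) ∧ ∀ b, b ∉ S → ρ < ‖x b - 0‖ := by
    have hne : S.Nonempty := by
      rw [← Finset.card_pos, hSc]; omega
    have hne' : (Sᶜ).Nonempty := by
      rw [← Finset.card_pos, Finset.card_compl, hSc, Fintype.card_fin]; omega
    obtain ⟨b₁, hb₁, hm₁⟩ := S.exists_max_image (fun b => ‖x b‖) hne
    obtain ⟨b₂, hb₂, hm₂⟩ := Sᶜ.exists_min_image (fun b => ‖x b‖) hne'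
    have hlt : ‖x b₁‖ < ‖x b₂‖ := by
      have h1 : (b₁ : ℕ) < i := (hmem _).mp hb₁
      have h2 : ¬ (b₂ : ℕ) < i := fun h => (Finset.mem_compl.mp hb₂) ((hmem _).mpr h)
      have h := hy.2.2 b₁ b₂ h1 (not_lt.mp h2)
      have e1 : x b₁ = exp (a : ℂ) * y b₁ := by simp [hx, scl, h1]
      have e2 : x b₂ = y b₂ := by simp [hx, scl, h2]
      rw [e1, e2, norm_mul]
      have : ‖exp (a : ℂ)‖ * ‖y b₁‖ ≤ 1 * ‖y b₁‖ :=
        mul_le_mul_of_nonneg_right hexp.le (norm_nonneg _)
      linarith
    refine ⟨(‖x b₁‖ + ‖x b₂‖) / 2, fun b hb => ?_, fun b hb => ?_⟩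
    · have := hm₁ b hb
      simp only [sub_zero]
      linarith
    · have := hm₂ b (Finset.mem_compl.mpr hb)
      simp only [sub_zero]
      linarith
  have key := (triv_disc_iff d hi hik hxm hSc (c := 0) (ρ := ρ) hρ1 hρ2).mpr hT
  convert key using 1
  funext t b
  simp only [hmem, scl, hx]
  by_cases hb : (b : ℕ) < i
  · simp only [hb, if_true]
    rw [Complex.exp_add]
    ring
  · simp only [hb, if_false]

theorem germ_inj {i : ℕ} {d : Dat k n} {y : Fin k → ℂ} (hy : y ∈ Cl k i) {l : ℂ → Fin n → ℂ}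
    (hl : Germ d i y l) {z : ℂ} (hz : z.re < 0) : l z ∈ Inj n :=
  lift_inj d (scl_exp_mem hy hz) (hl.eq z hz)

end S8a

theorem germ_limit (d : Dat k n) {i : ℕ} (hi : 1 ≤ i) (hik : i < k) (hT : Triv d (rot k i))
    {y : Fin k → ℂ} (hy : y ∈ Cl k i) {l : ℂ → Fin n → ℂ} (hl : Germ d i y l) {p q r : Fin n}
    (hpq : p ≠ q) (hqr : q ≠ r) (hpr : p ≠ r) :
    R0 l p q r ≠ 0 ∧ R0 l p q r ≠ 1 ∧
      Tendsto (fun z => R (l z) p q r) (comap Complex.re atBot) (𝓝 (R0 l p q r)) := by
  have := S8a.neBot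
  have h := cusp_limit d (b := 0) (x := fun z => scl i (exp z) y)
    (S8a.scl_differentiable y).differentiableOn (fun z hz => S8a.scl_exp_mem hy hz)
    (fun z _ => by
      have : exp (z + 2 * Real.pi * I) = exp z := Complex.exp_periodic z
      simp only [this]) hl (a := -1) (by norm_num)
    (by exact_mod_cast S8a.triv_rot d hi hik hT hy (a := -1) (by norm_num)) hpq hqr hpr
  obtain ⟨c, hc0, hc1, hc⟩ := h
  have : R0 l p q r = c := hc.limUnder_eq
  rw [this]
  exact ⟨hc0, hc1, hc⟩

theorem R0_mul (d : Dat k n) {i : ℕ} (hi : 1 ≤ i) (hik : i < k) (hT : Triv d (rot k i))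
    {y : Fin k → ℂ} (hy : y ∈ Cl k i) {l : ℂ → Fin n → ℂ} (hl : Germ d i y l) {p q r s : Fin n}
    (hpq : p ≠ q) (hqr : q ≠ r) (hpr : p ≠ r) (hqs : q ≠ s) (hps : p ≠ s) (hrs : r ≠ s) :
    R0 l p q r * R0 l r q s = R0 l p q s := by
  have := S8a.neBot
  have h1 := (germ_limit d hi hik hT hy hl hpq hqr hpr).2.2
  have h2 := (germ_limit d hi hik hT hy hl hqr.symm hqs hrs).2.2
  have h3 := (germ_limit d hi hik hT hy hl hpq hqs hps).2.2
  refine tendsto_nhds_unique ((h1.mul h2).congr' ?_) h3
  filter_upwards [S8a.eventually_re_lt 0] with z hz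
  have hinj := S8a.germ_inj hy hl hz
  have hrq : l z r - l z q ≠ 0 := sub_ne_zero.mpr (fun h => hqr (hinj h).symm)
  simp only [R]
  rw [div_mul_div_cancel₀ hrq]

theorem R0_one_sub (d : Dat k n) {i : ℕ} (hi : 1 ≤ i) (hik : i < k) (hT : Triv d (rot k i))
    {y : Fin k → ℂ} (hy : y ∈ Cl k i) {l : ℂ → Fin n → ℂ} (hl : Germ d i y l) {p q r : Fin n}
    (hpq : p ≠ q) (hqr : q ≠ r) (hpr : p ≠ r) :
    1 - R0 l p q r = R0 l p r q := by
  have := S8a.neBot
  have h1 := (germ_limit d hi hik hT hy hl hpq hqr hpr).2.2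
  have h3 := (germ_limit d hi hik hT hy hl hpr hqr.symm hpq).2.2
  refine tendsto_nhds_unique ((tendsto_const_nhds.sub h1).congr' ?_) h3
  filter_upwards [S8a.eventually_re_lt 0] with z hz
  have hinj := S8a.germ_inj hy hl hz
  have hrq : l z r - l z q ≠ 0 := sub_ne_zero.mpr (fun h => hqr (hinj h).symm)
  have hqr' : l z q - l z r ≠ 0 := sub_ne_zero.mpr (fun h => hqr (hinj h))
  simp only [R]
  field_simp
  ring

theorem R0_inv (d : Dat k n) {i : ℕ} (hi : 1 ≤ i) (hik : i < k) (hT : Triv d (rot k i))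
    {y : Fin k → ℂ} (hy : y ∈ Cl k i) {l : ℂ → Fin n → ℂ} (hl : Germ d i y l) {p q r : Fin n}
    (hpq : p ≠ q) (hqr : q ≠ r) (hpr : p ≠ r) :
    (R0 l p q r)⁻¹ = R0 l r q p := by
  have := S8a.neBot
  have h1 := (germ_limit d hi hik hT hy hl hpq hqr hpr)
  have h3 := (germ_limit d hi hik hT hy hl hqr.symm hpq.symm hpr.symm).2.2
  refine tendsto_nhds_unique ((h1.2.2.inv₀ h1.1).congr' ?_) h3
  filter_upwards [S8a.eventually_re_lt 0] with z hz
  simp only [R]
  rw [inv_div]

namespace S8a

/-- the mean value property at a cusp -/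
theorem mean_val {f : ℂ → ℂ} {T : ℝ} (hT : 0 < T) {c : ℂ}
    (hf : DifferentiableOn ℂ f {z | z.re < 0}) (hper : ∀ z : ℂ, z.re < 0 → f (z + T * I) = f z)
    (hlim : Tendsto f (comap Complex.re atBot) (𝓝 c)) {a : ℝ} (ha : a < 0) :
    ∫ y in (0 : ℝ)..T, f (a + y * I) = T * c := by
  have hJ : ∀ a' : ℝ, a' < 0 →
      ∫ y in (0 : ℝ)..T, f (a' + y * I) = ∫ y in (0 : ℝ)..T, f (a + y * I) := by
    intro a' ha'
    have h := integral_boundary_rect_eq_zero_of_differentiableOn f (a' : ℂ) (a + T * I) (by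
      apply hf.mono
      intro z hz
      rw [mem_reProdIm] at hz
      have h1 := hz.1
      simp only [ofReal_re, add_re, mul_re, I_re, mul_zero, ofReal_im, I_im, mul_one, sub_zero,
        add_zero] at h1
      have h2 := h1.2
      simp only [mem_ofPred_eq]
      have : max a' a < 0 := max_lt ha' ha
      exact lt_of_le_of_lt h2 this)
    simp only [ofReal_im, ofReal_re, add_re, add_im, mul_re, mul_im, I_re, I_im, mul_zero,
      mul_one, sub_zero, add_zero, zero_add, ofReal_zero, zero_mul] at h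
    have h2 : (∫ x : ℝ in a'..a, f (x + T * I)) = ∫ x : ℝ in a'..a, f x := by
      apply intervalIntegral.integral_congr
      intro x hx
      have : x < 0 := lt_of_le_of_lt hx.2 (max_lt ha' ha)
      exact hper x (by simpa using this)
    rw [h2, sub_self, zero_add, sub_eq_zero] at h
    have h3 := mul_left_cancel₀ I_ne_zero (by simpa only [smul_eq_mul] using h)
    exact h3.symm
  by_contra hne
  set J := ∫ y in (0 : ℝ)..T, f (a + y * I) with hJdef
  have hpos : 0 < ‖J - T * c‖ := norm_pos_iff.mpr (sub_ne_zero.mpr hne)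
  set ε := ‖J - T * c‖ / (2 * T) with hε
  have hεp : 0 < ε := by positivity
  have hev : ∀ᶠ z in comap Complex.re atBot, ‖f z - c‖ < ε ∧ z.re < 0 := by
    refine ((Metric.tendsto_nhds.mp hlim ε hεp).mono (fun z hz => ?_)).and (eventually_re_lt 0)
    rwa [dist_eq_norm] at hz
  rw [eventually_comap] at hev
  obtain ⟨A, hA⟩ := (eventually_atBot.mp hev)
  set a' := min A (-1) with ha'
  have hlt : a' < 0 := lt_of_le_of_lt (min_le_right _ _) (by norm_num)
  have hJa := hJ a' hlt
  have hbound : ‖(∫ y in (0 : ℝ)..T, f (a' + y * I)) - T * c‖ ≤ ε * |T - 0| := by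
    have h1 : (∫ y in (0 : ℝ)..T, f (a' + y * I)) - T * c
        = ∫ y in (0 : ℝ)..T, (f (a' + y * I) - c) := by
      rw [intervalIntegral.integral_sub]
      · simp
      · apply ContinuousOn.intervalIntegrable
        intro y _
        have : (a' + y * I : ℂ).re < 0 := by simpa using hlt
        have hd : ContinuousAt f (a' + y * I) :=
          ((hf _ this).differentiableAt
            ((isOpen_lt continuous_re continuous_const).mem_nhds this)).continuousAt
        exact (ContinuousAt.comp (f := fun y : ℝ => (a' + y * I : ℂ)) hd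
          (by fun_prop)).continuousWithinAt
      · exact intervalIntegrable_const
    rw [h1]
    apply intervalIntegral.norm_integral_le_of_norm_le_const
    intro y _
    have := hA a' (min_le_left _ _) (a' + y * I) (by simp)
    exact this.1.le
  rw [hJa, sub_zero, abs_of_pos hT] at hbound
  have : ε * T = ‖J - T * c‖ / 2 := by rw [hε]; field_simp
  rw [this] at hbound
  linarith

/-- the ratio of a germ is periodic -/
theorem ratio_per {i : ℕ} {d : Dat k n} {y : Fin k → ℂ} (hy : y ∈ Cl k i) {l : ℂ → Fin n → ℂ}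
    (hl : Germ d i y l) {z : ℂ} (hz : z.re < 0) :
    l (z + ((2 * Real.pi * n.factorial : ℝ) : ℂ) * I) = l z := by
  have hre : ∀ t : ℝ, (z + 2 * Real.pi * I * t).re < 0 := by
    intro t
    have : (z + 2 * Real.pi * I * t).re = z.re := by simp
    rw [this]; exact hz
  have h := lift_period_fact d (x := fun t : ℝ => scl i (exp (z + 2 * Real.pi * I * t)) y)
    ((scl_differentiable y).continuous.comp (by fun_prop)) (fun t => scl_exp_mem hy (hre t))
    (fun t => by
      have : exp (z + 2 * Real.pi * I * ((t + 1 : ℝ) : ℂ)) = exp (z + 2 * Real.pi * I * t) := by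
        rw [← Complex.exp_periodic (z + 2 * Real.pi * I * t)]
        congr 1
        push_cast
        ring
      simp only [this])
    (l := fun t : ℝ => l (z + 2 * Real.pi * I * t))
    ⟨by
      rw [← continuousOn_univ]
      exact hl.cont.comp (by fun_prop) (fun t _ => hre t), fun t => hl.eq _ (hre t)⟩ 0
  simp only [zero_add, ofReal_zero, mul_zero, add_zero] at h
  rw [← h]
  congr 1
  push_cast
  ring

theorem ratio_diff {d : Dat k n} {D : Type*} [NormedAddCommGroup D] [NormedSpace ℂ D] {S : Set D}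
    (hS : IsOpen S) {x : D → Fin k → ℂ} (hx : DifferentiableOn ℂ x S)
    (hxi : ∀ y ∈ S, x y ∈ Inj k) {l : D → Fin n → ℂ} (hl : IsLiftOn d S x l) {p q r : Fin n}
    (hqr : q ≠ r) : DifferentiableOn ℂ (fun z => R (l z) p q r) S := by
  have h := liftOn_holo d hS hx hxi hl
  rw [differentiableOn_pi] at h
  intro z hz
  have hne : l z r - l z q ≠ 0 := sub_ne_zero.mpr fun e =>
    hqr ((lift_inj d (hxi z hz) (hl.eq z hz)) e).symm
  have h1 : DifferentiableWithinAt ℂ (fun z => l z p - l z q) S z := (h p z hz).fun_sub (h q z hz)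
  have h2 : DifferentiableWithinAt ℂ (fun z => l z r - l z q) S z := (h r z hz).fun_sub (h q z hz)
  have h3 : DifferentiableWithinAt ℂ (fun z => (l z r - l z q)⁻¹) S z :=
    (differentiableAt_inv hne).comp_differentiableWithinAt z h2
  simp only [R, div_eq_mul_inv]
  exact h1.fun_mul h3

theorem ratio_cont {d : Dat k n} {D : Type*} [TopologicalSpace D] {S : Set D}
    {x : D → Fin k → ℂ}
    (hxi : ∀ y ∈ S, x y ∈ Inj k) {l : D → Fin n → ℂ} (hl : IsLiftOn d S x l) {p q r : Fin n}
    (hqr : q ≠ r) : ContinuousOn (fun z => R (l z) p q r) S := by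
  have h := hl.cont
  rw [continuousOn_pi] at h
  intro z hz
  have hne : l z r - l z q ≠ 0 := sub_ne_zero.mpr fun e =>
    hqr ((lift_inj d (hxi z hz) (hl.eq z hz)) e).symm
  exact ((h p z hz).sub (h q z hz)).div ((h r z hz).sub (h q z hz)) hne

theorem isOpen_half : IsOpen {z : ℂ | z.re < 0} := isOpen_lt continuous_re continuous_const

/-- integral formula for the limit ratio -/
theorem R0_eq_integral (d : Dat k n) {i : ℕ} (hi : 1 ≤ i) (hik : i < k) (hT : Triv d (rot k i))
    {y : Fin k → ℂ} (hy : y ∈ Cl k i) {l : ℂ → Fin n → ℂ} (hl : Germ d i y l) {p q r : Fin n}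
    (hpq : p ≠ q) (hqr : q ≠ r) (hpr : p ≠ r) :
    R0 l p q r = ((2 * Real.pi * n.factorial : ℝ) : ℂ)⁻¹ *
      ∫ t in (0 : ℝ)..(2 * Real.pi * n.factorial), R (l ((-1 : ℝ) + t * I)) p q r := by
  have hTpos : 0 < 2 * Real.pi * (n.factorial : ℝ) := by positivity
  have h := mean_val (f := fun z => R (l z) p q r) hTpos
    (ratio_diff isOpen_half (scl_differentiable y).differentiableOn
      (fun z hz => scl_exp_mem hy hz) hl hqr)
    (fun z hz => by simp only [ratio_per hy hl hz])
    (germ_limit d hi hik hT hy hl hpq hqr hpr).2.2 (a := -1) (by norm_num)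
  rw [h, ← mul_assoc, inv_mul_cancel₀, one_mul]
  exact_mod_cast hTpos.ne'

theorem germ_of_prod {i : ℕ} {d : Dat k n} {E : Type*} [TopologicalSpace E]
    {S : Set E} {y : E → Fin k → ℂ} {l : E × ℂ → Fin n → ℂ}
    (hl : IsLiftOn d (S ×ˢ {z : ℂ | z.re < 0}) (fun e => scl i (exp e.2) (y e.1)) l) {e : E}
    (he : e ∈ S) : Germ d i (y e) (fun z => l (e, z)) :=
  ⟨hl.cont.comp (by fun_prop) (fun z hz => ⟨he, hz⟩), fun z hz => hl.eq (e, z) ⟨he, hz⟩⟩

end S8a

theorem R0_continuousOn (d : Dat k n) {i : ℕ} (hi : 1 ≤ i) (hik : i < k) (hT : Triv d (rot k i))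
    {E : Type*} [NormedAddCommGroup E] [NormedSpace ℝ E] {S : Set E} (hS : IsOpen S)
    {y : E → Fin k → ℂ} (hy : ContinuousOn y S) (hyc : ∀ e ∈ S, y e ∈ Cl k i)
    {l : E × ℂ → Fin n → ℂ}
    (hl : IsLiftOn d (S ×ˢ {z : ℂ | z.re < 0}) (fun e => scl i (exp e.2) (y e.1)) l)
    {p q r : Fin n} (hpq : p ≠ q) (hqr : q ≠ r) (hpr : p ≠ r) :
    ContinuousOn (fun e => R0 (fun z => l (e, z)) p q r) S := by
  have hc : ContinuousOn (fun e : E × ℂ => R (l e) p q r) (S ×ˢ {z : ℂ | z.re < 0}) :=
    S8a.ratio_cont (fun e he => S8a.scl_exp_mem (hyc e.1 he.1) he.2) hl hqr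
  have hcont : Continuous (fun e : S => ((2 * Real.pi * n.factorial : ℝ) : ℂ)⁻¹ *
      ∫ t in (0 : ℝ)..(2 * Real.pi * n.factorial), R (l ((e : E), (-1 : ℝ) + t * I)) p q r) := by
    apply Continuous.mul continuous_const
    apply intervalIntegral.continuous_parametric_intervalIntegral_of_continuous'
    simp only [Function.uncurry_def]
    exact hc.comp_continuous (f := fun a : S × ℝ => ((a.1 : E), ((-1 : ℝ) + a.2 * I : ℂ)))
      (by fun_prop) (fun a => ⟨a.1.2, by simp⟩)
  rw [continuousOn_iff_continuous_domRestrict]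
  convert hcont using 1
  funext e
  exact S8a.R0_eq_integral d hi hik hT (hyc e e.2) (S8a.germ_of_prod hl e.2) hpq hqr hpr

namespace S8a

/-- holomorphic dependence of an integral on a parameter -/
theorem integral_holo {S : Set ℂ} (hS : IsOpen S) {F : ℂ → ℝ → ℂ} {T : ℝ} 
    (hF : ContinuousOn (Function.uncurry F) (S ×ˢ univ))
    (hd : ∀ t, DifferentiableOn ℂ (fun e => F e t) S) :
    DifferentiableOn ℂ (fun e => ∫ t in (0 : ℝ)..T, F e t) S := by
  intro e₀ he₀
  obtain ⟨r, hr, hball⟩ := Metric.isOpen_iff.mp hS e₀ he₀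
  -- closed ball of radius r/2 is compact inside S
  have hcb : Metric.closedBall e₀ (r / 2) ⊆ S :=
    (Metric.closedBall_subset_ball (by linarith)).trans hball
  have hcpt : IsCompact (Metric.closedBall e₀ (r / 2) ×ˢ (uIcc (0 : ℝ) T)) :=
    (isCompact_closedBall _ _).prod isCompact_uIcc
  obtain ⟨M, hM⟩ := hcpt.exists_bound_of_continuousOn (f := Function.uncurry F)
    (hF.mono (prod_mono hcb (subset_univ _)))
  have hcont : ∀ e ∈ S, Continuous (F e) := fun e he =>
    hF.comp_continuous (f := fun t : ℝ => (e, t)) (by fun_prop) (fun t => ⟨he, mem_univ _⟩)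
  -- bound of the derivative
  have hder : ∀ t ∈ uIcc (0 : ℝ) T, ∀ e ∈ Metric.ball e₀ (r / 4),
      ‖deriv (fun e => F e t) e‖ ≤ M / (r / 4) := by
    intro t ht e he
    apply Complex.norm_deriv_le_of_forall_mem_sphere_norm_le (by linarith)
    · have hsub : Metric.closedBall e (r / 4) ⊆ S := by
        refine Subset.trans (fun z hz => ?_) hcb
        rw [Metric.mem_closedBall] at hz ⊢
        rw [Metric.mem_ball] at he
        have := dist_triangle z e e₀
        linarith
      exact DifferentiableOn.diffContOnCl_ball (U := S) (hd t) hsub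
    · intro z hz
      refine hM (z, t) ⟨?_, ht⟩
      rw [Metric.mem_sphere] at hz
      rw [Metric.mem_ball] at he
      simp only [Metric.mem_closedBall]
      have := dist_triangle z e e₀
      linarith
  have hat : ∀ t, HasDerivAt (fun e => F e t) (deriv (fun e => F e t) e₀) e₀ := fun t =>
    ((hd t e₀ he₀).differentiableAt (hS.mem_nhds he₀)).hasDerivAt
  have key := intervalIntegral.hasDerivAt_integral_of_dominated_loc_of_lip (𝕜 := ℂ)
    (μ := MeasureTheory.volume) (a := 0) (b := T)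
    (F := F) (F' := fun t => deriv (fun e => F e t) e₀) (x₀ := e₀)
    (bound := fun _ => M / (r / 4)) (s := Metric.ball e₀ (r / 4))
    (Metric.ball_mem_nhds _ (by linarith))
    (by
      filter_upwards [hS.mem_nhds he₀] with e he
      exact (hcont e he).aestronglyMeasurable)
    ((hcont e₀ he₀).intervalIntegrable _ _)
    (by
      -- limit of difference quotients
      set u : ℕ → ℂ := fun m => e₀ + (((r / 4) / (m + 1) : ℝ) : ℂ) with hu
      have hu0 : Tendsto u atTop (𝓝[≠] e₀) := by
        rw [tendsto_nhdsWithin_iff]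
        constructor
        · have h1 : Tendsto (fun m : ℕ => (r / 4) / ((m : ℝ) + 1)) atTop (𝓝 0) :=
            tendsto_const_nhds.div_atTop
              (tendsto_atTop_add_const_right _ _ tendsto_natCast_atTop_atTop)
          have h2 : Tendsto (fun m : ℕ => e₀ + (((r / 4) / ((m : ℝ) + 1) : ℝ) : ℂ)) atTop
              (𝓝 (e₀ + ((0 : ℝ) : ℂ))) :=
            tendsto_const_nhds.add ((continuous_ofReal.tendsto _).comp h1)
          rw [ofReal_zero, add_zero] at h2
          exact h2
        · filter_upwards with m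
          simp only [hu, mem_compl_iff, mem_singleton_iff, add_eq_left, ofReal_eq_zero]
          positivity
      have hslope := fun t => ((hasDerivAt_iff_tendsto_slope.mp (hat t)).comp hu0)
      refine aestronglyMeasurable_of_tendsto_ae atTop (f := fun m t => slope (fun e => F e t) e₀ (u m))
        (fun m => ?_) (Filter.Eventually.of_forall hslope)
      by_cases hm : u m ∈ S
      · have : Continuous fun t => slope (fun e => F e t) e₀ (u m) := by
          simp only [slope_def_field]
          exact ((hcont _ hm).sub (hcont _ he₀)).div_const _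
        exact this.aestronglyMeasurable
      · exfalso
        apply hm
        apply hball
        simp only [hu, Metric.mem_ball, dist_self_add_left, Complex.norm_real, Real.norm_eq_abs]
        rw [abs_of_pos (by positivity), div_lt_iff₀ (by positivity)]
        have : (0 : ℝ) ≤ m := by positivity
        nlinarith)
    (by
      refine Filter.Eventually.of_forall (fun t ht => ?_)
      have ht' := uIoc_subset_uIcc ht
      have hM0 : 0 ≤ M / (r / 4) := (norm_nonneg _).trans
        (hder t ht' e₀ (Metric.mem_ball_self (by linarith)))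
      apply (convex_ball e₀ (r / 4)).lipschitzOnWith_of_nnnorm_deriv_le (𝕜 := ℂ)
      · intro e he
        have heS : e ∈ S := hball (Metric.ball_subset_ball (by linarith) he)
        exact (hd t e heS).differentiableAt (hS.mem_nhds heS)
      · intro e he
        rw [← NNReal.coe_le_coe]
        simp only [coe_nnnorm, Real.coe_nnabs]
        rw [abs_of_nonneg hM0]
        exact hder t ht' e he)
    (intervalIntegrable_const)
    (Filter.Eventually.of_forall (fun t _ => hat t))
  exact key.2.differentiableAt.differentiableWithinAt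

end S8a

theorem R0_holo (d : Dat k n) {i : ℕ} (hi : 1 ≤ i) (hik : i < k) (hT : Triv d (rot k i))
    {S : Set ℂ} (hS : IsOpen S) {y : ℂ → Fin k → ℂ} (hy : DifferentiableOn ℂ y S)
    (hyc : ∀ e ∈ S, y e ∈ Cl k i) {l : ℂ × ℂ → Fin n → ℂ}
    (hl : IsLiftOn d (S ×ˢ {z : ℂ | z.re < 0}) (fun e => scl i (exp e.2) (y e.1)) l)
    {p q r : Fin n} (hpq : p ≠ q) (hqr : q ≠ r) (hpr : p ≠ r) :
    DifferentiableOn ℂ (fun e => R0 (fun z => l (e, z)) p q r) S := by
  have hopen : IsOpen (S ×ˢ {z : ℂ | z.re < 0}) := hS.prod S8a.isOpen_half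
  have hxd : DifferentiableOn ℂ (fun e : ℂ × ℂ => scl i (exp e.2) (y e.1))
      (S ×ˢ {z : ℂ | z.re < 0}) := by
    rw [differentiableOn_pi]
    intro a
    have hya : DifferentiableOn ℂ (fun e : ℂ × ℂ => y e.1 a) (S ×ˢ {z : ℂ | z.re < 0}) :=
      ((differentiableOn_pi.mp hy a).comp (s := S ×ˢ {z : ℂ | z.re < 0}) (f := Prod.fst)
        differentiable_fst.differentiableOn (fun e he => he.1))
    simp only [scl]
    by_cases ha : (a : ℕ) < i
    · simp only [ha, if_true]
      exact DifferentiableOn.fun_mul (by fun_prop) hya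
    · simp only [ha, if_false]
      exact hya
  have hR := S8a.ratio_diff hopen hxd
    (fun e he => S8a.scl_exp_mem (hyc e.1 he.1) he.2) hl (p := p) hqr
  have hmain : DifferentiableOn ℂ (fun e => ((2 * Real.pi * n.factorial : ℝ) : ℂ)⁻¹ *
      ∫ t in (0 : ℝ)..(2 * Real.pi * n.factorial), R (l (e, (-1 : ℝ) + t * I)) p q r) S := by
    apply DifferentiableOn.const_mul
    apply S8a.integral_holo hS
    · exact hR.continuousOn.comp (f := fun a : ℂ × ℝ => (a.1, ((-1 : ℝ) + a.2 * I : ℂ)))
        (by fun_prop) (fun a ha => ⟨ha.1, by simp⟩)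
    · intro t
      exact hR.comp (f := fun e : ℂ => (e, ((-1 : ℝ) + t * I : ℂ)))
        (by fun_prop) (fun e he => ⟨he, by simp⟩)
  refine hmain.congr (fun e he => ?_)
  exact S8a.R0_eq_integral d hi hik hT (hyc e he) (S8a.germ_of_prod hl he) hpq hqr hpr

/-- rescaling the cluster does not change the limit ratios -/
theorem R0_scale (d : Dat k n) {i : ℕ} (hi : 1 ≤ i) (hik : i < k) (hT : Triv d (rot k i))
    {y : Fin k → ℂ} (hy : y ∈ Cl k i) {w : ℂ} (hy' : scl i (exp w) y ∈ Cl k i)
    {l l' : ℂ → Fin n → ℂ} (hl : Germ d i y l) (hl' : Germ d i (scl i (exp w) y) l')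
    {z₀ : ℂ} (hz₀ : z₀.re < 0) (hz₁ : (z₀ + w).re < 0) (h : l' z₀ = l (z₀ + w))
    {p q r : Fin n} (hpq : p ≠ q) (hqr : q ≠ r) (hpr : p ≠ r) :
    R0 l' p q r = R0 l p q r := by
  have := S8a.neBot
  have hscl : ∀ z : ℂ, scl i (exp z) (scl i (exp w) y) = scl i (exp (z + w)) y := by
    intro z
    funext a
    simp only [scl]
    by_cases ha : (a : ℕ) < i
    · simp only [ha, if_true, Complex.exp_add]
      ring
    · simp only [ha, if_false]
  set U : Set ℂ := {z | z.re < 0} ∩ {z | (z + w).re < 0} with hU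
  have hconv : IsPreconnected U := by
    apply Convex.isPreconnected
    apply Convex.inter
    · exact convex_halfSpace_re_lt 0
    · have : {z : ℂ | (z + w).re < 0} = {z : ℂ | z.re < - w.re} := by
        ext z
        simp only [add_re, mem_ofPred_eq]
        constructor <;> intro h <;> linarith
      rw [this]
      exact convex_halfSpace_re_lt _
  have hl'' : IsLiftOn d U (fun z => scl i (exp z) (scl i (exp w) y)) (fun z => l (z + w)) := by
    refine ⟨hl.cont.comp (by fun_prop) (fun z hz => hz.2), fun z hz => ?_⟩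
    rw [hscl]
    exact hl.eq _ hz.2
  have heq : EqOn l' (fun z => l (z + w)) U :=
    liftOn_eqOn d hconv (fun z hz => S8a.scl_exp_mem hy' hz.1)
      ⟨hl'.cont.mono inter_subset_left, fun z hz => hl'.eq z hz.1⟩ hl'' ⟨hz₀, hz₁⟩ h
  have h1 := (germ_limit d hi hik hT hy hl hpq hqr hpr).2.2
  have h2 := (germ_limit d hi hik hT hy' hl' hpq hqr hpr).2.2
  have hshift : Tendsto (fun z : ℂ => z + w) (comap Complex.re atBot)
      (comap Complex.re atBot) := by
    rw [tendsto_comap_iff]
    have : Complex.re ∘ (fun z : ℂ => z + w) = fun z : ℂ => z.re + w.re := by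
      funext z; simp
    rw [this]
    exact tendsto_atBot_add_const_right _ _ tendsto_comap
  refine tendsto_nhds_unique h2 ((h1.comp hshift).congr' ?_)
  filter_upwards [S8a.eventually_re_lt 0, S8a.eventually_re_lt (-w.re)] with z hz1 hz2
  have : z ∈ U := ⟨hz1, by simp only [add_re, mem_ofPred_eq]; linarith⟩
  simp only [Function.comp, heq this]

end MP2d36f7
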