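import Mathlib
import Pool.Agent.Lib_MP_2d36f7_ag.Defs
import Pool.Agent.Lib_MP_2d36f7_ag.Lift
import Pool.Agent.Lib_MP_2d36f7_ag.Wind
import Pool.Agent.Lib_MP_2d36f7_ag.Picard
import Pool.Agent.Lib_MP_2d36f7_ag.MV
import Pool.Agent.Lib_MP_2d36f7_ag.S8a

open Polynomial Complex Set Filter Topology

namespace MP2d36f7

variable {k n : ℕ}

namespace S8b

/-- inner entries from `y`, outer entries from `b` -/
def mx (i : ℕ) (y b : Fin k → ℂ) : Fin k → ℂ := fun a => if (a : ℕ) < i then y a else b a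

structure InOk (i : ℕ) (y : Fin k → ℂ) : Prop where
  inj : ∀ a b : Fin k, (a : ℕ) < i → (b : ℕ) < i → y a = y b → a = b
  lt : ∀ a : Fin k, (a : ℕ) < i → ‖y a‖ < 1

structure OutOk (i : ℕ) (b : Fin k → ℂ) : Prop where
  inj : ∀ a a' : Fin k, i ≤ (a : ℕ) → i ≤ (a' : ℕ) → b a = b a' → a = a'
  ge : ∀ a : Fin k, i ≤ (a : ℕ) → 1 ≤ ‖b a‖

theorem mx_mem {i : ℕ} {y b : Fin k → ℂ} (hy : InOk i y) (hb : OutOk i b) : mx i y b ∈ Cl k i := by
  refine ⟨?_, ?_, ?_⟩
  · intro a a' ha ha' h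
    simp only [mx, if_pos ha, if_pos ha'] at h
    exact hy.inj a a' ha ha' h
  · intro a a' ha ha' h
    simp only [mx, if_neg (not_lt.2 ha), if_neg (not_lt.2 ha')] at h
    exact hb.inj a a' ha ha' h
  · intro a a' ha ha'
    simp only [mx, if_pos ha, if_neg (not_lt.2 ha')]
    exact lt_of_lt_of_le (hy.lt a ha) (hb.ge a' ha')

theorem cb_neBot : (comap Complex.re atBot).NeBot :=
  Filter.NeBot.comap_of_surj atBot_neBot Complex.re_surjective

theorem cb_lt (b : ℝ) : ∀ᶠ z in comap Complex.re atBot, z.re < b :=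
  tendsto_comap.eventually (eventually_lt_atBot b)

theorem cb_add (w : ℂ) : Tendsto (fun z : ℂ => z + w) (comap Complex.re atBot)
    (comap Complex.re atBot) := by
  rw [tendsto_comap_iff]
  have : (Complex.re ∘ fun z : ℂ => z + w) = fun z : ℂ => z.re + w.re := by
    ext z; simp
  rw [this]
  exact tendsto_atBot_add_const_right _ _ tendsto_comap

theorem scl_mx (i : ℕ) (c : ℂ) (y b : Fin k → ℂ) :
    scl i c (mx i y b) = mx i (fun a => c * y a) b := by
  ext a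
  by_cases h : (a : ℕ) < i <;> simp [scl, mx, h]

theorem mx_congr {i : ℕ} {y y' : Fin k → ℂ} (b : Fin k → ℂ)
    (h : ∀ a : Fin k, (a : ℕ) < i → y a = y' a) : mx i y b = mx i y' b := by
  ext a
  by_cases ha : (a : ℕ) < i
  · simp [mx, ha, h a ha]
  · simp [mx, ha]

/-- a lift of the family over `ℝ × {re < 0}` -/
def IsF (d : Dat k n) (i : ℕ) (β : ℝ → Fin k → ℂ) (y : Fin k → ℂ) (L : ℝ × ℂ → Fin n → ℂ) : Prop :=
  IsLiftOn d (univ ×ˢ {z : ℂ | z.re < 0})
    (fun e : ℝ × ℂ => scl i (exp e.2) (mx i y (β e.1))) L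

theorem IsF.germ {d : Dat k n} {i : ℕ} {β : ℝ → Fin k → ℂ} {y : Fin k → ℂ}
    {L : ℝ × ℂ → Fin n → ℂ} (h : IsF d i β y L) (u : ℝ) :
    Germ d i (mx i y (β u)) (fun z => L (u, z)) := by
  constructor
  · refine h.cont.comp (f := fun z : ℂ => (u, z)) (by fun_prop) ?_
    intro z hz
    exact ⟨mem_univ _, hz⟩
  · intro z hz
    exact h.eq (u, z) ⟨mem_univ _, hz⟩

/-- the quotient of limit ratios at the outer positions `1` and `0` -/
noncomputable def Qt (L : ℝ × ℂ → Fin n → ℂ) (p q r : Fin n) : ℂ :=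
  R0 (fun z => L (1, z)) p q r / R0 (fun z => L (0, z)) p q r

theorem compare (d : Dat k n) {i : ℕ} (hi : 1 ≤ i) (hik : i < k) (hT : Triv d (rot k i))
    {β : ℝ → Fin k → ℂ} (hβ : ∀ u, OutOk i (β u)) {y y' : Fin k → ℂ}
    (hy : InOk i y) (hy' : InOk i y') {c : ℂ} (hc : c ≠ 0)
    (hyy : ∀ a : Fin k, (a : ℕ) < i → y' a = c * y a) {L L' : ℝ × ℂ → Fin n → ℂ}
    (hL : IsF d i β y L) (hL' : IsF d i β y' L') :
    ∃ e : Equiv.Perm (Fin n), ∀ p q r, p ≠ q → q ≠ r → p ≠ r →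
      Qt L p q r = Qt L' (e p) (e q) (e r) := by
  set w : ℂ := log c with hw
  have hcw : exp w = c := exp_log hc
  set b : ℝ := min 0 (-w.re) with hb
  set S : Set (ℝ × ℂ) := univ ×ˢ {z : ℂ | z.re < b} with hS
  have hb0 : b ≤ 0 := min_le_left _ _
  have hbw : b ≤ -w.re := min_le_right _ _
  have hSc : IsPreconnected S := by
    refine IsPreconnected.prod isPreconnected_univ ?_
    exact (convex_halfSpace_re_lt b).isPreconnected
  have hx : ∀ e : ℝ × ℂ, scl i (exp (e.2 + w)) (mx i y (β e.1)) =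
      scl i (exp e.2) (mx i y' (β e.1)) := by
    intro e
    rw [scl_mx, scl_mx]
    refine mx_congr _ fun a ha => ?_
    rw [hyy a ha, exp_add, hcw]; ring
  have h1 : IsLiftOn d S (fun e : ℝ × ℂ => scl i (exp e.2) (mx i y' (β e.1)))
      (fun e => L (e.1, e.2 + w)) := by
    constructor
    · refine hL.cont.comp (f := fun e : ℝ × ℂ => (e.1, e.2 + w)) (by fun_prop) ?_
      rintro ⟨u, z⟩ ⟨_, hz⟩
      refine ⟨mem_univ _, ?_⟩
      have hz' : z.re < b := hz
      show (z + w).re < 0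
      rw [add_re]; linarith
    · rintro ⟨u, z⟩ ⟨_, hz⟩
      have hz' : z.re < b := hz
      have h2 := hL.eq (u, z + w) ⟨mem_univ _, by
        show (z + w).re < 0
        rw [add_re]; linarith⟩
      dsimp only at h2 ⊢
      rw [h2]
      congr 1
      exact hx (u, z)
  have h2 : IsLiftOn d S (fun e : ℝ × ℂ => scl i (exp e.2) (mx i y' (β e.1))) L' := by
    constructor
    · refine hL'.cont.mono ?_
      rintro ⟨u, z⟩ ⟨_, hz⟩
      have hz' : z.re < b := hz
      exact ⟨mem_univ _, by show z.re < 0; linarith⟩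
    · rintro ⟨u, z⟩ ⟨_, hz⟩
      have hz' : z.re < b := hz
      exact hL'.eq (u, z) ⟨mem_univ _, by show z.re < 0; linarith⟩
  have hxi : ∀ e ∈ S, scl i (exp e.2) (mx i y' (β e.1)) ∈ Inj k := by
    rintro ⟨u, z⟩ ⟨_, hz⟩
    have hz' : z.re < b := hz
    refine scl_mem (mx_mem hy' (hβ u)) (exp_ne_zero _) ?_
    rw [norm_exp, Real.exp_le_one_iff]
    dsimp only; linarith
  obtain ⟨σ, hσ⟩ := liftOn_perm d hSc hxi h2 h1
  refine ⟨σ, fun p q r hpq hqr hpr => ?_⟩
  have key : ∀ u : ℝ, R0 (fun z => L (u, z)) p q r = R0 (fun z => L' (u, z)) (σ p) (σ q) (σ r) := by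
    intro u
    have t1 := (germ_limit d hi hik hT (mx_mem hy (hβ u)) (hL.germ u) hpq hqr hpr).2.2
    have t2 := (germ_limit d hi hik hT (mx_mem hy' (hβ u)) (hL'.germ u)
      (σ.injective.ne hpq) (σ.injective.ne hqr) (σ.injective.ne hpr)).2.2
    have t3 := t1.comp (cb_add w)
    have := cb_neBot
    refine tendsto_nhds_unique t3 (t2.congr' ?_)
    filter_upwards [cb_lt b] with z hz
    have h3 := hσ (u, z) ⟨mem_univ _, hz⟩
    dsimp only at h3
    simp only [Function.comp_apply, R, h3]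
  rw [Qt, Qt, key 1, key 0]

theorem exists_fam (d : Dat k n) {i : ℕ} {E : Type*} [NormedAddCommGroup E] [NormedSpace ℝ E]
    {S : Set E} (hS : IsOpen S) (hSc : Convex ℝ S) (hne : S.Nonempty)
    {y b : E → Fin k → ℂ} (hyc : ContinuousOn y S) (hbc : ContinuousOn b S)
    (hy : ∀ e ∈ S, InOk i (y e)) (hb : ∀ e ∈ S, OutOk i (b e)) :
    ∃ L : E × ℂ → Fin n → ℂ, IsLiftOn d (S ×ˢ {z : ℂ | z.re < 0})
      (fun e => scl i (exp e.2) (mx i (y e.1) (b e.1))) L := by
  obtain ⟨e₀, he₀⟩ := hne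
  have hopen : IsOpen (S ×ˢ {z : ℂ | z.re < 0}) :=
    hS.prod (isOpen_lt Complex.continuous_re continuous_const)
  have hconv : Convex ℝ (S ×ˢ {z : ℂ | z.re < 0}) := hSc.prod (convex_halfSpace_re_lt 0)
  have hmem : (e₀, (-1 : ℂ)) ∈ S ×ˢ {z : ℂ | z.re < 0} := ⟨he₀, by
    show (-1 : ℂ).re < 0
    simp⟩
  have hxc : ContinuousOn (fun e : E × ℂ => scl i (exp e.2) (mx i (y e.1) (b e.1)))
      (S ×ˢ {z : ℂ | z.re < 0}) := by
    rw [continuousOn_pi]
    intro a
    have hy1 : ContinuousOn (fun e : E × ℂ => y e.1 a) (S ×ˢ {z : ℂ | z.re < 0}) :=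
      (continuousOn_pi.1 hyc a).comp continuousOn_fst fun e he => he.1
    have hb1 : ContinuousOn (fun e : E × ℂ => b e.1 a) (S ×ˢ {z : ℂ | z.re < 0}) :=
      (continuousOn_pi.1 hbc a).comp continuousOn_fst fun e he => he.1
    by_cases ha : (a : ℕ) < i
    · simp only [scl_mx, mx, if_pos ha]
      exact (Complex.continuous_exp.comp continuous_snd).continuousOn.mul hy1
    · simp only [scl_mx, mx, if_neg ha]
      exact hb1
  have hxi : ∀ e ∈ S ×ˢ {z : ℂ | z.re < 0}, scl i (exp e.2) (mx i (y e.1) (b e.1)) ∈ Inj k := by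
    rintro ⟨e, z⟩ ⟨he, hz⟩
    have hz' : z.re < 0 := hz
    refine scl_mem (mx_mem (hy e he) (hb e he)) (exp_ne_zero _) ?_
    rw [norm_exp, Real.exp_le_one_iff]
    exact hz'.le
  obtain ⟨l₀, _, h₀⟩ := d.reg _ (hxi _ hmem)
  obtain ⟨L, hL, _⟩ := exists_liftOn d hopen (hconv.starConvex hmem) hmem hxc hxi hmem h₀
  exact ⟨L, hL⟩

theorem slice {d : Dat k n} {i : ℕ} {E : Type*} [NormedAddCommGroup E] [NormedSpace ℝ E]
    {S : Set E} {y : E → Fin k → ℂ} {β : ℝ → Fin k → ℂ} {Λ : (E × ℝ) × ℂ → Fin n → ℂ}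
    (hΛ : IsLiftOn d ((S ×ˢ (univ : Set ℝ)) ×ˢ {z : ℂ | z.re < 0})
      (fun e => scl i (exp e.2) (mx i (y e.1.1) (β e.1.2))) Λ) {s : E} (hs : s ∈ S) :
    IsF d i β (y s) (fun e => Λ ((s, e.1), e.2)) := by
  constructor
  · refine hΛ.cont.comp (f := fun e : ℝ × ℂ => ((s, e.1), e.2)) (by fun_prop) ?_
    rintro ⟨u, z⟩ ⟨_, hz⟩
    exact ⟨⟨hs, mem_univ _⟩, hz⟩
  · rintro ⟨u, z⟩ ⟨_, hz⟩
    exact hΛ.eq ((s, u), z) ⟨⟨hs, mem_univ _⟩, hz⟩

theorem slice' {d : Dat k n} {i : ℕ} {S : Set ℂ} {y : ℂ → Fin k → ℂ} {β : ℝ → Fin k → ℂ}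
    {Λ : (ℂ × ℝ) × ℂ → Fin n → ℂ}
    (hΛ : IsLiftOn d ((S ×ˢ (univ : Set ℝ)) ×ˢ {z : ℂ | z.re < 0})
      (fun e => scl i (exp e.2) (mx i (y e.1.1) (β e.1.2))) Λ) (u : ℝ) :
    IsLiftOn d (S ×ˢ {z : ℂ | z.re < 0})
      (fun e => scl i (exp e.2) (mx i (y e.1) (β u))) (fun e => Λ ((e.1, u), e.2)) := by
  constructor
  · refine hΛ.cont.comp (f := fun e : ℂ × ℂ => ((e.1, u), e.2)) (by fun_prop) ?_
    rintro ⟨s, z⟩ ⟨hs, hz⟩
    exact ⟨⟨hs, mem_univ _⟩, hz⟩
  · rintro ⟨s, z⟩ ⟨hs, hz⟩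
    exact hΛ.eq ((s, u), z) ⟨⟨hs, mem_univ _⟩, hz⟩

theorem holo (d : Dat k n) {i : ℕ} (hi : 1 ≤ i) (hik : i < k) (hT : Triv d (rot k i))
    {β : ℝ → Fin k → ℂ} (hβ : ∀ u, OutOk i (β u)) {S : Set ℂ} (hS : IsOpen S)
    {y : ℂ → Fin k → ℂ} (hy : DifferentiableOn ℂ y S) (hyi : ∀ s ∈ S, InOk i (y s))
    {Λ : (ℂ × ℝ) × ℂ → Fin n → ℂ}
    (hΛ : IsLiftOn d ((S ×ˢ (univ : Set ℝ)) ×ˢ {z : ℂ | z.re < 0})
      (fun e => scl i (exp e.2) (mx i (y e.1.1) (β e.1.2))) Λ) (u : ℝ)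
    {p q r : Fin n} (hpq : p ≠ q) (hqr : q ≠ r) (hpr : p ≠ r) :
    DifferentiableOn ℂ (fun s => R0 (fun z => Λ ((s, u), z)) p q r) S := by
  have hy1 : DifferentiableOn ℂ (fun s => mx i (y s) (β u)) S := by
    rw [differentiableOn_pi]
    intro a
    by_cases ha : (a : ℕ) < i
    · simp only [mx, if_pos ha]
      exact differentiableOn_pi.1 hy a
    · simp only [mx, if_neg ha]
      exact differentiableOn_const _
  exact R0_holo d hi hik hT hS hy1 (fun s hs => mx_mem (hyi s hs) (hβ u)) (slice' hΛ u) hpq hqr hpr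

theorem perm_pow_fact (σ : Equiv.Perm (Fin n)) : σ ^ n.factorial = 1 := by
  have := pow_card_eq_one (x := σ) (G := Equiv.Perm (Fin n))
  rwa [Fintype.card_perm, Fintype.card_fin] at this

/-- the quotients stay bounded at a puncture -/
theorem bound (d : Dat k n) {i : ℕ} (hi : 1 ≤ i) (hik : i < k) (hT : Triv d (rot k i))
    {β : ℝ → Fin k → ℂ} (hβc : Continuous β) (hβ : ∀ u, OutOk i (β u)) {b : ℝ}
    {y : ℂ → Fin k → ℂ} (hy : DifferentiableOn ℂ y {w | w.re < b})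
    (hyi : ∀ w : ℂ, w.re < b → InOk i (y w))
    (hper : ∀ w : ℂ, w.re < b → y (w + 2 * Real.pi * I) = y w) :
    ∃ K : ℝ, ∀ᶠ w in comap Complex.re atBot, ∀ L, IsF d i β (y w) L → ∀ p q r : Fin n,
      p ≠ q → q ≠ r → p ≠ r → ‖Qt L p q r‖ ≤ K := by
  classical
  have hSo : IsOpen {w : ℂ | w.re < b} := isOpen_lt Complex.continuous_re continuous_const
  have hSc : Convex ℝ {w : ℂ | w.re < b} := convex_halfSpace_re_lt b
  have hSm : ((b - 1 : ℝ) : ℂ) ∈ {w : ℂ | w.re < b} := by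
    show ((b - 1 : ℝ) : ℂ).re < b
    rw [ofReal_re]; linarith
  obtain ⟨Λ, hΛ⟩ := exists_fam d (i := i) (E := ℂ × ℝ) (S := {w : ℂ | w.re < b} ×ˢ (univ : Set ℝ))
    (hSo.prod isOpen_univ) (hSc.prod convex_univ) ⟨(((b - 1 : ℝ) : ℂ), 0), hSm, mem_univ _⟩
    (y := fun e => y e.1) (b := fun e => β e.2)
    (hy.continuousOn.comp continuousOn_fst fun e he => he.1)
    (hβc.comp continuous_snd).continuousOn (fun e he => hyi e.1 he.1) (fun e _ => hβ e.2)
  set S : Set ℂ := {w : ℂ | w.re < b} with hSdef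
  have hT0 : ∀ w : ℂ, w ∈ S → ∀ m : ℕ, w + 2 * Real.pi * I * m ∈ S := by
    intro w hw m
    show (w + 2 * Real.pi * I * m).re < b
    have : (w + 2 * Real.pi * I * m).re = w.re := by simp
    rw [this]; exact hw
  have hxi : ∀ e ∈ (S ×ˢ (univ : Set ℝ)) ×ˢ {z : ℂ | z.re < 0},
      scl i (exp e.2) (mx i (y e.1.1) (β e.1.2)) ∈ Inj k := by
    rintro ⟨⟨w, u⟩, z⟩ ⟨⟨hw, _⟩, hz⟩
    have hz' : z.re < 0 := hz
    refine scl_mem (mx_mem (hyi w hw) (hβ u)) (exp_ne_zero _) ?_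
    rw [norm_exp, Real.exp_le_one_iff]
    exact hz'.le
  have hpc : IsPreconnected ((S ×ˢ (univ : Set ℝ)) ×ˢ {z : ℂ | z.re < 0}) :=
    (((hSc.prod convex_univ).prod (convex_halfSpace_re_lt 0))).isPreconnected
  have hsh : IsLiftOn d ((S ×ˢ (univ : Set ℝ)) ×ˢ {z : ℂ | z.re < 0})
      (fun e => scl i (exp e.2) (mx i (y e.1.1) (β e.1.2)))
      (fun e => Λ ((e.1.1 + 2 * Real.pi * I, e.1.2), e.2)) := by
    have hmem : ∀ w ∈ S, w + 2 * Real.pi * I ∈ S := by
      intro w hw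
      have := hT0 w hw 1
      simpa using this
    constructor
    · refine hΛ.cont.comp
        (f := fun e : (ℂ × ℝ) × ℂ => ((e.1.1 + 2 * Real.pi * I, e.1.2), e.2)) (by fun_prop) ?_
      rintro ⟨⟨w, u⟩, z⟩ ⟨⟨hw, _⟩, hz⟩
      exact ⟨⟨hmem w hw, mem_univ _⟩, hz⟩
    · rintro ⟨⟨w, u⟩, z⟩ ⟨⟨hw, _⟩, hz⟩
      have := hΛ.eq ((w + 2 * Real.pi * I, u), z) ⟨⟨hmem w hw, mem_univ _⟩, hz⟩
      dsimp only at this ⊢
      rw [this, hper w hw]
  obtain ⟨κ, hκ⟩ := liftOn_perm d hpc hxi hΛ hsh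
  have hκm : ∀ m : ℕ, ∀ w ∈ S, ∀ u : ℝ, ∀ z : ℂ, z.re < 0 →
      Λ ((w + 2 * Real.pi * I * m, u), z) = Λ ((w, u), z) ∘ (κ ^ m : Equiv.Perm (Fin n)) := by
    intro m
    induction m with
    | zero => intro w hw u z hz; simp
    | succ m ih =>
      intro w hw u z hz
      have h1 := hκ ((w + 2 * Real.pi * I * m, u), z) ⟨⟨hT0 w hw m, mem_univ _⟩, hz⟩
      dsimp only at h1
      rw [ih w hw u z hz] at h1
      rw [show w + 2 * Real.pi * I * ((m + 1 : ℕ) : ℂ) = w + 2 * Real.pi * I * m + 2 * Real.pi * I by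
        push_cast; ring, h1, pow_succ]
      rfl
  have hN : 0 < n.factorial := n.factorial_pos
  -- one triple
  have one : ∀ p q r : Fin n, p ≠ q → q ≠ r → p ≠ r → ∃ K : ℝ,
      ∀ᶠ w in comap Complex.re atBot, ‖R0 (fun z => Λ ((w, 1), z)) p q r /
        R0 (fun z => Λ ((w, 0), z)) p q r‖ ≤ K := by
    intro p q r hpq hqr hpr
    set f : ℝ → ℂ → ℂ := fun u w => R0 (fun z => Λ ((w, u), z)) p q r with hf
    have hfd : ∀ u, DifferentiableOn ℂ (f u) {w | w.re < b} := fun u =>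
      holo d hi hik hT hβ hSo hy hyi hΛ u hpq hqr hpr
    have hgl : ∀ u : ℝ, ∀ w : ℂ, w.re < b → f u w ≠ 0 ∧ f u w ≠ 1 := by
      intro u w hw
      have := germ_limit d hi hik hT (mx_mem (hyi w hw) (hβ u)) ((slice hΛ hw).germ u) hpq hqr hpr
      exact ⟨this.1, this.2.1⟩
    have hfp : ∀ u : ℝ, ∀ w : ℂ, w.re < b →
        f u (w + 2 * Real.pi * I * (n.factorial : ℕ)) = f u w := by
      intro u w hw
      simp only [hf, R0, limUnder]
      congr 1
      refine Filter.map_congr ?_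
      filter_upwards [cb_lt 0] with z hz
      rw [hκm n.factorial w hw u z hz, perm_pow_fact]
      rfl
    have hfc : ContinuousOn (fun e : ℂ × ℝ => f e.2 e.1) (S ×ˢ (univ : Set ℝ)) := by
      have hyc : ContinuousOn (fun e : ℂ × ℝ => mx i (y e.1) (β e.2)) (S ×ˢ (univ : Set ℝ)) := by
        rw [continuousOn_pi]
        intro a
        by_cases ha : (a : ℕ) < i
        · simp only [mx, if_pos ha]
          exact (continuousOn_pi.1 hy.continuousOn a).comp continuousOn_fst fun e he => he.1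
        · simp only [mx, if_neg ha]
          exact ((continuous_apply a).comp (hβc.comp continuous_snd)).continuousOn
      exact R0_continuousOn d hi hik hT (hSo.prod isOpen_univ) hyc
        (fun e he => mx_mem (hyi e.1 he.1) (hβ e.2)) hΛ hpq hqr hpr
    have hfeq : ∀ u w, f u w = R0 (fun z => Λ ((w, u), z)) p q r := fun _ _ => rfl
    clear_value f
    obtain ⟨a, hab⟩ : ∃ a : ℝ, a < b := ⟨b - 1, by linarith⟩
    obtain ⟨m0, g0, ε0, he0, hg0, hg0n, hf0, hw0⟩ := picard_cusp_wnd hN (hfd 0)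
      (fun w hw => (hgl 0 w hw).1) (fun w hw => (hgl 0 w hw).2) (hfp 0) hab
    obtain ⟨m1, g1, ε1, he1, hg1, hg1n, hf1, hw1⟩ := picard_cusp_wnd hN (hfd 1)
      (fun w hw => (hgl 1 w hw).1) (fun w hw => (hgl 1 w hw).2) (hfp 1) hab
    have hline : ∀ t : ℝ, ((a : ℂ) + 2 * Real.pi * I * t).re < b := by
      intro t
      have : ((a : ℂ) + 2 * Real.pi * I * t).re = a := by simp
      rw [this]; exact hab
    have hwnd : wnd (fun t : ℝ => f 0 (a + 2 * Real.pi * I * t)) 0 (n.factorial : ℕ) =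
        wnd (fun t : ℝ => f 1 (a + 2 * Real.pi * I * t)) 0 (n.factorial : ℕ) := by
      have h2 : Continuous (fun e : ℝ × ℝ => (((a : ℂ) + 2 * Real.pi * I * e.2, e.1) : ℂ × ℝ)) := by
        fun_prop
      have h3 : Continuous (fun e : ℝ × ℝ => f e.1 ((a : ℂ) + 2 * Real.pi * I * e.2)) :=
        hfc.comp_continuous h2 fun e => ⟨hline e.2, mem_univ _⟩
      refine wnd_homotopy (u := fun u t => f u (a + 2 * Real.pi * I * t)) (c := 1) ?_ ?_ ?_ 0 1
      · exact h3
      · intro u t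
        exact (hgl u _ (hline t)).1
      · intro u
        have h4 := hfp u a (by simpa using hab)
        rw [one_mul]
        have e1 : ((a : ℂ) + 2 * Real.pi * I * (((n.factorial : ℕ) : ℝ) : ℂ) : ℂ) =
            (a : ℂ) + 2 * Real.pi * I * ((n.factorial : ℕ) : ℂ) := by push_cast; rfl
        have e2 : ((a : ℂ) + 2 * Real.pi * I * ((0 : ℝ) : ℂ) : ℂ) = (a : ℂ) := by
          rw [ofReal_zero, mul_zero, add_zero]
        rw [e1, h4, e2]
    have hm : m0 = m1 := by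
      rw [hw0, hw1] at hwnd
      exact_mod_cast hwnd
    -- boundedness of g1 / g0
    have hc0 : ContinuousAt g0 0 := (hg0.continuousOn).continuousAt (Metric.ball_mem_nhds 0 he0)
    have hc1 : ContinuousAt g1 0 := (hg1.continuousOn).continuousAt (Metric.ball_mem_nhds 0 he1)
    have hc : ContinuousAt (fun τ => g1 τ / g0 τ) 0 :=
      hc1.div hc0 (hg0n 0 (Metric.mem_ball_self he0))
    have hev : ∀ᶠ τ in 𝓝 (0 : ℂ), ‖g1 τ / g0 τ‖ < ‖g1 0 / g0 0‖ + 1 :=
      hc.norm.eventually_lt continuousAt_const (by simp)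
    have htend : Tendsto (fun w : ℂ => exp (w / (n.factorial : ℕ))) (comap Complex.re atBot)
        (𝓝 0) := by
      rw [tendsto_zero_iff_norm_tendsto_zero]
      have h4 : (fun w : ℂ => ‖exp (w / (n.factorial : ℕ))‖) =
          Real.exp ∘ (fun w : ℂ => w.re / (n.factorial : ℕ)) := by
        ext w
        rw [Function.comp_apply, norm_exp]
        congr 1
        simp
      rw [h4]
      refine Real.tendsto_exp_atBot.comp ?_
      exact tendsto_comap.atBot_div_const (by exact_mod_cast hN)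
    refine ⟨‖g1 0 / g0 0‖ + 1, ?_⟩
    filter_upwards [cb_lt b, htend.eventually hev,
      htend.eventually (Metric.ball_mem_nhds 0 he0), htend.eventually (Metric.ball_mem_nhds 0 he1)]
      with w hwb hw1 hw2 hw3
    have e0 := hf0 w hwb (by simpa using hw2)
    have e1 := hf1 w hwb (by simpa using hw3)
    rw [← hfeq, ← hfeq, e0, e1, hm, mul_div_mul_left _ _ (exp_ne_zero _)]
    exact hw1.le
  -- all triples
  have all : ∃ K : ℝ, ∀ᶠ w in comap Complex.re atBot, ∀ p q r : Fin n, p ≠ q → q ≠ r → p ≠ r →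
      ‖R0 (fun z => Λ ((w, 1), z)) p q r / R0 (fun z => Λ ((w, 0), z)) p q r‖ ≤ K := by
    choose! K hK using one
    refine ⟨∑ T : Fin n × Fin n × Fin n, |K T.1 T.2.1 T.2.2|, ?_⟩
    rw [eventually_all]; intro p
    rw [eventually_all]; intro q
    rw [eventually_all]; intro r
    by_cases h : p ≠ q ∧ q ≠ r ∧ p ≠ r
    · filter_upwards [hK p q r h.1 h.2.1 h.2.2] with w hw _ _ _
      refine hw.trans ((le_abs_self _).trans ?_)
      exact Finset.single_le_sum (f := fun T : Fin n × Fin n × Fin n => |K T.1 T.2.1 T.2.2|)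
        (fun T _ => abs_nonneg _) (Finset.mem_univ (p, q, r))
    · refine Eventually.of_forall fun w h1 h2 h3 => absurd ⟨h1, h2, h3⟩ h
  obtain ⟨K, hK⟩ := all
  refine ⟨K, ?_⟩
  filter_upwards [hK, cb_lt b] with w hw hwb L hL p q r hpq hqr hpr
  obtain ⟨e, he⟩ := compare d hi hik hT hβ (hyi w hwb) (hyi w hwb) one_ne_zero
    (fun a _ => (one_mul _).symm) hL (slice hΛ hwb)
  rw [he p q r hpq hqr hpr]
  exact hw _ _ _ (e.injective.ne hpq) (e.injective.ne hqr) (e.injective.ne hpr)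

/-- triples of distinct indices -/
abbrev Tr (n : ℕ) : Type :=
  {T : Fin n × Fin n × Fin n // T.1 ≠ T.2.1 ∧ T.2.1 ≠ T.2.2 ∧ T.1 ≠ T.2.2}

def act (e : Equiv.Perm (Fin n)) : Equiv.Perm (Tr n) where
  toFun T := ⟨(e T.1.1, e T.1.2.1, e T.1.2.2), e.injective.ne T.2.1, e.injective.ne T.2.2.1,
    e.injective.ne T.2.2.2⟩
  invFun T := ⟨(e.symm T.1.1, e.symm T.1.2.1, e.symm T.1.2.2), e.symm.injective.ne T.2.1,
    e.symm.injective.ne T.2.2.1, e.symm.injective.ne T.2.2.2⟩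
  left_inv T := by simp
  right_inv T := by simp

end S8b

open S8b

/-- rigidity: when the cluster moves along a complex line, the quotient of the limit ratios at
two outer configurations does not change -/
theorem ratio_const (hn : 3 ≤ n) (d : Dat k n) {i : ℕ} (hi : 2 ≤ i) (hik : i < k)
    (hT : Triv d (rot k i)) {α v : Fin k → ℂ} {E : Finset ℂ}
    (hv : ∀ a b : Fin k, (a : ℕ) < i → (b : ℕ) < i → v a = v b → a = b)
    (hE : ∀ s ∉ E, ∀ a b : Fin k, (a : ℕ) < i → (b : ℕ) < i →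
      α a + s * v a = α b + s * v b → a = b)
    {β : ℝ → Fin k → ℂ} (hβ : Continuous β)
    (hβi : ∀ t, ∀ a b : Fin k, i ≤ (a : ℕ) → i ≤ (b : ℕ) → β t a = β t b → a = b)
    (hβ1 : ∀ t, ∀ b : Fin k, i ≤ (b : ℕ) → 1 ≤ ‖β t b‖)
    {σ c : ℝ → ℂ} (hσ : Continuous σ) (hσE : ∀ t, σ t ∉ E) (hc : Continuous c)
    (hc0 : ∀ t, c t ≠ 0) (hc1 : ∀ t, ∀ a : Fin k, (a : ℕ) < i → ‖c t * (α a + σ t * v a)‖ < 1)
    {l : (ℝ × ℝ) × ℂ → Fin n → ℂ}
    (hl : IsLiftOn d (univ ×ˢ {z : ℂ | z.re < 0}) (fun e => scl i (exp e.2)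
      (fun a => if (a : ℕ) < i then c e.1.1 * (α a + σ e.1.1 * v a) else β e.1.2 a)) l)
    {p q r : Fin n} (hpq : p ≠ q) (hqr : q ≠ r) (hpr : p ≠ r) (t : ℝ) :
    R0 (fun z => l ((t, 1), z)) p q r / R0 (fun z => l ((t, 0), z)) p q r =
      R0 (fun z => l ((0, 1), z)) p q r / R0 (fun z => l ((0, 0), z)) p q r := by
  classical
  have hi1 : 1 ≤ i := by omega
  have hβo : ∀ u, OutOk i (β u) := fun u => ⟨hβi u, hβ1 u⟩
  -- inner configurations
  have hin : ∀ s ∉ E, ∀ c' : ℂ, c' ≠ 0 → (∀ a : Fin k, (a : ℕ) < i → ‖c' * (α a + s * v a)‖ < 1) →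
      InOk i (fun a => c' * (α a + s * v a)) := by
    intro s hs c' hc' h
    refine ⟨?_, h⟩
    intro a b ha hb hab
    exact hE s hs a b ha hb (mul_left_cancel₀ hc' hab)
  -- bound on the directions
  obtain ⟨M, hM0, hM⟩ : ∃ M : ℝ, 0 ≤ M ∧ ∀ a : Fin k, ‖α a‖ ≤ M ∧ ‖v a‖ ≤ M := by
    refine ⟨(∑ a, ‖α a‖) + ∑ a, ‖v a‖, by positivity, fun a => ⟨?_, ?_⟩⟩
    · have := Finset.single_le_sum (f := fun a : Fin k => ‖α a‖) (fun a _ => norm_nonneg _)
        (Finset.mem_univ a)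
      have h2 : 0 ≤ ∑ a : Fin k, ‖v a‖ := by positivity
      linarith
    · have := Finset.single_le_sum (f := fun a : Fin k => ‖v a‖) (fun a _ => norm_nonneg _)
        (Finset.mem_univ a)
      have h2 : 0 ≤ ∑ a : Fin k, ‖α a‖ := by positivity
      linarith
  -- small scalings
  have hsc : ∀ B : ℝ, 0 ≤ B → ∃ c' : ℂ, c' ≠ 0 ∧ ∀ x y : ℂ, ‖x‖ ≤ B → ‖y‖ ≤ B →
      ∀ a : Fin k, ‖c' * (x * α a + y * v a)‖ < 1 := by
    intro B hB
    have hD : 0 < 2 * B * M + 1 := by positivity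
    refine ⟨((2 * B * M + 1)⁻¹ : ℝ), by exact_mod_cast (inv_ne_zero hD.ne'), ?_⟩
    intro x y hx hy a
    have h1 : ‖x * α a + y * v a‖ ≤ 2 * B * M := by
      calc ‖x * α a + y * v a‖ ≤ ‖x * α a‖ + ‖y * v a‖ := norm_add_le _ _
        _ = ‖x‖ * ‖α a‖ + ‖y‖ * ‖v a‖ := by rw [norm_mul, norm_mul]
        _ ≤ B * M + B * M := by
            refine add_le_add ?_ ?_
            · exact mul_le_mul hx (hM a).1 (norm_nonneg _) hB
            · exact mul_le_mul hy (hM a).2 (norm_nonneg _) hB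
        _ = 2 * B * M := by ring
    rw [norm_mul, Complex.norm_real, Real.norm_of_nonneg (by positivity), inv_mul_lt_iff₀ hD]
    linarith
  -- chosen lifts
  have hex : ∀ s ∉ E, ∃ (c' : ℂ) (L : ℝ × ℂ → Fin n → ℂ), c' ≠ 0 ∧
      InOk i (fun a => c' * (α a + s * v a)) ∧ IsF d i β (fun a => c' * (α a + s * v a)) L := by
    intro s hs
    obtain ⟨c', hc', h'⟩ := hsc (1 + ‖s‖) (by positivity)
    have h2 : InOk i (fun a => c' * (α a + s * v a)) := by
      refine hin s hs c' hc' fun a _ => ?_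
      have := h' 1 s (by simp) (by linarith [norm_nonneg s]) a
      simpa using this
    obtain ⟨L, hL⟩ := exists_fam d (i := i) (E := ℝ) (S := univ) isOpen_univ convex_univ
      ⟨0, mem_univ _⟩ (y := fun _ a => c' * (α a + s * v a)) (b := β) continuousOn_const
      hβ.continuousOn (fun _ _ => h2) (fun u _ => hβo u)
    exact ⟨c', L, hc', h2, hL⟩
  choose! cs Ls hcs hLi hLs using hex
  set ξ : ℂ → Tr n → ℂ := fun s T => Qt (Ls s) T.1.1 T.1.2.1 T.1.2.2 with hξ
  -- comparison of the chosen lift with an arbitrary one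
  have hcmp : ∀ s ∉ E, ∀ c' : ℂ, c' ≠ 0 → ∀ y : Fin k → ℂ, InOk i y →
      (∀ a : Fin k, (a : ℕ) < i → y a = c' * (α a + s * v a)) → ∀ L', IsF d i β y L' →
      ∃ e : Equiv.Perm (Fin n), ξ s = (fun T : Tr n => Qt L' T.1.1 T.1.2.1 T.1.2.2) ∘ act e := by
    intro s hs c' hc' y hy hyy L' hL'
    obtain ⟨e, he⟩ := compare d hi1 hik hT hβo (hLi s hs) hy (c := c' / cs s)
      (div_ne_zero hc' (hcs s hs)) (fun a ha => by
        rw [hyy a ha, ← mul_assoc, div_mul_cancel₀ _ (hcs s hs)]) (hLs s hs) hL'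
    refine ⟨e, ?_⟩
    funext T
    exact he _ _ _ T.2.1 T.2.2.1 T.2.2.2
  -- the three hypotheses of `mv`
  have hloc : ∀ s₀ ∉ E, ∃ h : ℂ → Tr n → ℂ, (∀ T, AnalyticAt ℂ (fun s => h s T) s₀) ∧
      ∀ᶠ s in 𝓝 s₀, ∃ e : Equiv.Perm (Tr n), ξ s = h s ∘ e := by
    intro s₀ hs₀
    obtain ⟨c', hc', h'⟩ := hsc (2 + ‖s₀‖) (by positivity)
    obtain ⟨δ, hδ, hball⟩ : ∃ δ > 0, ∀ s ∈ Metric.ball s₀ δ, s ∉ E := by
      have : IsOpen ((E : Set ℂ)ᶜ) := E.finite_toSet.isClosed.isOpen_compl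
      obtain ⟨δ, hδ, h⟩ := Metric.isOpen_iff.1 this s₀ (by simpa using hs₀)
      exact ⟨δ, hδ, fun s hs hsE => h hs (by simpa using hsE)⟩
    set δ' := min δ 1 with hδ'
    have hδ'0 : 0 < δ' := lt_min hδ one_pos
    set S : Set ℂ := Metric.ball s₀ δ' with hS
    have hSE : ∀ s ∈ S, s ∉ E := fun s hs =>
      hball s (Metric.ball_subset_ball (min_le_left _ _) hs)
    have hyi : ∀ s ∈ S, InOk i (fun a => c' * (α a + s * v a)) := by
      intro s hs
      refine hin s (hSE s hs) c' hc' fun a _ => ?_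
      have h3 : ‖s‖ ≤ 2 + ‖s₀‖ := by
        have h4 : ‖s - s₀‖ < δ' := by simpa [hS, dist_eq_norm] using hs
        have h5 : ‖s‖ ≤ ‖s - s₀‖ + ‖s₀‖ := by
          simpa using norm_add_le (s - s₀) s₀
        have h6 : δ' ≤ 1 := min_le_right _ _
        linarith
      have := h' 1 s (by rw [norm_one]; linarith [norm_nonneg s₀]) h3 a
      simpa using this
    have hyd : Differentiable ℂ (fun (s : ℂ) (a : Fin k) => c' * (α a + s * v a)) := by
      rw [differentiable_pi]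
      intro a
      fun_prop
    obtain ⟨Λ, hΛ⟩ := exists_fam d (i := i) (E := ℂ × ℝ) (S := S ×ˢ (univ : Set ℝ))
      (Metric.isOpen_ball.prod isOpen_univ) ((convex_ball s₀ δ').prod convex_univ)
      ⟨(s₀, 0), Metric.mem_ball_self hδ'0, mem_univ _⟩
      (y := fun e a => c' * (α a + e.1 * v a)) (b := fun e => β e.2)
      ((hyd.continuous.comp continuous_fst).continuousOn)
      (hβ.comp continuous_snd).continuousOn (fun e he => hyi e.1 he.1) (fun e _ => hβo e.2)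
    refine ⟨fun s T => Qt (fun e : ℝ × ℂ => Λ ((s, e.1), e.2)) T.1.1 T.1.2.1 T.1.2.2, ?_, ?_⟩
    · intro T
      have hh : ∀ u : ℝ, AnalyticAt ℂ
          (fun s => R0 (fun z => Λ ((s, u), z)) T.1.1 T.1.2.1 T.1.2.2) s₀ := fun u =>
        (holo d hi1 hik hT hβo Metric.isOpen_ball hyd.differentiableOn hyi hΛ u T.2.1 T.2.2.1
          T.2.2.2).analyticAt (Metric.ball_mem_nhds s₀ hδ'0)
      have h0 : R0 (fun z => Λ ((s₀, 0), z)) T.1.1 T.1.2.1 T.1.2.2 ≠ 0 :=
        (germ_limit d hi1 hik hT (mx_mem (hyi s₀ (Metric.mem_ball_self hδ'0)) (hβo 0))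
          ((slice (y := fun (s : ℂ) (a : Fin k) => c' * (α a + s * v a)) (β := β) hΛ
            (Metric.mem_ball_self hδ'0)).germ 0) T.2.1 T.2.2.1 T.2.2.2).1
      exact (hh 1).div (hh 0) h0
    · filter_upwards [Metric.ball_mem_nhds s₀ hδ'0] with s hs
      obtain ⟨e, he⟩ := hcmp s (hSE s hs) c' hc' _ (hyi s hs) (fun a _ => rfl) _
        (slice (y := fun (s : ℂ) (a : Fin k) => c' * (α a + s * v a)) (β := β) hΛ hs)
      exact ⟨act e, he⟩
  have hbd : ∀ (b : ℝ) (sw cw : ℂ → ℂ), (∀ w : ℂ, w.re < b → sw w ∉ E) → (∀ w, cw w ≠ 0) →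
      (∀ w, sw (w + 2 * Real.pi * I) = sw w) → (∀ w, cw (w + 2 * Real.pi * I) = cw w) →
      (Differentiable ℂ sw) → (Differentiable ℂ cw) →
      (∀ w : ℂ, w.re < b → ∀ a : Fin k, ‖cw w * (α a + sw w * v a)‖ < 1) →
      ∃ K : ℝ, ∀ᶠ w in comap Complex.re atBot, ∀ T, ‖ξ (sw w) T‖ ≤ K := by
    intro b sw cw h1 h2 h3 h4 h5 h6 h7
    have hyi : ∀ w : ℂ, w.re < b → InOk i (fun a => cw w * (α a + sw w * v a)) := fun w hw =>
      hin _ (h1 w hw) _ (h2 w) fun a _ => h7 w hw a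
    have hyd : Differentiable ℂ (fun (w : ℂ) (a : Fin k) => cw w * (α a + sw w * v a)) := by
      rw [differentiable_pi]
      intro a
      exact h6.mul ((differentiable_const _).add (h5.mul_const _))
    obtain ⟨K, hK⟩ := bound d hi1 hik hT hβ hβo (y := fun w a => cw w * (α a + sw w * v a))
      hyd.differentiableOn hyi (fun w _ => by rw [h3, h4])
    refine ⟨K, ?_⟩
    filter_upwards [hK, cb_lt b] with w hw hwb T
    obtain ⟨L, hL⟩ := exists_fam d (i := i) (E := ℝ) (S := univ) isOpen_univ convex_univ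
      ⟨0, mem_univ _⟩ (y := fun _ a => cw w * (α a + sw w * v a)) (b := β) continuousOn_const
      hβ.continuousOn (fun _ _ => hyi w hwb) (fun u _ => hβo u)
    have hL' : IsF d i β (fun a => cw w * (α a + sw w * v a)) L := hL
    obtain ⟨e, he⟩ := hcmp (sw w) (h1 w hwb) (cw w) (h2 w) _ (hyi w hwb) (fun a _ => rfl) _ hL'
    rw [he]
    exact hw L hL' _ _ _ (act e T).2.1 (act e T).2.2.1 (act e T).2.2.2
  have hEb : ∀ e ∈ E, ∃ K : ℝ, ∀ᶠ s in 𝓝[≠] e, ∀ T, ‖ξ s T‖ ≤ K := by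
    intro e he
    obtain ⟨δ, hδ, hball⟩ : ∃ δ > 0, ∀ s ∈ Metric.ball e δ, s ≠ e → s ∉ E := by
      have : IsOpen (((E.erase e : Finset ℂ) : Set ℂ)ᶜ) :=
        (E.erase e).finite_toSet.isClosed.isOpen_compl
      obtain ⟨δ, hδ, h⟩ := Metric.isOpen_iff.1 this e (by simp)
      exact ⟨δ, hδ, fun s hs hse hsE => h hs (by simp [hse, hsE])⟩
    obtain ⟨c', hc', h'⟩ := hsc (1 + ‖e‖ + δ) (by positivity)
    have hnorm : ∀ w : ℂ, w.re < Real.log δ → ‖exp w‖ < δ := by
      intro w hw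
      rw [norm_exp, ← Real.lt_log_iff_exp_lt hδ]
      exact hw
    obtain ⟨K, hK⟩ := hbd (Real.log δ) (fun w => e + exp w) (fun _ => c')
      (fun w hw => hball _ (by
        rw [Metric.mem_ball, dist_eq_norm, add_sub_cancel_left]; exact hnorm w hw) (by
        simp [exp_ne_zero])) (fun _ => hc')
      (fun w => by rw [exp_add, exp_two_pi_mul_I, mul_one]) (fun _ => rfl)
      ((differentiable_const _).add Complex.differentiable_exp) (differentiable_const _)
      (fun w hw a => by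
        have h8 : ‖e + exp w‖ ≤ 1 + ‖e‖ + δ := by
          have := norm_add_le e (exp w)
          have := hnorm w hw
          linarith
        have := h' 1 (e + exp w) (by rw [norm_one]; linarith [norm_nonneg e]) h8 a
        simpa using this)
    refine ⟨K, ?_⟩
    have htl : Tendsto (fun s : ℂ => log (s - e)) (𝓝[≠] e) (comap Complex.re atBot) := by
      rw [tendsto_comap_iff]
      have h9 : (Complex.re ∘ fun s : ℂ => log (s - e)) = fun s => Real.log ‖s - e‖ := by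
        ext s; simp [Complex.log_re]
      rw [h9]
      have h10 : Tendsto (fun s : ℂ => ‖s - e‖) (𝓝[≠] e) (𝓝[≠] 0) := by
        refine tendsto_nhdsWithin_iff.2 ⟨?_, ?_⟩
        · have : Tendsto (fun s : ℂ => ‖s - e‖) (𝓝 e) (𝓝 ‖e - e‖) := by
            exact (continuous_norm.comp (continuous_id.sub continuous_const)).tendsto e
          rw [sub_self, norm_zero] at this
          exact this.mono_left nhdsWithin_le_nhds
        · filter_upwards [self_mem_nhdsWithin] with s hs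
          have : s ≠ e := hs
          simpa [sub_eq_zero] using this
      exact Real.tendsto_log_nhdsNE_zero.comp h10
    filter_upwards [htl.eventually hK, self_mem_nhdsWithin] with s hs hse
    have hse' : s ≠ e := hse
    have h11 : e + exp (log (s - e)) = s := by
      rw [exp_log (sub_ne_zero.2 hse')]; ring
    intro T
    have := hs T
    rwa [h11] at this
  have hinf : ∃ K : ℝ, ∀ᶠ s in cocompact ℂ, ∀ T, ‖ξ s T‖ ≤ K := by
    obtain ⟨ρ, hρ0, hρ⟩ : ∃ ρ : ℝ, 0 < ρ ∧ ∀ s : ℂ, ρ < ‖s‖ → s ∉ E := by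
      refine ⟨(∑ s ∈ E, ‖s‖) + 1, by positivity, fun s hs hsE => ?_⟩
      have := Finset.single_le_sum (f := fun s : ℂ => ‖s‖) (fun s _ => norm_nonneg _) hsE
      linarith
    obtain ⟨c', hc', h'⟩ := hsc (1 + ρ⁻¹) (by positivity)
    obtain ⟨K, hK⟩ := hbd (-Real.log ρ) (fun w => exp (-w)) (fun w => c' * exp w)
      (fun w hw => hρ _ (by
        rw [norm_exp, neg_re, ← Real.log_lt_iff_lt_exp hρ0]; linarith))
      (fun w => mul_ne_zero hc' (exp_ne_zero _))
      (fun w => by rw [neg_add, exp_add, exp_neg (2 * Real.pi * I), exp_two_pi_mul_I]; simp)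
      (fun w => by rw [exp_add, exp_two_pi_mul_I, mul_one])
      (Complex.differentiable_exp.comp differentiable_neg)
      ((differentiable_const _).mul Complex.differentiable_exp)
      (fun w hw a => by
        have h8 : ‖exp w‖ ≤ 1 + ρ⁻¹ := by
          rw [norm_exp]
          have : Real.exp w.re < Real.exp (-Real.log ρ) := Real.exp_lt_exp.2 hw
          rw [Real.exp_neg, Real.exp_log hρ0] at this
          linarith
        have := h' (exp w) 1 h8 (by rw [norm_one]; linarith [inv_pos.2 hρ0]) a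
        have e1 : c' * exp w * (α a + exp (-w) * v a) = c' * (exp w * α a + 1 * v a) := by
          have : exp w * exp (-w) = 1 := by rw [← exp_add]; simp
          linear_combination c' * v a * this
        rwa [e1])
    refine ⟨K, ?_⟩
    have htl : Tendsto (fun s : ℂ => -log s) (cocompact ℂ) (comap Complex.re atBot) := by
      rw [tendsto_comap_iff]
      have h9 : (Complex.re ∘ fun s : ℂ => -log s) = fun s => -Real.log ‖s‖ := by
        ext s; simp [Complex.log_re]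
      rw [h9]
      exact tendsto_neg_atTop_atBot.comp (Real.tendsto_log_atTop.comp (tendsto_norm_cocompact_atTop (E := ℂ)))
    have hne : ∀ᶠ s in cocompact ℂ, s ≠ (0 : ℂ) := by
      have := (tendsto_norm_cocompact_atTop (E := ℂ)).eventually (eventually_gt_atTop 0)
      filter_upwards [this] with s hs
      exact norm_pos_iff.1 hs
    filter_upwards [htl.eventually hK, hne] with s hs hs0 T
    have := hs T
    rwa [neg_neg, exp_log hs0] at this
  have hmv := mv E ξ hloc hEb hinf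
  -- conclusion: a continuous function with values in a finite set
  have hslt : ∀ t : ℝ, IsF d i β (fun a => c t * (α a + σ t * v a))
      (fun e => l ((t, e.1), e.2)) := by
    intro t
    constructor
    · refine hl.cont.comp (f := fun e : ℝ × ℂ => ((t, e.1), e.2)) (by fun_prop) ?_
      rintro ⟨u, z⟩ ⟨_, hz⟩
      exact ⟨mem_univ _, hz⟩
    · rintro ⟨u, z⟩ ⟨_, hz⟩
      exact hl.eq ((t, u), z) ⟨mem_univ _, hz⟩
  have hit : ∀ t : ℝ, InOk i (fun a => c t * (α a + σ t * v a)) := fun t =>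
    hin _ (hσE t) _ (hc0 t) (hc1 t)
  set Qf : ℝ → ℂ := fun t => R0 (fun z => l ((t, 1), z)) p q r / R0 (fun z => l ((t, 0), z)) p q r
    with hQf
  have hval : ∀ t, Qf t ∈ Set.range (ξ (σ 0)) := by
    intro t
    obtain ⟨e, he⟩ := hcmp (σ t) (hσE t) (c t) (hc0 t) _ (hit t) (fun a _ => rfl) _ (hslt t)
    obtain ⟨e', he'⟩ := hmv (σ 0) (hσE 0) (σ t) (hσE t)
    set T : Tr n := ⟨(p, q, r), hpq, hqr, hpr⟩ with hTd
    have h1 := congrFun he ((act e).symm T)
    rw [Function.comp_apply, Equiv.apply_symm_apply] at h1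
    refine ⟨e' ((act e).symm T), ?_⟩
    rw [he'] at h1
    exact h1
  have hcont : Continuous Qf := by
    have hyc : ContinuousOn (fun e : ℝ × ℝ => mx i (fun a => c e.1 * (α a + σ e.1 * v a)) (β e.2))
        univ := by
      rw [continuousOn_univ, continuous_pi_iff]
      intro a
      by_cases ha : (a : ℕ) < i
      · simp only [mx, if_pos ha]
        fun_prop
      · simp only [mx, if_neg ha]
        exact (continuous_apply a).comp (hβ.comp continuous_snd)
    have hR := R0_continuousOn d hi1 hik hT (E := ℝ × ℝ) isOpen_univ hyc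
        (fun e _ => mx_mem (hit e.1) (hβo e.2)) hl hpq hqr hpr
    rw [continuousOn_univ] at hR
    refine Continuous.div ?_ ?_ ?_
    · exact hR.comp (f := fun t : ℝ => (t, (1 : ℝ))) (by fun_prop)
    · exact hR.comp (f := fun t : ℝ => (t, (0 : ℝ))) (by fun_prop)
    · intro t
      exact (germ_limit d hi1 hik hT (mx_mem (hit t) (hβo 0)) ((hslt t).germ 0) hpq hqr hpr).1
  have hfin : (Set.range (ξ (σ 0))).Finite := Set.finite_range _
  exact isPreconnected_univ.constant_of_mapsTo hfin.isDiscrete hcont.continuousOn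
    (fun t _ => hval t) (mem_univ t) (mem_univ 0)

end MP2d36f7
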