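import Mathlib
import Pool.Agent.Lib_MP_2d36f7_ag.S8b

open Polynomial Complex Set Filter Topology

namespace MP2d36f7

variable {k n : ℕ}

/-- uniform convergence at the cusp for periodic families -/
theorem S8c_unif {N : ℕ} (hN : 0 < N) {f : ℝ → ℂ → ℂ} {T : ℝ} (hT : 0 < T)
    (hc : ContinuousOn (fun e : ℝ × ℂ => f e.1 e.2) (univ ×ˢ {z : ℂ | z.re < 0}))
    (hd : ∀ t, DifferentiableOn ℂ (f t) {z : ℂ | z.re < 0})
    (hper : ∀ t z, z.re < 0 → f t (z + 2 * Real.pi * I * N) = f t z)
    (hperT : ∀ t z, z.re < 0 → f (t + T) z = f t z)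
    {c : ℂ} (hc0 : c ≠ 0) (hlim : ∀ t, Tendsto (f t) (comap Complex.re atBot) (𝓝 c)) :
    ∃ A : ℝ, A < 0 ∧ ∀ t, ‖f t (A : ℂ) - c‖ < ‖c‖ := by
  have hpi : (0 : ℝ) < 2 * Real.pi := by positivity
  have hNR : (0 : ℝ) < (N : ℝ) := by exact_mod_cast hN
  have hre : ∀ w : ℂ, (2 * Real.pi * I * w).re = - (2 * Real.pi * w.im) := by
    intro w
    simp [Complex.mul_re, Complex.mul_im]
  set g : ℝ → ℂ → ℂ := fun t w => if 0 < w.im then f t (2 * Real.pi * I * w) else 0 with hg
  have hgper : ∀ t, Function.Periodic (g t) ((N : ℝ) : ℂ) := by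
    intro t w
    simp only [hg]
    have h1 : (w + ((N : ℝ) : ℂ)).im = w.im := by simp
    rw [h1]
    split_ifs with h
    · have h2 : 2 * (Real.pi : ℂ) * I * (w + ((N : ℝ) : ℂ)) =
          2 * Real.pi * I * w + 2 * Real.pi * I * N := by push_cast; ring
      rw [h2]
      apply hper
      rw [hre]
      nlinarith
    · rfl
  have hopen : IsOpen {w : ℂ | 0 < w.im} := isOpen_lt continuous_const Complex.continuous_im
  have hopen' : IsOpen {z : ℂ | z.re < 0} := isOpen_lt Complex.continuous_re continuous_const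
  have hgd : ∀ t w, 0 < w.im → DifferentiableAt ℂ (g t) w := by
    intro t w hw
    have h1 : (g t) =ᶠ[𝓝 w] fun w => f t (2 * Real.pi * I * w) := by
      filter_upwards [hopen.mem_nhds hw] with v hv
      simp only [hg]
      rw [if_pos hv]
    rw [h1.differentiableAt_iff]
    have h2 : DifferentiableAt ℂ (f t) (2 * Real.pi * I * w) := by
      refine (hd t).differentiableAt (hopen'.mem_nhds ?_)
      show (2 * Real.pi * I * w).re < 0
      rw [hre]
      nlinarith
    exact h2.comp w (by fun_prop)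
  have hI : Tendsto (fun w : ℂ => 2 * (Real.pi : ℂ) * I * w) (comap im atTop) (comap re atBot) := by
    rw [tendsto_comap_iff]
    have h1 : (re ∘ fun w : ℂ => 2 * (Real.pi : ℂ) * I * w) = fun w : ℂ => - (2 * Real.pi * w.im) := by
      ext w
      exact hre w
    rw [h1]
    apply tendsto_neg_atTop_atBot.comp
    exact (tendsto_comap (f := im) (x := atTop)).const_mul_atTop hpi
  have hpos : ∀ᶠ w : ℂ in comap im atTop, 0 < w.im := by
    exact (tendsto_comap (f := im) (x := atTop)).eventually (eventually_gt_atTop 0)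
  have hgeq : ∀ t, (g t) =ᶠ[comap im atTop] (fun w => f t (2 * Real.pi * I * w)) := by
    intro t
    filter_upwards [hpos] with w hw
    simp only [hg]
    rw [if_pos hw]
  have hglim : ∀ t, Tendsto (g t) (comap im atTop) (𝓝 c) := by
    intro t
    exact ((hlim t).comp hI).congr' (hgeq t).symm
  have hgb : ∀ t, BoundedAtFilter (comap im atTop) (g t) := by
    intro t
    exact (hglim t).isBigO_one ℝ
  have hgh : ∀ t, ∀ᶠ w : ℂ in comap im atTop, DifferentiableAt ℂ (g t) w := by
    intro t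
    filter_upwards [hpos] with w hw
    exact hgd t w hw
  set H : ℝ → ℂ → ℂ := fun t => Function.Periodic.cuspFunction (N : ℝ) (g t) with hH
  have hH0 : ∀ t, H t 0 = c := by
    intro t
    have h1 := Function.Periodic.tendsto_at_I_inf hNR (hgper t) (hgh t) (hgb t)
    haveI : NeBot (comap im atTop) := by
      apply NeBot.comap_of_surj inferInstance
      intro y
      exact ⟨⟨0, y⟩, rfl⟩
    exact tendsto_nhds_unique h1 (hglim t)
  have hHq : ∀ t w, 0 < w.im → H t (Function.Periodic.qParam (N : ℝ) w) = f t (2 * Real.pi * I * w) := by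
    intro t w hw
    simp only [hH]
    rw [Function.Periodic.eq_cuspFunction hNR.ne' (hgper t)]
    simp only [hg]
    rw [if_pos hw]
  have hinv : ∀ q : ℂ, q ≠ 0 → ‖q‖ < 1 → 0 < (Function.Periodic.invQParam (N : ℝ) q).im := by
    intro q hq hq1
    rw [Function.Periodic.im_invQParam]
    have h1 : Real.log ‖q‖ < 0 := Real.log_neg (norm_pos_iff.2 hq) hq1
    have h2 : -(N : ℝ) / (2 * Real.pi) < 0 := by
      apply div_neg_of_neg_of_pos <;> linarith
    exact mul_pos_of_neg_of_neg h2 h1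
  have hHd : ∀ t, DifferentiableOn ℂ (H t) (Metric.ball 0 1) := by
    intro t q hq
    rw [Metric.mem_ball, dist_zero_right] at hq
    apply DifferentiableAt.differentiableWithinAt
    by_cases h0 : q = 0
    · rw [h0]
      exact Function.Periodic.differentiableAt_cuspFunction_zero hNR (hgper t) (hgh t) (hgb t)
    · have h1 := hinv q h0 hq
      have h2 := Function.Periodic.differentiableAt_cuspFunction hNR.ne' (hgper t)
        (hgd t _ h1)
      rwa [Function.Periodic.qParam_right_inv hNR.ne' h0] at h2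
  -- bound on a circle
  obtain ⟨K, hK⟩ : ∃ K : ℝ, ∀ t ∈ Icc (0 : ℝ) T, ∀ s ∈ Icc (0 : ℝ) N, ‖f t (2 * Real.pi * I * (s + I))‖ ≤ K := by
    have hcomp : IsCompact (Icc (0 : ℝ) T ×ˢ Icc (0 : ℝ) N) := isCompact_Icc.prod isCompact_Icc
    have hcont : ContinuousOn (fun e : ℝ × ℝ => f e.1 (2 * Real.pi * I * (e.2 + I)))
        (Icc (0 : ℝ) T ×ˢ Icc (0 : ℝ) N) := by
      have h1 : Continuous (fun e : ℝ × ℝ => ((e.1, 2 * Real.pi * I * (e.2 + I)) : ℝ × ℂ)) := by
        fun_prop
      refine hc.comp h1.continuousOn ?_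
      intro e _
      refine ⟨mem_univ _, ?_⟩
      show (2 * Real.pi * I * ((e.2 : ℂ) + I)).re < 0
      rw [hre]
      simp
      positivity
    obtain ⟨K, hK⟩ := hcomp.exists_bound_of_continuousOn hcont
    exact ⟨K, fun t ht s hs => hK (t, s) ⟨ht, hs⟩⟩
  set r : ℝ := Real.exp (-2 * Real.pi / N) with hr
  have hr0 : 0 < r := Real.exp_pos _
  have hr1 : r < 1 := by
    rw [hr, Real.exp_lt_one_iff]
    apply div_neg_of_neg_of_pos <;> linarith
  have hsph : ∀ t ∈ Icc (0 : ℝ) T, ∀ q : ℂ, ‖q‖ = r → ‖H t q‖ ≤ K := by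
    intro t ht q hq
    have hq0 : q ≠ 0 := by
      intro h
      rw [h, norm_zero] at hq
      linarith
    have him : (Function.Periodic.invQParam (N : ℝ) q).im = 1 := by
      rw [Function.Periodic.im_invQParam, hq, hr, Real.log_exp]
      field_simp
    set w := Function.Periodic.invQParam (N : ℝ) q with hw
    -- reduce the real part modulo N
    obtain ⟨m, hm⟩ : ∃ m : ℤ, w.re - m * N ∈ Icc (0 : ℝ) N := by
      refine ⟨⌊w.re / N⌋, ?_, ?_⟩
      · have := Int.floor_le (w.re / N)
        rw [le_div_iff₀ hNR] at this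
        linarith
      · have := Int.lt_floor_add_one (w.re / N)
        rw [div_lt_iff₀ hNR] at this
        linarith
    have h1 : H t q = g t w := by
      conv_lhs => rw [← Function.Periodic.qParam_right_inv hNR.ne' hq0]
      simp only [hH]
      rw [Function.Periodic.eq_cuspFunction hNR.ne' (hgper t)]
    have h2 : g t w = g t (w - m * ((N : ℝ) : ℂ)) := by
      rw [(hgper t).sub_int_mul_eq]
    have h3 : w - m * ((N : ℝ) : ℂ) = ((w.re - m * N : ℝ) : ℂ) + I := by
      apply Complex.ext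
      · simp
      · simp [him]
    rw [h1, h2, h3]
    simp only [hg]
    rw [if_pos (by simp)]
    exact hK t ht _ hm
  have hball : ∀ t ∈ Icc (0 : ℝ) T, ∀ q : ℂ, ‖q‖ < r → ‖H t q - c‖ ≤ (K + ‖c‖) / r * ‖q‖ := by
    intro t ht q hq
    have hsub : Metric.closedBall (0 : ℂ) r ⊆ Metric.ball 0 1 := Metric.closedBall_subset_ball hr1
    have hcl : closure (Metric.ball (0 : ℂ) r) = Metric.closedBall 0 r := closure_ball _ hr0.ne'
    have h1 : DiffContOnCl ℂ (H t) (Metric.ball 0 r) := by
      apply DifferentiableOn.diffContOnCl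
      rw [hcl]
      exact (hHd t).mono hsub
    have h2 : ∀ v ∈ Metric.ball (0 : ℂ) r, ‖H t v‖ ≤ K := by
      intro v hv
      refine Complex.norm_le_of_forall_mem_frontier_norm_le Metric.isBounded_ball h1 ?_ (subset_closure hv)
      intro u hu
      rw [frontier_ball _ hr0.ne'] at hu
      exact hsph t ht u (by simpa using hu)
    have h3 : MapsTo (H t) (Metric.ball 0 r) (Metric.closedBall (H t 0) (K + ‖c‖)) := by
      intro v hv
      rw [Metric.mem_closedBall, hH0, dist_eq_norm]
      exact (norm_sub_le _ _).trans (by linarith [h2 v hv])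
    have h4 := Complex.dist_le_div_mul_dist_of_mapsTo_ball
      ((hHd t).mono (Metric.ball_subset_ball hr1.le)) h3 (z := q) (by simpa using hq)
    rw [hH0, dist_eq_norm, dist_zero_right] at h4
    exact h4
  -- choose A
  obtain ⟨A, hA0, hA1, hA2⟩ : ∃ A : ℝ, A < 0 ∧ Real.exp (A / N) < r ∧
      (K + ‖c‖) / r * Real.exp (A / N) < ‖c‖ := by
    have hlim1 : Tendsto (fun A : ℝ => Real.exp (A / N)) atBot (𝓝 0) := by
      apply Real.tendsto_exp_atBot.comp
      exact tendsto_id.atBot_div_const hNR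
    have hlim2 : Tendsto (fun A : ℝ => (K + ‖c‖) / r * Real.exp (A / N)) atBot (𝓝 0) := by
      simpa using hlim1.const_mul ((K + ‖c‖) / r)
    have h3 := (eventually_lt_atBot (0 : ℝ)).and ((hlim1.eventually_lt_const hr0).and
      (hlim2.eventually_lt_const (norm_pos_iff.2 hc0)))
    exact h3.exists
  refine ⟨A, hA0, ?_⟩
  have key : ∀ t ∈ Icc (0 : ℝ) T, ‖f t (A : ℂ) - c‖ < ‖c‖ := by
    intro t ht
    set w : ℂ := (A : ℂ) / (2 * Real.pi * I) with hw
    have hw1 : 2 * Real.pi * I * w = A := by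
      rw [hw]
      have : (2 * Real.pi * I : ℂ) ≠ 0 := Complex.two_pi_I_ne_zero
      field_simp
    have hw2 : 0 < w.im := by
      have := hre w
      rw [hw1, Complex.ofReal_re] at this
      nlinarith
    have h1 := hHq t w hw2
    rw [hw1] at h1
    have h2 : ‖Function.Periodic.qParam (N : ℝ) w‖ = Real.exp (A / N) := by
      rw [Function.Periodic.norm_qParam]
      congr 1
      have := hre w
      rw [hw1, Complex.ofReal_re] at this
      rw [this]
      ring
    have h3 := hball t ht (Function.Periodic.qParam (N : ℝ) w) (by rw [h2]; exact hA1)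
    rw [h1, h2] at h3
    linarith
  intro t
  have hp : Function.Periodic (fun t => f t (A : ℂ)) T := by
    intro t
    exact hperT t A (by simpa using hA0)
  obtain ⟨s, hs, hst⟩ := hp.exists_mem_Ico₀ hT t
  rw [hst]
  exact key s ⟨hs.1, hs.2.le⟩

theorem S8c_cont_scl {E : Type*} [TopologicalSpace E] {i : ℕ} {y : E → Fin k → ℂ} (hy : Continuous y)
    {c : E → ℂ} (hc : Continuous c) : Continuous (fun e => scl i (c e) (y e)) := by
  apply continuous_pi
  intro a
  have hya : Continuous (fun e => y e a) := (continuous_apply a).comp hy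
  unfold scl
  by_cases h : (a : ℕ) < i
  · simp only [h, if_true]
    exact hc.mul hya
  · simp only [h, if_false]
    exact hya

theorem S8c_exp_mem {i : ℕ} {y : Fin k → ℂ} (hy : y ∈ Cl k i) {z : ℂ} (hz : z.re < 0) :
    scl i (exp z) y ∈ Inj k := by
  apply scl_mem hy (Complex.exp_ne_zero _)
  rw [Complex.norm_exp]
  exact Real.exp_le_one_iff.2 hz.le

/-- triviality of a loop of configurations along which all limit ratios are constant -/
theorem S8c_triv (d : Dat k n) {i : ℕ} (hi : 1 ≤ i) (hik : i < k) (hT : Triv d (rot k i))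
    {y : ℝ → Fin k → ℂ} (hy : Continuous y) (hyc : ∀ t, y t ∈ Cl k i) (hper : ∀ t, y (t + 1) = y t)
    {l : ℝ × ℂ → Fin n → ℂ}
    (hl : IsLiftOn d (univ ×ˢ {z : ℂ | z.re < 0}) (fun e => scl i (exp e.2) (y e.1)) l)
    (hR : ∀ p q r : Fin n, p ≠ q → q ≠ r → p ≠ r → ∀ t,
      R0 (fun z => l (t, z)) p q r = R0 (fun z => l (0, z)) p q r)
    {A : ℝ} (hA : A < 0) : Triv d (fun t => scl i (exp A) (y t)) := by
  have hopen' : IsOpen {z : ℂ | z.re < 0} := isOpen_lt Complex.continuous_re continuous_const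
  have hgerm : ∀ t, Germ d i (y t) (fun z => l (t, z)) := by
    intro t
    refine ⟨?_, ?_⟩
    · refine hl.cont.comp (Continuous.continuousOn (by fun_prop)) ?_
      intro z hz
      exact ⟨mem_univ _, hz⟩
    · intro z hz
      exact hl.eq (t, z) ⟨mem_univ _, hz⟩
  have hinj : ∀ t z, z.re < 0 → l (t, z) ∈ Inj n := by
    intro t z hz
    exact lift_inj d (S8c_exp_mem (hyc t) hz) (hl.eq (t, z) ⟨mem_univ _, hz⟩)
  have hnz : ∀ t z, z.re < 0 → ∀ {p q : Fin n}, p ≠ q → l (t, z) p - l (t, z) q ≠ 0 := by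
    intro t z hz p q hpq
    exact sub_ne_zero.2 (fun h => hpq (hinj t z hz h))
  -- lifts along t at fixed z
  have hlt : ∀ z : ℂ, z.re < 0 → IsLift d (fun t => scl i (exp z) (y t)) (fun t => l (t, z)) := by
    intro z hz
    refine ⟨?_, ?_⟩
    · rw [← continuousOn_univ]
      refine hl.cont.comp (Continuous.continuousOn (by fun_prop)) ?_
      intro t _
      exact ⟨mem_univ _, hz⟩
    · intro t
      exact hl.eq (t, z) ⟨mem_univ _, hz⟩
  have hperT : ∀ t z, z.re < 0 → l (t + (n.factorial : ℝ), z) = l (t, z) := by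
    intro t z hz
    refine lift_period_fact d (x := fun t => scl i (exp z) (y t)) ?_ ?_ ?_ (hlt z hz) t
    · exact S8c_cont_scl hy continuous_const
    · exact fun t => S8c_exp_mem (hyc t) hz
    · intro t
      simp only [hper]
  have hperz : ∀ t z, z.re < 0 → l (t, z + 2 * Real.pi * I * (n.factorial : ℕ)) = l (t, z) := by
    intro t z hz
    have hre : ∀ s : ℝ, (z + 2 * Real.pi * I * s).re < 0 := by
      intro s
      have : (z + 2 * Real.pi * I * s).re = z.re := by
        simp [Complex.add_re, Complex.mul_re, Complex.mul_im]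
      rw [this]
      exact hz
    have h1 : IsLift d (fun s : ℝ => scl i (exp (z + 2 * Real.pi * I * s)) (y t))
        (fun s : ℝ => l (t, z + 2 * Real.pi * I * s)) := by
      refine ⟨?_, ?_⟩
      · rw [← continuousOn_univ]
        refine hl.cont.comp (Continuous.continuousOn (by fun_prop)) ?_
        intro s _
        exact ⟨mem_univ _, hre s⟩
      · intro s
        exact hl.eq (t, z + 2 * Real.pi * I * s) ⟨mem_univ _, hre s⟩
    have h2 := lift_period_fact d (x := fun s : ℝ => scl i (exp (z + 2 * Real.pi * I * s)) (y t))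
      (S8c_cont_scl continuous_const (by fun_prop)) (fun s => S8c_exp_mem (hyc t) (hre s))
      (fun s => by
        have : exp (z + 2 * Real.pi * I * ((s + 1 : ℝ) : ℂ)) = exp (z + 2 * Real.pi * I * s) := by
          have e : z + 2 * Real.pi * I * ((s + 1 : ℝ) : ℂ) = (z + 2 * Real.pi * I * s) +
            2 * Real.pi * I := by push_cast; ring
          rw [e, Complex.exp_periodic]
        simp only [this]) h1 0
    simpa using h2
  -- equality of the windings for adjacent pairs
  have hV1 : ∀ p q r : Fin n, p ≠ q → q ≠ r → p ≠ r → ∃ A' : ℝ, A' < 0 ∧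
      V (fun t => l (t, (A' : ℂ))) p q = V (fun t => l (t, (A' : ℂ))) r q := by
    intro p q r hpq hqr hpr
    obtain ⟨A', hA', hnear⟩ := S8c_unif (N := n.factorial) (Nat.factorial_pos n)
      (f := fun t z => R (l (t, z)) p q r) (T := (n.factorial : ℝ))
      (by exact_mod_cast Nat.factorial_pos n) (c := R0 (fun z => l (0, z)) p q r)
      (by
        have hp : ∀ p : Fin n, ContinuousOn (fun e : ℝ × ℂ => l (e.1, e.2) p)
            (univ ×ˢ {z : ℂ | z.re < 0}) := by
          intro p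
          exact (continuous_apply p).comp_continuousOn hl.cont
        refine ((hp p).sub (hp q)).div ((hp r).sub (hp q)) ?_
        rintro ⟨t, z⟩ ⟨_, hz⟩
        exact hnz t z hz hqr.symm)
      (by
        intro t
        have hx : DifferentiableOn ℂ (fun z : ℂ => scl i (exp z) (y t)) {z : ℂ | z.re < 0} := by
          apply Differentiable.differentiableOn
          rw [differentiable_pi]
          intro a
          unfold scl
          by_cases h : (a : ℕ) < i
          · simp only [h, if_true]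
            fun_prop
          · simp only [h, if_false]
            fun_prop
        have h1 := liftOn_holo d hopen' hx (fun z hz => S8c_exp_mem (hyc t) hz) (hgerm t)
        rw [differentiableOn_pi] at h1
        refine ((h1 p).sub (h1 q)).div ((h1 r).sub (h1 q)) ?_
        intro z hz
        exact hnz t z hz hqr.symm)
      (by
        intro t z hz
        rw [hperz t z hz])
      (by
        intro t z hz
        rw [hperT t z hz])
      (germ_limit d hi hik hT (hyc 0) (hgerm 0) hpq hqr hpr).1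
      (by
        intro t
        have h1 := (germ_limit d hi hik hT (hyc t) (hgerm t) hpq hqr hpr).2.2
        rw [hR p q r hpq hqr hpr t] at h1
        exact h1)
    refine ⟨A', hA', ?_⟩
    have hA'c : ((A' : ℝ) : ℂ).re < 0 := by simpa using hA'
    have hcp : ∀ p : Fin n, Continuous (fun t : ℝ => l (t, (A' : ℂ)) p) := by
      intro p
      exact (continuous_apply p).comp (hlt _ hA'c).cont
    have h1 : wnd (fun t => (l (t, (A' : ℂ)) p - l (t, (A' : ℂ)) q) /
        (l (t, (A' : ℂ)) r - l (t, (A' : ℂ)) q)) 0 (n.factorial : ℝ) = 0 := by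
      refine wnd_eq_zero_of_near (c := R0 (fun z => l (0, z)) p q r) ?_ ?_ ?_
      · exact ((hcp p).sub (hcp q)).div ((hcp r).sub (hcp q)) (fun t => hnz t _ hA'c hqr.symm)
      · intro t
        exact hnear t
      · have := hperT 0 _ hA'c
        rw [zero_add] at this
        rw [this]
    have hc1 : Continuous (fun t : ℝ => l (t, (A' : ℂ)) p - l (t, (A' : ℂ)) q) :=
      (hcp p).sub (hcp q)
    have hc2 : Continuous (fun t : ℝ => l (t, (A' : ℂ)) r - l (t, (A' : ℂ)) q) :=
      (hcp r).sub (hcp q)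
    rw [wnd_div hc1 hc2 (fun t => hnz t _ hA'c hpq) (fun t => hnz t _ hA'c hqr.symm)] at h1
    exact sub_eq_zero.1 h1
  -- independence of the scale
  have hVind : ∀ (A₁ A₂ : ℝ), A₁ < 0 → A₂ < 0 → ∀ p q : Fin n, p ≠ q →
      V (fun t => l (t, (A₁ : ℂ))) p q = V (fun t => l (t, (A₂ : ℂ))) p q := by
    intro A₁ A₂ h1 h2 p q hpq
    have hre : ∀ s : ℝ, ((-Real.exp s : ℝ) : ℂ).re < 0 := by
      intro s
      rw [Complex.ofReal_re]
      linarith [Real.exp_pos s]
    have h3 := V_homotopy d (x := fun e : ℝ × ℝ => scl i (exp ((-Real.exp e.1 : ℝ) : ℂ)) (y e.2))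
      (l := fun e : ℝ × ℝ => l (e.2, ((-Real.exp e.1 : ℝ) : ℂ)))
      (S8c_cont_scl (hy.comp continuous_snd) (by fun_prop))
      (fun e => S8c_exp_mem (hyc e.2) (hre e.1))
      (fun s t => by simp only [hper])
      ⟨by
        rw [← continuousOn_univ]
        refine hl.cont.comp (Continuous.continuousOn (by fun_prop)) ?_
        intro e _
        exact ⟨mem_univ _, hre e.1⟩, fun e => hl.eq (e.2, _) ⟨mem_univ _, hre e.1⟩⟩
      hpq (Real.log (-A₁)) (Real.log (-A₂))
    simp only [Real.exp_log (neg_pos.2 h1), Real.exp_log (neg_pos.2 h2), neg_neg] at h3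
    exact h3
  have hAc : ((A : ℝ) : ℂ).re < 0 := by simpa using hA
  have hV : ∀ p q r : Fin n, p ≠ q → q ≠ r → p ≠ r →
      V (fun t => l (t, (A : ℂ))) p q = V (fun t => l (t, (A : ℂ))) r q := by
    intro p q r hpq hqr hpr
    obtain ⟨A', hA', h1⟩ := hV1 p q r hpq hqr hpr
    rw [hVind A A' hA hA' p q hpq, hVind A A' hA hA' r q hqr.symm, h1]
  have hxi : ∀ t, scl i (exp (A : ℂ)) (y t) ∈ Inj k := fun t => S8c_exp_mem (hyc t) hAc
  have hVs : ∀ p q : Fin n, V (fun t => l (t, (A : ℂ))) p q = V (fun t => l (t, (A : ℂ))) q p :=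
    fun p q => V_symm d hxi (hlt _ hAc) p q
  refine triv_of_lift d hxi (hlt _ hAc) ?_
  intro p q r s hpq hrs
  by_cases hqs : q = s
  · subst hqs
    by_cases hpr : p = r
    · rw [hpr]
    · exact hV p q r hpq hrs.symm hpr
  · by_cases hps : p = s
    · subst hps
      rw [hVs p q]
      by_cases hqr : q = r
      · rw [hqr]
      · exact hV q p r hpq.symm hrs.symm hqr
    · rw [hVs p q, hV q p s hpq.symm hps hqs, hVs s p]
      by_cases hpr : p = r
      · rw [hpr]
      · exact hV p s r hps hrs.symm hpr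

/-- combinatorial dichotomy for classes of triples -/
theorem S8c_comb (P Q : Fin n → Fin n → Fin n → Prop)
    (P1 : ∀ a b c, a ≠ b → b ≠ c → a ≠ c → P a b c → P a c b)
    (P2 : ∀ a b c, a ≠ b → b ≠ c → a ≠ c → P a b c → P c b a)
    (P3 : ∀ a b r s, a ≠ b → b ≠ r → a ≠ r → b ≠ s → a ≠ s → r ≠ s → P a b r → P r b s → P a b s)
    (Q1 : ∀ a b c, a ≠ b → b ≠ c → a ≠ c → Q a b c → Q a c b)
    (Q2 : ∀ a b c, a ≠ b → b ≠ c → a ≠ c → Q a b c → Q c b a)
    (Q3 : ∀ a b r s, a ≠ b → b ≠ r → a ≠ r → b ≠ s → a ≠ s → r ≠ s → Q a b r → Q r b s → Q a b s)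
    (hPQ : ∀ a b c, a ≠ b → b ≠ c → a ≠ c → P a b c ∨ Q a b c) :
    (∀ a b c, a ≠ b → b ≠ c → a ≠ c → P a b c) ∨ (∀ a b c, a ≠ b → b ≠ c → a ≠ c → Q a b c) := by
  by_cases hall : ∀ a b c, a ≠ b → b ≠ c → a ≠ c → P a b c
  · exact Or.inl hall
  right
  push Not at hall
  obtain ⟨p, q, r, hpq, hqr, hpr, hP⟩ := hall
  have hQ : Q p q r := (hPQ p q r hpq hqr hpr).resolve_left hP
  -- all triples containing `p, q`
  have h1 : ∀ s, p ≠ s → q ≠ s → Q p q s := by
    intro s hps hqs
    by_cases hrs : r = s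
    · rw [← hrs]; exact hQ
    · rcases hPQ p q s hpq hqs hps with h | h
      · have h2 : ¬ P s q r := by
          intro h3
          exact hP (P3 p q s r hpq hqs hps hqr hpr (Ne.symm hrs) h h3)
        have h3 : Q s q r := (hPQ s q r hqs.symm hqr (Ne.symm hrs)).resolve_left h2
        exact Q3 p q r s hpq hqr hpr hqs hps hrs hQ (Q2 s q r hqs.symm hqr (Ne.symm hrs) h3)
      · exact h
  -- all triples containing `q`
  have h2 : ∀ a b, a ≠ q → b ≠ q → a ≠ b → Q a q b := by
    intro a b haq hbq hab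
    by_cases hpa : p = a
    · subst hpa
      exact h1 b hab hbq.symm
    · by_cases hpb : p = b
      · subst hpb
        exact Q2 p q a hpq haq.symm hpa (h1 a hpa haq.symm)
      · exact Q3 a q p b haq hpq.symm (Ne.symm hpa) hbq.symm hab hpb
          (Q2 p q a hpq haq.symm hpa (h1 a hpa haq.symm)) (h1 b hpb hbq.symm)
  intro a b c hab hbc hac
  by_cases hqa : q = a
  · subst hqa
    -- Q q b c from Q b q c
    have h3 := h2 b c hab.symm hac.symm hbc
    exact Q2 c b q hbc.symm hab.symm hac.symm (Q1 c q b hac.symm hab hbc.symm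
      (Q2 b q c hab.symm hac hbc h3))
  · by_cases hqb : q = b
    · subst hqb
      exact h2 a c hab hbc.symm hac
    · by_cases hqc : q = c
      · subst hqc
        exact Q1 a q b hac (Ne.symm hbc) hab (h2 a b hac hbc hab)
      · have h3 : Q a b q := Q1 a q b (Ne.symm hqa) hqb hab (h2 a b (Ne.symm hqa) (Ne.symm hqb) hab)
        have h4 : Q c b q := Q1 c q b (Ne.symm hqc) hqb hbc.symm
          (h2 c b (Ne.symm hqc) (Ne.symm hqb) hbc.symm)
        exact Q3 a b q c hab (Ne.symm hqb) (Ne.symm hqa) hbc hac hqc h3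
          (Q2 c b q hbc.symm (Ne.symm hqb) (Ne.symm hqc) h4)

/-- the triples with constant limit ratio form a closed class -/
theorem S8c_rules (d : Dat k n) {i : ℕ} (hi : 1 ≤ i) (hik : i < k) (hT : Triv d (rot k i))
    {Y : ℝ → Fin k → ℂ} (hY : ∀ t, Y t ∈ Cl k i) {g : ℝ → ℂ → Fin n → ℂ}
    (hg : ∀ t, Germ d i (Y t) (g t)) :
    (∀ a b c : Fin n, a ≠ b → b ≠ c → a ≠ c → (∀ t, R0 (g t) a b c = R0 (g 0) a b c) →
      (∀ t, R0 (g t) a c b = R0 (g 0) a c b)) ∧
    (∀ a b c : Fin n, a ≠ b → b ≠ c → a ≠ c → (∀ t, R0 (g t) a b c = R0 (g 0) a b c) →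
      (∀ t, R0 (g t) c b a = R0 (g 0) c b a)) ∧
    (∀ a b r s : Fin n, a ≠ b → b ≠ r → a ≠ r → b ≠ s → a ≠ s → r ≠ s →
      (∀ t, R0 (g t) a b r = R0 (g 0) a b r) → (∀ t, R0 (g t) r b s = R0 (g 0) r b s) →
      (∀ t, R0 (g t) a b s = R0 (g 0) a b s)) := by
  refine ⟨?_, ?_, ?_⟩
  · intro a b c hab hbc hac h t
    rw [← R0_one_sub d hi hik hT (hY t) (hg t) hab hbc hac,
      ← R0_one_sub d hi hik hT (hY 0) (hg 0) hab hbc hac, h t]
  · intro a b c hab hbc hac h t
    rw [← R0_inv d hi hik hT (hY t) (hg t) hab hbc hac,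
      ← R0_inv d hi hik hT (hY 0) (hg 0) hab hbc hac, h t]
  · intro a b r s hab hbr har hbs has hrs h1 h2 t
    rw [← R0_mul d hi hik hT (hY t) (hg t) hab hbr har hbs has hrs,
      ← R0_mul d hi hik hT (hY 0) (hg 0) hab hbr har hbs has hrs, h1 t, h2 t]

/-- the collisions of the points `a + s a ^ 2` -/
theorem S8c_coll {a b : ℕ} {s : ℂ} (hab : a ≠ b) (h : (a : ℂ) + s * (a : ℂ) ^ 2 = b + s * (b : ℂ) ^ 2) :
    1 + s * ((a : ℂ) + b) = 0 := by
  have h1 : ((a : ℂ) - b) * (1 + s * ((a : ℂ) + b)) = 0 := by linear_combination h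
  rcases mul_eq_zero.1 h1 with h2 | h2
  · exfalso
    apply hab
    have : (a : ℂ) = b := sub_eq_zero.1 h2
    exact_mod_cast this
  · exact h2

theorem S8c_coll' {N : ℕ} {τ : ℂ} (h0 : τ ≠ 0) (h1 : ‖τ‖ < 1 / 2) : 1 + (-1 + τ) * (N : ℂ) ≠ 0 := by
  intro h
  have h2 : τ * N = N - 1 := by linear_combination h
  rcases Nat.lt_or_ge N 2 with hN | hN
  · interval_cases N
    · simp at h2
    · simp at h2
      exact h0 h2
  · have hN0 : (0 : ℝ) < (N : ℝ) := by
      have : (2 : ℝ) ≤ (N : ℝ) := by exact_mod_cast hN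
      linarith
    have h3 : ‖τ‖ * N = N - 1 := by
      have h4 := congrArg norm h2
      rw [norm_mul, Complex.norm_natCast] at h4
      rw [h4]
      have h5 : ((N : ℂ) - 1) = (((N : ℝ) - 1 : ℝ) : ℂ) := by push_cast; ring
      rw [h5, Complex.norm_real, Real.norm_eq_abs, abs_of_nonneg]
      have : (2 : ℝ) ≤ (N : ℝ) := by exact_mod_cast hN
      linarith
    have : (2 : ℝ) ≤ (N : ℝ) := by exact_mod_cast hN
    nlinarith

theorem S8c_half {i m : ℕ} {e : ℂ} (he : ‖e‖ = 1) : (i : ℂ) + 1 / 2 * e ≠ (m : ℂ) := by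
  intro h
  have h1 : e = ((2 * ((m : ℤ) - i) : ℤ) : ℂ) := by
    push_cast
    linear_combination 2 * h
  rw [h1, Complex.norm_intCast] at he
  have h2 : |(2 * ((m : ℤ) - i) : ℤ)| = 1 := by exact_mod_cast he
  rcases (abs_eq (by norm_num)).1 h2 with h3 | h3 <;> omega

theorem triv_two_of_mid (hn : 3 ≤ n) (d : Dat k n) {i : ℕ} (hi : 3 ≤ i) (hik : i + 2 ≤ k)
    (hT : Triv d (rot k i)) : Triv d (rot k 2) := by
  classical
  have hik' : i < k := by omega
  have hi1 : 1 ≤ i := by omega
  have hkpos : (0 : ℝ) < 1 + (k : ℝ) + 2 * (k : ℝ) ^ 2 := by positivity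
  -- the scaling constant
  set C : ℂ := ((1 / (1 + (k : ℝ) + 2 * (k : ℝ) ^ 2) : ℝ) : ℂ) with hC
  have hCn : ‖C‖ = 1 / (1 + (k : ℝ) + 2 * (k : ℝ) ^ 2) := by
    rw [hC, Complex.norm_real, Real.norm_eq_abs, abs_of_pos (by positivity)]
  have hC0 : C ≠ 0 := by
    rw [← norm_pos_iff, hCn]; positivity
  have he1 : ∀ t : ℝ, ‖exp (2 * Real.pi * I * t)‖ = 1 := by
    intro t
    have : 2 * (Real.pi : ℂ) * I * t = ((2 * Real.pi * t : ℝ) : ℂ) * I := by push_cast; ring
    rw [this, Complex.norm_exp_ofReal_mul_I]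
  have heper : ∀ t : ℝ, exp (2 * Real.pi * I * ((t + 1 : ℝ) : ℂ)) = exp (2 * Real.pi * I * t) := by
    intro t
    have e : 2 * (Real.pi : ℂ) * I * ((t + 1 : ℝ) : ℂ) = 2 * Real.pi * I * t + 2 * Real.pi * I := by
      push_cast; ring
    rw [e, Complex.exp_periodic]
  -- outer configurations
  set β : ℝ → Fin k → ℂ := fun u b => if (b : ℕ) = i + 1 then
    (i : ℂ) + 1 / 2 * exp (2 * Real.pi * I * u) else ((b : ℕ) : ℂ) with hβ
  have hβc : Continuous β := by
    apply continuous_pi
    intro b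
    simp only [hβ]
    by_cases h : (b : ℕ) = i + 1
    · simp only [h, if_true]; fun_prop
    · simp only [h, if_false]; fun_prop
  have hβper : ∀ u, β (u + 1) = β u := by
    intro u
    ext b
    simp only [hβ, heper]
  have hβi : ∀ u, ∀ a b : Fin k, i ≤ (a : ℕ) → i ≤ (b : ℕ) → β u a = β u b → a = b := by
    intro u a b _ _ h
    simp only [hβ] at h
    by_cases h1 : (a : ℕ) = i + 1
    · by_cases h2 : (b : ℕ) = i + 1
      · exact Fin.ext (h1.trans h2.symm)
      · simp only [h1, h2, if_true, if_false] at h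
        exact absurd h (S8c_half (he1 u))
    · by_cases h2 : (b : ℕ) = i + 1
      · simp only [h1, h2, if_true, if_false] at h
        exact absurd h.symm (S8c_half (he1 u))
      · simp only [h1, h2, if_false] at h
        exact Fin.ext (by exact_mod_cast h)
  have hβ1 : ∀ u, ∀ b : Fin k, i ≤ (b : ℕ) → 1 ≤ ‖β u b‖ := by
    intro u b hb
    simp only [hβ]
    have hi3 : (3 : ℝ) ≤ (i : ℝ) := by exact_mod_cast hi
    split_ifs with h1
    · have h2 : ‖(i : ℂ)‖ ≤ ‖(i : ℂ) + 1 / 2 * exp (2 * Real.pi * I * u)‖ +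
          ‖(1 / 2 : ℂ) * exp (2 * Real.pi * I * u)‖ := by
        calc ‖(i : ℂ)‖ = ‖((i : ℂ) + 1 / 2 * exp (2 * Real.pi * I * u)) -
              (1 / 2 : ℂ) * exp (2 * Real.pi * I * u)‖ := by ring_nf
          _ ≤ _ := norm_sub_le _ _
      rw [norm_mul (1 / 2 : ℂ), he1, Complex.norm_natCast] at h2
      norm_num at h2
      linarith
    · rw [Complex.norm_natCast]
      have : (3 : ℝ) ≤ (b : ℕ) := by exact_mod_cast hi.trans hb
      linarith
  -- collision of the points `0` and `1`
  set C' : ℂ := exp (((-1 : ℝ)) : ℂ) * C with hC'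
  have hC'0 : C' ≠ 0 := mul_ne_zero (Complex.exp_ne_zero _) hC0
  set U : ℂ → Fin k → ℂ := fun τ a => if (a : ℕ) = 0 then 0 else if (a : ℕ) = 1 then C' else
    if (a : ℕ) < i then C' * ((a : ℕ) + (-1 + τ) * ((a : ℕ) : ℂ) ^ 2) else β 0 a with hU
  have hsq : ∀ a b : ℕ, 2 ≤ a → (a : ℂ) + (-1) * (a : ℂ) ^ 2 = b + (-1) * (b : ℂ) ^ 2 → a = b := by
    intro a b ha h
    by_contra hab
    have h1 := S8c_coll hab h
    have h2 : (a : ℂ) + b = 1 := by linear_combination -h1
    have h3 : a + b = 1 := by exact_mod_cast h2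
    omega
  have hinner : ∀ s : ℂ, ‖s‖ ≤ 2 → ∀ a : ℕ, a < k → ‖C * ((a : ℂ) + s * (a : ℂ) ^ 2)‖ < 1 := by
    intro s hs a ha
    have hak : (a : ℝ) ≤ k := by exact_mod_cast ha.le
    have ha0 : (0 : ℝ) ≤ a := Nat.cast_nonneg a
    have h1 : ‖(a : ℂ) + s * (a : ℂ) ^ 2‖ ≤ k + 2 * (k : ℝ) ^ 2 := by
      refine (norm_add_le _ _).trans ?_
      rw [norm_mul, norm_pow, Complex.norm_natCast]
      have h2 : (a : ℝ) ^ 2 ≤ (k : ℝ) ^ 2 := by nlinarith
      have h3 : ‖s‖ * (a : ℝ) ^ 2 ≤ 2 * (k : ℝ) ^ 2 := by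
        have := norm_nonneg s
        nlinarith [sq_nonneg (a : ℝ)]
      linarith
    rw [norm_mul, hCn, one_div, inv_mul_lt_iff₀ hkpos]
    linarith
  have hout2 : ∀ a : Fin k, i ≤ (a : ℕ) → β 0 a ≠ 0 := by
    intro a ha h
    have := hβ1 0 a ha
    rw [h, norm_zero] at this
    linarith
  have hC'n : ∀ s : ℂ, ‖s‖ ≤ 2 → ∀ a : ℕ, a < k → ‖C' * ((a : ℂ) + s * (a : ℂ) ^ 2)‖ < 1 := by
    intro s hs a ha
    have h1 := hinner s hs a ha
    rw [hC', mul_assoc, norm_mul, Complex.norm_exp]
    have h2 : Real.exp (((-1 : ℝ) : ℂ).re) ≤ 1 := by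
      rw [Complex.ofReal_re]
      exact Real.exp_le_one_iff.2 (by norm_num)
    have h3 : 0 < Real.exp (((-1 : ℝ) : ℂ).re) := Real.exp_pos _
    have h4 := norm_nonneg (C * ((a : ℂ) + s * (a : ℂ) ^ 2))
    nlinarith
  set S : Finset (Fin k) := {⟨0, by omega⟩, ⟨1, by omega⟩} with hS
  have hSm : ∀ a : Fin k, a ∈ S ↔ (a : ℕ) < 2 := by
    intro a
    simp only [hS, Finset.mem_insert, Finset.mem_singleton, Fin.ext_iff]
    omega
  obtain ⟨ε₀, hε₀, -, -, hcusp⟩ := triv_cusp_iff d (i := 2) (by omega) (by omega) (S := S)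
    (by rw [hS, Finset.card_pair]; simp [Fin.ext_iff]) (c := fun _ => 0) (u := U) (δ := 1) one_pos
    continuousOn_const
    (by
      apply Continuous.continuousOn
      apply continuous_pi
      intro a
      simp only [hU]
      split_ifs <;> fun_prop)
    (by
      intro a ha b hb h
      rw [hSm] at ha hb
      simp only [hU] at h
      have ha' : (a : ℕ) = 0 ∨ (a : ℕ) = 1 := by omega
      have hb' : (b : ℕ) = 0 ∨ (b : ℕ) = 1 := by omega
      rcases ha' with ha' | ha' <;> rcases hb' with hb' | hb'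
      · exact Fin.ext (by omega)
      · simp [ha', hb'] at h
        exact absurd h.symm hC'0
      · simp [ha', hb'] at h
        exact absurd h hC'0
      · exact Fin.ext (by omega))
    (by
      intro a ha b hb h
      rw [hSm] at ha hb
      simp only [hU, add_zero] at h
      have ha0 : ¬ (a : ℕ) = 0 := by omega
      have ha1 : ¬ (a : ℕ) = 1 := by omega
      have hb0 : ¬ (b : ℕ) = 0 := by omega
      have hb1 : ¬ (b : ℕ) = 1 := by omega
      simp only [ha0, ha1, hb0, hb1, if_false] at h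
      by_cases hai : (a : ℕ) < i
      · by_cases hbi : (b : ℕ) < i
        · simp only [hai, hbi, if_true] at h
          exact Fin.ext (hsq _ _ (by omega) (mul_left_cancel₀ hC'0 h))
        · simp only [hai, hbi, if_true, if_false] at h
          exfalso
          have h1 := hC'n (-1) (by norm_num) a a.2
          rw [h] at h1
          have h2 := hβ1 0 b (by omega)
          linarith
      · by_cases hbi : (b : ℕ) < i
        · simp only [hai, hbi, if_true, if_false] at h
          exfalso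
          have h1 := hC'n (-1) (by norm_num) b b.2
          rw [← h] at h1
          have h2 := hβ1 0 a (by omega)
          linarith
        · simp only [hai, hbi, if_false] at h
          exact hβi 0 a b (by omega) (by omega) h)
    (by
      intro a ha
      rw [hSm] at ha
      simp only [hU, add_zero]
      have ha0 : ¬ (a : ℕ) = 0 := by omega
      have ha1 : ¬ (a : ℕ) = 1 := by omega
      simp only [ha0, ha1, if_false]
      split_ifs with hai
      · refine mul_ne_zero hC'0 ?_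
        intro h
        have h1 := hsq a 0 (by omega) (by rw [h]; simp)
        omega
      · exact hout2 a (by omega))
  -- the radius of the inner loop
  set ε : ℝ := min (ε₀ / 2) (1 / 4) with hε
  have hε0 : 0 < ε := lt_min (by linarith) (by norm_num)
  have hε1 : ε < ε₀ := (min_le_left _ _).trans_lt (by linarith)
  have hε2 : ε < 1 / 2 := (min_le_right _ _).trans_lt (by norm_num)
  have hτ0 : ∀ t : ℝ, (ε : ℂ) * exp (2 * Real.pi * I * t) ≠ 0 := fun t =>
    mul_ne_zero (by exact_mod_cast hε0.ne') (Complex.exp_ne_zero _)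
  have hτn : ∀ t : ℝ, ‖(ε : ℂ) * exp (2 * Real.pi * I * t)‖ = ε := by
    intro t
    rw [norm_mul, he1, mul_one, Complex.norm_real, Real.norm_eq_abs, abs_of_pos hε0]
  set σ : ℝ → ℂ := fun t => -1 + (ε : ℂ) * exp (2 * Real.pi * I * t) with hσ
  have hσc : Continuous σ := by simp only [hσ]; fun_prop
  have hσper : ∀ t, σ (t + 1) = σ t := by
    intro t
    simp only [hσ, heper]
  have hσn : ∀ t, ‖σ t‖ ≤ 2 := by
    intro t
    refine (norm_add_le _ _).trans ?_
    rw [hτn, norm_neg, norm_one]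
    linarith
  set E : Finset ℂ := Finset.univ.image (fun e : Fin k × Fin k => -1 / (((e.1 : ℕ) : ℂ) + ((e.2 : ℕ) : ℂ))) with hE
  have hEi : ∀ s ∉ E, ∀ a b : Fin k, ((a : ℕ) : ℂ) + s * ((a : ℕ) : ℂ) ^ 2 = ((b : ℕ) : ℂ) + s * ((b : ℕ) : ℂ) ^ 2 → a = b := by
    intro s hs a b h
    by_contra hab
    have h1 := S8c_coll (fun h => hab (Fin.ext h)) h
    apply hs
    rw [hE, Finset.mem_image]
    refine ⟨(a, b), Finset.mem_univ _, ?_⟩
    have h2 : ((a : ℕ) : ℂ) + ((b : ℕ) : ℂ) ≠ 0 := by
      intro h3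
      rw [h3] at h1
      simp at h1
    show -1 / (((a : ℕ) : ℂ) + ((b : ℕ) : ℂ)) = s
    rw [div_eq_iff h2]
    linear_combination -h1
  have hσE : ∀ t, σ t ∉ E := by
    intro t ht
    rw [hE, Finset.mem_image] at ht
    obtain ⟨⟨a, b⟩, -, h⟩ := ht
    simp only at h
    have h1 := S8c_coll' (N := (a : ℕ) + (b : ℕ)) (hτ0 t) (by rw [hτn]; exact hε2)
    apply h1
    by_cases h2 : ((a : ℕ) : ℂ) + ((b : ℕ) : ℂ) = 0
    · exfalso
      rw [h2, div_zero] at h
      have h3 : (ε : ℂ) * exp (2 * Real.pi * I * t) = 1 := by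
        have h4 : (0 : ℂ) = -1 + (ε : ℂ) * exp (2 * Real.pi * I * t) := h
        linear_combination -h4
      have h5 := hτn t
      rw [h3, norm_one] at h5
      linarith
    · rw [div_eq_iff h2] at h
      have h4 : (-1 : ℂ) = (-1 + (ε : ℂ) * exp (2 * Real.pi * I * t)) * (((a : ℕ) : ℂ) + ((b : ℕ) : ℂ)) := h
      push_cast
      linear_combination -h4
  -- the family of configurations
  set Y : ℝ → ℝ → Fin k → ℂ := fun t u a => if (a : ℕ) < i then
    C * (((a : ℕ) : ℂ) + σ t * ((a : ℕ) : ℂ) ^ 2) else β u a with hY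
  have hYc : ∀ t u, Y t u ∈ Cl k i := by
    intro t u
    refine ⟨?_, ?_, ?_⟩
    · intro a b ha hb h
      simp only [hY, ha, hb, if_true] at h
      exact hEi (σ t) (hσE t) a b (mul_left_cancel₀ hC0 h)
    · intro a b ha hb h
      have ha' : ¬ (a : ℕ) < i := by omega
      have hb' : ¬ (b : ℕ) < i := by omega
      simp only [hY, ha', hb', if_false] at h
      exact hβi u a b ha hb h
    · intro a b ha hb
      have hb' : ¬ (b : ℕ) < i := by omega
      simp only [hY, ha, hb', if_true, if_false]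
      exact (hinner _ (hσn t) a a.2).trans_le (hβ1 u b hb)
  have hYcont : Continuous (fun e : ℝ × ℝ => Y e.1 e.2) := by
    apply continuous_pi
    intro a
    simp only [hY]
    by_cases h : (a : ℕ) < i
    · simp only [h, if_true]; fun_prop
    · simp only [h, if_false]
      exact ((continuous_apply a).comp hβc).comp continuous_snd
  -- the lift
  have hopen : IsOpen ((univ : Set (ℝ × ℝ)) ×ˢ {z : ℂ | z.re < 0}) :=
    isOpen_univ.prod (isOpen_lt Complex.continuous_re continuous_const)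
  have hconv : Convex ℝ ((univ : Set (ℝ × ℝ)) ×ˢ {z : ℂ | z.re < 0}) :=
    convex_univ.prod (convex_halfSpace_re_lt 0)
  have hy₁ : (((0, 0), -1) : (ℝ × ℝ) × ℂ) ∈ ((univ : Set (ℝ × ℝ)) ×ˢ {z : ℂ | z.re < 0}) :=
    ⟨mem_univ _, by simp⟩
  have hxi : ∀ e ∈ ((univ : Set (ℝ × ℝ)) ×ˢ {z : ℂ | z.re < 0}),
      scl i (exp e.2) (Y e.1.1 e.1.2) ∈ Inj k := by
    intro e he
    exact S8c_exp_mem (hYc _ _) he.2
  obtain ⟨l₀, -, hl₀⟩ := d.reg _ (hxi _ hy₁)
  have hxc : Continuous (fun e : (ℝ × ℝ) × ℂ => scl i (exp e.2) (Y e.1.1 e.1.2)) :=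
    S8c_cont_scl (hYcont.comp continuous_fst) (by fun_prop)
  obtain ⟨L, hL, -⟩ := exists_liftOn d hopen (hconv.starConvex hy₁) hy₁
    (x := fun e : (ℝ × ℝ) × ℂ => scl i (exp e.2) (Y e.1.1 e.1.2)) hxc.continuousOn hxi hy₁ hl₀
  have hgerm : ∀ t u, Germ d i (Y t u) (fun z => L ((t, u), z)) := by
    intro t u
    refine ⟨?_, ?_⟩
    · refine hL.cont.comp (Continuous.continuousOn (by fun_prop)) ?_
      intro z hz
      exact ⟨mem_univ _, hz⟩
    · intro z hz
      exact hL.eq ((t, u), z) ⟨mem_univ _, hz⟩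
  -- rigidity
  have hrig : ∀ p q r : Fin n, p ≠ q → q ≠ r → p ≠ r → ∀ t u : ℝ,
      R0 (fun z => L ((t, u), z)) p q r / R0 (fun z => L ((t, 0), z)) p q r =
        R0 (fun z => L ((0, u), z)) p q r / R0 (fun z => L ((0, 0), z)) p q r := by
    intro p q r hpq hqr hpr t u
    have h1 := ratio_const hn d (i := i) (by omega) hik' hT (α := fun a => ((a : ℕ) : ℂ))
      (v := fun a => ((a : ℕ) : ℂ) ^ 2) (E := E)
      (by
        intro a b _ _ h
        have h2 : ((a : ℕ) : ℂ) ^ 2 = ((b : ℕ) : ℂ) ^ 2 := h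
        have h3 : (a : ℕ) ^ 2 = (b : ℕ) ^ 2 := by exact_mod_cast h2
        exact Fin.ext (Nat.pow_left_injective (by norm_num) h3))
      (by
        intro s hs a b _ _ h
        exact hEi s hs a b h)
      (β := fun w => β (u * w)) (hβc.comp (by fun_prop))
      (fun w => hβi _) (fun w => hβ1 _) (σ := σ) (c := fun _ => C) hσc hσE continuous_const
      (fun _ => hC0) (fun t a _ => hinner _ (hσn t) a a.2)
      (l := fun e => L ((e.1.1, u * e.1.2), e.2))
      (by
        refine ⟨?_, ?_⟩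
        · refine hL.cont.comp (Continuous.continuousOn (by fun_prop)) ?_
          intro e he
          exact ⟨mem_univ _, he.2⟩
        · intro e he
          exact hL.eq ((e.1.1, u * e.1.2), e.2) ⟨mem_univ _, he.2⟩)
      hpq hqr hpr t
    simpa using h1
  -- the two classes
  have hdich : ∀ p q r : Fin n, p ≠ q → q ≠ r → p ≠ r →
      (∀ t : ℝ, R0 (fun z => L ((t, 0), z)) p q r = R0 (fun z => L ((0, 0), z)) p q r) ∨
      (∀ u : ℝ, R0 (fun z => L ((0, u), z)) p q r = R0 (fun z => L ((0, 0), z)) p q r) := by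
    intro p q r hpq hqr hpr
    by_cases h : ∀ t : ℝ, R0 (fun z => L ((t, 0), z)) p q r = R0 (fun z => L ((0, 0), z)) p q r
    · exact Or.inl h
    right
    push Not at h
    obtain ⟨t, ht⟩ := h
    intro u
    have e1 := hrig p q r hpq hqr hpr t u
    have e2 := hrig p r q hpr hqr.symm hpq t u
    have n1 := (germ_limit d hi1 hik' hT (hYc t 0) (hgerm t 0) hpq hqr hpr).1
    have n2 := (germ_limit d hi1 hik' hT (hYc 0 0) (hgerm 0 0) hpq hqr hpr).1
    have n3 := (germ_limit d hi1 hik' hT (hYc t 0) (hgerm t 0) hpr hqr.symm hpq).1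
    have n4 := (germ_limit d hi1 hik' hT (hYc 0 0) (hgerm 0 0) hpr hqr.symm hpq).1
    rw [← R0_one_sub d hi1 hik' hT (hYc t u) (hgerm t u) hpq hqr hpr,
      ← R0_one_sub d hi1 hik' hT (hYc t 0) (hgerm t 0) hpq hqr hpr,
      ← R0_one_sub d hi1 hik' hT (hYc 0 u) (hgerm 0 u) hpq hqr hpr,
      ← R0_one_sub d hi1 hik' hT (hYc 0 0) (hgerm 0 0) hpq hqr hpr] at e2
    rw [← R0_one_sub d hi1 hik' hT (hYc t 0) (hgerm t 0) hpq hqr hpr] at n3
    rw [← R0_one_sub d hi1 hik' hT (hYc 0 0) (hgerm 0 0) hpq hqr hpr] at n4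
    generalize R0 (fun z => L ((t, u), z)) p q r = A at *
    generalize R0 (fun z => L ((t, 0), z)) p q r = B at *
    generalize R0 (fun z => L ((0, u), z)) p q r = D at *
    generalize R0 (fun z => L ((0, 0), z)) p q r = F at *
    rw [div_eq_div_iff n1 n2] at e1
    rw [div_eq_div_iff n3 n4] at e2
    -- e1 : A * F = D * B, e2 : (1 - A) * (1 - F) = (1 - D) * (1 - B)
    have e3 : (D - F) * (B - F) = 0 := by
      have h5 : A = D * B / F := by field_simp; exact e1
      have h6 : A + F = D + B := by linear_combination e1 - e2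
      have h7 : D * B + F ^ 2 = (D + B) * F := by linear_combination F * h6 - e1
      linear_combination h7
    rcases mul_eq_zero.1 e3 with h8 | h8
    · exact sub_eq_zero.1 h8
    · exact absurd (sub_eq_zero.1 h8) ht
  obtain ⟨A1, A2, A3⟩ := S8c_rules d hi1 hik' hT (Y := fun t => Y t 0) (fun t => hYc t 0)
    (g := fun t z => L ((t, 0), z)) (fun t => hgerm t 0)
  obtain ⟨B1, B2, B3⟩ := S8c_rules d hi1 hik' hT (Y := fun u => Y 0 u) (fun u => hYc 0 u)
    (g := fun u z => L ((0, u), z)) (fun u => hgerm 0 u)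
  rcases S8c_comb _ _ A1 A2 A3 B1 B2 B3 hdich with hcase | hcase
  · -- the inner loop is trivial
    have h1 : Triv d (fun t => scl i (exp (((-1 : ℝ)) : ℂ)) (Y t 0)) := by
      refine S8c_triv d hi1 hik' hT (y := fun t => Y t 0)
        (hYcont.comp (by fun_prop : Continuous fun t : ℝ => ((t, 0) : ℝ × ℝ)))
        (fun t => hYc t 0) ?_ (l := fun e => L ((e.1, 0), e.2)) ?_ hcase (by norm_num)
      · intro t
        ext a
        simp only [hY, hσper]
      · refine ⟨?_, ?_⟩
        · refine hL.cont.comp (Continuous.continuousOn (by fun_prop)) ?_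
          intro e he
          exact ⟨mem_univ _, he.2⟩
        · intro e he
          exact hL.eq ((e.1, 0), e.2) ⟨mem_univ _, he.2⟩
    rw [← hcusp ε hε0 hε1]
    convert h1 using 2 with t
    ext a
    simp only [hSm, scl, hY, hU, hσ]
    by_cases ha0 : (a : ℕ) = 0
    · have h0i : 0 < i := by omega
      simp [ha0, h0i]
    · by_cases ha1 : (a : ℕ) = 1
      · have h2 : 1 < i := by omega
        simp only [ha1, h2, if_true, if_false, one_ne_zero, Nat.one_lt_two, hC']
        push_cast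
        ring
      · have h2 : ¬ (a : ℕ) < 2 := by omega
        by_cases hai : (a : ℕ) < i
        · simp only [ha0, ha1, h2, hai, if_true, if_false, hC']
          ring
        · simp only [ha0, ha1, h2, hai, if_false]
  · -- the outer loop is trivial
    have h1 : Triv d (fun u => scl i (exp (((-1 : ℝ)) : ℂ)) (Y 0 u)) := by
      refine S8c_triv d hi1 hik' hT (y := fun u => Y 0 u)
        (hYcont.comp (by fun_prop : Continuous fun u : ℝ => ((0, u) : ℝ × ℝ)))
        (fun u => hYc 0 u) ?_ (l := fun e => L ((0, e.1), e.2)) ?_ hcase (by norm_num)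
      · intro u
        ext a
        simp only [hY, hβper]
      · refine ⟨?_, ?_⟩
        · refine hL.cont.comp (Continuous.continuousOn (by fun_prop)) ?_
          intro e he
          exact ⟨mem_univ _, he.2⟩
        · intro e he
          exact hL.eq ((0, e.1), e.2) ⟨mem_univ _, he.2⟩
    set S' : Finset (Fin k) := {⟨i, by omega⟩, ⟨i + 1, by omega⟩} with hS'
    have hSm' : ∀ a : Fin k, a ∈ S' ↔ (a : ℕ) = i ∨ (a : ℕ) = i + 1 := by
      intro a
      simp only [hS', Finset.mem_insert, Finset.mem_singleton, Fin.ext_iff]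
    have hx : scl i (exp (((-1 : ℝ)) : ℂ)) (Y 0 0) ∈ Inj k :=
      S8c_exp_mem (hYc 0 0) (by simp)
    have h2 := triv_disc_iff d (i := 2) (by omega) (by omega) hx (S := S')
      (by rw [hS', Finset.card_pair]; simp [Fin.ext_iff]) (c := (i : ℂ)) (ρ := 1)
      (by
        intro a ha
        rw [hSm'] at ha
        have hai : ¬ (a : ℕ) < i := by omega
        simp only [scl, hY, hβ, hai, if_false]
        rcases ha with ha | ha
        · simp [ha]
        · simp [ha]
          norm_num)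
      (by
        intro a ha
        rw [hSm'] at ha
        have hi3 : (3 : ℝ) ≤ (i : ℝ) := by exact_mod_cast hi
        by_cases hai : (a : ℕ) < i
        · simp only [scl, hY, hai, if_true]
          rw [← mul_assoc, ← hC']
          have h3 := hC'n (σ 0) (hσn 0) a a.2
          have h4 : ‖(i : ℂ)‖ ≤ ‖C' * (((a : ℕ) : ℂ) + σ 0 * ((a : ℕ) : ℂ) ^ 2) - (i : ℂ)‖ +
              ‖C' * (((a : ℕ) : ℂ) + σ 0 * ((a : ℕ) : ℂ) ^ 2)‖ := by
            rw [norm_sub_rev]
            calc ‖(i : ℂ)‖ = ‖((i : ℂ) - C' * (((a : ℕ) : ℂ) + σ 0 * ((a : ℕ) : ℂ) ^ 2)) +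
                  C' * (((a : ℕ) : ℂ) + σ 0 * ((a : ℕ) : ℂ) ^ 2)‖ := by ring_nf
              _ ≤ _ := norm_add_le _ _
          rw [Complex.norm_natCast] at h4
          linarith
        · have h5 : ¬ (a : ℕ) = i + 1 := by omega
          simp only [scl, hY, hβ, hai, h5, if_false]
          have h6 : (((a : ℕ) : ℂ) - (i : ℂ)) = (((a : ℕ) - i : ℕ) : ℂ) := by
            rw [Nat.cast_sub (by omega)]
          rw [h6, Complex.norm_natCast]
          have h7 : 2 ≤ (a : ℕ) - i := by omega
          have h8 : (2 : ℝ) ≤ (((a : ℕ) - i : ℕ) : ℝ) := by exact_mod_cast h7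
          linarith)
    rw [← h2]
    convert h1 using 2 with u
    ext a
    simp only [hSm', scl, hY, hβ]
    by_cases hai : (a : ℕ) < i
    · have h3 : ¬ ((a : ℕ) = i ∨ (a : ℕ) = i + 1) := by omega
      simp only [hai, h3, if_true, if_false]
    · by_cases ha0 : (a : ℕ) = i
      · have h4 : ¬ (i = i + 1) := by omega
        simp [ha0]
      · by_cases ha1 : (a : ℕ) = i + 1
        · simp [ha1]
          ring
        · simp only [hai, ha0, ha1, or_self, if_false]

end MP2d36f7
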