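import Pool.Agent.Lib_MP_2d36f7_ag.Defs

/-! The scalar `om` (shared by the pieces S9a and S9b). -/

open Complex

namespace MP2d36f7

/-- the scalar `ω` by which the rotation by `2π/k` acts on the roots over the regular `k`-gon -/
noncomputable def om (k n : ℕ) (j : ℤ) : ℂ :=
  exp (2 * Real.pi * I * (j * (k - 1)) / (n * (n - 1)))

end MP2d36f7
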