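import Pool.Agent.Lib_MP_2d36f7_ag.Coef
import Pool.Agent.Lib_MP_2d36f7_ag.Lift
import Pool.Agent.Lib_MP_2d36f7_ag.Wind
import Pool.Agent.Lib_MP_2d36f7_ag.TwRot
import Pool.Agent.Lib_MP_2d36f7_ag.Scal
import Pool.Agent.Lib_MP_2d36f7_ag.Om

/-! Piece S9b: the half twists `tw k 1` and `tw k 3` have the same effect. -/

open Polynomial Complex Set Filter Topology

namespace MP2d36f7

namespace S9b

variable {k n : ℕ}

/-- half twist of the points with indices `A`, `B` of the configuration `x` -/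
noncomputable def htw (A B : Fin k) (x : Fin k → ℂ) (t : ℝ) : Fin k → ℂ := fun i =>
  if i = A then (x A + x B) / 2 + (x A - x B) / 2 * exp (Real.pi * I * t)
  else if i = B then (x A + x B) / 2 - (x A - x B) / 2 * exp (Real.pi * I * t)
  else x i

theorem htw_zero {A B : Fin k} (x : Fin k → ℂ) : htw A B x 0 = x := by
  funext i
  unfold htw
  simp only [ofReal_zero, mul_zero, exp_zero, mul_one]
  split_ifs with h1 h2
  · subst h1; ring
  · subst h2; ring
  · rfl

theorem htw_one {A B : Fin k} (hAB : A ≠ B) (x : Fin k → ℂ) :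
    htw A B x 1 = x ∘ Equiv.swap A B := by
  funext i
  unfold htw
  simp only [ofReal_one, mul_one, exp_pi_mul_I, Function.comp]
  split_ifs with h1 h2
  · subst h1; rw [Equiv.swap_apply_left]; ring
  · subst h2; rw [Equiv.swap_apply_right]; ring
  · rw [Equiv.swap_apply_of_ne_of_ne h1 h2]

theorem htw_affine {A B : Fin k} (x : Fin k → ℂ) (a b : ℂ) (t : ℝ) :
    htw A B (fun i => a * x i + b) t = fun i => a * htw A B x t i + b := by
  funext i
  unfold htw
  split_ifs with h1 h2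
  · ring
  · ring
  · rfl

theorem htw_perm {A B : Fin k} (x : Fin k → ℂ) (τ : Equiv.Perm (Fin k)) (t : ℝ) :
    htw A B (x ∘ τ) t = htw (τ A) (τ B) x t ∘ τ := by
  funext i
  unfold htw
  simp only [Function.comp, EmbeddingLike.apply_eq_iff_eq]

theorem htw_x0 {m : ℕ} (hm : m + 1 < k) (t : ℝ) :
    htw (⟨m, by omega⟩ : Fin k) ⟨m + 1, hm⟩ (x0 k) t = tw k m t := by
  funext i
  unfold htw tw x0
  simp only [Fin.ext_iff]
  split_ifs with h1 h2
  · push_cast; ring
  · push_cast; ring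
  · rfl

theorem continuous_htw {A B : Fin k} {E : Type*} [TopologicalSpace E] {x : E → Fin k → ℂ}
    (hx : Continuous x) {t : E → ℝ} (ht : Continuous t) :
    Continuous (fun e => htw A B (x e) (t e)) := by
  apply continuous_pi
  intro i
  have hA : Continuous (fun e => x e A) := (continuous_apply A).comp hx
  have hB : Continuous (fun e => x e B) := (continuous_apply B).comp hx
  have hi : Continuous (fun e => x e i) := (continuous_apply i).comp hx
  have he : Continuous (fun e => exp (Real.pi * I * (t e : ℂ))) :=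
    continuous_exp.comp (continuous_const.mul (continuous_ofReal.comp ht))
  unfold htw
  split_ifs with h1 h2
  · exact ((hA.add hB).div_const 2).add (((hA.sub hB).div_const 2).mul he)
  · exact ((hA.add hB).div_const 2).sub (((hA.sub hB).div_const 2).mul he)
  · exact hi

/-- criterion: the other points are outside the closed disc with diameter `[x A, x B]` -/
theorem htw_mem {A B : Fin k} {x : Fin k → ℂ} (hx : x ∈ Inj k) (hAB : A ≠ B)
    (hout : ∀ i, i ≠ A → i ≠ B → ‖x i - (x A + x B) / 2‖ ≠ ‖(x A - x B) / 2‖) (t : ℝ) :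
    htw A B x t ∈ Inj k := by
  have hexp : ‖exp (Real.pi * I * (t : ℂ))‖ = 1 := by
    have : (Real.pi : ℂ) * I * (t : ℂ) = ((Real.pi * t : ℝ) : ℂ) * I := by push_cast; ring
    rw [this, norm_exp_ofReal_mul_I]
  have hd : (x A - x B) / 2 ≠ 0 := by
    intro h
    have : x A = x B := by linear_combination 2 * h
    exact hAB (hx this)
  have he0 : exp (Real.pi * I * (t : ℂ)) ≠ 0 := exp_ne_zero _
  have hplus : ∀ i, i ≠ A → i ≠ B →
      x i ≠ (x A + x B) / 2 + (x A - x B) / 2 * exp (Real.pi * I * t) := by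
    intro i h1 h2 h
    apply hout i h1 h2
    rw [h]
    have : (x A + x B) / 2 + (x A - x B) / 2 * exp (Real.pi * I * t) - (x A + x B) / 2 =
        (x A - x B) / 2 * exp (Real.pi * I * t) := by ring
    rw [this, norm_mul, hexp, mul_one]
  have hminus : ∀ i, i ≠ A → i ≠ B →
      x i ≠ (x A + x B) / 2 - (x A - x B) / 2 * exp (Real.pi * I * t) := by
    intro i h1 h2 h
    apply hout i h1 h2
    rw [h]
    have : (x A + x B) / 2 - (x A - x B) / 2 * exp (Real.pi * I * t) - (x A + x B) / 2 =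
        - ((x A - x B) / 2 * exp (Real.pi * I * t)) := by ring
    rw [this, norm_neg, norm_mul, hexp, mul_one]
  have hpm : (x A + x B) / 2 + (x A - x B) / 2 * exp (Real.pi * I * t) ≠
      (x A + x B) / 2 - (x A - x B) / 2 * exp (Real.pi * I * t) := by
    intro h
    have : (x A - x B) / 2 * exp (Real.pi * I * t) = 0 := by linear_combination h / 2
    exact mul_ne_zero hd he0 this
  intro i j hij
  unfold htw at hij
  split_ifs at hij with h1 h2 h3 h4 h5 h6 h7 h8
  all_goals first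
    | (rw [h1, h2])
    | (exact absurd hij hpm)
    | (exact absurd hij.symm hpm)
    | (exact absurd hij.symm (hplus _ (by assumption) (by assumption)))
    | (exact absurd hij.symm (hminus _ (by assumption) (by assumption)))
    | (exact absurd hij (hplus _ (by assumption) (by assumption)))
    | (exact absurd hij (hminus _ (by assumption) (by assumption)))
    | (exact hx hij)
    | (simp_all)

theorem size_aux {θ : ℝ} (h0 : 0 < θ) (hk : θ * k ≤ 2 * Real.pi) {N j : ℤ} (hN : |N| < (k : ℤ))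
    (h : θ * N = 2 * j * Real.pi) : N = 0 := by
  have hpi := Real.pi_pos
  have h1 : |(N : ℝ)| < k := by exact_mod_cast hN
  have h2 : |θ * N| < 2 * Real.pi := by
    rw [abs_mul, abs_of_pos h0]
    calc θ * |(N : ℝ)| < θ * k := mul_lt_mul_of_pos_left h1 h0
      _ ≤ 2 * Real.pi := hk
  rw [h] at h2
  have h3 : |(j : ℝ)| < 1 := by
    have e : |2 * (j : ℝ) * Real.pi| = |(j : ℝ)| * (2 * Real.pi) := by
      rw [abs_mul, abs_mul, abs_of_pos hpi, abs_of_pos (by norm_num : (0 : ℝ) < 2)]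
      ring
    rw [e] at h2
    by_contra hj
    push Not at hj
    nlinarith
  have h4 : j = 0 := by
    have : |j| < 1 := by exact_mod_cast h3
    exact Int.abs_lt_one_iff.1 this
  subst h4
  have h5 : θ * (N : ℝ) = 0 := by rw [h]; simp
  rcases mul_eq_zero.1 h5 with h6 | h6
  · exact absurd h6 h0.ne'
  · exact_mod_cast h6

theorem circ_aux {φ α : ℝ}
    (h : ‖exp (φ * I) - (exp (-(α * I)) + exp (α * I)) / 2‖ =
      ‖(exp (-(α * I)) - exp (α * I)) / 2‖) :
    Real.cos α * (Real.cos α - Real.cos φ) = 0 := by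
  have e1 : (exp (-(α * I)) + exp (α * I)) / 2 = ((Real.cos α : ℝ) : ℂ) := by
    rw [ofReal_cos, Complex.cos]
    rw [neg_mul_eq_neg_mul]
    ring
  have e2 : (exp (-(α * I)) - exp (α * I)) / 2 = -((Real.sin α : ℝ) : ℂ) * I := by
    rw [ofReal_sin, Complex.sin]
    rw [neg_mul_eq_neg_mul]
    linear_combination ((exp (-α * I) - exp (α * I)) / 2) * I_mul_I
  have e3 : exp (φ * I) = ((Real.cos φ : ℝ) : ℂ) + ((Real.sin φ : ℝ) : ℂ) * I := by
    rw [exp_mul_I, ofReal_cos, ofReal_sin]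
  rw [e1, e2, e3] at h
  have h2 : normSq (((Real.cos φ : ℝ) : ℂ) + ((Real.sin φ : ℝ) : ℂ) * I -
      ((Real.cos α : ℝ) : ℂ)) = normSq (-((Real.sin α : ℝ) : ℂ) * I) := by
    rw [normSq_eq_norm_sq, normSq_eq_norm_sq, h]
  rw [normSq_apply, normSq_apply] at h2
  simp only [add_re, sub_re, mul_re, ofReal_re, ofReal_im, I_re, I_im, add_im, sub_im, mul_im,
    neg_re, neg_im, mul_zero, mul_one, add_zero, sub_zero, zero_add, sub_self,
    neg_zero] at h2
  have h3 := Real.sin_sq_add_cos_sq φ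
  have h4 := Real.sin_sq_add_cos_sq α
  nlinarith

/-- the curve of configurations from `x0` (at `θ = 0`) to the regular `k`-gon (`θ = 2π/k`) -/
noncomputable def Gam (k : ℕ) (θ : ℝ) : Fin k → ℂ := fun l =>
  ((l : ℕ) : ℂ) * dslope exp 0 (I * θ * ((l : ℕ) : ℂ))

theorem Gam_zero (k : ℕ) : Gam k 0 = x0 k := by
  funext l
  unfold Gam x0
  have : I * ((0 : ℝ) : ℂ) * ((l : ℕ) : ℂ) = 0 := by push_cast; ring
  rw [this, dslope_same, Complex.deriv_exp, exp_zero, mul_one]

theorem continuous_Gam (k : ℕ) : Continuous (Gam k) := by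
  apply continuous_pi
  intro l
  have h1 : Differentiable ℂ (dslope exp 0) := by
    rw [← differentiableOn_univ, Complex.differentiableOn_dslope univ_mem]
    exact differentiable_exp.differentiableOn
  unfold Gam
  exact continuous_const.mul (h1.continuous.comp
    ((continuous_const.mul continuous_ofReal).mul continuous_const))

theorem Gam_ne {θ : ℝ} (h : θ ≠ 0) (l : Fin k) :
    Gam k θ l = (exp (I * θ * ((l : ℕ) : ℂ)) - 1) / (I * θ) := by
  have hθ : (θ : ℂ) ≠ 0 := by exact_mod_cast h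
  unfold Gam
  have h1 := sub_smul_dslope exp 0 (I * θ * ((l : ℕ) : ℂ))
  rw [smul_eq_mul, sub_zero, exp_zero] at h1
  rw [← h1]
  field_simp

theorem Gam_affine {θ : ℝ} (h : θ ≠ 0) (m : ℕ) :
    Gam k θ = fun l : Fin k => exp (I * θ * (m + 1 / 2)) / (I * θ) *
      exp (((θ * ((l : ℕ) - m - 1 / 2) : ℝ) : ℂ) * I) + (-1 / (I * θ)) := by
  have hθ : (θ : ℂ) ≠ 0 := by exact_mod_cast h
  funext l
  rw [Gam_ne h]
  have : exp (I * θ * ((l : ℕ) : ℂ)) = exp (I * θ * (m + 1 / 2)) *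
      exp (((θ * ((l : ℕ) - m - 1 / 2) : ℝ) : ℂ) * I) := by
    rw [← exp_add]
    congr 1
    push_cast
    ring
  rw [this]
  field_simp
  ring

theorem affine_mem {x : Fin k → ℂ} {a b : ℂ} (ha : a ≠ 0) :
    (fun i => a * x i + b) ∈ Inj k ↔ x ∈ Inj k := by
  constructor
  · intro h i j hij
    apply h
    show a * x i + b = a * x j + b
    rw [hij]
  · intro h i j hij
    apply h
    have : a * x i + b = a * x j + b := hij
    exact mul_left_cancel₀ ha (add_right_cancel this)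

theorem Gam_htw_mem (hk : 5 ≤ k) {m : ℕ} (hm : m + 1 < k) {θ : ℝ} (h0 : 0 ≤ θ)
    (h1 : θ * k ≤ 2 * Real.pi) (t : ℝ) :
    htw (⟨m, by omega⟩ : Fin k) ⟨m + 1, hm⟩ (Gam k θ) t ∈ Inj k := by
  rcases eq_or_lt_of_le h0 with h | h
  · rw [← h, Gam_zero, htw_x0]
    exact tw_mem t
  have hθ : (θ : ℂ) ≠ 0 := by exact_mod_cast h.ne'
  rw [Gam_affine h.ne' m, htw_affine]
  rw [affine_mem (div_ne_zero (exp_ne_zero _) (mul_ne_zero I_ne_zero hθ))]
  have hk' : (5 : ℝ) ≤ k := by exact_mod_cast hk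
  have hpi := Real.pi_pos
  have hsmall : θ / 2 < Real.pi / 2 := by
    have : θ * 5 ≤ 2 * Real.pi := le_trans (mul_le_mul_of_nonneg_left hk' h.le) h1
    linarith
  have hcos : 0 < Real.cos (θ / 2) := Real.cos_pos_of_mem_Ioo ⟨by linarith, hsmall⟩
  have eA : exp (((θ * ((((⟨m, by omega⟩ : Fin k) : ℕ) : ℝ) - m - 1 / 2) : ℝ) : ℂ) * I) =
      exp (-(((θ / 2 : ℝ) : ℂ) * I)) := by
    congr 1
    push_cast
    ring
  have eB : exp (((θ * ((((⟨m + 1, hm⟩ : Fin k) : ℕ) : ℝ) - m - 1 / 2) : ℝ) : ℂ) * I) =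
      exp (((θ / 2 : ℝ) : ℂ) * I) := by
    congr 1
    push_cast
    ring
  apply htw_mem
  · -- injectivity of the points on the circle
    intro i j hij
    have hij' : exp (((θ * ((i : ℕ) - m - 1 / 2) : ℝ) : ℂ) * I) =
        exp (((θ * ((j : ℕ) - m - 1 / 2) : ℝ) : ℂ) * I) := hij
    rw [exp_eq_exp_iff_exists_int] at hij'
    obtain ⟨N, hN⟩ := hij'
    have h3 : ((θ * ((i : ℕ) - m - 1 / 2) : ℝ) : ℂ) =
        ((θ * ((j : ℕ) - m - 1 / 2) + N * (2 * Real.pi) : ℝ) : ℂ) := by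
      have := mul_right_cancel₀ I_ne_zero (a := ((θ * ((i : ℕ) - m - 1 / 2) : ℝ) : ℂ))
        (b := I) (c := ((θ * ((j : ℕ) - m - 1 / 2) + N * (2 * Real.pi) : ℝ) : ℂ))
        (by rw [hN]; push_cast; ring)
      exact this
    have h4 : θ * ((i : ℕ) - m - 1 / 2) = θ * ((j : ℕ) - m - 1 / 2) + N * (2 * Real.pi) := by
      exact_mod_cast h3
    have h5 : ((i : ℕ) : ℤ) - ((j : ℕ) : ℤ) = 0 := by
      apply size_aux h h1 (j := N)
      · have := i.2
        have := j.2
        rw [abs_lt]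
        omega
      · push_cast
        linarith
    apply Fin.ext
    omega
  · intro hAB
    have := congrArg Fin.val hAB
    simp at this
  · intro i hiA hiB hcon
    rw [eA, eB] at hcon
    have h3 := circ_aux hcon
    rcases mul_eq_zero.1 h3 with h4 | h4
    · exact hcos.ne' h4
    have h5 : Real.cos (θ / 2) = Real.cos (θ * ((i : ℕ) - m - 1 / 2)) := by linarith
    rw [Real.cos_eq_cos_iff] at h5
    obtain ⟨N, hN⟩ := h5
    rcases hN with hN | hN
    · have h6 : ((i : ℕ) : ℤ) - ((m + 1 : ℕ) : ℤ) = 0 := by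
        apply size_aux h h1 (j := N)
        · have := i.2
          rw [abs_lt]
          omega
        · push_cast
          linarith
      apply hiB
      apply Fin.ext
      show (i : ℕ) = m + 1
      omega
    · have h6 : ((i : ℕ) : ℤ) - ((m : ℕ) : ℤ) = 0 := by
        apply size_aux h h1 (j := N)
        · have := i.2
          rw [abs_lt]
          omega
        · push_cast
          linarith
      apply hiA
      apply Fin.ext
      show (i : ℕ) = m
      omega

/-- the regular `k`-gon -/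
noncomputable def Kg (k : ℕ) : Fin k → ℂ := Gam k (2 * Real.pi / k)

theorem Kg_rot (hk : 5 ≤ k) (l l' : Fin k) (h : (l' : ℕ) = ((l : ℕ) + 2) % k) :
    Kg k l' = exp (4 * Real.pi * I / k) * Kg k l +
      (exp (4 * Real.pi * I / k) - 1) * (k / (2 * Real.pi * I)) := by
  have hk0 : (k : ℂ) ≠ 0 := by
    have : k ≠ 0 := by omega
    exact_mod_cast this
  have hkr : (k : ℝ) ≠ 0 := by
    have : k ≠ 0 := by omega
    exact_mod_cast this
  have hpi : (Real.pi : ℂ) ≠ 0 := by exact_mod_cast Real.pi_ne_zero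
  have hθ : 2 * Real.pi / k ≠ 0 := div_ne_zero (mul_ne_zero two_ne_zero Real.pi_ne_zero) hkr
  have key : exp (I * ((2 * Real.pi / k : ℝ) : ℂ) * ((l' : ℕ) : ℂ)) =
      exp (4 * Real.pi * I / k) * exp (I * ((2 * Real.pi / k : ℝ) : ℂ) * ((l : ℕ) : ℂ)) := by
    rw [← exp_add, exp_eq_exp_iff_exists_int]
    have h2 := Nat.div_add_mod ((l : ℕ) + 2) k
    rw [← h] at h2
    generalize ((l : ℕ) + 2) / k = q at h2
    refine ⟨-(q : ℤ), ?_⟩
    have h3 : ((k * q + (l' : ℕ) : ℕ) : ℂ) = (((l : ℕ) + 2 : ℕ) : ℂ) := by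
      rw [h2]
    push_cast at h3 ⊢
    have h4 : ((l' : ℕ) : ℂ) = ((l : ℕ) : ℂ) + 2 - (k : ℂ) * (q : ℂ) := by
      linear_combination h3
    rw [h4]
    field_simp
    ring
  unfold Kg
  rw [Gam_ne hθ, Gam_ne hθ, key]
  push_cast
  field_simp
  ring

theorem lift_unique (d : Dat k n) {D : Type*} [TopologicalSpace D] [PreconnectedSpace D]
    {x : D → Fin k → ℂ} (hxi : ∀ y, x y ∈ Inj k) {l l' : D → Fin n → ℂ} (hl : IsLift d x l)
    (hl' : IsLift d x l') {y₀ : D} (h : l y₀ = l' y₀) (y : D) : l y = l' y :=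
  liftOn_eqOn d isPreconnected_univ (fun y _ => hxi y) ⟨hl.cont.continuousOn, fun y _ => hl.eq y⟩
    ⟨hl'.cont.continuousOn, fun y _ => hl'.eq y⟩ (mem_univ y₀) h (mem_univ y)

theorem comp_perm_lift {d : Dat k n} {D : Type*} [TopologicalSpace D] {x : D → Fin k → ℂ}
    {l : D → Fin n → ℂ} (hl : IsLift d x l) (π : Equiv.Perm (Fin n)) :
    IsLift d x (fun y => l y ∘ π) :=
  ⟨continuous_pi fun i => (continuous_apply (π i)).comp hl.cont, fun y => by
    rw [coef_perm, hl.eq]⟩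

theorem square (d : Dat k n) {H : ℝ × ℝ → Fin k → ℂ}
    (hHi : ∀ y, H y ∈ Inj k) (hF : ∀ s, d.F (H (s, 1)) = d.F (H (s, 0)))
    {Λ : ℝ × ℝ → Fin n → ℂ} (hΛ : IsLift d H Λ) {π : Equiv.Perm (Fin n)}
    (h : Λ (0, 1) = Λ (0, 0) ∘ π) (s : ℝ) : Λ (s, 1) = Λ (s, 0) ∘ π := by
  have h1 : IsLift d (fun s : ℝ => H (s, 0)) (fun s => Λ (s, 1)) :=
    ⟨hΛ.cont.comp (Continuous.prodMk continuous_id continuous_const), fun s => by
      rw [hΛ.eq, hF]⟩
  have h2 : IsLift d (fun s : ℝ => H (s, 0)) (fun s => Λ (s, 0)) :=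
    ⟨hΛ.cont.comp (Continuous.prodMk continuous_id continuous_const), fun s => hΛ.eq _⟩
  exact lift_unique d (fun s => hHi (s, 0)) h1 (comp_perm_lift h2 π) (y₀ := (0 : ℝ)) h s

theorem perm_cancel {x : Fin n → ℂ} (hx : x ∈ Inj n) {σ τ : Equiv.Perm (Fin n)}
    (h : x ∘ σ = x ∘ τ) : σ = τ := by
  ext i
  have := congrFun h i
  exact congrArg Fin.val (hx this)

/-- the scalar obtained by rotating the regular `k`-gon by the angle `4 π / k` -/
theorem kgon_scalar (hn : 3 ≤ n) (d : Dat k n)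
    {j : ℤ} {G : (Fin k → ℂ) → ℂ} (hGc : ContinuousOn G (Inj k))
    (hG : ∀ x ∈ Inj k, ∀ l : Fin n → ℂ, coef l = d.F x → dsc l = dsc x ^ j * exp (G x))
    (hk : 5 ≤ k) {K : Fin k → ℂ} (hK : K ∈ Inj k) {z : ℂ} {W : ℝ → Fin k → ℂ}
    (hW : ∀ u, W u = fun i => exp (4 * Real.pi * I / k * u) * K i +
      (exp (4 * Real.pi * I / k * u) - 1) * z) (hG1 : G (W 1) = G (W 0))
    {M : ℝ → Fin n → ℂ} (hM : IsLift d W M) : M 1 = om k n j ^ 2 • M 0 := by
  set c : ℂ := 4 * Real.pi * I / k with hc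
  have hk0 : (k : ℂ) ≠ 0 := by
    have : k ≠ 0 := by omega
    exact_mod_cast this
  have hpi : (Real.pi : ℂ) ≠ 0 := by exact_mod_cast Real.pi_ne_zero
  set y0 : Fin k → ℂ := fun i => K i + z with hy0
  have hy0i : y0 ∈ Inj k := fun i j' hij => hK (add_right_cancel (show K i + z = K j' + z from hij))
  have hWy : ∀ u : ℝ, W u = fun i => (exp (c * u) • y0) i + (-z) := by
    intro u
    rw [hW]
    funext i
    simp only [hy0, Pi.smul_apply, smul_eq_mul]
    ring
  have hsm : ∀ w : ℂ, exp w • y0 ∈ Inj k := fun w i j' hij =>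
    hy0i (mul_left_cancel₀ (exp_ne_zero w) (show exp w * y0 i = exp w * y0 j' from hij))
  have hWF : ∀ u : ℝ, d.F (W u) = d.F (exp (c * u) • y0) := by
    intro u
    rw [hWy]
    exact d.trans _ (hsm _) _
  have hWi : ∀ u : ℝ, W u ∈ Inj k := by
    intro u
    rw [hWy]
    intro i j' hij
    exact hsm _ (add_right_cancel hij)
  have hWc : Continuous W := by
    apply continuous_pi
    intro i
    have : (fun u => W u i) = fun u : ℝ => exp (c * u) * K i + (exp (c * u) - 1) * z := by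
      funext u
      rw [hW]
    rw [this]
    have he : Continuous (fun u : ℝ => exp (c * (u : ℂ))) :=
      continuous_exp.comp (continuous_const.mul continuous_ofReal)
    exact (he.mul continuous_const).add ((he.sub continuous_const).mul continuous_const)
  set μ := M 0 with hμ
  have hμF : coef μ = d.F (exp (0 : ℂ) • y0) := by
    rw [hμ, hM.eq, hWF]
    simp
  obtain ⟨L, hL, hL0⟩ := exists_lift d (E := ℂ) (x := fun w => exp w • y0)
    (continuous_exp.smul continuous_const) hsm 0 hμF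
  obtain ⟨χ, hχc, hχ0, hχ⟩ := scal hn d hy0i hL
  have hcu : Continuous (fun u : ℝ => c * (u : ℂ)) := continuous_const.mul continuous_ofReal
  have hLc : IsLift d W (fun u : ℝ => L (c * u)) := ⟨hL.cont.comp hcu, fun u => by
    rw [hL.eq, hWF]⟩
  have hML : ∀ u : ℝ, M u = L (c * u) := by
    intro u
    refine lift_unique d hWi hM hLc (y₀ := (0 : ℝ)) ?_ u
    rw [ofReal_zero, mul_zero, hL0]
  set X : ℝ → ℂ := fun u => χ (c * u) with hX
  have hXc : Continuous X := hχc.comp hcu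
  have hX0 : ∀ u, X u ≠ 0 := fun u => hχ0 _
  have hMX : ∀ u, M u = X u • μ := by
    intro u
    rw [hML, hχ, hL0]
  have hμi : μ ∈ Inj n := lift_inj d (hWi 0) (hM.eq 0)
  have hX00 : X 0 = 1 := by
    have h1 := hMX 0
    rw [← hμ] at h1
    have hne : μ ⟨0, by omega⟩ ≠ μ ⟨1, by omega⟩ := by
      intro h
      have := hμi h
      simp at this
    have e0 := congrFun h1 ⟨0, by omega⟩
    have e1 := congrFun h1 ⟨1, by omega⟩
    simp only [Pi.smul_apply, smul_eq_mul] at e0 e1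
    have h3 : (X 0 - 1) * (μ ⟨0, by omega⟩ - μ ⟨1, by omega⟩) = 0 := by
      linear_combination e1 - e0
    rcases mul_eq_zero.1 h3 with h4 | h4
    · linear_combination h4
    · exact absurd (by linear_combination h4) hne
  -- the discriminants
  have hdμ : dsc μ ≠ 0 := (dsc_ne_zero_iff μ).2 hμi
  have hdy : dsc y0 ≠ 0 := (dsc_ne_zero_iff y0).2 hy0i
  set E : ℝ → ℂ := fun u => (k * (k - 1) * j * c) * u + G (W u) with hE
  have hGW : Continuous (fun u => G (W u)) := hGc.comp_continuous hWc hWi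
  have hEc : Continuous E := (continuous_const.mul continuous_ofReal).add hGW
  have hpow : ∀ u, X u ^ (n * (n - 1)) = (dsc y0 ^ j / dsc μ) * exp (E u) := by
    intro u
    have h1 := hG (W u) (hWi u) (M u) (hM.eq u)
    rw [hMX, dsc_smul] at h1
    have h2 : dsc (W u) = exp (c * u) ^ (k * (k - 1)) * dsc y0 := by
      rw [hWy, dsc_add, dsc_smul]
    rw [h2, mul_zpow] at h1
    have h3 : (exp (c * u) ^ (k * (k - 1))) ^ j = exp ((k * (k - 1) * j * c) * u) := by
      rw [← exp_nat_mul, ← exp_int_mul]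
      congr 1
      have : ((k * (k - 1) : ℕ) : ℂ) = (k : ℂ) * ((k : ℂ) - 1) := by
        have h1k : 1 ≤ k := by omega
        push_cast [Nat.cast_sub h1k]
        ring
      rw [this]
      ring
    rw [h3] at h1
    rw [hE]
    simp only
    rw [exp_add]
    field_simp
    linear_combination h1
  have hw1 : wnd (fun u => X u ^ (n * (n - 1))) 0 1 = ((n * (n - 1) : ℕ) : ℂ) * wnd X 0 1 :=
    wnd_pow hXc hX0 _ _ _
  have hw2 : wnd (fun u => X u ^ (n * (n - 1))) 0 1 = (E 1 - E 0) / (2 * Real.pi * I) := by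
    have : (fun u => X u ^ (n * (n - 1))) = fun u => (dsc y0 ^ j / dsc μ) * exp (E u) := by
      funext u
      exact hpow u
    rw [this, wnd_mul (u := fun _ => dsc y0 ^ j / dsc μ) (v := fun u => exp (E u))
      continuous_const (continuous_exp.comp hEc)
      (fun _ => div_ne_zero (zpow_ne_zero _ hdy) hdμ) (fun _ => exp_ne_zero _), wnd_const,
      zero_add, wnd_exp hEc]
  have hE1 : E 1 - E 0 = 4 * Real.pi * I * ((k - 1) * j) := by
    simp only [hE]
    rw [hG1, hc]
    push_cast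
    field_simp
    ring
  have hN : ((n * (n - 1) : ℕ) : ℂ) = (n : ℂ) * ((n : ℂ) - 1) := by
    have h1n : 1 ≤ n := by omega
    push_cast [Nat.cast_sub h1n]
    ring
  have hN0 : (n : ℂ) * ((n : ℂ) - 1) ≠ 0 := by
    rw [← hN]
    have : n * (n - 1) ≠ 0 := Nat.mul_ne_zero (by omega) (by omega)
    exact_mod_cast this
  have hw : wnd X 0 1 = 2 * ((k - 1) * j) / (n * (n - 1)) := by
    rw [hw2, hE1, hN] at hw1
    rw [eq_div_iff hN0]
    rw [div_eq_iff (by simp [hpi, I_ne_zero])] at hw1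
    have h2 : (2 * Real.pi * I : ℂ) ≠ 0 := by simp [hpi, I_ne_zero]
    apply mul_right_cancel₀ h2
    linear_combination -hw1
  have hfin := exp_wnd hXc hX0 0 1
  rw [hX00, div_one, hw] at hfin
  rw [hMX, ← hfin]
  congr 1
  unfold om
  rw [← exp_nat_mul]
  congr 1
  push_cast
  ring

theorem kgon (hn : 3 ≤ n) (hk : 5 ≤ k) (d : Dat k n)
    {j : ℤ} {G : (Fin k → ℂ) → ℂ} (hGc : ContinuousOn G (Inj k))
    (hGs : ∀ x ∈ Inj k, ∀ σ : Equiv.Perm (Fin k), G (x ∘ σ) = G x)
    (hG : ∀ x ∈ Inj k, ∀ l : Fin n → ℂ, coef l = d.F x → dsc l = dsc x ^ j * exp (G x))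
    (hω : ∀ x ∈ Inj k, ∀ l : Fin n → ℂ, coef l = d.F x →
      ∃ σ : Equiv.Perm (Fin n), om k n j ^ 2 • l = l ∘ σ)
    {K : Fin k → ℂ} {A B A' B' : Fin k} (hAB : A ≠ B) {z : ℂ} {ρ : Equiv.Perm (Fin k)}
    (hA : ρ A = A') (hB : ρ B = B')
    (hρ : K ∘ ρ = fun i => exp (4 * Real.pi * I / k) * K i + (exp (4 * Real.pi * I / k) - 1) * z)
    (hKi : ∀ t, htw A B K t ∈ Inj k) (hKi' : ∀ t, htw A' B' K t ∈ Inj k)
    {l₁ l₃ : ℝ → Fin n → ℂ} (h1 : IsLift d (htw A B K) l₁) (h3 : IsLift d (htw A' B' K) l₃)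
    (h0 : l₁ 0 = l₃ 0) {π₁ π₃ : Equiv.Perm (Fin n)} (hp1 : l₁ 1 = l₁ 0 ∘ π₁)
    (hp3 : l₃ 1 = l₃ 0 ∘ π₃) : π₁ = π₃ := by
  set μ := l₁ 0 with hμ
  have hK : K ∈ Inj k := by
    have := hKi 0
    rwa [htw_zero] at this
  have hμF : coef μ = d.F K := by
    rw [hμ, h1.eq, htw_zero]
  have hμi : μ ∈ Inj n := lift_inj d hK hμF
  set e : ℝ → ℂ := fun u => exp (4 * Real.pi * I / k * u) with he
  have hec : Continuous e := continuous_exp.comp (continuous_const.mul continuous_ofReal)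
  set W : ℝ × ℝ → Fin k → ℂ := fun y i => e y.1 * htw A B K y.2 i + (e y.1 - 1) * z with hW
  have hWc : Continuous W := by
    apply continuous_pi
    intro i
    have h1 : Continuous (fun y : ℝ × ℝ => htw A B K y.2 i) :=
      (continuous_apply i).comp (continuous_htw continuous_const continuous_snd)
    exact ((hec.comp continuous_fst).mul h1).add
      (((hec.comp continuous_fst).sub continuous_const).mul continuous_const)
  have hWi : ∀ y, W y ∈ Inj k := fun y => (affine_mem (exp_ne_zero _)).2 (hKi y.2)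
  have hW0 : ∀ t, W (0, t) = htw A B K t := by
    intro t
    funext i
    simp [hW, he]
  have hW00 : W (0, 0) = K := by rw [hW0, htw_zero]
  obtain ⟨M, hM, hM0⟩ := exists_lift d hWc hWi (0, 0) (l₀ := μ) (by rw [hμF, hW00])
  have hMt : ∀ t, M (0, t) = l₁ t := by
    intro t
    have a : IsLift d (htw A B K) (fun t => M (0, t)) :=
      ⟨hM.cont.comp (Continuous.prodMk continuous_const continuous_id), fun t => by
        rw [hM.eq, hW0]⟩
    exact lift_unique d hKi a h1 (y₀ := (0 : ℝ)) (by rw [hM0]) t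
  -- the end of the rotation
  have hW1 : ∀ t, W (1, t) = htw A' B' K t ∘ ρ := by
    intro t
    rw [← hA, ← hB, ← htw_perm, hρ, htw_affine]
    funext i
    simp [hW, he]
  have hFW1 : ∀ t, d.F (W (1, t)) = d.F (htw A' B' K t) := by
    intro t
    rw [hW1]
    exact d.symm _ (hKi' t) _
  have hsw : ∀ u, W (u, 1) = W (u, 0) ∘ Equiv.swap A B := by
    intro u
    funext i
    simp only [hW, Function.comp]
    rw [htw_one hAB, htw_zero]
    rfl
  -- the scalar
  have hscal : M (1, 0) = om k n j ^ 2 • μ := by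
    have a : IsLift d (fun u => W (u, 0)) (fun u => M (u, 0)) :=
      ⟨hM.cont.comp (Continuous.prodMk continuous_id continuous_const), fun u => hM.eq _⟩
    have b := kgon_scalar hn d hGc hG hk hK (z := z) (W := fun u => W (u, 0)) (fun u => by
      funext i
      simp only [hW, he]
      rw [htw_zero]) (by
        rw [hW1, htw_zero, hW00]
        exact hGs K hK ρ) a
    rw [b, hM0]
  obtain ⟨κ, hκ⟩ : ∃ κ : Equiv.Perm (Fin n), M (1, 0) = μ ∘ κ := by
    apply exists_perm_of_coef_eq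
    rw [hM.eq, hFW1, htw_zero, hμF]
  -- first relation
  have hsq : M (1, 1) = M (1, 0) ∘ π₁ := by
    refine square d hWi (fun s => ?_) hM ?_ 1
    · rw [hsw]
      exact d.symm _ (hWi _) _
    · rw [hMt, hMt, hp1]
  have h3' : ∀ t, M (1, t) = l₃ t ∘ κ := by
    intro t
    have a : IsLift d (htw A' B' K) (fun t => M (1, t)) :=
      ⟨hM.cont.comp (Continuous.prodMk continuous_const continuous_id), fun t => by
        rw [hM.eq, hFW1]⟩
    exact lift_unique d hKi' a (comp_perm_lift h3 κ) (y₀ := (0 : ℝ)) (by rw [hκ, ← h0]) t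
  have r1 : κ * π₁ = π₃ * κ := by
    apply perm_cancel hμi
    have e1 : M (1, 1) = μ ∘ (κ * π₁ : Equiv.Perm (Fin n)) := by
      rw [hsq, hκ]
      rfl
    have e2 : M (1, 1) = μ ∘ (π₃ * κ : Equiv.Perm (Fin n)) := by
      rw [h3', hp3, ← h0]
      rfl
    rw [← e1, e2]
  -- second relation
  have h1' : IsLift d (htw A B K) (fun t => om k n j ^ 2 • l₁ t) :=
    ⟨(continuous_const_smul (om k n j ^ 2)).comp h1.cont, fun t => by
      obtain ⟨σ, hσ⟩ := hω _ (hKi t) (l₁ t) (h1.eq t)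
      rw [hσ, coef_perm, h1.eq]⟩
  have h1'' : ∀ t, om k n j ^ 2 • l₁ t = l₁ t ∘ κ := fun t =>
    lift_unique d hKi h1' (comp_perm_lift h1 κ) (y₀ := (0 : ℝ)) (by
      show om k n j ^ 2 • l₁ 0 = l₁ 0 ∘ κ
      rw [← hμ, ← hscal, hκ]) t
  have r2 : κ * π₁ = π₁ * κ := by
    apply perm_cancel hμi
    have e1 : om k n j ^ 2 • l₁ 1 = μ ∘ (κ * π₁ : Equiv.Perm (Fin n)) := by
      have a : μ ∘ κ = om k n j ^ 2 • μ := by rw [← hκ, hscal]
      rw [hp1]
      show om k n j ^ 2 • (μ ∘ π₁) = (μ ∘ κ) ∘ π₁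
      rw [a]
      rfl
    have e2 : om k n j ^ 2 • l₁ 1 = μ ∘ (π₁ * κ : Equiv.Perm (Fin n)) := by
      rw [h1'', hp1]
      rfl
    rw [← e1, e2]
  exact mul_right_cancel (r2.symm.trans r1)

/-- clamping to `[0,1]` -/
noncomputable def cl (v : ℝ) : ℝ := max 0 (min v 1)

theorem continuous_cl : Continuous cl := continuous_const.max (continuous_id.min continuous_const)

theorem cl_zero : cl 0 = 0 := by simp [cl]

theorem cl_one : cl 1 = 1 := by simp [cl]

theorem cl_nonneg (v : ℝ) : 0 ≤ cl v := le_max_left _ _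

theorem cl_le_one (v : ℝ) : cl v ≤ 1 := max_le zero_le_one (min_le_right _ _)

/-- transport of the half twist to the regular `k`-gon -/
theorem to_kgon (hk : 5 ≤ k) (d : Dat k n) {m : ℕ} (hm : m + 1 < k) {l : ℝ → Fin n → ℂ}
    (hl : IsLift d (tw k m) l) {π : Equiv.Perm (Fin n)} (hπ : l 1 = l 0 ∘ π)
    {γ : ℝ → Fin n → ℂ} (hγ : IsLift d (fun v => Gam k (2 * Real.pi / k * cl v)) γ)
    (hγ0 : γ 0 = l 0) :
    ∃ l' : ℝ → Fin n → ℂ, IsLift d (htw (⟨m, by omega⟩ : Fin k) ⟨m + 1, hm⟩ (Kg k)) l' ∧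
      l' 0 = γ 1 ∧ l' 1 = γ 1 ∘ π := by
  have hkr : (0 : ℝ) < k := by
    have : 0 < k := by omega
    exact_mod_cast this
  have hpi := Real.pi_pos
  have hAB : (⟨m, by omega⟩ : Fin k) ≠ ⟨m + 1, hm⟩ := by
    intro h
    have := congrArg Fin.val h
    simp at this
  set H : ℝ × ℝ → Fin k → ℂ := fun y =>
    htw (⟨m, by omega⟩ : Fin k) ⟨m + 1, hm⟩ (Gam k (2 * Real.pi / k * cl y.1)) y.2 with hH
  have hHc : Continuous H := continuous_htw ((continuous_Gam k).comp
    (continuous_const.mul (continuous_cl.comp continuous_fst))) continuous_snd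
  have hHi : ∀ y, H y ∈ Inj k := by
    intro y
    apply Gam_htw_mem hk hm
    · have := cl_nonneg y.1
      positivity
    · have h1 := cl_le_one y.1
      have h2 : 2 * Real.pi / k * cl y.1 * k = 2 * Real.pi * cl y.1 := by
        field_simp
      rw [h2]
      nlinarith
  have hH0 : ∀ t, H (0, t) = tw k m t := by
    intro t
    simp only [hH]
    rw [cl_zero, mul_zero, Gam_zero, htw_x0]
  have hHs : ∀ v, H (v, 0) = Gam k (2 * Real.pi / k * cl v) := by
    intro v
    simp only [hH]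
    rw [htw_zero]
  obtain ⟨Λ, hΛ, hΛ0⟩ := exists_lift d hHc hHi (0, 0) (l₀ := l 0) (by rw [hl.eq, hH0])
  have hΛl : ∀ t, Λ (0, t) = l t := by
    intro t
    have a : IsLift d (tw k m) (fun t => Λ (0, t)) :=
      ⟨hΛ.cont.comp (Continuous.prodMk continuous_const continuous_id), fun t => by
        rw [hΛ.eq, hH0]⟩
    exact lift_unique d (fun t => tw_mem t) a hl (y₀ := (0 : ℝ)) (by rw [hΛ0]) t
  have hΛγ : ∀ v, Λ (v, 0) = γ v := by
    intro v
    have a : IsLift d (fun v => Gam k (2 * Real.pi / k * cl v)) (fun v => Λ (v, 0)) :=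
      ⟨hΛ.cont.comp (Continuous.prodMk continuous_id continuous_const), fun v => by
        rw [hΛ.eq, hHs]⟩
    refine lift_unique d (fun v => ?_) a hγ (y₀ := (0 : ℝ)) (by rw [hΛ0, hγ0]) v
    rw [← hHs]
    exact hHi _
  have hsq : Λ (1, 1) = Λ (1, 0) ∘ π := by
    refine square d hHi (fun s => ?_) hΛ ?_ 1
    · have : H (s, 1) = H (s, 0) ∘
          Equiv.swap (⟨m, by omega⟩ : Fin k) ⟨m + 1, hm⟩ := by
        rw [hHs]
        simp only [hH]
        rw [htw_one hAB]
      rw [this]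
      exact d.symm _ (hHi _) _
    · rw [hΛl, hΛl, hπ]
  refine ⟨fun t => Λ (1, t), ⟨hΛ.cont.comp (Continuous.prodMk continuous_const continuous_id),
    fun t => ?_⟩, ?_, ?_⟩
  · rw [hΛ.eq]
    simp only [hH]
    rw [cl_one, mul_one]
    rfl
  · exact hΛγ 1
  · show Λ (1, 1) = γ 1 ∘ π
    rw [hsq, hΛγ]

end S9b

variable {k n : ℕ}

open S9b in
theorem twist_eq (hn : 3 ≤ n) (hk : 5 ≤ k) (d : Dat k n)
    {j : ℤ} {G : (Fin k → ℂ) → ℂ} (hGc : ContinuousOn G (Inj k))
    (hGs : ∀ x ∈ Inj k, ∀ σ : Equiv.Perm (Fin k), G (x ∘ σ) = G x)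
    (hG : ∀ x ∈ Inj k, ∀ l : Fin n → ℂ, coef l = d.F x → dsc l = dsc x ^ j * exp (G x))
    (hω : ∀ x ∈ Inj k, ∀ l : Fin n → ℂ, coef l = d.F x →
      ∃ σ : Equiv.Perm (Fin n), om k n j ^ 2 • l = l ∘ σ)
    {l₁ l₃ : ℝ → Fin n → ℂ} (h1 : IsLift d (tw k 1) l₁) (h3 : IsLift d (tw k 3) l₃)
    (h0 : l₁ 0 = l₃ 0) : l₁ 1 = l₃ 1 := by
  have hkr : (0 : ℝ) < k := by
    have : 0 < k := by omega
    exact_mod_cast this
  have hpi := Real.pi_pos
  have hend : ∀ m, m + 1 < k → ∀ l : ℝ → Fin n → ℂ, IsLift d (tw k m) l →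
      ∃ π : Equiv.Perm (Fin n), l 1 = l 0 ∘ π := by
    intro m hm l hl
    apply exists_perm_of_coef_eq
    rw [hl.eq, hl.eq, ← htw_x0 hm, ← htw_x0 hm, htw_zero, htw_one]
    · exact (d.symm _ (x0_mem k) _).symm
    · intro h
      have := congrArg Fin.val h
      simp at this
  obtain ⟨π₁, hπ₁⟩ := hend 1 (by omega) l₁ h1
  obtain ⟨π₃, hπ₃⟩ := hend 3 (by omega) l₃ h3
  have hGi : ∀ v, Gam k (2 * Real.pi / k * cl v) ∈ Inj k := by
    intro v
    have h := Gam_htw_mem hk (m := 1) (by omega) (θ := 2 * Real.pi / k * cl v)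
      (by have := cl_nonneg v; positivity)
      (by
        have h1 := cl_le_one v
        have h2 : 2 * Real.pi / k * cl v * k = 2 * Real.pi * cl v := by field_simp
        rw [h2]
        nlinarith) 0
    rwa [htw_zero] at h
  obtain ⟨γ, hγ, hγ0⟩ := exists_lift d (x := fun v => Gam k (2 * Real.pi / k * cl v))
    ((continuous_Gam k).comp (continuous_const.mul continuous_cl)) hGi (0 : ℝ) (l₀ := l₁ 0) (by
      rw [h1.eq, cl_zero, mul_zero, Gam_zero, tw_zero])
  obtain ⟨l₁', hl₁', a₁, b₁⟩ := to_kgon hk d (m := 1) (by omega) h1 hπ₁ hγ hγ0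
  obtain ⟨l₃', hl₃', a₃, b₃⟩ := to_kgon hk d (m := 3) (by omega) h3 hπ₃ hγ (by rw [hγ0, h0])
  have hKt : ∀ m (hm : m + 1 < k) (t : ℝ),
      htw (⟨m, by omega⟩ : Fin k) ⟨m + 1, hm⟩ (Kg k) t ∈ Inj k := by
    intro m hm t
    apply Gam_htw_mem hk hm
    · positivity
    · have : 2 * Real.pi / k * k = 2 * Real.pi := by field_simp
      rw [this]
  have hnz : NeZero k := ⟨by omega⟩
  have hρv : ∀ l : Fin k, ((Equiv.addRight (⟨2, by omega⟩ : Fin k) l : Fin k) : ℕ) =
      ((l : ℕ) + 2) % k := by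
    intro l
    rw [Equiv.coe_addRight, Fin.val_add]
  have key : π₁ = π₃ := by
    refine kgon hn hk d hGc hGs hG hω (K := Kg k) (A := ⟨1, by omega⟩) (B := ⟨2, by omega⟩)
      (A' := ⟨3, by omega⟩) (B' := ⟨4, by omega⟩) (ρ := Equiv.addRight (⟨2, by omega⟩ : Fin k))
      (z := k / (2 * Real.pi * I)) ?_ ?_ ?_ ?_ ?_ ?_ hl₁' hl₃' ?_ ?_ ?_
    · intro h
      have := congrArg Fin.val h
      simp at this
    · apply Fin.ext
      rw [hρv]
      exact Nat.mod_eq_of_lt (by show 1 + 2 < k; omega)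
    · apply Fin.ext
      rw [hρv]
      exact Nat.mod_eq_of_lt (by show 2 + 2 < k; omega)
    · funext l
      exact Kg_rot hk l _ (hρv l)
    · exact hKt 1 (by omega)
    · exact hKt 3 (by omega)
    · rw [a₁, a₃]
    · rw [a₁, b₁]
    · rw [a₃, b₃]
  rw [hπ₁, hπ₃, h0, key]

end MP2d36f7
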