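import Mathlib
import Pool.Agent.Lib_MP_2d36f7_ag.Coef
import Pool.Agent.Lib_MP_2d36f7_ag.Lift
import Pool.Agent.Lib_MP_2d36f7_ag.Wind
import Pool.Agent.Lib_MP_2d36f7_ag.Loops
import Pool.Agent.Lib_MP_2d36f7_ag.TwRot
import Pool.Agent.Lib_MP_2d36f7_ag.Relation
import Pool.Agent.Lib_MP_2d36f7_ag.Comm
import Pool.Agent.Lib_MP_2d36f7_ag.LogLemma
import Pool.Agent.Lib_MP_2d36f7_ag.LemmaW
import Pool.Agent.Lib_MP_2d36f7_ag.S7
import Pool.Agent.Lib_MP_2d36f7_ag.S8c
import Pool.Agent.Lib_MP_2d36f7_ag.S9a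
import Pool.Agent.Lib_MP_2d36f7_ag.S9b
import Pool.Agent.Lib_MP_2d36f7_ag.S10

/-!
# Rigidity: the shape of the root configuration is constant for maps of rank at most `k - 2`
-/

open Polynomial Complex Set Filter Topology

namespace MP2d36f7

variable {k n : ℕ}

/-- the discriminant of the roots of `F x`, with its logarithm -/
theorem exists_log_dsc (hk : 2 ≤ k) (d : Dat k n) :
    ∃ (j : ℤ) (G : (Fin k → ℂ) → ℂ), ContinuousOn G (Inj k) ∧
      (∀ x ∈ Inj k, ∀ σ : Equiv.Perm (Fin k), G (x ∘ σ) = G x) ∧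
      ∀ x ∈ Inj k, ∀ l : Fin n → ℂ, coef l = d.F x → dsc l = dsc x ^ j * exp (G x) := by
  classical
  have hex : ∀ x : Fin k → ℂ, ∃ l : Fin n → ℂ, x ∈ Inj k → coef l = d.F x := by
    intro x
    by_cases hx : x ∈ Inj k
    · obtain ⟨l, _, hl⟩ := d.reg x hx
      exact ⟨l, fun _ => hl⟩
    · exact ⟨0, fun h => absurd h hx⟩
  choose lam hlam using hex
  have hval : ∀ x ∈ Inj k, ∀ l : Fin n → ℂ, coef l = d.F x → dsc l = dsc (lam x) := by
    intro x hx l hl
    obtain ⟨σ, hσ⟩ := exists_perm_of_coef_eq (hl.trans (hlam x hx).symm)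
    rw [hσ, dsc_perm]
  have hcont : ContinuousOn (fun x => dsc (lam x)) (Inj k) := by
    intro x hx
    have hli : lam x ∈ Inj n := lift_inj d hx (hlam x hx)
    obtain ⟨Φ, hΦa, hΦ0, hΦ1, -⟩ := coef_localInv hli
    have hFx : ContinuousAt d.F x :=
      (d.hol.differentiableAt ((isOpen_Inj k).mem_nhds hx)).continuousAt
    have hc : ContinuousAt (fun x' => dsc (Φ (d.F x'))) x := by
      have h1 : ContinuousAt Φ (d.F x) := by rw [← hlam x hx]; exact hΦa.continuousAt
      exact (continuous_dsc n).continuousAt.comp (ContinuousAt.comp (f := d.F) (g := Φ) h1 hFx)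
    have hev : (fun x' => dsc (Φ (d.F x'))) =ᶠ[𝓝 x] fun x' => dsc (lam x') := by
      have h2 : ∀ᶠ x' in 𝓝 x, coef (Φ (d.F x')) = d.F x' := by
        have h3 : Tendsto d.F (𝓝 x) (𝓝 (coef (lam x))) := by rw [hlam x hx]; exact hFx
        exact h3.eventually hΦ1
      filter_upwards [h2, (isOpen_Inj k).mem_nhds hx] with x' h4 h5
      exact hval x' h5 _ h4
    exact (hc.congr hev).continuousWithinAt
  have h0 : ∀ x ∈ Inj k, dsc (lam x) ≠ 0 := fun x hx =>
    (dsc_ne_zero_iff _).2 (lift_inj d hx (hlam x hx))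
  have hsym : ∀ x ∈ Inj k, ∀ σ : Equiv.Perm (Fin k), dsc (lam (x ∘ σ)) = dsc (lam x) := by
    intro x hx σ
    have hxσ : x ∘ σ ∈ Inj k := hx.comp σ.injective
    refine (hval x hx _ ?_)
    rw [hlam _ hxσ, d.symm x hx]
  obtain ⟨j, G, hG, hGs, hGe⟩ := log_lemma hk hcont h0 hsym
  refine ⟨j, G, hG, hGs, fun x hx l hl => ?_⟩
  rw [hval x hx l hl, hGe x hx]

theorem shapeConst (hn : 3 ≤ n) (hk : 5 ≤ k) (d : Dat k n)
    (hrk : ∀ x ∈ Inj k, Module.finrank ℂ (LinearMap.range (fderiv ℂ d.F x).toLinearMap) + 2 ≤ k) :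
    ShapeConst d := by
  classical
  obtain ⟨l₀, hl₀i, hl₀⟩ := d.reg (x0 k) (x0_mem k)
  have hr : ∀ j : ℕ, ∃ r : ℝ → Fin n → ℂ, IsLift d (rot k j) r ∧ r 0 = l₀ := fun j =>
    exists_lift d (continuous_rot k j) (rot_mem k j) 0 (by rw [rot_zero]; exact hl₀)
  choose r hr using hr
  have hl : ∀ m : ℕ, ∃ l : ℝ → Fin n → ℂ, IsLift d (tw k m) l ∧ l 0 = l₀ := fun m =>
    exists_lift d (continuous_tw k m) tw_mem 0 (by rw [tw_zero]; exact hl₀)
  choose l hl using hl
  have hπex : ∀ m : ℕ, ∃ σ : Equiv.Perm (Fin n), m + 1 < k → l m 1 = l₀ ∘ σ := by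
    intro m
    by_cases hm : m + 1 < k
    · have hc : coef l₀ = coef (l m 1) := by
        rw [(hl m).1.eq 1, hl₀]
        have h1 := tw_add_one hm 0
        rw [zero_add] at h1
        rw [h1, d.symm _ (tw_mem 0), tw_zero]
      obtain ⟨σ, hσ⟩ := exists_perm_of_coef_eq hc
      exact ⟨σ, fun _ => hσ⟩
    · exact ⟨1, fun h => absurd h hm⟩
  choose π hπ using hπex
  have hπ' : ∀ m, m + 1 < k → ∀ l' : ℝ → Fin n → ℂ, IsLift d (tw k m) l' → l' 0 = l₀ →
      l' 1 = l₀ ∘ π m := by
    intro m hm l' hl' h0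
    have := liftOn_eqOn d (S := (univ : Set ℝ)) isPreconnected_univ (fun y _ => tw_mem y)
      (l := l') (l' := l m) ⟨hl'.cont.continuousOn, fun y _ => hl'.eq y⟩
      ⟨(hl m).1.cont.continuousOn, fun y _ => (hl m).1.eq y⟩ (mem_univ 0) (by rw [h0, (hl m).2])
    rw [this (mem_univ 1)]
    exact hπ m hm
  have hcomm : ∀ j m : ℕ, j ≤ k → m + 1 < k → m + 1 ≠ j → ∀ p q, p ≠ q →
      V (r j) (π m p) (π m q) = V (r j) p q := by
    intro j m hj hm hne p q hpq
    exact comm_inv d hj hm hne (hr j).1 (hl m).1 (by rw [(hl m).2, (hr j).2])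
      (by rw [(hl m).2]; exact hπ m hm) hpq
  obtain ⟨j, G, hGc, hGs, hG⟩ := exists_log_dsc (by omega : 2 ≤ k) d
  -- the final step: triviality of `rot k 2`
  have key2 : Triv d (rot k 2) → ShapeConst d := fun h =>
    shapeConst_of_triv_two hn (by omega) d h
  -- if the twists `1` and `3` act equally
  have key13 : (∀ x ∈ Inj k, ∀ l : Fin n → ℂ, coef l = d.F x →
      ∃ σ : Equiv.Perm (Fin n), om k n j ^ 2 • l = l ∘ σ) → Triv d (rot k 2) := by
    intro hω
    have h13 : l 1 1 = l 3 1 := twist_eq hn hk d hGc hGs hG hω (hl 1).1 (hl 3).1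
      (by rw [(hl 1).2, (hl 3).2])
    have hp : π 1 = π 3 := by
      rw [hπ 1 (by omega), hπ 3 (by omega)] at h13
      ext p
      have := congrFun h13 p
      exact congrArg Fin.val (hl₀i this)
    refine triv_of_invariant hn (by omega) d hl₀ hπ' (le_refl 2) (by omega) (hr 2).1 (hr 2).2 ?_
    intro m hm p q hpq
    by_cases h : m = 1
    · subst h
      rw [hp]
      exact hcomm 2 3 (by omega) (by omega) (by omega) p q hpq
    · exact hcomm 2 m (by omega) hm (by omega) p q hpq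
  obtain ⟨a, ⟨j₀, hj₀2, hj₀k, hj₀⟩, hrel⟩ := relation d (by omega) hrk hl₀ r
    (fun j _ _ => hr j)
  by_cases hcase : ∃ i, 2 ≤ i ∧ i ≤ k - 1 ∧ a i ≠ 0
  · obtain ⟨i, hi2, hik, hai⟩ := hcase
    have hinv : ∀ p q, p ≠ q → V (r i) (π (i - 1) p) (π (i - 1) q) = V (r i) p q := by
      intro p q hpq
      have h1 := hrel p q hpq
      have h2 := hrel (π (i - 1) p) (π (i - 1) q) (fun h => hpq ((π (i - 1)).injective h))
      have h3 : ∑ j ∈ Finset.Icc 2 k,
          a j * (V (r j) (π (i - 1) p) (π (i - 1) q) - V (r j) p q) = 0 := by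
        simp_rw [mul_sub]
        rw [Finset.sum_sub_distrib, h1, h2, sub_zero]
      rw [Finset.sum_eq_single i] at h3
      · rcases mul_eq_zero.1 h3 with h | h
        · exact absurd h hai
        · exact sub_eq_zero.1 h
      · intro j' hj' hne
        rw [hcomm j' (i - 1) (Finset.mem_Icc.1 hj').2 (by omega) (by omega) p q hpq, sub_self,
          mul_zero]
      · intro h
        exact absurd (Finset.mem_Icc.2 ⟨hi2, by omega⟩) h
    have hTi : Triv d (rot k i) := by
      refine triv_of_invariant hn (by omega) d hl₀ hπ' hi2 (by omega) (hr i).1 (hr i).2 ?_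
      intro m hm p q hpq
      by_cases h : m = i - 1
      · subst h; exact hinv p q hpq
      · exact hcomm i m (by omega) hm (by omega) p q hpq
    rcases Nat.lt_or_ge i 3 with h | h
    · have : i = 2 := by omega
      subst this
      exact key2 hTi
    · rcases Nat.lt_or_ge i (k - 1) with h' | h'
      · exact key2 (triv_two_of_mid hn d h (by omega) hTi)
      · have : i = k - 1 := by omega
        subst this
        exact key2 (key13 (fun x hx l hl => omega_symm hn (by omega) d hTi hGc hGs hG hx hl))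
  · push Not at hcase
    have hj₀' : j₀ = k := by
      by_contra h
      exact hj₀ (hcase j₀ hj₀2 (by omega))
    subst hj₀'
    have hV : ∀ p q, p ≠ q → V (r j₀) p q = 0 := by
      intro p q hpq
      have h1 := hrel p q hpq
      rw [Finset.sum_eq_single j₀] at h1
      · rcases mul_eq_zero.1 h1 with h | h
        · exact absurd h hj₀
        · exact h
      · intro j' hj' hne
        rw [hcase j' (Finset.mem_Icc.1 hj').1 (by have := (Finset.mem_Icc.1 hj').2; omega), zero_mul]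
      · intro h
        exact absurd (Finset.mem_Icc.2 ⟨by omega, le_refl _⟩) h
    have hj0 : j = 0 := j_eq_zero (by omega) d hGc hG (hr j₀).1 hV
    refine key2 (key13 (fun x hx l hl => ⟨1, ?_⟩))
    have hom : om j₀ n j = 1 := by
      unfold om
      rw [hj0]
      simp
    rw [hom]
    simp

end MP2d36f7
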