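import Mathlib
import Pool.Agent.Lib_MP_2d36f7_ag.Defs
import Pool.Agent.Lib_MP_2d36f7_ag.FinalDefs
import Pool.Agent.Lib_MP_2d36f7_ag.Coef

open Polynomial Complex Set Filter Topology

namespace MP2d36f7

/-! ## PIECE Trans (Trans.lean), uses Coef -/

theorem trans_sum_degree {n : ℕ} (z : Fin (n - 1) → ℂ) :
    (∑ i : Fin (n - 1), C (z i) * X ^ (i : ℕ) : ℂ[X]).degree < n := by
  apply lt_of_lt_of_le (degree_sum_fin_lt z)
  exact_mod_cast Nat.sub_le n 1

theorem P_monic {n : ℕ} (_hn : 1 ≤ n) (z : Fin (n - 1) → ℂ) :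
    (P n z).Monic ∧ (P n z).natDegree = n := by
  have h := trans_sum_degree z
  refine ⟨monic_X_pow_add h, ?_⟩
  apply natDegree_eq_of_degree_eq_some
  unfold P
  rw [degree_add_eq_left_of_degree_lt (by rw [degree_X_pow]; exact h), degree_X_pow]

theorem P_coeff_lt {n : ℕ} (z : Fin (n - 1) → ℂ) (i : ℕ) (hi : i < n - 1) :
    (P n z).coeff i = z ⟨i, hi⟩ := by
  unfold P
  rw [coeff_add, coeff_X_pow, if_neg (by omega), zero_add, finsetSum_coeff]
  rw [Finset.sum_eq_single (⟨i, hi⟩ : Fin (n - 1))]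
  · simp
  · intro b _ hb
    rw [coeff_C_mul_X_pow, if_neg]
    intro h
    exact hb (Fin.ext h.symm)
  · intro h
    exact absurd (Finset.mem_univ _) h

theorem P_coeff_pred {n : ℕ} (hn : 1 ≤ n) (z : Fin (n - 1) → ℂ) :
    (P n z).coeff (n - 1) = 0 := by
  unfold P
  rw [coeff_add, coeff_X_pow, if_neg (by omega), zero_add, finsetSum_coeff]
  apply Finset.sum_eq_zero
  intro b _
  rw [coeff_C_mul_X_pow, if_neg]
  have := b.2
  omega

theorem P_continuous_coeff (n : ℕ) (i : ℕ) :
    Continuous fun z : Fin (n - 1) → ℂ => (P n z).coeff i := by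
  unfold P
  simp only [coeff_add, finsetSum_coeff, coeff_C_mul_X_pow]
  apply continuous_const.add
  apply continuous_finsetSum
  intro j _
  by_cases h : i = (j : ℕ)
  · simp only [h, if_true]
    exact continuous_apply j
  · simp only [h, if_false]
    exact continuous_const

theorem continuous_disc (n : ℕ) : Continuous (disc n) := by
  rcases Nat.eq_zero_or_pos n with rfl | hn
  · apply continuous_of_const
    intro x y
    have : x = y := by
      funext i
      exact absurd i.2 (by omega)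
    rw [this]
  · have h1 : ∀ z : Fin (n - 1) → ℂ, disc n z =
        (-1) ^ (n * (n - 1) / 2) * resultant (P n z) (P n z).derivative n (n - 1) := by
      intro z
      obtain ⟨hm, hd⟩ := P_monic hn z
      have hpos : 0 < (P n z).degree := by
        rw [← natDegree_pos_iff_degree_pos, hd]
        exact hn
      have h2 := resultant_deriv hpos
      rw [hd, hm.leadingCoeff, mul_one] at h2
      rw [h2, ← mul_assoc, ← pow_add, ← two_mul, pow_mul]
      norm_num [disc]
    have h2 : disc n = fun z =>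
        (-1) ^ (n * (n - 1) / 2) * resultant (P n z) (P n z).derivative n (n - 1) := funext h1
    rw [h2]
    apply continuous_const.mul
    unfold resultant
    apply Continuous.matrix_det
    apply continuous_pi
    intro i
    apply continuous_pi
    intro j
    unfold sylvester
    simp only [Matrix.of_apply]
    refine Fin.addCases (fun j₁ => ?_) (fun j₁ => ?_) j
    · simp only [Fin.addCases_left]
      split_ifs
      · simp only [coeff_derivative]
        exact (P_continuous_coeff n _).mul continuous_const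
      · exact continuous_const
    · simp only [Fin.addCases_right]
      split_ifs
      · exact P_continuous_coeff n _
      · exact continuous_const

theorem isOpen_G0 (n : ℕ) : IsOpen (G0 n) :=
  isOpen_ne_fun (continuous_disc n) continuous_const

/-- centred coefficients of the configuration `x` -/
noncomputable def cf {n : ℕ} (x : Fin n → ℂ) : Fin (n - 1) → ℂ :=
  fun i => (∏ j, (X - C (x j - (∑ a, x a) / n)) : ℂ[X]).coeff i

/-- full coefficient vector of `P n z` -/
noncomputable def full {n : ℕ} (z : Fin (n - 1) → ℂ) : Fin n → ℂ :=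
  fun i => if h : (i : ℕ) < n - 1 then z ⟨i, h⟩ else 0

theorem trans_prod_coeff_pred {n : ℕ} (hn : 1 ≤ n) (y : Fin n → ℂ) :
    (∏ j, (X - C (y j)) : ℂ[X]).coeff (n - 1) = -∑ j, y j := by
  have h := prod_X_sub_C_coeff_card_pred Finset.univ y (by rw [Finset.card_univ, Fintype.card_fin]; exact hn)
  rw [Finset.card_univ, Fintype.card_fin] at h
  exact h

theorem trans_prod_monic {n : ℕ} (y : Fin n → ℂ) :
    (∏ j, (X - C (y j)) : ℂ[X]).Monic ∧ (∏ j, (X - C (y j)) : ℂ[X]).natDegree = n := by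
  refine ⟨monic_prod_of_monic _ _ fun j _ => monic_X_sub_C _, ?_⟩
  rw [natDegree_prod_of_monic _ _ fun j _ => monic_X_sub_C _]
  simp

theorem trans_centred_sum {n : ℕ} (hn : 1 ≤ n) (x : Fin n → ℂ) :
    ∑ j, (x j - (∑ a, x a) / n) = 0 := by
  rw [Finset.sum_sub_distrib, Finset.sum_const, Finset.card_univ, Fintype.card_fin, nsmul_eq_mul]
  have : (n : ℂ) ≠ 0 := by exact_mod_cast (by omega : n ≠ 0)
  field_simp
  ring

/-- a polynomial of the shape of `P n z` -/
theorem trans_eq_P {n : ℕ} (hn : 1 ≤ n) {y : Fin n → ℂ} (hy : ∑ j, y j = 0)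
    {z : Fin (n - 1) → ℂ} (hz : ∀ i : Fin (n - 1), (∏ j, (X - C (y j)) : ℂ[X]).coeff i = z i) :
    P n z = ∏ j, (X - C (y j)) := by
  obtain ⟨hm, hd⟩ := P_monic hn z
  obtain ⟨hm', hd'⟩ := trans_prod_monic y
  ext i
  rcases lt_trichotomy i n with h | h | h
  · rcases Nat.lt_or_ge i (n - 1) with h' | h'
    · rw [P_coeff_lt z i h', ← hz ⟨i, h'⟩]
    · have : i = n - 1 := by omega
      rw [this, P_coeff_pred hn, trans_prod_coeff_pred hn, hy, neg_zero]
  · have h1 : (P n z).coeff i = 1 := by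
      rw [h]
      have := hm.coeff_natDegree
      rwa [hd] at this
    have h2 : (∏ j, (X - C (y j)) : ℂ[X]).coeff i = 1 := by
      rw [h]
      have := hm'.coeff_natDegree
      rwa [hd'] at this
    rw [h1, h2]
  · rw [coeff_eq_zero_of_natDegree_lt (by rw [hd]; exact h),
      coeff_eq_zero_of_natDegree_lt (by rw [hd']; exact h)]

theorem P_cf {n : ℕ} (hn : 1 ≤ n) (x : Fin n → ℂ) :
    P n (cf x) = ∏ j, (X - C (x j - (∑ a, x a) / n)) :=
  trans_eq_P hn (trans_centred_sum hn x) fun _ => rfl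

theorem disc_cf {n : ℕ} (hn : 1 ≤ n) (x : Fin n → ℂ) : disc n (cf x) = dsc x := by
  unfold disc
  rw [P_cf hn, discr_prod (fun j => x j - (∑ a, x a) / n)]
  have h := dsc_add x (-((∑ a, x a) / n))
  simp only [← sub_eq_add_neg] at h
  exact h

theorem cf_mem {n : ℕ} (hn : 1 ≤ n) {x : Fin n → ℂ} : cf x ∈ G0 n ↔ x ∈ Inj n := by
  rw [← dsc_ne_zero_iff, ← disc_cf hn]
  rfl

theorem trans_list_prod (n : ℕ) (L : List ℂ) (hL : L.length = n) :
    ∃ x : Fin n → ℂ, (L.map fun a => (X - C a : ℂ[X])).prod = ∏ j, (X - C (x j)) := by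
  subst hL
  exact ⟨fun j => L[j], (Fin.prod_univ_fun_getElem L fun a => (X - C a : ℂ[X])).symm⟩

theorem trans_exists_roots {n : ℕ} (hn : 1 ≤ n) (z : Fin (n - 1) → ℂ) :
    ∃ x : Fin n → ℂ, P n z = ∏ j, (X - C (x j)) := by
  obtain ⟨hm, hd⟩ := P_monic hn z
  have hs : (P n z).Splits := IsAlgClosed.splits _
  have hcard : (P n z).roots.card = n := hs.natDegree_eq_card_roots.symm.trans hd
  have hprod : P n z = ((P n z).roots.map fun a => X - C a).prod := by
    have h := hs.eq_prod_roots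
    rw [hm.leadingCoeff, C_1, one_mul] at h
    exact h
  have hlen : (P n z).roots.toList.length = n := by
    rw [Multiset.length_toList, hcard]
  obtain ⟨x, hx⟩ := trans_list_prod _ _ hlen
  refine ⟨x, hprod.trans ?_⟩
  rw [← hx]
  conv_lhs => rw [← Multiset.coe_toList (P n z).roots, Multiset.map_coe, Multiset.prod_coe]

theorem exists_cf_eq {n : ℕ} (hn : 1 ≤ n) {z : Fin (n - 1) → ℂ} (hz : z ∈ G0 n) :
    ∃ x ∈ Inj n, ∑ a, x a = 0 ∧ cf x = z := by
  obtain ⟨x, hx⟩ := trans_exists_roots hn z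
  have hsum : ∑ a, x a = 0 := by
    have h1 := trans_prod_coeff_pred hn x
    rw [← hx, P_coeff_pred hn] at h1
    have h2 : -∑ j, x j = 0 := h1.symm
    exact neg_eq_zero.1 h2
  have hcf : cf x = z := by
    funext i
    unfold cf
    simp only [hsum, zero_div, sub_zero]
    rw [← hx, P_coeff_lt z i i.2]
  refine ⟨x, ?_, hsum, hcf⟩
  rw [← cf_mem hn, hcf]
  exact hz

theorem cf_perm {n : ℕ} (x : Fin n → ℂ) (σ : Equiv.Perm (Fin n)) : cf (x ∘ σ) = cf x := by
  funext i
  unfold cf
  have h1 : ∑ a, (x ∘ σ) a = ∑ a, x a := Equiv.sum_comp σ x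
  rw [h1]
  have h2 : (∏ j, (X - C ((x ∘ σ) j - (∑ a, x a) / n)) : ℂ[X]) =
      ∏ j, (X - C (x j - (∑ a, x a) / n)) :=
    Equiv.prod_comp σ (fun j => (X - C (x j - (∑ a, x a) / n) : ℂ[X]))
  rw [h2]

theorem cf_add {n : ℕ} (hn : 1 ≤ n) (x : Fin n → ℂ) (a : ℂ) : cf (fun i => x i + a) = cf x := by
  funext i
  unfold cf
  have hn0 : (n : ℂ) ≠ 0 := by exact_mod_cast (by omega : n ≠ 0)
  have h1 : ∀ j, x j + a - (∑ b, (x b + a)) / n = x j - (∑ b, x b) / n := by
    intro j
    rw [Finset.sum_add_distrib, Finset.sum_const, Finset.card_univ, Fintype.card_fin,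
      nsmul_eq_mul]
    field_simp
    ring
  simp only [h1]

/-- centring -/
theorem cf_eq_coef {n : ℕ} (x : Fin n → ℂ) (i : Fin (n - 1)) :
    cf x i = coef (fun j => x j - (∑ a, x a) / n) ⟨i, by have := i.2; omega⟩ := rfl

theorem differentiable_cf (n : ℕ) : Differentiable ℂ (cf : (Fin n → ℂ) → _) := by
  rw [differentiable_pi]
  intro i
  have h1 : Differentiable ℂ (coef : (Fin n → ℂ) → (Fin n → ℂ)) :=
    (contDiff_coef n).differentiable (by simp)
  have h2 : Differentiable ℂ fun x : Fin n → ℂ => (fun j => x j - (∑ a, x a) / n : Fin n → ℂ) := by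
    rw [differentiable_pi]
    intro j
    fun_prop
  have h3 := (differentiable_pi.1 (h1.comp h2)) ⟨i, by have := i.2; omega⟩
  exact h3

theorem coef_eq_full {n : ℕ} (hn : 1 ≤ n) {l : Fin n → ℂ} {z : Fin (n - 1) → ℂ} :
    coef l = full z ↔ (∑ a, l a = 0 ∧ cf l = z) := by
  constructor
  · intro h
    have hsum : ∑ a, l a = 0 := by
      have h1 := congrFun h ⟨n - 1, by omega⟩
      unfold coef full at h1
      simp only [lt_irrefl, dif_neg, not_false_eq_true] at h1
      rw [trans_prod_coeff_pred hn] at h1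
      exact neg_eq_zero.1 h1
    refine ⟨hsum, ?_⟩
    funext i
    rw [cf_eq_coef]
    simp only [hsum, zero_div, sub_zero]
    rw [h]
    unfold full
    rw [dif_pos i.2]
  · rintro ⟨h1, h2⟩
    funext i
    unfold full
    by_cases h : (i : ℕ) < n - 1
    · rw [dif_pos h, ← h2, cf_eq_coef]
      simp only [h1, zero_div, sub_zero]
    · rw [dif_neg h]
      have hi : (i : ℕ) = n - 1 := by have := i.2; omega
      unfold coef
      rw [hi, trans_prod_coeff_pred hn, h1, neg_zero]

/-- if `cf x = cf y` then `y` is a permuted translate of `x` -/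
theorem cf_eq_iff {n : ℕ} (hn : 1 ≤ n) {x y : Fin n → ℂ} :
    cf x = cf y ↔ ∃ (σ : Equiv.Perm (Fin n)) (a : ℂ), ∀ i, y i = x (σ i) + a := by
  constructor
  · intro h
    have h1 : coef (fun j => x j - (∑ a, x a) / n) = coef (fun j => y j - (∑ a, y a) / n) := by
      have e1 : coef (fun j => x j - (∑ a, x a) / n) = full (cf x) := by
        rw [coef_eq_full hn]
        refine ⟨trans_centred_sum hn x, ?_⟩
        have := cf_add hn x (-((∑ a, x a) / n))
        simp only [← sub_eq_add_neg] at this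
        exact this
      have e2 : coef (fun j => y j - (∑ a, y a) / n) = full (cf y) := by
        rw [coef_eq_full hn]
        refine ⟨trans_centred_sum hn y, ?_⟩
        have := cf_add hn y (-((∑ a, y a) / n))
        simp only [← sub_eq_add_neg] at this
        exact this
      rw [e1, e2, h]
    obtain ⟨σ, hσ⟩ := exists_perm_of_coef_eq h1
    refine ⟨σ, (∑ a, y a) / n - (∑ a, x a) / n, fun i => ?_⟩
    have := congrFun hσ i
    simp only [Function.comp] at this
    linear_combination this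
  · rintro ⟨σ, a, h⟩
    have h1 : y = fun i => (x ∘ σ) i + a := funext h
    rw [h1, cf_add hn, cf_perm]

theorem continuous_full (n : ℕ) : Continuous (full : (Fin (n - 1) → ℂ) → (Fin n → ℂ)) := by
  apply continuous_pi
  intro i
  unfold full
  by_cases h : (i : ℕ) < n - 1
  · simp only [dif_pos h]
    exact continuous_apply _
  · simp only [dif_neg h]
    exact continuous_const

/-- continuous centred roots exist locally -/
theorem exists_local_roots {n : ℕ} (hn : 1 ≤ n) {z₀ : Fin (n - 1) → ℂ} (hz : z₀ ∈ G0 n) :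
    ∃ (r : (Fin (n - 1) → ℂ) → (Fin n → ℂ)), ContinuousAt r z₀ ∧
      ∀ᶠ z in 𝓝 z₀, r z ∈ Inj n ∧ ∑ a, r z a = 0 ∧ cf (r z) = z ∧ ContinuousAt r z := by
  obtain ⟨x, hx, hsum, hcf⟩ := exists_cf_eq hn hz
  have hfull : coef x = full z₀ := (coef_eq_full hn).2 ⟨hsum, hcf⟩
  obtain ⟨Φ, hΦ, _, hΦ2, _⟩ := coef_localInv hx
  rw [hfull] at hΦ hΦ2
  have hfc := continuous_full n
  refine ⟨fun z => Φ (full z), ?_, ?_⟩
  · exact ContinuousAt.comp (f := full) hΦ.continuousAt hfc.continuousAt
  · have h1 : ∀ᶠ z in 𝓝 z₀, coef (Φ (full z)) = full z := hfc.continuousAt.eventually hΦ2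
    have h2 : ∀ᶠ z in 𝓝 z₀, AnalyticAt ℂ Φ (full z) :=
      hfc.continuousAt.eventually hΦ.eventually_analyticAt
    have h3 : ∀ᶠ z in 𝓝 z₀, z ∈ G0 n := (isOpen_G0 n).mem_nhds hz
    filter_upwards [h1, h2, h3] with z e1 e2 e3
    obtain ⟨e4, e5⟩ := (coef_eq_full hn).1 e1
    refine ⟨?_, e4, e5, ContinuousAt.comp (f := full) e2.continuousAt hfc.continuousAt⟩
    rw [← cf_mem hn, e5]
    exact e3

/-- `full` as a linear map -/
noncomputable def fullL (n : ℕ) : (Fin (n - 1) → ℂ) →ₗ[ℂ] (Fin n → ℂ) where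
  toFun := full
  map_add' x y := by
    funext i
    simp only [full, Pi.add_apply]
    split_ifs
    · rfl
    · simp
  map_smul' c x := by
    funext i
    simp only [full, Pi.smul_apply, RingHom.id_apply]
    split_ifs
    · rfl
    · simp

/-- the data associated with a holomorphic map -/
theorem exists_dat {k n : ℕ} (hk : 1 ≤ k) (hn : 1 ≤ n) {f : (Fin (k - 1) → ℂ) → (Fin (n - 1) → ℂ)}
    (hf : DifferentiableOn ℂ f (G0 k)) (hm : ∀ z ∈ G0 k, f z ∈ G0 n) :
    ∃ d : Dat k n, (∀ x ∈ Inj k, d.F x = full (f (cf x))) ∧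
      ∀ x ∈ Inj k, Module.finrank ℂ (LinearMap.range (fderiv ℂ d.F x).toLinearMap) ≤
        Module.finrank ℂ (LinearMap.range (fderiv ℂ f (cf x)).toLinearMap) := by
  set FL : (Fin (n - 1) → ℂ) →L[ℂ] (Fin n → ℂ) := LinearMap.toContinuousLinearMap (fullL n) with hFL
  have hdiff : ∀ x ∈ Inj k, HasFDerivAt (fun x => full (f (cf x)))
      (FL.comp ((fderiv ℂ f (cf x)).comp (fderiv ℂ cf x))) x := by
    intro x hx
    have h1 : HasFDerivAt f (fderiv ℂ f (cf x)) (cf x) :=
      ((hf (cf x) ((cf_mem hk).2 hx)).differentiableAt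
        ((isOpen_G0 k).mem_nhds ((cf_mem hk).2 hx))).hasFDerivAt
    have h2 : HasFDerivAt (cf : (Fin k → ℂ) → _) (fderiv ℂ cf x) x :=
      (differentiable_cf k x).hasFDerivAt
    exact FL.hasFDerivAt.comp x (h1.comp x h2)
  refine ⟨⟨fun x => full (f (cf x)), ?_, ?_, ?_, ?_, ?_⟩, fun x _ => rfl, ?_⟩
  · intro x hx
    exact (hdiff x hx).differentiableAt.differentiableWithinAt
  · intro x hx
    obtain ⟨l, hl, h1, h2⟩ := exists_cf_eq hn (hm _ ((cf_mem hk).2 hx))
    exact ⟨l, hl, (coef_eq_full hn).2 ⟨h1, h2⟩⟩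
  · intro x hx l hl
    exact ((coef_eq_full hn).1 hl).1
  · intro x hx σ
    simp only [cf_perm]
  · intro x hx a
    simp only [cf_add hk]
  · intro x hx
    have h1 : fderiv ℂ (fun x => full (f (cf x))) x =
        FL.comp ((fderiv ℂ f (cf x)).comp (fderiv ℂ cf x)) := (hdiff x hx).fderiv
    simp only
    rw [h1]
    have h2 : LinearMap.range (FL.comp ((fderiv ℂ f (cf x)).comp (fderiv ℂ cf x))).toLinearMap ≤
        (LinearMap.range (fderiv ℂ f (cf x)).toLinearMap).map FL.toLinearMap := by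
      rintro _ ⟨v, rfl⟩
      exact ⟨_, ⟨_, rfl⟩, rfl⟩
    exact le_trans (Submodule.finrank_mono h2) (Submodule.finrank_map_le _ _)

end MP2d36f7
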