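import Mathlib
import Pool.Agent.Lib_MP_2d36f7_ag.Defs
import Pool.Agent.Lib_MP_2d36f7_ag.FinalDefs
import Pool.Agent.Lib_MP_2d36f7_ag.Coef
import Pool.Agent.Lib_MP_2d36f7_ag.Lift
import Pool.Agent.Lib_MP_2d36f7_ag.PathConn
import Pool.Agent.Lib_MP_2d36f7_ag.LogLemma
import Pool.Agent.Lib_MP_2d36f7_ag.Trans

/-!
# Splittability from constancy of the shape

If along all paths the root configuration of `f` is only rescaled, then `f` is homotopic to
a map which factors through the discriminant.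
-/

open Polynomial Complex Set Filter Topology

namespace MP2d36f7

/-- the discriminant as a continuous map -/
noncomputable def discMap (n : ℕ) : C(G0 n, {c : ℂ // c ≠ 0}) :=
  ⟨fun z => ⟨disc n z, z.2⟩, (((continuous_disc n).comp continuous_subtype_val).subtype_mk _)⟩

/-- Over `Inj k` the polynomials `f (cf x)` are rescalings of each other. -/
theorem splitOf_scal {k n : ℕ}
    {f : (Fin (k - 1) → ℂ) → (Fin (n - 1) → ℂ)} (d : Dat k n)
    (hd : ∀ x ∈ Inj k, d.F x = full (f (cf x))) (hs : ShapeConst d)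
    {x y : Fin k → ℂ} (hx : x ∈ Inj k) (hy : y ∈ Inj k) :
    ∃ χ : ℂ, χ ≠ 0 ∧ ∀ i : Fin (n - 1), f (cf y) i = χ ^ (n - (i : ℕ)) * f (cf x) i := by
  obtain ⟨γ, hγ, hγi, h0, h1⟩ := exists_path_Inj hx hy
  obtain ⟨l₀, -, hl₀'⟩ := d.reg x hx
  obtain ⟨l, hl, -⟩ := exists_lift d hγ hγi (0 : ℝ) (l₀ := l₀) (by rw [h0]; exact hl₀')
  obtain ⟨χ, hχ, hχl⟩ := hs γ hγ hγi l hl 1
  refine ⟨χ, hχ, fun i => ?_⟩
  have e1 : coef (l 1) = full (f (cf y)) := by rw [hl.eq 1, h1, hd y hy]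
  have e0 : coef (l 0) = full (f (cf x)) := by rw [hl.eq 0, h0, hd x hx]
  rw [hχl, coef_smul, e0] at e1
  have h2 := congrFun e1 ⟨i, by omega⟩
  have hi : (i : ℕ) < n - 1 := i.2
  simp only [full, hi, dif_pos, Fin.eta] at h2
  exact h2.symm

/-- `G0 n` is invariant under rescaling of the roots. -/
theorem splitOf_scale_mem {n : ℕ} (hn : 1 ≤ n) {a : Fin (n - 1) → ℂ} (ha : a ∈ G0 n) {χ : ℂ}
    (hχ : χ ≠ 0) : (fun i : Fin (n - 1) => χ ^ (n - (i : ℕ)) * a i) ∈ G0 n := by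
  obtain ⟨y, hy, hsum, hcf⟩ := exists_cf_eq hn ha
  have h1 : coef y = full a := (coef_eq_full hn).2 ⟨hsum, hcf⟩
  have h2 : coef (χ • y) = full (fun i : Fin (n - 1) => χ ^ (n - (i : ℕ)) * a i) := by
    rw [coef_smul, h1]
    funext i
    unfold full
    split_ifs with h
    · rfl
    · simp
  have h3 := ((coef_eq_full hn).1 h2).2
  rw [← h3, cf_mem hn]
  intro p q hpq
  exact hy (mul_left_cancel₀ hχ (by simpa using hpq))

/-- a point of `G0 n` has a coefficient which is not zero -/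
theorem splitOf_exists_ne {n : ℕ} (hn : 2 ≤ n) {a : Fin (n - 1) → ℂ} (ha : a ∈ G0 n) :
    ∃ i, a i ≠ 0 := by
  by_contra hcon
  push Not at hcon
  obtain ⟨y, hy, hsum, hcf⟩ := exists_cf_eq (by omega) ha
  have h1 := P_cf (show 1 ≤ n by omega) y
  rw [hcf, hsum] at h1
  have h2 : P n a = X ^ n := by simp [P, hcon]
  rw [h2] at h1
  have h3 : ∀ j, y j = 0 := by
    intro j
    have h4 := congrArg (Polynomial.eval (y j)) h1
    rw [Polynomial.eval_prod, Finset.prod_eq_zero (Finset.mem_univ j) (by simp)] at h4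
    have h5 : (y j) ^ n = 0 := by simpa using h4
    exact pow_eq_zero_iff (by omega) |>.1 h5
  have h6 := hy (show y ⟨0, by omega⟩ = y ⟨1, by omega⟩ by rw [h3, h3])
  simp at h6

/-- Bezout for the exponents -/
theorem splitOf_bezout {n : ℕ} {a : Fin (n - 1) → ℂ} {i₀ : Fin (n - 1)} (hi₀ : a i₀ ≠ 0) :
    ∃ (m : ℕ) (b : Fin (n - 1) → ℤ), 0 < m ∧ (∀ i, a i ≠ 0 → m ∣ n - (i : ℕ)) ∧
      ∑ i ∈ Finset.univ.filter (fun i => a i ≠ 0), ((n - (i : ℕ) : ℕ) : ℤ) * b i = m := by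
  classical
  set J : Finset (Fin (n - 1)) := Finset.univ.filter (fun i => a i ≠ 0) with hJ
  obtain ⟨b, hb⟩ := Finset.gcd_eq_sum_mul J (fun i : Fin (n - 1) => ((n - (i : ℕ) : ℕ) : ℤ))
  set g : ℤ := J.gcd (fun i : Fin (n - 1) => ((n - (i : ℕ) : ℕ) : ℤ)) with hg
  have hg0 : 0 ≤ g := by
    apply Int.nonneg_of_normalize_eq_self
    rw [hg]
    exact Finset.normalize_gcd
  have hgd : ∀ i, a i ≠ 0 → g ∣ ((n - (i : ℕ) : ℕ) : ℤ) := by
    intro i hi
    exact Finset.gcd_dvd (by simp [hJ, hi])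
  have hgne : g ≠ 0 := by
    intro h
    have h1 := hgd i₀ hi₀
    rw [h, zero_dvd_iff] at h1
    have := i₀.2
    omega
  refine ⟨g.natAbs, b, Int.natAbs_pos.2 hgne, fun i hi => ?_, ?_⟩
  · have h1 := Int.natAbs_dvd_natAbs.2 (hgd i hi)
    simpa using h1
  · rw [← hb, Int.natCast_natAbs, abs_of_nonneg hg0]

theorem split_of_shapeConst {k n : ℕ} (hk : 2 ≤ k) (hn : 2 ≤ n)
    {f : (Fin (k - 1) → ℂ) → (Fin (n - 1) → ℂ)}
    (hf : DifferentiableOn ℂ f (G0 k)) (hm : ∀ z ∈ G0 k, f z ∈ G0 n) (d : Dat k n)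
    (hd : ∀ x ∈ Inj k, d.F x = full (f (cf x))) (hs : ShapeConst d)
    (F : C(G0 k, G0 n)) (hF : ∀ z : G0 k, (F z : Fin (n - 1) → ℂ) = f z) :
    ∃ h : C({c : ℂ // c ≠ 0}, G0 n), ContinuousMap.Homotopic F (h.comp (discMap k)) := by
  classical
  have hk1 : 1 ≤ k := by omega
  have hn1 : 1 ≤ n := by omega
  have hx₀ : x0 k ∈ Inj k := by
    intro p q hpq
    simp only [x0] at hpq
    exact Fin.ext (by exact_mod_cast hpq)
  obtain ⟨a, ha_def⟩ : ∃ a, a = f (cf (x0 k)) := ⟨_, rfl⟩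
  have ha : a ∈ G0 n := by
    rw [ha_def]
    exact hm _ ((cf_mem hk1).2 hx₀)
  obtain ⟨i₀, hi₀⟩ := splitOf_exists_ne hn ha
  obtain ⟨m, b, hmpos, hmdvd, hb⟩ := splitOf_bezout hi₀
  -- the function `ρ`
  obtain ⟨ρ, hρ⟩ : ∃ ρ : (Fin (k - 1) → ℂ) → ℂ, ρ = fun z =>
      ∏ i ∈ Finset.univ.filter (fun i => a i ≠ 0), (f z i / a i) ^ (b i) := ⟨_, rfl⟩
  have hkey : ∀ x ∈ Inj k, ρ (cf x) ≠ 0 ∧
      ∀ i, f (cf x) i = a i * ρ (cf x) ^ ((n - (i : ℕ)) / m) := by
    intro x hx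
    obtain ⟨χ, hχ, hχf⟩ := splitOf_scal d hd hs hx₀ hx
    rw [← ha_def] at hχf
    have hρx : ρ (cf x) = χ ^ m := by
      rw [hρ]
      have h1 : ∀ i ∈ Finset.univ.filter (fun i => a i ≠ 0),
          (f (cf x) i / a i) ^ (b i) = χ ^ (((n - (i : ℕ) : ℕ) : ℤ) * b i) := by
        intro i hi
        have hi' : a i ≠ 0 := by simpa using hi
        rw [hχf i, mul_div_assoc, div_self hi', mul_one, zpow_mul, zpow_natCast]
      simp only
      rw [Finset.prod_congr rfl h1]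
      have h2 : ∀ s : Finset (Fin (n - 1)), ∏ i ∈ s, χ ^ (((n - (i : ℕ) : ℕ) : ℤ) * b i) =
          χ ^ (∑ i ∈ s, ((n - (i : ℕ) : ℕ) : ℤ) * b i) := by
        intro s
        induction s using Finset.induction_on with
        | empty => simp
        | insert i s hi ih => rw [Finset.prod_insert hi, Finset.sum_insert hi, zpow_add₀ hχ, ih]
      rw [h2, hb, zpow_natCast]
    refine ⟨by rw [hρx]; exact pow_ne_zero _ hχ, fun i => ?_⟩
    rw [hχf i, hρx]
    by_cases hai : a i = 0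
    · rw [hai]; simp
    · rw [← pow_mul, Nat.mul_div_cancel' (hmdvd i hai), mul_comm]
  have hfc : ContinuousOn f (G0 k) := hf.continuousOn
  have hfi : ∀ i, ContinuousOn (fun z => f z i) (G0 k) := fun i =>
    (continuous_apply i).comp_continuousOn hfc
  have hne : ∀ z ∈ G0 k, ∀ i, a i ≠ 0 → f z i ≠ 0 := by
    intro z hz i hi
    obtain ⟨x, hx, -, rfl⟩ := exists_cf_eq hk1 hz
    rw [(hkey x hx).2 i]
    exact mul_ne_zero hi (pow_ne_zero _ (hkey x hx).1)
  have hρc : ContinuousOn ρ (G0 k) := by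
    rw [hρ]
    refine continuousOn_finsetProd _ fun i hi => ?_
    have hi' : a i ≠ 0 := by simpa using hi
    exact ((hfi i).div_const _).zpow₀ _ fun z hz => Or.inl (div_ne_zero (hne z hz i hi') hi')
  -- the logarithm
  obtain ⟨j, G, hGc, hGs, hG⟩ := log_lemma hk (ρ := fun x => ρ (cf x))
    (hρc.comp (differentiable_cf k).continuous.continuousOn fun x hx => (cf_mem hk1).2 hx)
    (fun x hx => (hkey x hx).1) (fun x _ σ => by simp only [cf_perm])
  -- descend `G` to `G0 k`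
  have hex : ∀ z : G0 k, ∃ x ∈ Inj k, ∑ a, x a = 0 ∧ cf x = (z : Fin (k - 1) → ℂ) :=
    fun z => exists_cf_eq hk1 z.2
  choose r hri hrs hrz using hex
  have huniq : ∀ x ∈ Inj k, ∀ y : Fin k → ℂ, ∑ a, x a = 0 → ∑ a, y a = 0 → cf x = cf y →
      G y = G x := by
    intro x hx y hx0 hy0 hxy
    obtain ⟨σ, c, hσ⟩ := (cf_eq_iff hk1).1 hxy
    have hc : c = 0 := by
      have h1 : ∑ i, y i = ∑ i, x (σ i) + (k : ℂ) * c := by
        simp only [hσ, Finset.sum_add_distrib, Finset.sum_const, Finset.card_univ,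
          Fintype.card_fin, nsmul_eq_mul]
      rw [Equiv.sum_comp σ x, hx0, hy0] at h1
      have hk0 : (k : ℂ) ≠ 0 := by exact_mod_cast (by omega : k ≠ 0)
      have h2 : (k : ℂ) * c = 0 := by rw [zero_add] at h1; exact h1.symm
      exact (mul_eq_zero.1 h2).resolve_left hk0
    have h3 : y = x ∘ σ := by
      funext i
      rw [hσ i, hc, add_zero, Function.comp]
    rw [h3]
    exact hGs x hx σ
  have hgc : Continuous (fun z : G0 k => G (r z)) := by
    rw [continuous_iff_continuousAt]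
    intro z₀
    obtain ⟨R, hR, hRe⟩ := exists_local_roots hk1 z₀.2
    have hR0 := hRe.self_of_nhds
    have hsub : Tendsto (fun z : G0 k => (z : Fin (k - 1) → ℂ)) (𝓝 z₀) (𝓝 (z₀ : Fin (k - 1) → ℂ)) :=
      continuous_subtype_val.continuousAt
    have h1 : ContinuousAt (fun z : G0 k => G (R (z : Fin (k - 1) → ℂ))) z₀ := by
      have h2 : ContinuousAt G (R (z₀ : Fin (k - 1) → ℂ)) :=
        hGc.continuousAt ((isOpen_Inj k).mem_nhds hR0.1)
      have h3 : ContinuousAt (fun z : G0 k => R (z : Fin (k - 1) → ℂ)) z₀ :=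
        ContinuousAt.comp (g := R) hR hsub
      exact ContinuousAt.comp (g := G) h2 h3
    refine h1.congr ?_
    filter_upwards [hsub.eventually hRe] with z hz
    exact huniq _ (hri z) _ (hrs z) hz.2.1 (by rw [hrz z, hz.2.2.1])
  have hρG : ∀ z : G0 k, ρ z = disc k z ^ j * exp (G (r z)) := by
    intro z
    have h1 := hG (r z) (hri z)
    rw [← disc_cf hk1, hrz z] at h1
    exact h1
  -- the map `H`
  have hHmem : ∀ c : ℂ, c ≠ 0 → (fun i : Fin (n - 1) => a i * c ^ ((n - (i : ℕ)) / m)) ∈ G0 n := by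
    intro c hc
    obtain ⟨χ, hχ⟩ := IsAlgClosed.exists_pow_nat_eq c hmpos
    have hχ0 : χ ≠ 0 := by
      rintro rfl
      rw [zero_pow hmpos.ne'] at hχ
      exact hc hχ.symm
    have h1 := splitOf_scale_mem hn1 ha hχ0
    convert h1 using 2 with i
    rw [← hχ]
    by_cases hai : a i = 0
    · rw [hai]; simp
    · rw [← pow_mul, Nat.mul_div_cancel' (hmdvd i hai), mul_comm]
  have hHc : Continuous (fun c : {c : ℂ // c ≠ 0} =>
      (⟨fun i : Fin (n - 1) => a i * (c : ℂ) ^ ((n - (i : ℕ)) / m), hHmem c c.2⟩ : G0 n)) := by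
    refine Continuous.subtype_mk ?_ _
    refine continuous_pi fun i => ?_
    exact continuous_const.mul (continuous_subtype_val.pow _)
  let H : C({c : ℂ // c ≠ 0}, G0 n) := ⟨_, hHc⟩
  have hpw : Continuous (fun c : {c : ℂ // c ≠ 0} =>
      (⟨(c : ℂ) ^ j, zpow_ne_zero _ c.2⟩ : {c : ℂ // c ≠ 0})) := by
    refine Continuous.subtype_mk ?_ _
    exact continuous_subtype_val.zpow₀ _ fun c => Or.inl c.2
  let pw : C({c : ℂ // c ≠ 0}, {c : ℂ // c ≠ 0}) := ⟨_, hpw⟩
  refine ⟨H.comp pw, ⟨?_⟩⟩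
  have hK : Continuous (fun q : unitInterval × G0 k =>
      (⟨disc k (q.2 : Fin (k - 1) → ℂ) ^ j * exp ((1 - ((q.1 : ℝ) : ℂ)) * G (r q.2)),
        mul_ne_zero (zpow_ne_zero _ q.2.2) (exp_ne_zero _)⟩ : {c : ℂ // c ≠ 0})) := by
    refine Continuous.subtype_mk ?_ _
    have hd1 : Continuous (fun q : unitInterval × G0 k => disc k (q.2 : Fin (k - 1) → ℂ)) :=
      (continuous_disc k).comp (continuous_subtype_val.comp continuous_snd)
    have hd2 : Continuous (fun q : unitInterval × G0 k => G (r q.2)) := hgc.comp continuous_snd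
    have hd3 : Continuous (fun q : unitInterval × G0 k => (1 - ((q.1 : ℝ) : ℂ))) :=
      continuous_const.sub (Complex.continuous_ofReal.comp
        (continuous_subtype_val.comp continuous_fst))
    exact (hd1.zpow₀ _ fun q => Or.inl q.2.2).mul (Complex.continuous_exp.comp (hd3.mul hd2))
  refine ⟨H.comp ⟨_, hK⟩, fun z => ?_, fun z => ?_⟩
  · apply Subtype.ext
    rw [hF z]
    funext i
    obtain ⟨x, hx, -, hxz⟩ := exists_cf_eq hk1 z.2
    have h1 := (hkey x hx).2 i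
    rw [hxz] at h1
    rw [h1, hρG z]
    simp [H]
  · apply Subtype.ext
    funext i
    simp [H, pw, discMap]

end MP2d36f7
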