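import Mathlib
import Pool.Agent.Lib_MP_2d36f7_ag.Rigid
import Pool.Agent.Lib_MP_2d36f7_ag.Trans
import Pool.Agent.Lib_MP_2d36f7_ag.SplitOf

/-!
# Holomorphic maps of rank at most `k - 2` between the spaces `G_k^0` and `G_n^0` are splittable
-/

open Polynomial Complex Set Filter Topology
open scoped Manifold ContDiff

namespace MP2d36f7

theorem splittable_of_rank {k n : ℕ} (hk : 5 ≤ k) (hn : 3 ≤ n)
    {f : (Fin (k - 1) → ℂ) → (Fin (n - 1) → ℂ)}
    (hf : DifferentiableOn ℂ f (G0 k)) (hm : ∀ z ∈ G0 k, f z ∈ G0 n)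
    (hrk : ∀ z ∈ G0 k, Module.finrank ℂ (LinearMap.range (fderiv ℂ f z).toLinearMap) + 2 ≤ k)
    (F : C(G0 k, G0 n)) (hF : ∀ z : G0 k, (F z : Fin (n - 1) → ℂ) = f z) :
    ∃ h : C({c : ℂ // c ≠ 0}, G0 n), ContinuousMap.Homotopic F (h.comp (discMap k)) := by
  obtain ⟨d, hd, hr⟩ := exists_dat (by omega : 1 ≤ k) (by omega : 1 ≤ n) hf hm
  refine split_of_shapeConst (by omega) (by omega) hf hm d hd (shapeConst hn hk d ?_) F hF
  intro x hx
  exact le_trans (Nat.add_le_add_right (hr x hx) 2) (hrk _ ((cf_mem (by omega)).2 hx))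

end MP2d36f7
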