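import Mathlib
import Pool.Agent.Lib_MP_2d36f7_ag.FinalDefs2

/-!
# The rank of a holomorphic map factoring through a manifold or a variety of small dimension
-/

open Polynomial Complex Set Filter Topology
open scoped Manifold ContDiff

namespace MP2d36f7

theorem finrank_range_comp_le {a b c : ℕ} (A : (Fin b → ℂ) →ₗ[ℂ] (Fin c → ℂ))
    (B : (Fin a → ℂ) →ₗ[ℂ] (Fin b → ℂ)) : Module.finrank ℂ (LinearMap.range (A ∘ₗ B)) ≤ b := by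
  calc Module.finrank ℂ (LinearMap.range (A ∘ₗ B)) ≤ Module.finrank ℂ (LinearMap.range A) :=
        Submodule.finrank_mono (LinearMap.range_comp_le_range _ _)
    _ ≤ Module.finrank ℂ (Fin b → ℂ) := LinearMap.finrank_range_le _
    _ = b := by simp

theorem rank_of_factor {k n l : ℕ} (hG : IsOpen (G0 k)) {X : Type*} [TopologicalSpace X]
    [ChartedSpace (Fin l → ℂ) X] [IsManifold 𝓘(ℂ, Fin l → ℂ) ω X]
    {f₁ : (Fin (k - 1) → ℂ) → X}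
    (hf₁ : MDifferentiableOn 𝓘(ℂ, Fin (k - 1) → ℂ) 𝓘(ℂ, Fin l → ℂ) f₁ (G0 k))
    {f₂ : X → (Fin (n - 1) → ℂ)}
    (hf₂ : MDifferentiable 𝓘(ℂ, Fin l → ℂ) 𝓘(ℂ, Fin (n - 1) → ℂ) f₂) :
    DifferentiableOn ℂ (f₂ ∘ f₁) (G0 k) ∧ ∀ z ∈ G0 k,
      Module.finrank ℂ (LinearMap.range (fderiv ℂ (f₂ ∘ f₁) z).toLinearMap) ≤ l := by
  have h1 : ∀ z ∈ G0 k, MDifferentiableAt 𝓘(ℂ, Fin (k - 1) → ℂ) 𝓘(ℂ, Fin l → ℂ) f₁ z := fun z hz =>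
    (hf₁ z hz).mdifferentiableAt (hG.mem_nhds hz)
  constructor
  · intro z hz
    have h2 : MDifferentiableAt 𝓘(ℂ, Fin (k - 1) → ℂ) 𝓘(ℂ, Fin (n - 1) → ℂ) (f₂ ∘ f₁) z :=
      (hf₂ (f₁ z)).comp z (h1 z hz)
    exact (mdifferentiableAt_iff_differentiableAt.1 h2).differentiableWithinAt
  · intro z hz
    have h2 := mfderiv_comp z (hf₂ (f₁ z)) (h1 z hz)
    rw [mfderiv_eq_fderiv] at h2
    have h3 : (fderiv ℂ (f₂ ∘ f₁) z).toLinearMap =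
        ((mfderiv 𝓘(ℂ, Fin l → ℂ) 𝓘(ℂ, Fin (n - 1) → ℂ) f₂ (f₁ z) :
          (Fin l → ℂ) →L[ℂ] (Fin (n - 1) → ℂ))).toLinearMap ∘ₗ
        ((mfderiv 𝓘(ℂ, Fin (k - 1) → ℂ) 𝓘(ℂ, Fin l → ℂ) f₁ z :
          (Fin (k - 1) → ℂ) →L[ℂ] (Fin l → ℂ))).toLinearMap := by
      ext v
      exact congrArg (fun w => w) (by rw [show fderiv ℂ (f₂ ∘ f₁) z = _ from h2]; rfl)
    rw [h3]
    exact finrank_range_comp_le _ _

end MP2d36f7
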