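import Mathlib
import Pool.Agent.Lib_MP_2d36f7_ag.Defs
import Pool.Agent.Lib_MP_2d36f7_ag.Om
import Pool.Agent.Lib_MP_2d36f7_ag.Coef
import Pool.Agent.Lib_MP_2d36f7_ag.Lift
import Pool.Agent.Lib_MP_2d36f7_ag.Wind
import Pool.Agent.Lib_MP_2d36f7_ag.Scal
import Pool.Agent.Lib_MP_2d36f7_ag.Disc
import Pool.Agent.Lib_MP_2d36f7_ag.Cusp
import Pool.Agent.Lib_MP_2d36f7_ag.MV
import Pool.Agent.Lib_MP_2d36f7_ag.PathConn

/-!
# The symmetry by the square of the scalar `om`, when the rotation of `k - 1` points is trivial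
-/

open Polynomial Complex Set Filter Topology

namespace MP2d36f7

variable {k n : ℕ}

namespace S9a

/-- triples of distinct indices -/
abbrev Tri (n : ℕ) : Type :=
  {t : Fin n × Fin n × Fin n // t.1 ≠ t.2.1 ∧ t.2.1 ≠ t.2.2 ∧ t.1 ≠ t.2.2}

/-- a permutation acts on triples -/
def triPerm (τ : Equiv.Perm (Fin n)) : Equiv.Perm (Tri n) :=
  (Equiv.prodCongr τ (Equiv.prodCongr τ τ)).subtypeEquiv (by
    rintro ⟨p, q, r⟩
    simp)

/-- all ratios -/
noncomputable def Rt (l : Fin n → ℂ) (t : Tri n) : ℂ := R l t.1.1 t.1.2.1 t.1.2.2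

theorem Rt_comp (l : Fin n → ℂ) (τ : Equiv.Perm (Fin n)) : Rt (l ∘ τ) = Rt l ∘ triPerm τ := rfl

theorem Rt_smul {χ : ℂ} (hχ : χ ≠ 0) (l : Fin n → ℂ) : Rt (χ • l) = Rt l := by
  funext t
  simp only [Rt, R, Pi.smul_apply, smul_eq_mul]
  rw [← mul_sub, ← mul_sub, mul_div_mul_left _ _ hχ]

theorem scale_of_Rt (hn : 3 ≤ n) {l l₀ : Fin n → ℂ} (hl : l ∈ Inj n) (hl₀ : l₀ ∈ Inj n)
    (hs : ∑ i, l i = 0) (hs₀ : ∑ i, l₀ i = 0) (h : Rt l = Rt l₀) :
    ∃ χ : ℂ, χ ≠ 0 ∧ l = χ • l₀ := by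
  have h01 : (⟨0, by omega⟩ : Fin n) ≠ ⟨1, by omega⟩ := by
    intro h
    simp at h
  set a : Fin n := ⟨0, by omega⟩
  set b : Fin n := ⟨1, by omega⟩
  have hla : l a - l b ≠ 0 := sub_ne_zero.2 (fun hh => h01 (hl hh))
  have hla₀ : l₀ a - l₀ b ≠ 0 := sub_ne_zero.2 (fun hh => h01 (hl₀ hh))
  set χ : ℂ := (l a - l b) / (l₀ a - l₀ b) with hχ
  have hχ0 : χ ≠ 0 := div_ne_zero hla hla₀
  have hp : ∀ p, l p - l b = χ * (l₀ p - l₀ b) := by
    intro p
    by_cases hpb : p = b
    · rw [hpb]; simp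
    by_cases hpa : p = a
    · rw [hpa, hχ, div_mul_cancel₀ _ hla₀]
    have := congrFun h ⟨(p, b, a), hpb, fun hh => h01 hh.symm, hpa⟩
    simp only [Rt, R] at this
    rw [div_eq_div_iff hla hla₀] at this
    rw [hχ]
    field_simp
    linear_combination this
  have hsum : ∑ p, (l p - l b) = χ * ∑ p, (l₀ p - l₀ b) := by
    rw [Finset.mul_sum]
    exact Finset.sum_congr rfl (fun p _ => hp p)
  rw [Finset.sum_sub_distrib, Finset.sum_sub_distrib, hs, hs₀] at hsum
  simp only [Finset.sum_const, Finset.card_univ, Fintype.card_fin, nsmul_eq_mul, zero_sub] at hsum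
  have hn0 : (n : ℂ) ≠ 0 := by
    have : n ≠ 0 := by omega
    exact_mod_cast this
  have hb : l b = χ * l₀ b := by
    have h2 : (n : ℂ) * l b = (n : ℂ) * (χ * l₀ b) := by linear_combination -hsum
    exact mul_left_cancel₀ hn0 h2
  refine ⟨χ, hχ0, ?_⟩
  funext p
  simp only [Pi.smul_apply, smul_eq_mul]
  linear_combination hp p + hb

theorem denom_ne {l : Fin n → ℂ} (hl : l ∈ Inj n) (t : Tri n) : l t.1.2.2 - l t.1.2.1 ≠ 0 :=
  sub_ne_zero.2 (fun hh => t.2.2.1 (hl hh).symm)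

theorem continuousOn_Rt (d : Dat k n) {D : Type*} [TopologicalSpace D] {S : Set D}
    {x : D → Fin k → ℂ} (hxi : ∀ y ∈ S, x y ∈ Inj k) {l : D → Fin n → ℂ}
    (hl : IsLiftOn d S x l) (t : Tri n) : ContinuousOn (fun y => Rt (l y) t) S := by
  have h1 : ∀ p, ContinuousOn (fun y => l y p) S := fun p =>
    (continuous_apply p).comp_continuousOn hl.cont
  refine ContinuousOn.div ((h1 _).sub (h1 _)) ((h1 _).sub (h1 _)) (fun y hy => ?_)
  exact denom_ne (lift_inj d (hxi y hy) (hl.eq y hy)) t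

/-- the configurations `1 / (u_a - w)` -/
noncomputable def yc (u : Fin k → ℂ) (w : ℂ) : Fin k → ℂ := fun a => 1 / (u a - w)

theorem yc_mem {u : Fin k → ℂ} (hu : u ∈ Inj k) {w : ℂ} (_ : ∀ a, w ≠ u a) :
    yc u w ∈ Inj k := by
  intro a b hab
  simp only [yc, one_div] at hab
  have := inv_injective hab
  exact hu (sub_left_injective this)

theorem bdd_cusp (hn : 3 ≤ n) (hk : 3 ≤ k) (d : Dat k n) (hT : Triv d (rot k (k - 1)))
    {u : Fin k → ℂ} (hu : u ∈ Inj k) (b : Fin k) {L : ℂ → Fin n → ℂ}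
    (hL : ∀ s, (∀ a, s ≠ u a) → coef (L s) = d.F (yc u s)) :
    ∃ K : ℝ, ∀ᶠ s in 𝓝[≠] (u b), ∀ t : Tri n, ‖Rt (L s) t‖ ≤ K := by
  classical
  -- the radius
  obtain ⟨δ, hδ, hδu⟩ : ∃ δ : ℝ, 0 < δ ∧ ∀ τ : ℂ, ‖τ‖ < δ → ∀ a, a ≠ b → u a - u b - τ ≠ 0 := by
    have hopen : ∀ᶠ τ in 𝓝 (0 : ℂ), ∀ a, a ≠ b → u a - u b - τ ≠ 0 := by
      rw [eventually_all]
      intro a
      by_cases hab : a = b
      · exact Eventually.of_forall (fun τ h => absurd hab h)
      · have h1 : Tendsto (fun τ : ℂ => u a - u b - τ) (𝓝 0) (𝓝 (u a - u b - 0)) :=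
          (continuous_const.sub continuous_id).tendsto 0
        have h2 : u a - u b - 0 ≠ 0 := by
          rw [sub_zero]
          exact sub_ne_zero.2 (fun hh => hab (hu hh))
        filter_upwards [h1.eventually_ne h2] with τ hτ _
        exact hτ
    obtain ⟨δ, hδ, h⟩ := Metric.eventually_nhds_iff_ball.1 hopen
    exact ⟨δ, hδ, fun τ hτ => h τ (by simpa using hτ)⟩
  set S : Finset (Fin k) := Finset.univ.erase b with hS
  have hScard : S.card = k - 1 := by
    rw [hS, Finset.card_erase_of_mem (Finset.mem_univ _), Finset.card_univ, Fintype.card_fin]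
  have hmS : ∀ a, a ∈ S ↔ a ≠ b := by
    intro a
    rw [hS, Finset.mem_erase]
    simp
  set v : ℂ → Fin k → ℂ := fun τ a => if a = b then -1 else 1 / (u a - u b - τ) with hv
  have hvc : ∀ a, DifferentiableOn ℂ (fun τ => v τ a) (Metric.ball 0 δ) := by
    intro a
    by_cases hab : a = b
    · simp only [hv, hab, if_true]
      exact differentiableOn_const _
    · simp only [hv, hab, if_false]
      refine DifferentiableOn.div (differentiableOn_const _) (by fun_prop) (fun τ hτ => ?_)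
      exact hδu τ (by simpa using hτ) a hab
  have hvd : DifferentiableOn ℂ v (Metric.ball 0 δ) := differentiableOn_pi.2 hvc
  obtain ⟨ε₀, hε₀, hε₀δ, hinj, htriv⟩ := triv_cusp_iff d (i := k - 1) (by omega) (by omega) hScard
    (c := fun _ => 0) (u := v) hδ continuousOn_const hvd.continuousOn
    (by
      intro a ha a' ha' h
      rw [hmS] at ha ha'
      simp only [hv, ha, ha', if_false, one_div, sub_zero] at h
      exact hu (sub_left_injective (inv_injective h)))
    (by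
      intro a ha a' ha' _
      rw [hmS, not_not] at ha ha'
      rw [ha, ha'])
    (by
      intro a ha
      rw [hmS, not_not] at ha
      simp [hv, ha])
  -- the family
  set X : ℂ → Fin k → ℂ := fun z a =>
    if a ∈ S then 0 + exp z * v (exp z) a else v (exp z) a with hX
  have hre : ∀ z : ℂ, z.re < Real.log ε₀ → ‖exp z‖ < ε₀ := by
    intro z hz
    rw [Complex.norm_exp]
    exact (Real.lt_log_iff_exp_lt hε₀).1 hz
  have hXi : ∀ z : ℂ, z.re < Real.log ε₀ → X z ∈ Inj k := fun z hz =>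
    hinj (exp z) (Complex.exp_ne_zero _) (hre z hz)
  have hXd : DifferentiableOn ℂ X {z | z.re < Real.log ε₀} := by
    rw [differentiableOn_pi]
    intro a
    have h1 : DifferentiableOn ℂ (fun z => v (exp z) a) {z | z.re < Real.log ε₀} := by
      refine (hvc a).comp (Complex.differentiable_exp.differentiableOn) (fun z hz => ?_)
      rw [mem_ball_zero_iff]
      exact lt_of_lt_of_le (hre z hz) hε₀δ
    by_cases ha : a ∈ S
    · simp only [hX, ha, if_true]
      exact (differentiableOn_const _).add (Complex.differentiable_exp.differentiableOn.mul h1)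
    · simp only [hX, ha, if_false]
      exact h1
  have hXper : ∀ z : ℂ, z.re < Real.log ε₀ → d.F (X (z + 2 * Real.pi * I)) = d.F (X z) := by
    intro z _
    have : X (z + 2 * Real.pi * I) = X z := by
      simp only [hX, Complex.exp_periodic z]
    rw [this]
  have hopenS : IsOpen {z : ℂ | z.re < Real.log ε₀} :=
    isOpen_lt Complex.continuous_re continuous_const
  have hz₁ : ((Real.log ε₀ - 1 : ℝ) : ℂ) ∈ {z : ℂ | z.re < Real.log ε₀} := by
    simp
  have hconv : StarConvex ℝ ((Real.log ε₀ - 1 : ℝ) : ℂ) {z : ℂ | z.re < Real.log ε₀} := by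
    have : Convex ℝ {z : ℂ | z.re < Real.log ε₀} := convex_halfSpace_re_lt _
    exact this.starConvex hz₁
  obtain ⟨l₀, -, hl₀⟩ := d.reg _ (hXi _ hz₁)
  obtain ⟨l, hl, -⟩ := exists_liftOn d hopenS hconv hz₁ hXd.continuousOn hXi hz₁ hl₀
  have hTX : Triv d (fun t : ℝ => X (((Real.log ε₀ - 1 : ℝ) : ℂ) + 2 * Real.pi * I * t)) := by
    have h1 := (htriv (Real.exp (Real.log ε₀ - 1)) (Real.exp_pos _) (by
      rw [← Real.lt_log_iff_exp_lt hε₀]; linarith)).2 hT
    have h2 : (fun t : ℝ => X (((Real.log ε₀ - 1 : ℝ) : ℂ) + 2 * Real.pi * I * t)) =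
        (fun (t : ℝ) (a : Fin k) => if a ∈ S then (fun _ : ℂ => (0 : ℂ))
          ((Real.exp (Real.log ε₀ - 1) : ℝ) * exp (2 * Real.pi * I * t)) +
          ((Real.exp (Real.log ε₀ - 1) : ℝ) * exp (2 * Real.pi * I * t)) *
            v ((Real.exp (Real.log ε₀ - 1) : ℝ) * exp (2 * Real.pi * I * t)) a
          else v ((Real.exp (Real.log ε₀ - 1) : ℝ) * exp (2 * Real.pi * I * t)) a) := by
      funext t a
      simp only [hX, Complex.exp_add, Complex.ofReal_exp]
    rw [h2]
    exact h1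
  have hlim : ∀ t : Tri n, ∃ c : ℂ,
      Tendsto (fun z => Rt (l z) t) (comap Complex.re atBot) (𝓝 c) := by
    intro t
    obtain ⟨c, -, -, hc⟩ := cusp_limit d hXd hXi hXper hl (a := Real.log ε₀ - 1) (by linarith)
      hTX t.2.1 t.2.2.1 t.2.2.2
    exact ⟨c, hc⟩
  choose c hc using hlim
  have hbd : ∀ᶠ z in comap Complex.re atBot, ∀ t : Tri n, ‖Rt (l z) t‖ ≤ ∑ t, (‖c t‖ + 1) := by
    rw [eventually_all]
    intro t
    have h1 : ∀ᶠ z in comap Complex.re atBot, ‖Rt (l z) t‖ < ‖c t‖ + 1 :=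
      (hc t).norm.eventually (gt_mem_nhds (by linarith))
    filter_upwards [h1] with z hz
    refine hz.le.trans ?_
    exact Finset.single_le_sum (f := fun t => ‖c t‖ + 1) (fun t _ => by positivity)
      (Finset.mem_univ t)
  refine ⟨∑ t, (‖c t‖ + 1), ?_⟩
  have hlog : Tendsto (fun s : ℂ => Complex.log (s - u b)) (𝓝[≠] (u b))
      (comap Complex.re atBot) := by
    rw [tendsto_comap_iff]
    have h1 : (Complex.re ∘ fun s : ℂ => Complex.log (s - u b)) =
        fun s => Real.log ‖s - u b‖ := by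
      funext s
      simp [Complex.log_re]
    rw [h1]
    have h2 : Tendsto (fun s : ℂ => ‖s - u b‖) (𝓝[≠] (u b)) (𝓝[>] 0) := tendsto_norm_sub_self_nhdsNE _
    exact Real.tendsto_log_nhdsGT_zero.comp h2
  have hlt : ∀ᶠ z in comap Complex.re atBot, z.re < Real.log ε₀ :=
    (eventually_lt_atBot _).comap _
  filter_upwards [hlog.eventually hbd, hlog.eventually hlt, self_mem_nhdsWithin] with s hs1 hs2 hs3 t
  have hsb : s - u b ≠ 0 := sub_ne_zero.2 hs3
  have hexp : exp (Complex.log (s - u b)) = s - u b := Complex.exp_log hsb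
  have hnorm : ‖s - u b‖ < δ := by
    have := hre _ hs2
    rw [hexp] at this
    linarith
  have hsu : ∀ a, s ≠ u a := by
    intro a hsa
    by_cases hab : a = b
    · rw [hab] at hsa
      exact hs3 hsa
    · refine hδu (s - u b) hnorm a hab ?_
      rw [hsa]
      ring
  obtain ⟨χ, hχ, hχl⟩ := scal_point hn d (yc_mem hu hsu) hsb
  have h1 := hχl _ (hL s hsu)
  have h2 : (s - u b) • yc u s = X (Complex.log (s - u b)) := by
    funext a
    simp only [hX, hexp, Pi.smul_apply, smul_eq_mul, hmS]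
    by_cases hab : a = b
    · simp only [hab, ne_eq, not_true_eq_false, if_false, yc, hv, if_true]
      have : u b - s = -(s - u b) := by ring
      rw [this]
      field_simp
    · simp only [hab, ne_eq, not_false_eq_true, if_true, if_false, yc, hv, zero_add]
      congr 2
      ring
  rw [h2] at h1
  have h3 := hl.eq _ hs2
  obtain ⟨τ, hτ⟩ := exists_perm_of_coef_eq (h3.trans h1.symm)
  rw [← Rt_smul hχ, hτ, Rt_comp]
  exact hs1 _

theorem bdd_inf (hn : 3 ≤ n) (d : Dat k n)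
    {u : Fin k → ℂ} (hu : u ∈ Inj k) {L : ℂ → Fin n → ℂ}
    (hL : ∀ s, (∀ a, s ≠ u a) → coef (L s) = d.F (yc u s)) :
    ∃ K : ℝ, ∀ᶠ s in cocompact ℂ, ∀ t : Tri n, ‖Rt (L s) t‖ ≤ K := by
  classical
  have hu' : -u ∈ Inj k := by
    intro a b hab
    simp only [Pi.neg_apply, neg_inj] at hab
    exact hu hab
  obtain ⟨ρ, hρ, hball⟩ := Metric.isOpen_iff.1 (isOpen_Inj k) _ hu'
  obtain ⟨l₀, -, hl₀⟩ := d.reg _ hu'
  have hmem : -u ∈ Metric.ball (-u) ρ := Metric.mem_ball_self hρ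
  obtain ⟨l, hl, -⟩ := exists_liftOn d Metric.isOpen_ball
    ((convex_ball (-u) ρ).starConvex hmem) hmem (x := fun y => y) continuousOn_id
    (fun y hy => hball hy) hmem hl₀
  have hbd : ∀ᶠ y in 𝓝 (-u), ∀ t : Tri n, ‖Rt (l y) t‖ ≤ ∑ t, (‖Rt (l (-u)) t‖ + 1) := by
    rw [eventually_all]
    intro t
    have hc : ContinuousAt (fun y => Rt (l y) t) (-u) :=
      (continuousOn_Rt d (fun y hy => hball hy) hl t).continuousAt (Metric.ball_mem_nhds _ hρ)
    have h1 : ∀ᶠ y in 𝓝 (-u), ‖Rt (l y) t‖ < ‖Rt (l (-u)) t‖ + 1 :=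
      hc.norm.eventually (gt_mem_nhds (by linarith))
    filter_upwards [h1] with z hz
    refine hz.le.trans ?_
    exact Finset.single_le_sum (f := fun t => ‖Rt (l (-u)) t‖ + 1) (fun t _ => by positivity)
      (Finset.mem_univ t)
  refine ⟨∑ t, (‖Rt (l (-u)) t‖ + 1), ?_⟩
  have hlim : Tendsto (fun w : ℂ => fun a => w ^ 2 * (1 / (u a - w)) + w) (cocompact ℂ)
      (𝓝 (-u)) := by
    rw [tendsto_pi_nhds]
    intro a
    have hinv : Tendsto (fun w : ℂ => w⁻¹) (cocompact ℂ) (𝓝 0) := by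
      rw [← Metric.cobounded_eq_cocompact]
      exact tendsto_inv₀_cobounded
    have h1 : Tendsto (fun w : ℂ => u a / (u a * w⁻¹ - 1)) (cocompact ℂ)
        (𝓝 (u a / (u a * 0 - 1))) := by
      refine Tendsto.div tendsto_const_nhds ((hinv.const_mul _).sub tendsto_const_nhds) ?_
      simp
    have h2 : u a / (u a * 0 - 1) = (-u) a := by
      simp [div_neg]
    rw [h2] at h1
    refine h1.congr' ?_
    have hne : ∀ᶠ w in cocompact ℂ, w ∉ ({0, u a} : Set ℂ) := by
      have : IsCompact ({0, u a} : Set ℂ) := (Set.toFinite _).isCompact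
      exact this.compl_mem_cocompact
    filter_upwards [hne] with w hw
    simp only [mem_insert_iff, mem_singleton_iff, not_or] at hw
    have h3 : u a - w ≠ 0 := sub_ne_zero.2 (fun h => hw.2 h.symm)
    have h4 : u a * w⁻¹ - 1 ≠ 0 := by
      intro h
      apply h3
      have : u a * w⁻¹ = 1 := by linear_combination h
      have h5 : u a = w := by
        field_simp [hw.1] at this
        exact this
      rw [h5, sub_self]
    have hw0 := hw.1
    have h5 : u a * w⁻¹ - 1 = (u a - w) / w := by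
      field_simp
    rw [h5]
    field_simp
    ring
  have hne : ∀ᶠ w in cocompact ℂ, w ∉ (insert 0 (range u) : Set ℂ) := by
    have : IsCompact (insert 0 (range u) : Set ℂ) := ((Set.finite_range u).insert 0).isCompact
    exact this.compl_mem_cocompact
  filter_upwards [hlim.eventually hbd, hlim.eventually (Metric.ball_mem_nhds _ hρ), hne]
    with w hw1 hw2 hw3 t
  simp only [mem_insert_iff, mem_range, not_or, not_exists] at hw3
  have hwu : ∀ a, w ≠ u a := fun a h => hw3.2 a h.symm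
  have hw0 : w ^ 2 ≠ 0 := pow_ne_zero 2 hw3.1
  obtain ⟨χ, hχ, hχl⟩ := scal_point hn d (yc_mem hu hwu) hw0
  have h1 := hχl _ (hL w hwu)
  have hinj : w ^ 2 • yc u w ∈ Inj k := by
    intro a b hab
    simp only [Pi.smul_apply, smul_eq_mul] at hab
    exact yc_mem hu hwu (mul_left_cancel₀ hw0 hab)
  have h2 := d.trans _ hinj w
  rw [← h2] at h1
  have h3 : (fun i => (w ^ 2 • yc u w) i + w) = fun a => w ^ 2 * (1 / (u a - w)) + w := rfl
  rw [h3] at h1
  have h4 := hl.eq _ hw2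
  obtain ⟨τ, hτ⟩ := exists_perm_of_coef_eq (h4.trans h1.symm)
  rw [← Rt_smul hχ, hτ, Rt_comp]
  exact hw1 _

theorem yc_diff {u : Fin k → ℂ} {S : Set ℂ} (hS : ∀ s ∈ S, ∀ a, s ≠ u a) :
    DifferentiableOn ℂ (yc u) S := by
  rw [differentiableOn_pi]
  intro a
  refine DifferentiableOn.div (differentiableOn_const _) (by fun_prop) (fun s hs => ?_)
  exact sub_ne_zero.2 (fun h => hS s hs a h.symm)

/-- a continuous function on the line with values in a finite set is constant -/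
theorem const_of_finite_range {f : ℝ → ℂ} (hf : Continuous f) {V : Set ℂ} (hV : V.Finite)
    (h : ∀ t, f t ∈ V) (s t : ℝ) : f s = f t := by
  have h1 : IsPreconnected (range f) := isPreconnected_range hf
  have h2 : (range f).Subsingleton := by
    have h3 : (range f).Finite := hV.subset (by rintro _ ⟨t, rfl⟩; exact h t)
    exact h3.countable.isTotallyDisconnected _ subset_rfl h1
  exact h2 (mem_range_self s) (mem_range_self t)

/-- the key rigidity: along paths in the `w` plane the roots are only scaled -/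
theorem scale_path (hn : 3 ≤ n) (hk : 3 ≤ k) (d : Dat k n) (hT : Triv d (rot k (k - 1)))
    {u : Fin k → ℂ} (hu : u ∈ Inj k) {w : ℝ → ℂ} (hwu : ∀ t a, w t ≠ u a)
    {l : ℝ → Fin n → ℂ} (hl : IsLift d (fun t => yc u (w t)) l) (s t : ℝ) :
    ∃ χ : ℂ, χ ≠ 0 ∧ l t = χ • l s := by
  classical
  have hex : ∀ s : ℂ, ∃ L : Fin n → ℂ, (∀ a, s ≠ u a) → coef L = d.F (yc u s) := by
    intro s
    by_cases hs : ∀ a, s ≠ u a
    · obtain ⟨L, -, hL⟩ := d.reg _ (yc_mem hu hs)
      exact ⟨L, fun _ => hL⟩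
    · exact ⟨0, fun h => absurd h hs⟩
  choose L hL using hex
  set E : Finset ℂ := Finset.univ.image u with hE
  have hmE : ∀ s, s ∉ E ↔ ∀ a, s ≠ u a := by
    intro s
    rw [hE]
    simp only [Finset.mem_image, Finset.mem_univ, true_and, not_exists]
    exact ⟨fun h a ha => h a ha.symm, fun h a ha => h a ha.symm⟩
  have key := mv E (fun s => Rt (L s))
    (by
      intro s₀ hs₀
      have hopen : IsOpen ((E : Set ℂ)ᶜ) := E.finite_toSet.isClosed.isOpen_compl
      obtain ⟨ρ, hρ, hball⟩ := Metric.isOpen_iff.1 hopen s₀ (by simpa using hs₀)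
      have hball' : ∀ s ∈ Metric.ball s₀ ρ, ∀ a, s ≠ u a := fun s hs =>
        (hmE s).1 (by simpa using hball hs)
      have hmem : s₀ ∈ Metric.ball s₀ ρ := Metric.mem_ball_self hρ
      have hinj : ∀ s ∈ Metric.ball s₀ ρ, yc u s ∈ Inj k := fun s hs => yc_mem hu (hball' s hs)
      obtain ⟨l', hl', -⟩ := exists_liftOn d Metric.isOpen_ball
        ((convex_ball s₀ ρ).starConvex hmem) hmem (yc_diff hball').continuousOn
        hinj hmem (hL s₀ ((hmE s₀).1 hs₀))
      have hd := liftOn_holo d Metric.isOpen_ball (yc_diff hball') hinj hl'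
      refine ⟨fun s => Rt (l' s), ?_, ?_⟩
      · intro t
        have h1 : ∀ p, DifferentiableOn ℂ (fun s => l' s p) (Metric.ball s₀ ρ) := fun p =>
          (differentiableOn_pi.1 hd) p
        have h2 : DifferentiableOn ℂ (fun s => Rt (l' s) t) (Metric.ball s₀ ρ) := by
          refine DifferentiableOn.div ((h1 _).sub (h1 _)) ((h1 _).sub (h1 _)) (fun s hs => ?_)
          exact denom_ne (lift_inj d (hinj s hs) (hl'.eq s hs)) t
        exact h2.analyticAt (Metric.ball_mem_nhds _ hρ)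
      · filter_upwards [Metric.ball_mem_nhds s₀ hρ] with s hs
        obtain ⟨τ, hτ⟩ := exists_perm_of_coef_eq ((hl'.eq s hs).trans (hL s (hball' s hs)).symm)
        exact ⟨triPerm τ, by rw [hτ, Rt_comp]⟩)
    (by
      intro e he
      rw [hE, Finset.mem_image] at he
      obtain ⟨b, -, rfl⟩ := he
      exact bdd_cusp hn hk d hT hu b hL)
    (bdd_inf hn d hu hL)
  -- the ratios of the lift are constant
  have hwE : ∀ t, w t ∉ E := fun t => (hmE _).2 (hwu t)
  have hinj : ∀ t, yc u (w t) ∈ Inj k := fun t => yc_mem hu (hwu t)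
  have hlinj : ∀ t, l t ∈ Inj n := fun t => lift_inj d (hinj t) (hl.eq t)
  have hcont : ∀ τ : Tri n, Continuous (fun t => Rt (l t) τ) := by
    intro τ
    have h1 : ∀ p, Continuous (fun y => l y p) := fun p => (continuous_apply p).comp hl.cont
    exact Continuous.div ((h1 _).sub (h1 _)) ((h1 _).sub (h1 _)) (fun t => denom_ne (hlinj t) τ)
  have hval : ∀ t, ∀ τ : Tri n, Rt (l t) τ ∈ range (Rt (L (w 0))) := by
    intro t τ
    obtain ⟨e, he⟩ := key (w 0) (hwE 0) (w t) (hwE t)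
    obtain ⟨σ, hσ⟩ := exists_perm_of_coef_eq ((hL (w t) (hwu t)).trans (hl.eq t).symm)
    rw [hσ, Rt_comp]
    have he' : Rt (L (w t)) = Rt (L (w 0)) ∘ e := he
    rw [he']
    exact mem_range_self _
  have hR : Rt (l t) = Rt (l s) := by
    funext τ
    exact const_of_finite_range (hcont τ) (Set.finite_range _) (fun t => hval t τ) t s
  exact scale_of_Rt hn (hlinj t) (hlinj s) (d.sum0 _ (hinj t) _ (hl.eq t))
    (d.sum0 _ (hinj s) _ (hl.eq s)) hR

/-- the winding of the discriminant along a small circle around a pole -/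
theorem wnd_dsc_loop {u : Fin (k + 1) → ℂ} (hu : u ∈ Inj (k + 1)) {w : ℝ → ℂ} (hw : Continuous w)
    (hwu : ∀ t a, w t ≠ u a) (h0 : wnd (fun t => u 0 - w t) 0 1 = 1)
    (hne : ∀ a, a ≠ 0 → wnd (fun t => u a - w t) 0 1 = 0) :
    wnd (fun t => dsc (yc u (w t))) 0 1 = -2 * (k : ℂ) := by
  have hsubc : ∀ a, Continuous (fun t => u a - w t) := fun a => continuous_const.sub hw
  have hsub0 : ∀ a t, u a - w t ≠ 0 := fun a t => sub_ne_zero.2 (fun h => hwu t a h.symm)
  have hyc : ∀ a, Continuous (fun t => yc u (w t) a) := fun a =>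
    continuous_const.div (hsubc a) (hsub0 a)
  have hinj : ∀ t, yc u (w t) ∈ Inj (k + 1) := fun t => yc_mem hu (hwu t)
  have hterm : ∀ p q : Fin (k + 1), p < q →
      wnd (fun t => (yc u (w t) p - yc u (w t) q) ^ 2) 0 1 =
        -2 * (wnd (fun t => u p - w t) 0 1 + wnd (fun t => u q - w t) 0 1) := by
    intro p q hpq
    have h1 : ∀ t, yc u (w t) p - yc u (w t) q = (u q - u p) / ((u p - w t) * (u q - w t)) := by
      intro t
      have hp := hsub0 p t
      have hq := hsub0 q t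
      simp only [yc]
      rw [div_sub_div _ _ hp hq]
      congr 1
      ring
    have hqp : u q - u p ≠ 0 := sub_ne_zero.2 (fun h => hpq.ne' (hu h))
    simp only [h1]
    rw [wnd_pow (u := fun t => (u q - u p) / ((u p - w t) * (u q - w t)))
      (continuous_const.div ((hsubc p).mul (hsubc q))
        (fun t => mul_ne_zero (hsub0 p t) (hsub0 q t)))
      (fun t => div_ne_zero hqp (mul_ne_zero (hsub0 p t) (hsub0 q t))),
      wnd_div (u := fun _ => u q - u p) (v := fun t => (u p - w t) * (u q - w t))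
      continuous_const ((hsubc p).mul (hsubc q)) (fun _ => hqp)
        (fun t => mul_ne_zero (hsub0 p t) (hsub0 q t)), wnd_const,
      wnd_mul (hsubc p) (hsubc q) (hsub0 p) (hsub0 q)]
    push_cast
    ring
  have hw2 : ∀ p q : Fin (k + 1),
      wnd (fun t => if p < q then (yc u (w t) p - yc u (w t) q) ^ 2 else 1) 0 1 =
        if p < q then -2 * (wnd (fun t => u p - w t) 0 1 + wnd (fun t => u q - w t) 0 1)
          else 0 := by
    intro p q
    by_cases hpq : p < q
    · simp only [hpq, if_true]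
      exact hterm p q hpq
    · simp only [hpq, if_false]
      exact wnd_const 1 0 1
  have hc2 : ∀ p q : Fin (k + 1), Continuous
      (fun t => if p < q then (yc u (w t) p - yc u (w t) q) ^ 2 else 1) := by
    intro p q
    by_cases hpq : p < q
    · simp only [hpq, if_true]
      exact ((hyc p).sub (hyc q)).pow 2
    · simp only [hpq, if_false]
      exact continuous_const
  have hn2 : ∀ p q : Fin (k + 1), ∀ t,
      (if p < q then (yc u (w t) p - yc u (w t) q) ^ 2 else 1) ≠ 0 := by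
    intro p q t
    by_cases hpq : p < q
    · simp only [hpq, if_true]
      exact pow_ne_zero 2 (sub_ne_zero.2 (fun h => hpq.ne (hinj t h)))
    · simp only [hpq, if_false]
      exact one_ne_zero
  unfold dsc
  rw [wnd_prod Finset.univ
    (u := fun p t => ∏ q, if p < q then (yc u (w t) p - yc u (w t) q) ^ 2 else 1)
    (fun p _ => continuous_finsetProd _ (fun q _ => hc2 p q))
    (fun p _ t => Finset.prod_ne_zero_iff.2 (fun q _ => hn2 p q t))]
  have h3 : ∀ p : Fin (k + 1), wnd (fun t => ∏ q, if p < q then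
      (yc u (w t) p - yc u (w t) q) ^ 2 else 1) 0 1 =
      ∑ q, if p < q then -2 * (wnd (fun t => u p - w t) 0 1 + wnd (fun t => u q - w t) 0 1)
          else 0 := by
    intro p
    rw [wnd_prod Finset.univ
      (u := fun q t => if p < q then (yc u (w t) p - yc u (w t) q) ^ 2 else 1)
      (fun q _ => hc2 p q) (fun q _ t => hn2 p q t)]
    exact Finset.sum_congr rfl (fun q _ => hw2 p q)
  rw [Finset.sum_congr rfl (fun p _ => h3 p), Fin.sum_univ_succ, Fin.sum_univ_succ]
  have h4 : ∀ q : Fin k, (if (0 : Fin (k + 1)) < q.succ then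
      -2 * (wnd (fun t => u 0 - w t) 0 1 + wnd (fun t => u q.succ - w t) 0 1) else 0) = -2 := by
    intro q
    rw [if_pos (Fin.succ_pos q), h0, hne _ (Fin.succ_ne_zero q)]
    ring
  have h5 : ∀ p : Fin k, ∑ q : Fin (k + 1), (if p.succ < q then
      -2 * (wnd (fun t => u p.succ - w t) 0 1 + wnd (fun t => u q - w t) 0 1) else 0) = 0 := by
    intro p
    refine Finset.sum_eq_zero (fun q _ => ?_)
    by_cases hpq : p.succ < q
    · have hq0 : q ≠ 0 := fun h => by rw [h] at hpq; exact absurd hpq (Fin.not_lt_zero _)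
      rw [if_pos hpq, hne _ (Fin.succ_ne_zero p), hne q hq0]
      ring
    · rw [if_neg hpq]
  rw [Finset.sum_congr rfl (fun q _ => h4 q), Finset.sum_congr rfl (fun p _ => h5 p)]
  simp
  ring

/-- the loop around one pole multiplies the roots by `om ^ (-2)` -/
theorem loop_scale (hn : 3 ≤ n) (hk : 3 ≤ k + 1) (d : Dat (k + 1) n)
    (hT : Triv d (rot (k + 1) (k + 1 - 1)))
    {j : ℤ} {G : (Fin (k + 1) → ℂ) → ℂ} (hGc : ContinuousOn G (Inj (k + 1)))
    (hG : ∀ x ∈ Inj (k + 1), ∀ l : Fin n → ℂ, coef l = d.F x → dsc l = dsc x ^ j * exp (G x))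
    {u : Fin (k + 1) → ℂ} (hu : u ∈ Inj (k + 1)) :
    ∃ (w : ℂ) (l : Fin n → ℂ) (σ : Equiv.Perm (Fin n)), (∀ a, w ≠ u a) ∧
      coef l = d.F (yc u w) ∧ om (k + 1) n j ^ 2 • l = l ∘ σ := by
  obtain ⟨ε, hεu, hε⟩ : ∃ ε : ℝ, (∀ i, i ≠ 0 → ε < ‖u i - u 0‖) ∧ 0 < ε := by
    have h1 : ∀ᶠ ε in 𝓝[>] (0 : ℝ), ∀ i, i ≠ 0 → ε < ‖u i - u 0‖ := by
      rw [eventually_all]
      intro i
      by_cases hi : i = 0
      · exact Eventually.of_forall (fun _ h => absurd hi h)
      · have h2 : 0 < ‖u i - u 0‖ := norm_pos_iff.2 (sub_ne_zero.2 (fun h => hi (hu h)))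
        filter_upwards [(eventually_lt_nhds h2).filter_mono nhdsWithin_le_nhds] with ε h _
        exact h
    have h3 : ∀ᶠ ε in 𝓝[>] (0 : ℝ), 0 < ε := self_mem_nhdsWithin
    exact (h1.and h3).exists
  set w : ℝ → ℂ := fun t => u 0 + ε * exp (2 * Real.pi * I * t) with hw
  have hwc : Continuous w := by fun_prop
  have hnorm : ∀ t : ℝ, ‖(ε : ℂ) * exp (2 * Real.pi * I * t)‖ = ε := by
    intro t
    have h1 : (2 * Real.pi * I * t : ℂ) = ((2 * Real.pi * t : ℝ) : ℂ) * I := by
      push_cast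
      ring
    rw [norm_mul, h1, Complex.norm_exp_ofReal_mul_I, mul_one, Complex.norm_real, Real.norm_eq_abs,
      abs_of_pos hε]
  have hwu : ∀ t a, w t ≠ u a := by
    intro t a h
    have h1 : u a - u 0 = (ε : ℂ) * exp (2 * Real.pi * I * t) := by
      rw [← h, hw]
      ring
    have h2 : ‖u a - u 0‖ = ε := by rw [h1, hnorm]
    by_cases ha : a = 0
    · rw [ha, sub_self, norm_zero] at h2
      exact hε.ne h2
    · exact absurd h2 (hεu a ha).ne'
  have hw01 : w 1 = w 0 := by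
    simp only [hw, Complex.ofReal_one, Complex.ofReal_zero, mul_one, mul_zero,
      Complex.exp_two_pi_mul_I, Complex.exp_zero]
  have hw0 : wnd (fun t => u 0 - w t) 0 1 = 1 := by
    have hε' : -(ε : ℂ) ≠ 0 := neg_ne_zero.2 (by exact_mod_cast hε.ne')
    rw [wnd_eq (L := fun t : ℝ => Complex.log (-(ε : ℂ)) + 2 * Real.pi * I * t) (by fun_prop)
      (fun t => by
        rw [Complex.exp_add, Complex.exp_log hε', hw]
        ring)]
    simp only [Complex.ofReal_one, Complex.ofReal_zero]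
    field_simp
    ring
  have hwne : ∀ a, a ≠ 0 → wnd (fun t => u a - w t) 0 1 = 0 := by
    intro a ha
    have hcc : Continuous (fun t => u a - w t) := continuous_const.sub hwc
    refine wnd_eq_zero_of_near hcc (c := u a - u 0) (fun t => ?_) ?_
    · have h1 : u a - w t - (u a - u 0) = -((ε : ℂ) * exp (2 * Real.pi * I * t)) := by
        rw [hw]
        ring
      rw [h1, norm_neg, hnorm]
      exact hεu a ha
    · simp only [hw01]
  have hdsc := wnd_dsc_loop hu hwc hwu hw0 hwne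
  have hinj : ∀ t, yc u (w t) ∈ Inj (k + 1) := fun t => yc_mem hu (hwu t)
  have hycc : Continuous (fun t => yc u (w t)) := by
    refine continuous_pi (fun a => ?_)
    exact continuous_const.div (continuous_const.sub hwc)
      (fun t => sub_ne_zero.2 (fun h => hwu t a h.symm))
  obtain ⟨l₀, -, hl₀⟩ := d.reg _ (hinj 0)
  obtain ⟨l, hl, hl0⟩ := exists_lift d hycc hinj 0 hl₀
  have hlinj : ∀ t, l t ∈ Inj n := fun t => lift_inj d (hinj t) (hl.eq t)
  have h01 : (⟨0, by omega⟩ : Fin n) ≠ ⟨1, by omega⟩ := by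
    intro h
    simp at h
  set p : Fin n := ⟨0, by omega⟩
  set q : Fin n := ⟨1, by omega⟩
  have hpq : ∀ t, l t p - l t q ≠ 0 := fun t => sub_ne_zero.2 (fun hh => h01 (hlinj t hh))
  set X : ℝ → ℂ := fun t => (l t p - l t q) / (l 0 p - l 0 q) with hX
  have hlc : ∀ i, Continuous (fun t => l t i) := fun i => (continuous_apply i).comp hl.cont
  have hXc : Continuous X := ((hlc p).sub (hlc q)).div_const _
  have hX0 : ∀ t, X t ≠ 0 := fun t => div_ne_zero (hpq t) (hpq 0)
  have hX00 : X 0 = 1 := div_self (hpq 0)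
  have hXl : ∀ t, l t = X t • l 0 := by
    intro t
    obtain ⟨χ, -, h⟩ := scale_path hn hk d hT hu hwu hl 0 t
    have h1 : X t = χ := by
      simp only [hX]
      rw [div_eq_iff (hpq 0), h]
      simp only [Pi.smul_apply, smul_eq_mul]
      ring
    rw [h1]
    exact h
  -- windings
  have hw1 : wnd (fun t => dsc (l t)) 0 1 = ((n * (n - 1) : ℕ) : ℂ) * wnd X 0 1 := by
    have h1 : (fun t => dsc (l t)) = fun t => X t ^ (n * (n - 1)) * dsc (l 0) := by
      funext t
      rw [hXl t, dsc_smul]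
    rw [h1, wnd_mul (u := fun t => X t ^ (n * (n - 1))) (v := fun _ => dsc (l 0)) (hXc.pow _)
      continuous_const (fun t => pow_ne_zero _ (hX0 t))
      (fun _ => (dsc_ne_zero_iff _).2 (hlinj 0)), wnd_const, add_zero, wnd_pow hXc hX0]
  have hw2 : wnd (fun t => dsc (l t)) 0 1 = (j : ℂ) * (-2 * (k : ℂ)) := by
    have h1 : (fun t => dsc (l t)) = fun t => dsc (yc u (w t)) ^ j * exp (G (yc u (w t))) := by
      funext t
      exact hG _ (hinj t) _ (hl.eq t)
    have hdc : Continuous (fun t => dsc (yc u (w t))) := (continuous_dsc _).comp hycc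
    have hd0 : ∀ t, dsc (yc u (w t)) ≠ 0 := fun t => (dsc_ne_zero_iff _).2 (hinj t)
    have hGc' : Continuous (fun t => G (yc u (w t))) := by
      rw [← continuousOn_univ]
      exact hGc.comp hycc.continuousOn (fun t _ => hinj t)
    rw [h1, wnd_mul (u := fun t => dsc (yc u (w t)) ^ j) (v := fun t => exp (G (yc u (w t))))
      (hdc.zpow₀ j (fun t => Or.inl (hd0 t))) (Complex.continuous_exp.comp hGc')
      (fun t => zpow_ne_zero _ (hd0 t)) (fun t => Complex.exp_ne_zero _),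
      wnd_zpow hdc hd0, hdsc, wnd_exp hGc', hw01]
    simp
  have hn0 : ((n : ℂ) * ((n : ℂ) - 1)) ≠ 0 := by
    have h1 : (n : ℂ) ≠ 0 := by
      have : n ≠ 0 := by omega
      exact_mod_cast this
    have h2 : (n : ℂ) - 1 ≠ 0 := by
      rw [sub_ne_zero]
      have : n ≠ 1 := by omega
      exact_mod_cast this
    exact mul_ne_zero h1 h2
  have hncast : ((n * (n - 1) : ℕ) : ℂ) = (n : ℂ) * ((n : ℂ) - 1) := by
    rw [Nat.cast_mul, Nat.cast_sub (by omega), Nat.cast_one]
  have hwX : wnd X 0 1 = (j : ℂ) * (-2 * (k : ℂ)) / ((n : ℂ) * ((n : ℂ) - 1)) := by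
    rw [eq_div_iff hn0, ← hw2, hw1, hncast]
    ring
  have hX1 : om (k + 1) n j ^ 2 * X 1 = 1 := by
    have h1 := exp_wnd hXc hX0 0 1
    rw [hX00, div_one, hwX] at h1
    rw [← h1, om, ← Complex.exp_nat_mul, ← Complex.exp_add]
    rw [show (((2 : ℕ) : ℂ) * (2 * Real.pi * I * (j * (((k + 1 : ℕ) : ℂ) - 1)) /
      ((n : ℂ) * ((n : ℂ) - 1))) + 2 * Real.pi * I * ((j : ℂ) * (-2 * (k : ℂ)) /
      ((n : ℂ) * ((n : ℂ) - 1)))) = 0 by
        push_cast
        field_simp
        ring]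
    exact Complex.exp_zero
  have hc1 : coef (l 1) = d.F (yc u (w 0)) := by
    rw [hl.eq 1, hw01]
  obtain ⟨σ, hσ⟩ := exists_perm_of_coef_eq ((hl.eq 0).trans hc1.symm)
  refine ⟨w 0, l 0, σ⁻¹, hwu 0, hl.eq 0, ?_⟩
  have h2 : l 0 ∘ σ = X 1 • l 0 := by rw [← hσ]; exact hXl 1
  have h3 : om (k + 1) n j ^ 2 • (l 0 ∘ σ) = l 0 := by
    rw [h2, smul_smul, hX1, one_smul]
  have h4 : (om (k + 1) n j ^ 2 • (l 0 ∘ σ)) ∘ (σ⁻¹ : Equiv.Perm (Fin n)) =
      l 0 ∘ (σ⁻¹ : Equiv.Perm (Fin n)) := by rw [h3]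
  rw [← h4]
  funext i
  simp

end S9a

open S9a in
theorem omega_symm (hn : 3 ≤ n) (hk : 3 ≤ k) (d : Dat k n) (hT : Triv d (rot k (k - 1)))
    {j : ℤ} {G : (Fin k → ℂ) → ℂ} (hGc : ContinuousOn G (Inj k))
    (hGs : ∀ x ∈ Inj k, ∀ σ : Equiv.Perm (Fin k), G (x ∘ σ) = G x)
    (hG : ∀ x ∈ Inj k, ∀ l : Fin n → ℂ, coef l = d.F x → dsc l = dsc x ^ j * exp (G x))
    {x : Fin k → ℂ} (hx : x ∈ Inj k) {l : Fin n → ℂ} (hl : coef l = d.F x) :
    ∃ σ : Equiv.Perm (Fin n), om k n j ^ 2 • l = l ∘ σ := by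
  obtain ⟨k', rfl⟩ : ∃ k', k = k' + 1 := ⟨k - 1, by omega⟩
  obtain ⟨a, ha⟩ : ∃ a : ℂ, ∀ i, x i + a ≠ 0 := by
    obtain ⟨a, ha⟩ := Infinite.exists_notMem_finset (Finset.univ.image (fun i => - x i))
    refine ⟨a, fun i hi => ha ?_⟩
    rw [Finset.mem_image]
    exact ⟨i, Finset.mem_univ _, by linear_combination -hi⟩
  set u : Fin (k' + 1) → ℂ := fun i => 1 / (x i + a) with hu_def
  have hu : u ∈ Inj (k' + 1) := by
    intro i i' h
    simp only [hu_def, one_div] at h
    exact hx (add_right_cancel (inv_injective h))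
  have hu0 : ∀ i, (0 : ℂ) ≠ u i := fun i => (div_ne_zero one_ne_zero (ha i)).symm
  have hy0 : yc u 0 = fun i => x i + a := by
    funext i
    simp [yc, hu_def]
  obtain ⟨w, l₁, σ, hwu, hl₁, hσ⟩ := loop_scale hn hk d hT hGc hG hu
  -- transport to the origin
  classical
  obtain ⟨γ, hγc, hγE, hγ0, hγ1⟩ := exists_path_compl_finite (Finset.univ.image u) (a := w) (b := 0)
    (by
      rw [Finset.mem_image]
      rintro ⟨i, -, hi⟩
      exact hwu i hi.symm)
    (by
      rw [Finset.mem_image]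
      rintro ⟨i, -, hi⟩
      exact hu0 i hi.symm)
  have hγu : ∀ t a, γ t ≠ u a := fun t a h => hγE t (by
    rw [Finset.mem_image]
    exact ⟨a, Finset.mem_univ _, h.symm⟩)
  have hinj : ∀ t, yc u (γ t) ∈ Inj (k' + 1) := fun t => yc_mem hu (hγu t)
  have hycc : Continuous (fun t => yc u (γ t)) := by
    refine continuous_pi (fun a => ?_)
    exact continuous_const.div (continuous_const.sub hγc)
      (fun t => sub_ne_zero.2 (fun h => hγu t a h.symm))
  obtain ⟨l', hl', hl'0⟩ := exists_lift d hycc hinj 0 (l₀ := l₁) (by rw [hγ0]; exact hl₁)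
  obtain ⟨χ, hχ, h1⟩ := scale_path hn hk d hT hu hγu hl' 0 1
  rw [hl'0] at h1
  have h2 : coef (l' 1) = d.F x := by
    rw [hl'.eq 1, hγ1, hy0]
    exact d.trans x hx a
  obtain ⟨τ, hτ⟩ := exists_perm_of_coef_eq (h2.trans hl.symm)
  refine ⟨τ⁻¹ * σ * τ, ?_⟩
  have h3 : om (k' + 1) n j ^ 2 • l' 1 = l' 1 ∘ σ := by
    rw [h1, smul_comm, hσ]
    rfl
  rw [hτ]
  have h4 : om (k' + 1) n j ^ 2 • (l' 1 ∘ τ) = (om (k' + 1) n j ^ 2 • l' 1) ∘ τ := rfl
  rw [h4, h3]
  funext i
  simp

end MP2d36f7
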