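import Mathlib
import Pool.Agent.Lib_MP_2d36f7_ag.FinalDefs2

/-!
# The rank of a holomorphic map factoring through an affine variety with small tangent spaces
-/

open Polynomial Complex Set Filter Topology

namespace MP2d36f7

theorem sum_smul_proj_apply {N : ℕ} (a : Fin N → ℂ) (v : Fin N → ℂ) :
    (∑ i, a i • (ContinuousLinearMap.proj i : (Fin N → ℂ) →L[ℂ] ℂ)) v = ∑ i, a i * v i := by
  rw [sum_apply]
  rfl

/-- the differential of a polynomial function -/
theorem hasFDerivAt_mvPoly {N : ℕ} (p : MvPolynomial (Fin N) ℂ) (x : Fin N → ℂ) :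
    HasFDerivAt (fun y : Fin N → ℂ => MvPolynomial.eval y p)
      (∑ i, MvPolynomial.eval x (MvPolynomial.pderiv i p) •
        (ContinuousLinearMap.proj i : (Fin N → ℂ) →L[ℂ] ℂ)) x := by
  induction p using MvPolynomial.induction_on with
  | C a =>
    have h : HasFDerivAt (fun _ : Fin N → ℂ => a) (0 : (Fin N → ℂ) →L[ℂ] ℂ) x :=
      hasFDerivAt_const _ _
    have h2 : (fun y : Fin N → ℂ => MvPolynomial.eval y (MvPolynomial.C a)) = fun _ => a := by
      funext y
      simp
    rw [h2]
    refine h.congr_fderiv ?_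
    refine ContinuousLinearMap.ext fun v => ?_
    rw [sum_smul_proj_apply]
    simp
  | add p q hp hq =>
    have h2 : (fun y : Fin N → ℂ => MvPolynomial.eval y (p + q)) =
        (fun y => MvPolynomial.eval y p) + fun y => MvPolynomial.eval y q := by
      funext y
      simp
    rw [h2]
    refine (hp.add hq).congr_fderiv ?_
    refine ContinuousLinearMap.ext fun v => ?_
    rw [sum_smul_proj_apply]
    rw [add_apply, sum_smul_proj_apply, sum_smul_proj_apply, ← Finset.sum_add_distrib]
    refine Finset.sum_congr rfl fun i _ => ?_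
    rw [map_add, map_add]
    ring
  | mul_X p j hp =>
    have h1 : HasFDerivAt (fun y : Fin N → ℂ => y j)
        (ContinuousLinearMap.proj j : (Fin N → ℂ) →L[ℂ] ℂ) x :=
      (ContinuousLinearMap.proj j : (Fin N → ℂ) →L[ℂ] ℂ).hasFDerivAt
    have h2 : (fun y : Fin N → ℂ => MvPolynomial.eval y (p * MvPolynomial.X j)) =
        (fun y => MvPolynomial.eval y p * y j) := by
      funext y
      simp
    rw [h2]
    refine (hp.mul h1).congr_fderiv ?_
    refine ContinuousLinearMap.ext fun v => ?_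
    rw [sum_smul_proj_apply]
    have h4 := sum_smul_proj_apply (fun i => MvPolynomial.eval x (MvPolynomial.pderiv i p)) v
    refine Eq.trans (b := MvPolynomial.eval x p * v j + x j *
      ∑ i, MvPolynomial.eval x (MvPolynomial.pderiv i p) * v i) ?_ ?_
    · rw [← h4]
      rfl
    have h3 : ∀ i, MvPolynomial.eval x (MvPolynomial.pderiv i (p * MvPolynomial.X j)) * v i =
        MvPolynomial.eval x p * (if i = j then v j else 0) +
          x j * (MvPolynomial.eval x (MvPolynomial.pderiv i p) * v i) := by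
      intro i
      rw [Derivation.leibniz, MvPolynomial.pderiv_X]
      by_cases hij : i = j
      · subst hij
        simp
        ring
      · have : j ≠ i := fun h => hij h.symm
        simp [Pi.single_apply, hij, this]
        ring
    simp_rw [h3]
    rw [Finset.sum_add_distrib, ← Finset.mul_sum, ← Finset.mul_sum]
    simp

theorem rank_of_variety {k n l N : ℕ} (hG : IsOpen (G0 k)) {X : Set (Fin N → ℂ)}
    (hX : ∀ x ∈ X, Module.finrank ℂ (TanSpace X x) = l)
    {f₁ : (Fin (k - 1) → ℂ) → (Fin N → ℂ)} (hf₁ : DifferentiableOn ℂ f₁ (G0 k))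
    (h₁ : ∀ z ∈ G0 k, f₁ z ∈ X)
    {f₂ : (Fin N → ℂ) → (Fin (n - 1) → ℂ)} (hf₂ : HolOn f₂ X) :
    DifferentiableOn ℂ (f₂ ∘ f₁) (G0 k) ∧ ∀ z ∈ G0 k,
      Module.finrank ℂ (LinearMap.range (fderiv ℂ (f₂ ∘ f₁) z).toLinearMap) ≤ l := by
  have hloc : ∀ z ∈ G0 k, ∃ g : (Fin N → ℂ) → (Fin (n - 1) → ℂ), DifferentiableAt ℂ g (f₁ z) ∧
      (f₂ ∘ f₁) =ᶠ[𝓝 z] (g ∘ f₁) := by
    intro z hz
    obtain ⟨g, hg, hgf⟩ := hf₂ (f₁ z) (h₁ z hz)
    refine ⟨g, hg.differentiableAt, ?_⟩
    have hc : ContinuousAt f₁ z := (hf₁.differentiableAt (hG.mem_nhds hz)).continuousAt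
    rw [eventually_nhdsWithin_iff] at hgf
    have h3 := hc.eventually hgf
    filter_upwards [h3, hG.mem_nhds hz] with y hy hyG
    exact hy (h₁ y hyG)
  constructor
  · intro z hz
    obtain ⟨g, hg, hgf⟩ := hloc z hz
    have h4 : DifferentiableAt ℂ (g ∘ f₁) z :=
      DifferentiableAt.comp z hg (hf₁.differentiableAt (hG.mem_nhds hz))
    exact (h4.congr_of_eventuallyEq hgf).differentiableWithinAt
  · intro z hz
    obtain ⟨g, hg, hgf⟩ := hloc z hz
    have hd := hf₁.differentiableAt (hG.mem_nhds hz)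
    rw [hgf.fderiv_eq, fderiv_comp z hg hd]
    have h5 : LinearMap.range (fderiv ℂ f₁ z).toLinearMap ≤ TanSpace X (f₁ z) := by
      rintro _ ⟨v, rfl⟩
      intro p hp
      have h6 := (hasFDerivAt_mvPoly p (f₁ z)).comp z hd.hasFDerivAt
      have h7 : (fun y => MvPolynomial.eval y p) ∘ f₁ =ᶠ[𝓝 z] fun _ => 0 := by
        filter_upwards [hG.mem_nhds hz] with y hy
        exact hp _ (h₁ y hy)
      have h8 := h6.unique ((hasFDerivAt_const (0 : ℂ) z).congr_of_eventuallyEq h7)
      have h9 := congrArg (fun A : (Fin (k - 1) → ℂ) →L[ℂ] ℂ => A v) h8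
      have h10 := (sum_smul_proj_apply (fun i => MvPolynomial.eval (f₁ z)
        (MvPolynomial.pderiv i p)) (fderiv ℂ f₁ z v)).symm
      exact h10.trans h9
    have h10 : LinearMap.range ((fderiv ℂ g (f₁ z)).comp (fderiv ℂ f₁ z)).toLinearMap =
        (LinearMap.range (fderiv ℂ f₁ z).toLinearMap).map (fderiv ℂ g (f₁ z)).toLinearMap := by
      rw [← LinearMap.range_comp]
      rfl
    rw [h10]
    calc Module.finrank ℂ _ ≤ Module.finrank ℂ (LinearMap.range (fderiv ℂ f₁ z).toLinearMap) :=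
          Submodule.finrank_map_le _ _
      _ ≤ Module.finrank ℂ (TanSpace X (f₁ z)) := Submodule.finrank_mono h5
      _ = l := hX _ (h₁ z hz)

end MP2d36f7
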